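import Pool.Agent.HD44.Low
import Pool.Agent.HD44.Core2

/-!
# [MF11-AE0] Multiplicities
-/

namespace MF11

open Finset YX49 RS44 HD44

/-- the number of classes `a p`, `p ∈ P`, which contain `m` -/
def multE (P : Finset ℕ) (a : ℕ → ℤ) (m : ℕ) : ℕ :=
  (P.filter fun p : ℕ => (m : ℤ) ≡ a p [ZMOD (p : ℤ)]).card

theorem VV_sub_leE {x : ℕ} {A P : Finset ℕ} (hdisj : Disjoint A P)
    (hA : ∀ p ∈ A, p.Prime ∧ p ≤ x) (hP : ∀ p ∈ P, p.Prime ∧ p ≤ x) :
    VV (prs x) ≤ VV A * VV P := by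
  classical
  rw [← VV_union hdisj]
  have hsub : A ∪ P ⊆ prs x := by
    intro p hp
    rcases mem_union.1 hp with h | h
    · exact mem_prs.2 (hA p h)
    · exact mem_prs.2 (hP p h)
  have h1 : prs x = (A ∪ P) ∪ (prs x \ (A ∪ P)) := by
    rw [union_sdiff_of_subset hsub]
  have h2 : Disjoint (A ∪ P) (prs x \ (A ∪ P)) := disjoint_sdiff
  rw [h1, VV_union h2]
  have h3 : 0 ≤ VV (A ∪ P) := VV_nonneg fun l hl => (mem_prs.1 (hsub hl)).1
  refine mul_le_of_le_one_right h3 ?_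
  unfold VV
  refine prod_le_one (fun l hl => ?_) (fun l hl => ?_)
  · have h4 := (mem_prs.1 (mem_sdiff.1 hl).1).1
    have h5 : (2 : ℝ) ≤ l := by exact_mod_cast h4.two_le
    have : 1 / (l : ℝ) ≤ 1 := by rw [div_le_one (by linarith)]; linarith
    linarith
  · have : 0 ≤ 1 / (l : ℝ) := by positivity
    linarith

theorem card_class_leE {p y : ℕ} (hp : 0 < p) (a : ℤ) :
    (((Ioc 0 y).filter fun m : ℕ => (m : ℤ) ≡ a [ZMOD (p : ℤ)]).card : ℝ) ≤ (y : ℝ) / p + 1 := by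
  have hp' : (0 : ℤ) < p := by exact_mod_cast hp
  set b : ℕ := (a % (p : ℤ)).toNat with hb
  have hb' : ((b : ℕ) : ℤ) = a % (p : ℤ) := by
    rw [hb]
    exact Int.toNat_of_nonneg (Int.emod_nonneg _ hp'.ne')
  have h1 : ((Ioc 0 y).filter fun m : ℕ => (m : ℤ) ≡ a [ZMOD (p : ℤ)]) =
      (Ioc 0 y).filter fun m => m ≡ b [MOD p] := by
    refine filter_congr fun m _ => ?_
    rw [← Int.natCast_modEq_iff, hb']
    exact ⟨fun h => h.trans (Int.mod_modEq _ _).symm, fun h => h.trans (Int.mod_modEq _ _)⟩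
  rw [h1]
  have h2 := Pool.Agent.E456.card_Ioc_modEq 0 y p b hp (Nat.zero_le _)
  rw [abs_le] at h2
  push_cast at h2
  have h3 := h2.2
  rw [sub_zero] at h3
  linarith

theorem multE_split (P : Finset ℕ) (a : ℕ → ℤ) (x m : ℕ) :
    multE P a m = multE (P.filter fun p => p ≤ x) a m + multE (P.filter fun p => ¬ p ≤ x) a m := by
  classical
  unfold multE
  rw [← card_filter_add_card_filter_not (s := P.filter fun p : ℕ => (m : ℤ) ≡ a p [ZMOD (p : ℤ)])
    (fun p => p ≤ x)]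
  congr 1
  · rw [filter_filter, filter_filter]
    congr 1
    ext p
    simp only [mem_filter]
    tauto
  · rw [filter_filter, filter_filter]
    congr 1
    ext p
    simp only [mem_filter]
    tauto

theorem sum_multE_le {P S : Finset ℕ} {y : ℕ} {a : ℕ → ℤ} (hS : S ⊆ Ioc 0 y) :
    ∑ m ∈ S, (multE P a m : ℝ) ≤
      ∑ p ∈ P, (((Ioc 0 y).filter fun m : ℕ => (m : ℤ) ≡ a p [ZMOD (p : ℤ)]).card : ℝ) := by
  classical
  have h1 : ∑ m ∈ S, multE P a m ≤
      ∑ p ∈ P, ((Ioc 0 y).filter fun m : ℕ => (m : ℤ) ≡ a p [ZMOD (p : ℤ)]).card := by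
    calc ∑ m ∈ S, multE P a m ≤ ∑ m ∈ Ioc 0 y, multE P a m :=
          sum_le_sum_of_subset_of_nonneg hS fun _ _ _ => Nat.zero_le _
      _ = _ := by
          unfold multE
          simp only [card_filter]
          exact sum_comm
  exact_mod_cast h1

end MF11
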