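import Pool.Agent.MF11.Seq2

/-!
# [MF11-SEQ6] The extreme values at the levels `3` and `4`
-/

namespace MF11

open Finset

theorem harm_three {n : ℕ} (hn : 1 ≤ n) : Real.log 3 ≤ ∑ k ∈ Ico n (3 * n), 1 / (k : ℝ) := by
  have h1 : ∀ m : ℕ, n ≤ m → Real.log (m : ℝ) - Real.log (n : ℝ) ≤ ∑ k ∈ Ico n m, 1 / (k : ℝ) := by
    intro m hm
    induction m, hm using Nat.le_induction with
    | base => simp
    | succ m hm ih =>
      rw [sum_Ico_succ_top hm]
      have hm0 : (0 : ℝ) < m := by exact_mod_cast (by omega : 0 < m)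
      have h2 : Real.log ((m + 1 : ℕ) : ℝ) - Real.log (m : ℝ) ≤ 1 / (m : ℝ) := by
        rw [← Real.log_div (by positivity) hm0.ne']
        have h3 : (((m + 1 : ℕ) : ℝ)) / m = 1 + 1 / m := by
          push_cast
          field_simp
        rw [h3]
        have := Real.log_le_sub_one_of_pos (show (0 : ℝ) < 1 + 1 / m by positivity)
        linarith
      linarith
  have h2 := h1 (3 * n) (by omega)
  have hn0 : (0 : ℝ) < n := by exact_mod_cast (by omega : 0 < n)
  rw [← Real.log_div (by positivity) (by positivity)] at h2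
  have h3 : (((3 * n : ℕ) : ℝ)) / (n : ℝ) = 3 := by
    push_cast
    field_simp
  rwa [h3] at h2

section

variable {n I : ℕ} {δ η τ : ℝ} {u l : ℕ → ℝ} (h : SQ n I δ η u l) (hs : Sm n I δ η τ)

include h hs in
/-- the upper extreme values from the level `3` on and the lower ones from the level `2` on -/
theorem gap_three : ((n : ℝ) - 1) * ∑ k ∈ Icc (3 * n) (I - n), (u k - 1) + (2 * n - 1) * QQ n I l ≤
    ∑ k ∈ Ico n (3 * n), ((k : ℝ) - n + 1) * (u k - 1) + 14 * u (2 * n) * (τ * n ^ 2) := by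
  obtain ⟨h1, h2, h3, h4⟩ := basic_small h hs
  have hn2 := h.hn
  have hI := hs.hI
  have hn2' : (2 : ℝ) ≤ n := by exact_mod_cast hn2
  have hn0 : (0 : ℝ) < n := by linarith
  have hu2 : 1 ≤ u (2 * n) := h.one_le _
  have hη := h.hη
  have hδ := h.hδ
  have hI0 : (0 : ℝ) ≤ (I : ℝ) + 1 := by positivity
  have hA0 : ∀ k, 0 ≤ u k - 1 := fun k => by have := h.one_le k; linarith
  have hB0 : ∀ k, 0 ≤ 1 - l k := fun k => by have := h.l1 k; linarith
  have hA1 : ∀ k, n ≤ k → u k - 1 ≤ 4 * u (2 * n) := fun k hk => by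
    have := u_n_le h hs hk
    linarith
  have hB1 : ∀ k, 1 - l k ≤ 1 := fun k => by have := h.l0 k; linarith
  have hτn2 : 0 ≤ τ * (n : ℝ) ^ 2 := mul_nonneg hs.hτ (by positivity)
  -- the sum of the upper inequalities
  have hcard : ∀ a : ℕ, ((Icc a I).card : ℝ) ≤ (I : ℝ) + 1 := fun a => by
    rw [Nat.card_Icc]
    exact_mod_cast (by omega : I + 1 - a ≤ I + 1)
  have hδs : δ * ((1 + η) * (I + 1)) * (I + 1) ≤ 2 * (τ * n ^ 2) := by
    have h5 : 0 ≤ δ * ((I : ℝ) + 1) ^ 2 := by positivity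
    calc δ * ((1 + η) * (I + 1)) * (I + 1) = (1 + η) * (δ * ((I : ℝ) + 1) ^ 2) := by ring
      _ ≤ 2 * (δ * ((I : ℝ) + 1) ^ 2) := mul_le_mul_of_nonneg_right (by linarith) h5
      _ ≤ 2 * (τ * n ^ 2) := mul_le_mul_of_nonneg_left hs.d (by norm_num)
  -- a general bound for the errors
  have herr : ∀ (a : ℕ) (f : ℕ → ℝ) (C : ℝ), 0 ≤ C → n ≤ a → (∀ k, 0 ≤ f k) →
      (∀ k, a ≤ k + n → f k ≤ C) →
      ∑ j ∈ Icc a I, η * (j : ℝ) * f (j - n) ≤ C * (τ * n ^ 2) ∧
      η * ∑ j ∈ Icc a I, ∑ i ∈ Icc j I, f (i - n) ≤ C * (τ * n ^ 2) := by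
    intro a f C hC ha hf0 hfC
    constructor
    · calc ∑ j ∈ Icc a I, η * (j : ℝ) * f (j - n) ≤ ∑ _j ∈ Icc a I, η * ((I : ℝ) + 1) * C := by
            refine sum_le_sum fun j hj => ?_
            obtain ⟨h5, h6⟩ := mem_Icc.1 hj
            have h7 : (j : ℝ) ≤ (I : ℝ) + 1 := by
              have : (j : ℝ) ≤ I := by exact_mod_cast h6
              linarith
            have h8 := hfC (j - n) (by omega)
            exact mul_le_mul (mul_le_mul_of_nonneg_left h7 hη) h8 (hf0 _) (by positivity)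
        _ = ((Icc a I).card : ℝ) * (η * ((I : ℝ) + 1) * C) := by rw [sum_const, nsmul_eq_mul]
        _ ≤ ((I : ℝ) + 1) * (η * ((I : ℝ) + 1) * C) :=
            mul_le_mul_of_nonneg_right (hcard a) (by positivity)
        _ = C * (η * ((I : ℝ) + 1) ^ 2) := by ring
        _ ≤ _ := mul_le_mul_of_nonneg_left hs.e hC
    · have h5 : ∑ j ∈ Icc a I, ∑ i ∈ Icc j I, f (i - n) ≤ ((I : ℝ) + 1) * (((I : ℝ) + 1) * C) := by
        calc ∑ j ∈ Icc a I, ∑ i ∈ Icc j I, f (i - n) ≤ ∑ _j ∈ Icc a I, ((I : ℝ) + 1) * C := by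
              refine sum_le_sum fun j hj => ?_
              have hj1 := (mem_Icc.1 hj).1
              calc ∑ i ∈ Icc j I, f (i - n) ≤ ∑ _i ∈ Icc j I, C :=
                    sum_le_sum fun i hi => hfC (i - n) (by have := (mem_Icc.1 hi).1; omega)
                _ = ((Icc j I).card : ℝ) * C := by rw [sum_const, nsmul_eq_mul]
                _ ≤ ((I : ℝ) + 1) * C := mul_le_mul_of_nonneg_right (hcard j) hC
          _ = ((Icc a I).card : ℝ) * (((I : ℝ) + 1) * C) := by rw [sum_const, nsmul_eq_mul]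
          _ ≤ _ := mul_le_mul_of_nonneg_right (hcard a) (by positivity)
      calc _ ≤ η * (((I : ℝ) + 1) * (((I : ℝ) + 1) * C)) := mul_le_mul_of_nonneg_left h5 hη
        _ = C * (η * ((I : ℝ) + 1) ^ 2) := by ring
        _ ≤ _ := mul_le_mul_of_nonneg_left hs.e hC
  have hδc : ∀ a : ℕ, ∑ _j ∈ Icc a I, δ * ((1 + η) * ((I : ℝ) + 1)) ≤ 2 * (τ * n ^ 2) := by
    intro a
    rw [sum_const, nsmul_eq_mul]
    refine le_trans ?_ hδs
    rw [mul_comm]
    exact mul_le_mul_of_nonneg_left (hcard a) (by positivity)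
  have hUs : ∑ j ∈ Icc (3 * n) I, (j : ℝ) * (u j - 1) ≤
      ∑ k ∈ Icc (2 * n) (I - n), ((k : ℝ) - 2 * n + 1) * (1 - l k) + 4 * (τ * n ^ 2) := by
    have h5 : ∑ j ∈ Icc (3 * n) I, (j : ℝ) * (u j - 1) ≤ ∑ j ∈ Icc (3 * n) I,
        (δ * ((1 + η) * (I + 1)) + (η * j * (1 - l (j - n)) + (1 + η) * ∑ i ∈ Icc j I, (1 - l (i - n)))) :=
      sum_le_sum fun j hj => h.U j (by have := (mem_Icc.1 hj).1; omega) (mem_Icc.1 hj).2
    rw [sum_add_distrib, sum_add_distrib] at h5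
    have h5' : ∑ j ∈ Icc (3 * n) I, (1 + η) * ∑ i ∈ Icc j I, (1 - l (i - n)) =
        (1 + η) * ∑ j ∈ Icc (3 * n) I, ∑ i ∈ Icc j I, (1 - l (i - n)) := (mul_sum _ _ _).symm
    rw [h5'] at h5
    obtain ⟨h6, h7⟩ := herr (3 * n) (fun k => 1 - l k) 1 zero_le_one (by omega) hB0 (fun k _ => hB1 k)
    have h8 := hδc (3 * n)
    have h9 : ∑ j ∈ Icc (3 * n) I, ∑ i ∈ Icc j I, (1 - l (i - n)) =
        ∑ k ∈ Icc (2 * n) (I - n), ((k : ℝ) - 2 * n + 1) * (1 - l k) := by
      rw [double_sum (f := fun k => 1 - l k) (by omega) (by omega)]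
      have e1 : 3 * n - n = 2 * n := by omega
      rw [e1]
      refine sum_congr rfl fun k _ => ?_
      push_cast
      ring
    rw [← h9]
    linarith
  have hLs : ∑ j ∈ Icc (2 * n) I, (j : ℝ) * (1 - l j) ≤
      ∑ k ∈ Icc n (I - n), ((k : ℝ) - n + 1) * (u k - 1) + (2 + 8 * u (2 * n)) * (τ * n ^ 2) := by
    have h5 : ∑ j ∈ Icc (2 * n) I, (j : ℝ) * (1 - l j) ≤ ∑ j ∈ Icc (2 * n) I,
        (δ * ((1 + η) * (I + 1)) + (η * j * (u (j - n) - 1) + (1 + η) * ∑ i ∈ Icc j I, (u (i - n) - 1))) :=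
      sum_le_sum fun j hj => h.L j (by have := (mem_Icc.1 hj).1; omega) (mem_Icc.1 hj).2
    rw [sum_add_distrib, sum_add_distrib] at h5
    have h5' : ∑ j ∈ Icc (2 * n) I, (1 + η) * ∑ i ∈ Icc j I, (u (i - n) - 1) =
        (1 + η) * ∑ j ∈ Icc (2 * n) I, ∑ i ∈ Icc j I, (u (i - n) - 1) := (mul_sum _ _ _).symm
    rw [h5'] at h5
    obtain ⟨h6, h7⟩ := herr (2 * n) (fun k => u k - 1) (4 * u (2 * n)) (by linarith) (by omega) hA0
      (fun k hk => hA1 k (by omega))
    have h8 := hδc (2 * n)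
    have h9 : ∑ j ∈ Icc (2 * n) I, ∑ i ∈ Icc j I, (u (i - n) - 1) =
        ∑ k ∈ Icc n (I - n), ((k : ℝ) - n + 1) * (u k - 1) := by
      rw [double_sum (f := fun k => u k - 1) (by omega) (by omega)]
      have e1 : 2 * n - n = n := by omega
      rw [e1]
      refine sum_congr rfl fun k _ => ?_
      push_cast
      ring
    rw [← h9]
    linarith
  -- lower bounds for the left sides
  have hl1 : ∑ k ∈ Icc (3 * n) (I - n), (k : ℝ) * (u k - 1) ≤ ∑ j ∈ Icc (3 * n) I, (j : ℝ) * (u j - 1) :=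
    sum_le_sum_of_subset_of_nonneg (Icc_subset_Icc_right (by omega)) fun k _ _ =>
      mul_nonneg (Nat.cast_nonneg k) (hA0 k)
  have hl2 : ∑ k ∈ Icc (2 * n) (I - n), (k : ℝ) * (1 - l k) ≤ ∑ j ∈ Icc (2 * n) I, (j : ℝ) * (1 - l j) :=
    sum_le_sum_of_subset_of_nonneg (Icc_subset_Icc_right (by omega)) fun k _ _ =>
      mul_nonneg (Nat.cast_nonneg k) (hB0 k)
  -- split
  have hsplit : ∑ k ∈ Icc n (I - n), ((k : ℝ) - n + 1) * (u k - 1) ≤
      ∑ k ∈ Ico n (3 * n), ((k : ℝ) - n + 1) * (u k - 1) +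
      ∑ k ∈ Icc (3 * n) (I - n), ((k : ℝ) - n + 1) * (u k - 1) := by
    rw [← sum_union]
    · refine sum_le_sum_of_subset_of_nonneg ?_ fun k hk _ => ?_
      · intro k hk
        simp only [mem_union, mem_Icc, mem_Ico] at hk ⊢
        omega
      · have h5 : n ≤ k := by
          simp only [mem_union, mem_Icc, mem_Ico] at hk
          omega
        have h6 : (n : ℝ) ≤ k := by exact_mod_cast h5
        exact mul_nonneg (by linarith) (hA0 k)
    · rw [disjoint_left]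
      intro k hk hk'
      simp only [mem_Icc, mem_Ico] at hk hk'
      omega
  have hd1 : ∑ k ∈ Icc (3 * n) (I - n), (k : ℝ) * (u k - 1) -
      ∑ k ∈ Icc (3 * n) (I - n), ((k : ℝ) - n + 1) * (u k - 1) =
      ((n : ℝ) - 1) * ∑ k ∈ Icc (3 * n) (I - n), (u k - 1) := by
    rw [← sum_sub_distrib, mul_sum]
    exact sum_congr rfl fun k _ => by ring
  have hd2 : ∑ k ∈ Icc (2 * n) (I - n), (k : ℝ) * (1 - l k) -
      ∑ k ∈ Icc (2 * n) (I - n), ((k : ℝ) - 2 * n + 1) * (1 - l k) = (2 * n - 1) * QQ n I l := by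
    unfold QQ
    rw [← sum_sub_distrib, mul_sum]
    exact sum_congr rfl fun k _ => by ring
  have hlast : 4 * (τ * (n : ℝ) ^ 2) + (2 + 8 * u (2 * n)) * (τ * n ^ 2) ≤
      14 * u (2 * n) * (τ * n ^ 2) := by
    nlinarith
  linarith

include h hs in
/-- the lower extreme value at the level `4` in terms of the upper one at the level `3` -/
theorem four_three {ζ : ℝ} (hζ0 : 0 < ζ) (hζ1 : ζ ≤ 1) (hτ : τ ≤ ζ / 10000) (hn : 10001 ≤ n * ζ)
    (hI4 : 4 * n ≤ I) :
    3 * u (3 * n) * Real.log 3 ≤ 4 * l (4 * n) + ζ / 50 ∧ 3 * u (3 * n) ≤ 5 ∧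
      2 * u (2 * n) ≤ 3 * u (3 * n) + 5 / 10000 * ζ := by
  have hn0 : (0 : ℝ) < n := by
    by_contra hc
    have h1 : (n : ℝ) = 0 := le_antisymm (not_lt.1 hc) (Nat.cast_nonneg n)
    rw [h1, zero_mul] at hn
    linarith
  have hn' : (10001 : ℝ) ≤ n := by
    have : (n : ℝ) * ζ ≤ n * 1 := mul_le_mul_of_nonneg_left hζ1 hn0.le
    linarith
  have hn1 : 10001 ≤ n := by exact_mod_cast hn'
  obtain ⟨h1, h2, h3, h4⟩ := basic_small h hs
  have hτ0 := hs.hτ
  have hη := h.hη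
  obtain ⟨c1, c2, c3⟩ := cons h hs (by linarith) hn1 hI4
  norm_num at c1
  have hg := gap_three h hs
  have g4 := up_three h hs
  have hlo := lo_s h hs (s := 4) (by omega) hI4
  have e43 : (4 - 1) * n = 3 * n := by norm_num
  rw [e43] at hlo
  have hP0 := PP_nonneg h
  have hQ0 := QQ_nonneg h
  have g1 := gap_total h hs
  set A : ℝ := 3 * u (3 * n) with hA
  set B : ℝ := 2 * u (2 * n) with hB
  set S3 : ℝ := ∑ k ∈ Icc (3 * n) (I - n), (u k - 1) with hS3
  have hA3 : 3 ≤ A := by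
    have := h.one_le (3 * n)
    rw [hA]
    linarith
  have hB2 : 2 ≤ B := by
    have := h.one_le (2 * n)
    rw [hB]
    linarith
  have l2 := Real.log_two_lt_d9
  have l2' := Real.log_two_gt_d9
  have l3 := log3_le
  have l3' := log3_ge
  norm_num at l2 l2' l3 l3'
  set lam : ℝ := Real.log 3 with hlam
  have hσ : 1 / ((n : ℝ) - 1) ≤ ζ / 10000 := by
    rw [div_le_div_iff₀ (by linarith) (by norm_num)]
    have : ζ * ((n : ℝ) - 1) = n * ζ - ζ := by ring
    rw [this]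
    linarith
  set q : ℝ := QQ n I l / n with hq
  have hqn : QQ n I l = n * q := by rw [hq]; field_simp
  set p : ℝ := PP n I u / n with hp
  have hpn : PP n I u = n * p := by rw [hp]; field_simp
  have hp0 : 0 ≤ p := div_nonneg hP0 hn0.le
  have hq0 : 0 ≤ q := div_nonneg hQ0 hn0.le
  have d1 : p + q ≤ B * ((1 - Real.log 2) + 1 / ((n : ℝ) - 1) + 14 * τ) := by
    have h5 : n * (p + q) ≤ n * (B * ((1 - Real.log 2) + 1 / ((n : ℝ) - 1) + 14 * τ)) := by
      rw [hpn, hqn] at g1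
      linarith
    exact le_of_mul_le_mul_left h5 hn0
  have hq1 : q ≤ 12 / 10 := by
    have h5 : B * ((1 - Real.log 2) + 1 / ((n : ℝ) - 1) + 14 * τ) ≤ 37 / 10 * (31 / 100) := by
      refine mul_le_mul c1 ?_ (by
        have : 0 ≤ 1 / ((n : ℝ) - 1) := one_div_nonneg.2 (by linarith)
        linarith) (by norm_num)
      linarith
    linarith
  have d2 : A - 3 ≤ 6 * τ + q := by
    have h5 : n * (A - 3) ≤ n * (6 * τ + q) := by
      rw [hqn] at g4
      have e1 : n * (3 * (u (3 * n) - 1)) = n * (A - 3) := by rw [hA]; ring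
      rw [e1] at g4
      linarith
    exact le_of_mul_le_mul_left h5 hn0
  have hA5 : A ≤ 5 := by linarith
  have hAB : B ≤ A + 5 / 10000 * ζ := by
    have hsm := h.small (2 * n) (3 * n) (by omega) (by omega)
    have h5 : ((3 * n : ℕ) : ℝ) / ((2 * n : ℕ) : ℝ) = 3 / 2 := by
      push_cast
      field_simp
    rw [h5] at hsm
    have h6 : B ≤ A + η * A := by
      rw [hA, hB]
      linarith
    have h7 : η * A ≤ (ζ / 10000) * 5 := mul_le_mul (by linarith) hA5 (by linarith) (by positivity)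
    linarith
  refine ⟨?_, hA5, hAB⟩
  -- the sum on the right
  have hR : ∑ k ∈ Ico n (3 * n), ((k : ℝ) - n + 1) * (u k - 1) ≤
      (1 + η) * n * A * (2 * n - (n - 1) * lam) - n * (2 * n + 1) := by
    have h5 : ∀ k ∈ Ico n (3 * n), ((k : ℝ) - n + 1) * (u k - 1) ≤
        ((1 + η) * n * A) * (1 - (n - 1) * (1 / (k : ℝ))) - ((k : ℝ) - n + 1) := by
      intro k hk
      obtain ⟨h6, h7⟩ := mem_Ico.1 hk
      have hk0 : (0 : ℝ) < k := by exact_mod_cast (by omega : 0 < k)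
      have h8 := h.small k (3 * n) (by omega) (by omega)
      have hnk : (n : ℝ) ≤ k := by exact_mod_cast h6
      have h11 : 0 ≤ (k : ℝ) - n + 1 := by linarith
      have h12 := mul_le_mul_of_nonneg_left h8 h11
      have h13 : ((k : ℝ) - n + 1) * (u (3 * n) * ((1 + η) * (((3 * n : ℕ) : ℝ) / k))) =
          ((1 + η) * n * A) * (1 - (n - 1) * (1 / (k : ℝ))) := by
        rw [hA]
        push_cast
        field_simp
        ring
      rw [h13] at h12
      linarith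
    refine (sum_le_sum h5).trans ?_
    rw [sum_sub_distrib, ← mul_sum, sum_sub_distrib, ← mul_sum, sum_const, Nat.card_Ico, nsmul_eq_mul,
      mul_one]
    have h6 := harm_three (n := n) (by omega)
    have h7 : (((3 * n - n : ℕ)) : ℝ) = 2 * n := by
      have : 3 * n - n = 2 * n := by omega
      rw [this]
      push_cast
      ring
    have h8 : ∑ k ∈ Ico n (3 * n), ((k : ℝ) - n + 1) = n * (2 * n + 1) := by
      have h9 : ∀ m : ℕ, ∑ k ∈ Ico n (n + m), ((k : ℝ) - n + 1) = (m : ℝ) * (m + 1) / 2 := by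
        intro m
        induction m with
        | zero => simp
        | succ m ih =>
          rw [← add_assoc, sum_Ico_succ_top (by omega), ih]
          push_cast
          ring
      have h10 := h9 (2 * n)
      have h11 : n + 2 * n = 3 * n := by ring
      rw [h11] at h10
      rw [h10]
      push_cast
      ring
    rw [h7, h8]
    have h9 : 0 ≤ (1 + η) * n * A := by positivity
    have h10 := mul_le_mul_of_nonneg_left (mul_le_mul_of_nonneg_left h6 (show (0 : ℝ) ≤ n - 1 by linarith)) h9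
    have e1 : (1 + η) * ↑n * A * (2 * ↑n - (↑n - 1) * lam) =
        (1 + η) * ↑n * A * (2 * ↑n) - (1 + η) * ↑n * A * ((↑n - 1) * lam) := by ring
    have e2 : (1 + η) * ↑n * A * (2 * ↑n - (↑n - 1) * ∑ k ∈ Ico n (3 * n), 1 / (k : ℝ)) =
        (1 + η) * ↑n * A * (2 * ↑n) - (1 + η) * ↑n * A * ((↑n - 1) * ∑ k ∈ Ico n (3 * n), 1 / (k : ℝ)) := by
      ring
    rw [e1, e2]
    linarith
  -- combine
  have hqge : (2 * (n : ℝ) - 1) * (n * (A - 3 - 6 * τ)) ≤ (2 * n - 1) * QQ n I l := by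
    refine mul_le_mul_of_nonneg_left ?_ (by linarith)
    rw [hqn]
    exact mul_le_mul_of_nonneg_left (by linarith) hn0.le
  have hkey : ((n : ℝ) - 1) * S3 ≤ ((n : ℝ) - 1) * (n * (4 - A * lam + 100 * (ζ / 10000))) := by
    have h5 : ((n : ℝ) - 1) * S3 ≤ (1 + η) * n * A * (2 * n - (n - 1) * lam) - n * (2 * n + 1) +
        7 * B * (τ * n ^ 2) - (2 * (n : ℝ) - 1) * (n * (A - 3 - 6 * τ)) := by
      have e1 : 14 * u (2 * n) * (τ * (n : ℝ) ^ 2) = 7 * B * (τ * n ^ 2) := by rw [hB]; ring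
      rw [e1] at hg
      linarith
    refine h5.trans ?_
    have e2 : (1 + η) * n * A * (2 * n - (n - 1) * lam) - n * (2 * n + 1) +
        7 * B * (τ * (n : ℝ) ^ 2) - (2 * (n : ℝ) - 1) * (n * (A - 3 - 6 * τ)) =
        n * (((n : ℝ) - 1) * (4 - A * lam) + (A + η * A * (2 * n - (n - 1) * lam) + 7 * B * (τ * n) +
          6 * τ * (2 * n - 1))) := by ring
    rw [e2]
    have e3 : ((n : ℝ) - 1) * (n * (4 - A * lam + 100 * (ζ / 10000))) =
        n * (((n : ℝ) - 1) * (4 - A * lam) + ((n : ℝ) - 1) * (100 * (ζ / 10000))) := by ring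
    rw [e3]
    refine mul_le_mul_of_nonneg_left (add_le_add le_rfl ?_) hn0.le
    have f1 : η * A * (2 * n - (n - 1) * lam) ≤ τ * 5 * n := by
      have h6 : 2 * (n : ℝ) - (n - 1) * lam ≤ n := by nlinarith
      have h7 : 0 ≤ 2 * (n : ℝ) - (n - 1) * lam := by nlinarith
      exact mul_le_mul (mul_le_mul h3 hA5 (by linarith) hτ0) h6 h7 (by positivity)
    have f2 : 7 * B * (τ * n) ≤ 26 * (τ * n) := by
      refine mul_le_mul_of_nonneg_right ?_ (by positivity)
      linarith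
    have f3 : 6 * τ * (2 * (n : ℝ) - 1) ≤ 12 * (τ * n) := by nlinarith
    have f4 : τ * (n : ℝ) ≤ (ζ / 10000) * n := mul_le_mul_of_nonneg_right hτ hn0.le
    have f5 : (5 : ℝ) ≤ 5 * (n * ζ / 10000) := by linarith
    have f6 : (100 : ℝ) * (ζ / 10000) ≤ 1 := by linarith
    have f7 : (0 : ℝ) ≤ (n : ℝ) * ζ := by positivity
    nlinarith
  have hS3le : S3 ≤ n * (4 - A * lam + 100 * (ζ / 10000)) :=
    le_of_mul_le_mul_left hkey (by linarith)
  have d4 : 4 * (1 - l (4 * n)) ≤ 4 * τ * B + (4 - A * lam + 100 * (ζ / 10000)) := by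
    have h5 : n * (4 * (1 - l (4 * n))) ≤ n * (4 * τ * B + (4 - A * lam + 100 * (ζ / 10000))) := by
      push_cast at hlo
      refine hlo.trans ?_
      have e1 : (n : ℝ) * (8 * τ * u (2 * n)) = n * (4 * τ * B) := by rw [hB]; ring
      rw [e1]
      linarith
    exact le_of_mul_le_mul_left h5 hn0
  have h5 : τ * B ≤ (ζ / 10000) * 4 := mul_le_mul hτ (by linarith) (by linarith) (by positivity)
  linarith

include h hs in
/-- the bound for the total number of incidences -/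
theorem seq_inc {ϑ ζ E : ℝ} (hζ0 : 0 < ζ) (hζ1 : ζ ≤ 1) (hϑ0 : 0 < ϑ) (hϑ1 : ϑ ≤ 1)
    (hτ : τ ≤ ζ / 10000) (hn : 10001 ≤ n * ζ) (hI4 : 4 * n ≤ I) (hE0 : 0 ≤ E) (hE : E ≤ ζ / 10000) :
    u (3 * n) * ((1 + η) * (3 / 4)) * (Real.log 3 + E) +
      u (2 * n) * ((1 + η) * (2 / 4)) * (Real.log (1 / ϑ) + E) ≤
        (1 + Real.log (1 / ϑ) / Real.log 3) * l (4 * n) + ζ / 50 * (1 + Real.log (1 / ϑ)) ∧
      3 / 4 ≤ l (4 * n) ∧ u (3 * n) ≤ 2 := by
  obtain ⟨f1, f2, f3⟩ := four_three h hs hζ0 hζ1 hτ hn hI4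
  obtain ⟨h1, h2, h3, h4⟩ := basic_small h hs
  have hτ0 := hs.hτ
  have hη := h.hη
  have l3 := log3_le
  have l3' := log3_ge
  norm_num at l3 l3'
  set lam : ℝ := Real.log 3 with hlam
  set A : ℝ := 3 * u (3 * n) with hA
  set B : ℝ := 2 * u (2 * n) with hB
  have hA3 : 3 ≤ A := by
    have := h.one_le (3 * n)
    rw [hA]
    linarith
  have hB2 : 2 ≤ B := by
    have := h.one_le (2 * n)
    rw [hB]
    linarith
  set L1 : ℝ := Real.log (1 / ϑ) with hL1
  have hL10 : 0 ≤ L1 := Real.log_nonneg (by rw [le_div_iff₀ hϑ0]; linarith)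
  have hlam0 : 0 < lam := by linarith
  have r1 : u (3 * n) * ((1 + η) * (3 / 4)) * (lam + E) ≤ A / 4 * lam + 10 / 10000 * ζ := by
    have e1 : u (3 * n) * ((1 + η) * (3 / 4)) * (lam + E) =
        A / 4 * lam + A / 4 * (η * lam + (1 + η) * E) := by
      rw [hA]; ring
    rw [e1]
    have h5 : η * lam + (1 + η) * E ≤ 4 * (ζ / 10000) := by
      have h6 : η * lam ≤ (ζ / 10000) * 2 :=
        mul_le_mul (by linarith) (by linarith) (by linarith) (by positivity)
      have h7 : (1 + η) * E ≤ 2 * (ζ / 10000) := mul_le_mul (by linarith) hE hE0 (by norm_num)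
      linarith
    have h8 : A / 4 * (η * lam + (1 + η) * E) ≤ 5 / 4 * (4 * (ζ / 10000)) :=
      mul_le_mul (by linarith) h5 (by positivity) (by norm_num)
    linarith
  have r2 : u (2 * n) * ((1 + η) * (2 / 4)) * (L1 + E) ≤
      B / 4 * L1 + 10 / 10000 * ζ * (1 + L1) := by
    have e1 : u (2 * n) * ((1 + η) * (2 / 4)) * (L1 + E) =
        B / 4 * L1 + B / 4 * (η * L1 + (1 + η) * E) := by
      rw [hB]; ring
    rw [e1]
    have h5 : η * L1 + (1 + η) * E ≤ 4 * (ζ / 10000) * (1 + L1) := by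
      have h6 : η * L1 ≤ (ζ / 10000) * L1 := mul_le_mul_of_nonneg_right (by linarith) hL10
      have h7 : (1 + η) * E ≤ 2 * (ζ / 10000) := mul_le_mul (by linarith) hE hE0 (by norm_num)
      have h8 : 0 ≤ ζ * L1 := by positivity
      linarith
    have h8 : B / 4 * (η * L1 + (1 + η) * E) ≤ 6 / 4 * (4 * (ζ / 10000) * (1 + L1)) :=
      mul_le_mul (by linarith) h5 (by positivity) (by norm_num)
    have h9 : 0 ≤ ζ * (1 + L1) := by positivity
    linarith
  have r3 : B / 4 * L1 ≤ A / 4 * L1 + 2 / 10000 * ζ * (1 + L1) := by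
    have h5 : B / 4 * L1 ≤ (A / 4 + 5 / 40000 * ζ) * L1 := mul_le_mul_of_nonneg_right (by linarith) hL10
    have h6 : 0 ≤ ζ * L1 := by positivity
    linarith
  have r4 : A / 4 * lam + A / 4 * L1 ≤ (1 + L1 / lam) * (l (4 * n) + ζ / 200) := by
    have h5 : A / 4 * lam ≤ l (4 * n) + ζ / 200 := by linarith
    have h6 : 0 ≤ 1 + L1 / lam := by positivity
    calc A / 4 * lam + A / 4 * L1 = (1 + L1 / lam) * (A / 4 * lam) := by field_simp
      _ ≤ _ := mul_le_mul_of_nonneg_left h5 h6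
  have r5 : (1 + L1 / lam) * (ζ / 200) ≤ (1 + L1) * (ζ / 200) := by
    refine mul_le_mul_of_nonneg_right ?_ (by positivity)
    have : L1 / lam ≤ L1 := div_le_self hL10 (by linarith)
    linarith
  have r6 : 0 ≤ ζ * L1 := by positivity
  refine ⟨?_, ?_, ?_⟩
  · linarith
  · have h5 : 3 * (1098 / 1000) ≤ A * lam := by
      have : (1098 : ℝ) / 1000 ≤ lam := by linarith
      exact mul_le_mul hA3 this (by norm_num) (by linarith)
    linarith
  · linarith

include h hs in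
/-- the uniform constant for the classes of the large primes -/
theorem seq_ext {ϑ ζ E : ℝ} (hζ0 : 0 < ζ) (hζ1 : ζ ≤ 1) (hϑ0 : 0 < ϑ) (hϑ1 : ϑ ≤ 1)
    (hτ : τ ≤ ζ / 10000) (hn : 10001 ≤ n * ζ) (hI4 : 4 * n ≤ I) (hE0 : 0 ≤ E) (hE : E ≤ ζ / 10000) :
    ∃ G : ℝ, 0 < G ∧ G ≤ 2 ∧ u (3 * n) * ((1 + η) * (3 / 4)) ≤ G ∧
      u (2 * n) * ((1 + η) * (2 / 4)) ≤ G ∧
      G * (Real.log 3 + Real.log (1 / ϑ) + 2 * E) ≤
        (1 + Real.log (1 / ϑ) / Real.log 3) * l (4 * n) + ζ / 50 * (1 + Real.log (1 / ϑ)) ∧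
      3 / 4 ≤ l (4 * n) := by
  obtain ⟨f1, f2, f3⟩ := four_three h hs hζ0 hζ1 hτ hn hI4
  obtain ⟨h1, h2, h3, h4⟩ := basic_small h hs
  have hτ0 := hs.hτ
  have hη := h.hη
  have l3 := log3_le
  have l3' := log3_ge
  norm_num at l3 l3'
  set lam : ℝ := Real.log 3 with hlam
  set A : ℝ := 3 * u (3 * n) with hA
  set B : ℝ := 2 * u (2 * n) with hB
  have hA3 : 3 ≤ A := by
    have := h.one_le (3 * n)
    rw [hA]
    linarith
  have hB2 : 2 ≤ B := by
    have := h.one_le (2 * n)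
    rw [hB]
    linarith
  set L1 : ℝ := Real.log (1 / ϑ) with hL1
  have hL10 : 0 ≤ L1 := Real.log_nonneg (by rw [le_div_iff₀ hϑ0]; linarith)
  have hlam0 : 0 < lam := by linarith
  have hm1 : A ≤ max A B := le_max_left _ _
  have hm2 : B ≤ max A B := le_max_right _ _
  have hm3 : max A B ≤ A + 5 / 10000 * ζ := max_le (by linarith) f3
  set G : ℝ := (1 + η) * (max A B) / 4 with hG
  have hη1 : η ≤ ζ / 10000 := by linarith
  have hGle : G ≤ A / 4 + 4 / 10000 * ζ := by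
    have h5 : (1 + η) * (max A B) ≤ (1 + η) * (A + 5 / 10000 * ζ) :=
      mul_le_mul_of_nonneg_left hm3 (by linarith)
    have h6 : η * A ≤ (ζ / 10000) * 5 := mul_le_mul hη1 f2 (by linarith) (by positivity)
    have h7 : η * (5 / 10000 * ζ) ≤ 1 * (5 / 10000 * ζ) := mul_le_mul_of_nonneg_right h4 (by positivity)
    rw [hG]
    linarith
  refine ⟨G, ?_, ?_, ?_, ?_, ?_, ?_⟩
  · rw [hG]
    have : 0 < max A B := by linarith
    positivity
  · linarith
  · have e1 : u (3 * n) * ((1 + η) * (3 / 4)) = (1 + η) * A / 4 := by rw [hA]; ring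
    rw [e1, hG]
    have := mul_le_mul_of_nonneg_left hm1 (show (0 : ℝ) ≤ 1 + η by linarith)
    linarith
  · have e1 : u (2 * n) * ((1 + η) * (2 / 4)) = (1 + η) * B / 4 := by rw [hB]; ring
    rw [e1, hG]
    have := mul_le_mul_of_nonneg_left hm2 (show (0 : ℝ) ≤ 1 + η by linarith)
    linarith
  · have h5 : G * (lam + L1 + 2 * E) ≤ (A / 4 + 4 / 10000 * ζ) * (lam + L1 + 2 * E) :=
      mul_le_mul_of_nonneg_right hGle (by linarith)
    have h6 : (A / 4 + 4 / 10000 * ζ) * (lam + L1 + 2 * E) =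
        A / 4 * lam + A / 4 * L1 + (A / 4) * (2 * E) + 4 / 10000 * ζ * (lam + L1 + 2 * E) := by ring
    have h7 : (A / 4) * (2 * E) ≤ (5 / 4) * (2 * (ζ / 10000)) :=
      mul_le_mul (by linarith) (by linarith) (by linarith) (by norm_num)
    have h8 : 4 / 10000 * ζ * (lam + L1 + 2 * E) ≤ 4 / 10000 * ζ * (2 * (1 + L1)) :=
      mul_le_mul_of_nonneg_left (by linarith) (by positivity)
    have r4 : A / 4 * lam + A / 4 * L1 ≤ (1 + L1 / lam) * (l (4 * n) + ζ / 200) := by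
      have h5 : A / 4 * lam ≤ l (4 * n) + ζ / 200 := by linarith
      have h6 : 0 ≤ 1 + L1 / lam := by positivity
      calc A / 4 * lam + A / 4 * L1 = (1 + L1 / lam) * (A / 4 * lam) := by field_simp
        _ ≤ _ := mul_le_mul_of_nonneg_left h5 h6
    have r5 : (1 + L1 / lam) * (ζ / 200) ≤ (1 + L1) * (ζ / 200) := by
      refine mul_le_mul_of_nonneg_right ?_ (by positivity)
      have : L1 / lam ≤ L1 := div_le_self hL10 (by linarith)
      linarith
    have r6 : 0 ≤ ζ * L1 := by positivity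
    linarith
  · have h5 : 3 * (1098 / 1000) ≤ A * lam := by
      have : (1098 : ℝ) / 1000 ≤ lam := by linarith
      exact mul_le_mul hA3 this (by norm_num) (by linarith)
    linarith

end

end MF11
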