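import Pool.Agent.MF11.BuildQ
import Pool.Agent.MF11.Seq6

/-!
# [MF11-AE1] The survivors of the small primes in the classes of the large primes
-/

namespace MF11

open Finset YX49 RS44 HD44

/-- the numbers of survivors in the classes of the large primes, in a sieve problem of dimension one in which all
primes are sifted -/
theorem ext_sys {ζ ϑ E τ : ℝ} {n : ℕ} (hζ0 : 0 < ζ) (hζ1 : ζ ≤ 1) (hϑ00 : 0 < ϑ) (hϑ1 : ϑ < 1)
    (hτ : τ ≤ ζ / 10000) (hn : 10001 ≤ n * ζ) (hE0 : 0 < E) (hE : E ≤ ζ / 10000) :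
    ∃ LD0 : ℝ, ∀ (Y : Sys) (z : ℕ), Y.κ = 1 → Y.n = n → Sm n Y.I Y.δ Y.η τ → 4 * n ≤ Y.I →
      LD0 ≤ Y.LD → Y.P = Y.Q → (∀ q ∈ Y.Q, (1 + ϑ) * Real.log q ≤ Y.LD) →
      z < Y.Z → (∀ p ∈ Y.Q, p < z ↔ 4 * Real.log p ≤ Y.LD) →
      ∃ G : ℝ, 0 < G ∧ G ≤ 2 ∧
      3 / 4 * (Y.X * VV (Y.Pz z)) ≤ cnt Y.N Y.b ∅ (Y.Pz z) ∧
      (∀ q ∈ Y.Q, z ≤ q → (cnt Y.N Y.b {q} (Y.Pz z) : ℝ) ≤
        G * (1 / (q : ℝ) * (1 / (1 - Real.log q / Y.LD))) * (Y.X * VV (Y.Pz z))) ∧
      ∀ F : Finset ℕ, (∀ q ∈ F, q.Prime ∧ 1 / 4 * Y.LD < Real.log q ∧ (1 + ϑ) * Real.log q ≤ Y.LD) →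
        G * (∑ q ∈ F, 1 / (q : ℝ) * (1 / (1 - Real.log q / Y.LD))) * (Y.X * VV (Y.Pz z)) ≤
          (1 + Real.log (1 / ϑ) / Real.log 3) * cnt Y.N Y.b ∅ (Y.Pz z) +
            ζ / 50 * (1 + Real.log (1 / ϑ)) * (Y.X * VV (Y.Pz z)) := by
  classical
  set b0 : ℝ := 1 / (1 + ϑ) with hb0
  have hb0l : 1 / 2 ≤ b0 := by
    rw [hb0]
    exact one_div_le_one_div_of_le (by linarith) (by linarith)
  have hb0u : b0 < 1 := by
    rw [hb0, div_lt_one (by linarith)]
    linarith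
  obtain ⟨La, hLa0, hSa⟩ := S2log (a := 1 / 4) (b := 1 / 2) (ε := E) (by norm_num) (by norm_num)
    (by norm_num) hE0
  obtain ⟨Lb, hLb0, hSb⟩ := S2log (a := 1 / 2) (b := b0) (ε := E) (by norm_num) hb0l hb0u hE0
  have hn0 : (0 : ℝ) < n := by
    by_contra hc
    have h1 : (n : ℝ) = 0 := le_antisymm (not_lt.1 hc) (Nat.cast_nonneg n)
    rw [h1, zero_mul] at hn
    linarith
  have hn1' : (10001 : ℝ) ≤ n := by
    have : (n : ℝ) * ζ ≤ n * 1 := mul_le_mul_of_nonneg_left hζ1 hn0.le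
    linarith
  have hn1 : 10001 ≤ n := by exact_mod_cast hn1'
  refine ⟨max La (max Lb 1), ?_⟩
  intro Y z hκ hYn hSm hI hLD hPQ hlogq hz hz4
  have hLDa : La ≤ Y.LD := (le_max_left _ _).trans hLD
  have hLDb : Lb ≤ Y.LD := (le_max_left _ _).trans ((le_max_right _ _).trans hLD)
  have hL1' : 1 ≤ Y.LD := (le_max_right _ _).trans ((le_max_right _ _).trans hLD)
  have hL : 0 < Y.LD := by linarith
  have hSQ := sq_of_sys (Y := Y) hκ (by rw [hYn]; omega)
  rw [hYn] at hSQ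
  obtain ⟨_, _, hητ, _⟩ := basic_small hSQ hSm
  have hη0 := Y.hη
  obtain ⟨G, hG0, hG2, hG3, hG4, hmain, hlo4⟩ := seq_ext hSQ hSm hζ0 hζ1 hϑ00 hϑ1.le hτ hn hI hE0.le hE
  have hXV : 0 < Y.X * VV (Y.Pz z) := mul_pos Y.hX (Sys.VV_Pz_pos z)
  -- lower bound for the survivors
  have hLv0 : Y.Lv ∅ = Y.LD := by unfold Sys.Lv; simp
  have hex0 : Y.ex ∅ = Y.X := by unfold Sys.ex; simp
  have hnode : ((∅ : Finset ℕ), z) ∈ Y.nodes (4 * n) := by
    refine Sys.mem_nodes.2 ⟨empty_subset _, hz, by rw [hLv0]; exact hL.le, fun p _ _ => by simp,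
      fun p hp hpz => ?_⟩
    rw [hPQ] at hp
    rw [hLv0, hYn]
    push_cast
    have h1 := (hz4 p hp).1 hpz
    calc (4 : ℝ) * n * Real.log p = n * (4 * Real.log p) := by ring
      _ ≤ n * Y.LD := mul_le_mul_of_nonneg_left h1 hn0.le
  have hlow : Y.lo (4 * n) * (Y.X * VV (Y.Pz z)) ≤ cnt Y.N Y.b ∅ (Y.Pz z) := by
    have h1 := Sys.lo_le_r hnode
    have h2 := Sys.cnt_eq (Y := Y) (e := ∅) (z := z) (empty_subset _)
    rw [hex0] at h2
    rw [h2]
    exact mul_le_mul_of_nonneg_right h1 hXV.le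
  -- upper bounds in the classes
  have hlt : ∀ q ∈ Y.Q, Real.log q ≤ b0 * Y.LD := by
    intro q hq
    have h1 := hlogq q hq
    rw [hb0, one_div, ← div_eq_inv_mul, le_div_iff₀ (by linarith)]
    linarith
  have hlt1 : ∀ q ∈ Y.Q, Real.log q < Y.LD := fun q hq => by
    have h1 := hlt q hq
    have h2 : b0 * Y.LD < 1 * Y.LD := mul_lt_mul_of_pos_right hb0u hL
    linarith
  have hup : ∀ b : ℕ, 1 ≤ b → ∀ q ∈ Y.Q, z ≤ q → (1 - (b : ℝ) / 4) * Y.LD ≤ Real.log q →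
      (cnt Y.N Y.b {q} (Y.Pz z) : ℝ) ≤ Y.up (b * n) * ((1 + Y.η) * ((b : ℝ) / 4)) *
        (1 / (q : ℝ) * (1 / (1 - Real.log q / Y.LD))) * (Y.X * VV (Y.Pz z)) := by
    intro b hb q hq hzq hqb
    have hb0' : (0 : ℝ) < b := by exact_mod_cast (by omega : 0 < b)
    have h1 : 0 < 1 - Real.log q / Y.LD := by
      rw [sub_pos, div_lt_one hL]
      exact hlt1 q hq
    have h2 : 1 - (b : ℝ) / 4 ≤ Real.log q / Y.LD := by
      rw [le_div_iff₀ hL]
      exact hqb
    have hLv : Y.Lv {q} = Y.LD - Real.log q := by unfold Sys.Lv; simp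
    have hex : Y.ex {q} = Y.X / q := by unfold Sys.ex; simp
    have h3 := Sys.small_level2 (Y := Y) (b := b * n) (Nat.mul_pos (by omega) (by omega)) (e := {q})
      (z := z) (by
        intro p hp
        rw [mem_singleton.1 hp]
        exact hq) hz (by rw [hLv]; linarith [hlt1 q hq]) (fun p hp hpz hpe => by
        rw [mem_singleton.1 hpe] at hpz
        omega) (Λ := Y.LD / 4) (ρ := (b : ℝ) / 4 * (1 / (1 - Real.log q / Y.LD))) (by
        intro p hp hpz
        rw [hPQ] at hp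
        have := (hz4 p hp).1 hpz
        linarith) (by
        rw [mul_one_div, le_div_iff₀ h1]
        linarith) (by
        rw [hLv, hYn]
        push_cast
        have e1 : (b : ℝ) / 4 * (1 / (1 - Real.log q / Y.LD)) * (n * (Y.LD - Real.log q)) =
            b * n * (Y.LD / 4) := by
          have e2 : Y.LD - Real.log q = Y.LD * (1 - Real.log q / Y.LD) := by
            field_simp
          rw [e2]
          generalize 1 - Real.log q / Y.LD = v at h1
          field_simp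
        rw [e1])
    rw [hex, hκ, Real.rpow_one] at h3
    refine h3.trans (le_of_eq ?_)
    ring
  have hFl : ∀ q ∈ Y.Q, z ≤ q → 1 / 4 * Y.LD < Real.log q := by
    intro q h1 h2
    have h3 : ¬ 4 * Real.log q ≤ Y.LD := fun h => by
      have := (hz4 q h1).2 h
      omega
    linarith [not_le.1 h3]
  refine ⟨G, hG0, hG2, (mul_le_mul_of_nonneg_right hlo4 hXV.le).trans hlow, ?_, ?_⟩
  · intro q hq hzq
    have h0 : 0 < 1 / (1 - Real.log q / Y.LD) := by
      refine one_div_pos.2 ?_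
      rw [sub_pos, div_lt_one hL]
      exact hlt1 q hq
    have hq0 : (0 : ℝ) < q := by exact_mod_cast (Sys.prime_of_mem hq).pos
    rcases le_or_gt (Real.log q) (1 / 2 * Y.LD) with hc | hc
    · have h1 := hup 3 (by omega) q hq hzq (by
        push_cast
        have := hFl q hq hzq
        linarith)
      push_cast at h1
      refine h1.trans (mul_le_mul_of_nonneg_right ?_ hXV.le)
      exact mul_le_mul_of_nonneg_right hG3 (by positivity)
    · have h1 := hup 2 (by omega) q hq hzq (by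
        push_cast
        linarith)
      push_cast at h1
      refine h1.trans (mul_le_mul_of_nonneg_right ?_ hXV.le)
      exact mul_le_mul_of_nonneg_right hG4 (by positivity)
  · intro F hF
    set F1 := F.filter (fun q : ℕ => Real.log q ≤ 1 / 2 * Y.LD) with hF1
    set F2 := F.filter (fun q : ℕ => ¬ Real.log q ≤ 1 / 2 * Y.LD) with hF2
    have hs1 := hSa Y.LD F1 hLDa (fun q hq => by
      obtain ⟨h1, h2⟩ := mem_filter.1 hq
      exact ⟨(hF q h1).1, (hF q h1).2.1, h2⟩)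
    have hs2 := hSb Y.LD F2 hLDb (fun q hq => by
      obtain ⟨h1, h2⟩ := mem_filter.1 hq
      refine ⟨(hF q h1).1, not_le.1 h2, ?_⟩
      have h3 := (hF q h1).2.2
      rw [hb0, one_div, ← div_eq_inv_mul, le_div_iff₀ (by linarith)]
      linarith)
    have e1 : Real.log ((1 / 2 : ℝ) / (1 - 1 / 2)) - Real.log ((1 / 4 : ℝ) / (1 - 1 / 4)) + E =
        Real.log 3 + E := by
      have h1 : (1 / 2 : ℝ) / (1 - 1 / 2) = 1 := by norm_num
      have h2 : (1 / 4 : ℝ) / (1 - 1 / 4) = 3⁻¹ := by norm_num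
      rw [h1, h2, Real.log_one, Real.log_inv]
      ring
    have e2 : Real.log (b0 / (1 - b0)) - Real.log ((1 / 2 : ℝ) / (1 - 1 / 2)) + E =
        Real.log (1 / ϑ) + E := by
      have h1 : (1 / 2 : ℝ) / (1 - 1 / 2) = 1 := by norm_num
      have h2 : b0 / (1 - b0) = 1 / ϑ := by
        have h3 : 1 - b0 = ϑ / (1 + ϑ) := by
          rw [hb0]
          field_simp
          ring
        rw [h3, hb0]
        field_simp
      rw [h1, h2, Real.log_one]
      ring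
    rw [e1] at hs1
    rw [e2] at hs2
    have hs : ∑ q ∈ F, 1 / (q : ℝ) * (1 / (1 - Real.log q / Y.LD)) ≤
        Real.log 3 + Real.log (1 / ϑ) + 2 * E := by
      rw [← sum_filter_add_sum_filter_not F (fun q : ℕ => Real.log q ≤ 1 / 2 * Y.LD), ← hF1, ← hF2]
      linarith
    have h1 : G * (∑ q ∈ F, 1 / (q : ℝ) * (1 / (1 - Real.log q / Y.LD))) ≤
        (1 + Real.log (1 / ϑ) / Real.log 3) * Y.lo (4 * n) + ζ / 50 * (1 + Real.log (1 / ϑ)) :=
      (mul_le_mul_of_nonneg_left hs hG0.le).trans hmain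
    have h2 := mul_le_mul_of_nonneg_right h1 hXV.le
    have h3 : 0 ≤ 1 + Real.log (1 / ϑ) / Real.log 3 := by
      have h3 : 0 ≤ Real.log (1 / ϑ) := Real.log_nonneg (by rw [le_div_iff₀ hϑ00]; linarith)
      have h4 : 0 < Real.log 3 := Real.log_pos (by norm_num)
      positivity
    have h4 : (1 + Real.log (1 / ϑ) / Real.log 3) * (Y.lo (4 * n) * (Y.X * VV (Y.Pz z))) ≤
        (1 + Real.log (1 / ϑ) / Real.log 3) * cnt Y.N Y.b ∅ (Y.Pz z) :=
      mul_le_mul_of_nonneg_left hlow h3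
    linarith

end MF11
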