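import Pool.Agent.MF11.AE1
import Pool.Agent.MF11.AE0

/-!
# [MF11-AE2] The survivors of the small primes in the classes of the large primes, primes up to `x`
-/

namespace MF11

open Finset YX49 RS44 HD44

/-- the elements of `S` in the class `a q` -/
def cls (S : Finset ℕ) (a : ℕ → ℤ) (q : ℕ) : Finset ℕ :=
  S.filter fun m : ℕ => (m : ℤ) ≡ a q [ZMOD (q : ℤ)]

theorem main_ext {θ ε0 : ℝ} (hθ00 : 0 < θ) (hθ1 : θ < 1) (hε00 : 0 < ε0) (hε01 : ε0 ≤ 1) :
    ∃ c > (0 : ℝ), ∃ x0 : ℕ, ∀ (x y : ℕ) (PP : Finset ℕ) (a : ℕ → ℤ) (S : Finset ℕ),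
      (∀ p ∈ PP, p.Prime ∧ p ≤ x) → x0 ≤ x → (x : ℝ) ^ (1 + θ) ≤ y → y ≤ x ^ 2 →
      S = (Ioc 0 y).filter (fun m : ℕ => multE (PP.filter fun p => p ^ 4 ≤ y) a m = 0) →
      ∃ C : ℝ, 0 < C ∧ c * (y / Real.log y) ≤ (S.card : ℝ) ∧
      (∀ q ∈ PP, y < q ^ 4 → ((cls S a q).card : ℝ) ≤ C / (q * Real.log (y / q))) ∧
      (∀ q : ℕ, q.Prime → q ≤ x → y < q ^ 4 → 0 ≤ C / (q * Real.log (y / q))) ∧
      ∑ q ∈ (Icc 1 x).filter (fun q => q.Prime ∧ y < q ^ 4), C / (q * Real.log (y / q)) ≤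
        (1 + Real.log (1 / θ) / Real.log 3 + ε0) * (S.card : ℝ) := by
  classical
  set T : ℝ := Real.log (1 / θ) with hT
  have hT0 : 0 ≤ T := Real.log_nonneg (by rw [le_div_iff₀ hθ00]; linarith)
  have hl3 : 1 ≤ Real.log 3 := by
    have := log3_ge
    norm_num at this
    linarith
  set ε : ℝ := ε0 * θ / (200 * (1 + T)) with hε
  have hT10 : 0 < 1 + T := by linarith
  have hε0 : 0 < ε := by positivity
  have hεT : ε * (1 + T) = ε0 * θ / 200 := by
    rw [hε]
    field_simp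
  have hεa : ε * (1 + T) ≤ ε0 / 200 := by
    rw [hεT]
    have : ε0 * θ ≤ ε0 * 1 := mul_le_mul_of_nonneg_left hθ1.le hε00.le
    linarith
  have hεc : ε ≤ ε0 * θ / 200 := by
    rw [← hεT]
    exact le_mul_of_one_le_right hε0.le (by linarith)
  have hε0θ : ε0 * θ ≤ 1 * θ := mul_le_mul_of_nonneg_right hε01 hθ00.le
  have hεθ' : ε ≤ θ / 200 := by linarith
  have hε1 : ε ≤ 1 / 100 := by linarith
  set ϑ : ℝ := (1 - ε) * (1 + θ) - 1 with hϑ
  have hϑe : ϑ = θ - ε * (1 + θ) := by rw [hϑ]; ring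
  have hεθ : ε * (1 + θ) ≤ 2 * ε := by nlinarith
  have hεθ0 : 0 < ε * (1 + θ) := mul_pos hε0 (by linarith)
  have hϑ2 : θ / 2 ≤ ϑ := by linarith
  have hϑθ : ϑ < θ := by linarith
  have hϑ1 : ϑ < 1 := by linarith
  have hϑ00 : 0 < ϑ := by linarith
  have hL1 : Real.log (1 / ϑ) ≤ T + ε0 / 50 := by
    have h1 : Real.log (θ / ϑ) ≤ θ / ϑ - 1 := Real.log_le_sub_one_of_pos (by positivity)
    rw [Real.log_div hθ00.ne' hϑ00.ne'] at h1
    have h2 : θ / ϑ - 1 ≤ ε0 / 50 := by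
      rw [sub_le_iff_le_add, div_le_iff₀ hϑ00]
      have h3 : ε0 / 50 * (θ / 2) ≤ ε0 / 50 * ϑ := mul_le_mul_of_nonneg_left hϑ2 (by positivity)
      linarith
    have hlϑ : Real.log (1 / ϑ) = - Real.log ϑ := by rw [one_div, Real.log_inv]
    have hlθ : T = - Real.log θ := by rw [hT, one_div, Real.log_inv]
    rw [hlϑ, hlθ]
    linarith
  obtain ⟨ζ, hζ⟩ : ∃ ζ : ℝ, ζ = ε0 / (1 + T) := ⟨_, rfl⟩
  have hζ0 : 0 < ζ := by rw [hζ]; positivity
  have hζT : ζ * (1 + T) = ε0 := by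
    rw [hζ]
    field_simp
  have hζε : ζ ≤ ε0 := by
    rw [← hζT]
    exact le_mul_of_one_le_right hζ0.le (by linarith)
  have hζ1 : ζ ≤ 1 := by linarith
  obtain ⟨n, hnT⟩ : ∃ n : ℕ, 10001 / ζ ≤ n := exists_nat_ge _
  have hn : 10001 ≤ n * ζ := by
    rw [div_le_iff₀ hζ0] at hnT
    exact hnT
  have hn2 : 2 ≤ n := by
    have h1 : (n : ℝ) * ζ ≤ n * 1 := mul_le_mul_of_nonneg_left hζ1 (Nat.cast_nonneg _)
    have h2 : (10001 : ℝ) ≤ n := by linarith
    have h3 : 10001 ≤ n := by exact_mod_cast h2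
    omega
  obtain ⟨E, hE⟩ : ∃ E : ℝ, E = ζ / 10000 := ⟨_, rfl⟩
  have hE0 : 0 < E := by rw [hE]; positivity
  obtain ⟨τ, hτ⟩ : ∃ τ : ℝ, τ = ζ / 10000 := ⟨_, rfl⟩
  have hτ0 : 0 < τ := by rw [hτ]; positivity
  have hτ1 : τ ≤ 1 := by rw [hτ]; linarith
  obtain ⟨LD0, hcs⟩ := ext_sys (ζ := ζ) (ϑ := ϑ) (E := E) (τ := τ) (n := n) hζ0 hζ1 hϑ00 hϑ1
    hτ.le hn hE0 hE.le
  obtain ⟨y0, hsys⟩ := exists_sysQ (n := n) (s := 4) hε0 (by linarith) hτ0 hτ1 hn2 (by norm_num)
    (by push_cast; linarith)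
  obtain ⟨cM, hcM, hmert⟩ := mert_lower
  have hA := A0_pos
  set M : ℝ := max LD0 (max (4 * A0 / ε) 8) with hM
  refine ⟨3 / 8 * cM, by positivity, ⌈Real.exp (max y0 (2 * M))⌉₊ + 2, ?_⟩
  intro x y PP a SN hPP hx hxy hyx hSN
  have hx2 : 2 ≤ x := by omega
  have hx2' : (2 : ℝ) ≤ x := by exact_mod_cast hx2
  have hx0 : (0 : ℝ) < x := by linarith
  have hlx : 0 < Real.log x := Real.log_pos (by linarith)
  have hxy1 : (x : ℝ) ≤ y := by
    refine le_trans ?_ hxy
    calc (x : ℝ) = (x : ℝ) ^ (1 : ℝ) := (Real.rpow_one _).symm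
      _ ≤ (x : ℝ) ^ (1 + θ) := Real.rpow_le_rpow_of_exponent_le (by linarith) (by linarith)
  have hy0 : (0 : ℝ) < y := by linarith
  have hly : Real.log x ≤ Real.log y := Real.log_le_log hx0 hxy1
  have hly0 : 0 < Real.log y := by linarith
  have hlxy : (1 + θ) * Real.log x ≤ Real.log y := by
    have := Real.log_le_log (Real.rpow_pos_of_pos hx0 _) hxy
    rwa [Real.log_rpow hx0] at this
  have hlyx : Real.log y ≤ 2 * Real.log x := by
    have h1 : (y : ℝ) ≤ (x : ℝ) ^ 2 := by exact_mod_cast hyx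
    have h2 := Real.log_le_log hy0 h1
    rw [Real.log_pow] at h2
    push_cast at h2
    exact h2
  have hxexp : max y0 (2 * M) ≤ Real.log x := by
    rw [Real.le_log_iff_exp_le hx0]
    refine (Nat.le_ceil _).trans ?_
    exact_mod_cast (by omega : ⌈Real.exp (max y0 (2 * M))⌉₊ ≤ x)
  have hyy0 : y0 ≤ Real.log y := (le_max_left _ _).trans (hxexp.trans hly)
  have hyL : 2 * M ≤ Real.log y := (le_max_right _ _).trans (hxexp.trans hly)
  set b : ℕ → ℕ := fun p => (a p % (p : ℤ)).toNat with hbdef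
  have hab : ∀ p : ℕ, 0 < p → ∀ m : ℕ, (m : ℤ) ≡ a p [ZMOD (p : ℤ)] ↔ m ≡ b p [MOD p] := by
    intro p hp m
    have hp0' : (0 : ℤ) < p := by exact_mod_cast hp
    rw [← Int.natCast_modEq_iff]
    have h13 : ((b p : ℕ) : ℤ) = a p % (p : ℤ) := by
      rw [hbdef]
      exact Int.toNat_of_nonneg (Int.emod_nonneg _ hp0'.ne')
    rw [h13]
    exact ⟨fun h => h.trans (Int.mod_modEq _ _).symm, fun h => h.trans (Int.mod_modEq _ _)⟩
  obtain ⟨Y, w, hw2, hwx, hκ, hYn, hSm, hI, hYLD, hYP, hYZ, hwL, hYQ, hYN, hYb, hYX⟩ :=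
    hsys x y PP b hPP hyy0 (by exact_mod_cast hy0) hyx
  push_cast at hwL
  have hεly : ε * Real.log y ≤ 1 / 100 * Real.log y := mul_le_mul_of_nonneg_right hε1 hly0.le
  have hεly0 : 0 < ε * Real.log y := mul_pos hε0 hly0
  have hLDy : Y.LD ≤ Real.log y := by
    rw [hYLD]
    linarith
  have hMLD : M ≤ Y.LD := by
    rw [hYLD]
    have h1 : 1 / 2 * Real.log y ≤ (1 - ε) * Real.log y :=
      mul_le_mul_of_nonneg_right (by linarith) hly0.le
    linarith
  have hLD1 : LD0 ≤ Y.LD := (le_max_left _ _).trans hMLD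
  have hLD2 : 4 * A0 / ε ≤ Y.LD := (le_max_left _ _).trans ((le_max_right _ _).trans hMLD)
  have hLD3 : 8 ≤ Y.LD := (le_max_right _ _).trans ((le_max_right _ _).trans hMLD)
  have hLD0 : 0 < Y.LD := by linarith
  set z : ℕ := ⌊Real.exp (Y.LD / 4)⌋₊ + 1 with hz
  have hQm : ∀ {p : ℕ}, p ∈ Y.Q → p ∈ PP ∧ w < p := by
    intro p hp
    rw [hYQ, mem_filter] at hp
    exact hp
  have hp0 : ∀ {p : ℕ}, p ∈ PP → (0 : ℝ) < p := fun {p} hp => by exact_mod_cast (hPP p hp).1.pos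
  have hz4' : ∀ p ∈ PP, p < z ↔ 4 * Real.log p ≤ Y.LD := by
    intro p hp
    rw [hz, Nat.lt_succ_iff, Nat.le_floor_iff (Real.exp_pos _).le, ← Real.log_le_iff_le_exp (hp0 hp)]
    constructor <;> intro h <;> linarith
  have hz4 : ∀ p ∈ Y.Q, p < z ↔ 4 * Real.log p ≤ Y.LD := fun p hp => hz4' p (hQm hp).1
  have hzZ : z < Y.Z := by
    rw [hYZ, hz]
    have h1 : ⌊Real.exp (Y.LD / 4)⌋₊ ≤ x := by
      have h2 : Real.exp (Y.LD / 4) ≤ x := by
        rw [← Real.exp_log hx0]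
        exact Real.exp_le_exp.mpr (by linarith)
      exact_mod_cast (Nat.floor_le (Real.exp_pos _).le).trans h2
    omega
  have hlogq : ∀ q ∈ Y.Q, (1 + ϑ) * Real.log q ≤ Y.LD := by
    intro q hq
    obtain ⟨hqp, hqw⟩ := hQm hq
    have h1 : Real.log q ≤ Real.log x := Real.log_le_log (hp0 hqp) (by exact_mod_cast (hPP q hqp).2)
    rw [hYLD]
    have h2 : (1 - ε) * ((1 + θ) * Real.log x) ≤ (1 - ε) * Real.log y :=
      mul_le_mul_of_nonneg_left hlxy (by linarith)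
    have h3 : (1 + ϑ) * Real.log q ≤ (1 + ϑ) * Real.log x :=
      mul_le_mul_of_nonneg_left h1 (by linarith)
    have h4 : (1 + ϑ) * Real.log x = (1 - ε) * ((1 + θ) * Real.log x) := by
      rw [hϑ]
      ring
    linarith
  have hNm : ∀ {m : ℕ}, m ∈ Y.N ↔ m ∈ Ioc 0 y ∧ ∀ p ∈ PP, p ≤ w → ¬ m ≡ b p [MOD p] := by
    intro m
    rw [hYN]
    unfold sift
    rw [mem_filter]
    constructor
    · rintro ⟨h1, _, h3⟩
      exact ⟨h1, fun p hp hpw => h3 p (mem_filter.2 ⟨hp, hpw⟩)⟩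
    · rintro ⟨h1, h2⟩
      exact ⟨h1, Nat.modEq_one, fun p hp => h2 p (mem_filter.1 hp).1 (mem_filter.1 hp).2⟩
  obtain ⟨G, hG0, hG2, k1, k2', k2⟩ := hcs Y z hκ hYn hSm hI hLD1 hYP hlogq hzZ hz4
  set F := Y.Q.filter (fun q => z ≤ q) with hF
  set XV : ℝ := Y.X * VV (Y.Pz z) with hXVd
  have hXV : 0 < XV := mul_pos Y.hX (Sys.VV_Pz_pos z)
  have k3 : ∀ q ∈ Y.Q, z ≤ q → 2 * Real.log q ≤ Y.LD →
      (cnt Y.N Y.b {q} (Y.Pz z) : ℝ) ≤ 4 / q * XV := by
    intro q hq hzq hq2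
    refine (k2' q hq hzq).trans (mul_le_mul_of_nonneg_right ?_ hXV.le)
    have hq0 : (0 : ℝ) < q := hp0 (hQm hq).1
    have h2 : Real.log q / Y.LD ≤ 1 / 2 := by
      rw [div_le_iff₀ hLD0]
      linarith
    have h3 : 1 / (1 - Real.log q / Y.LD) ≤ 2 := by
      rw [div_le_iff₀ (by linarith)]
      linarith
    have h6 : 0 < 1 / (1 - Real.log q / Y.LD) := one_div_pos.2 (by linarith)
    calc G * (1 / (q : ℝ) * (1 / (1 - Real.log q / Y.LD))) ≤ 2 * (1 / (q : ℝ) * 2) :=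
          mul_le_mul hG2 (mul_le_mul_of_nonneg_left h3 (by positivity)) (by positivity) (by norm_num)
      _ = 4 / q := by ring
  have hPzm : ∀ {p : ℕ}, p ∈ Y.Pz z ↔ p ∈ Y.Q ∧ p < z := by
    intro p
    rw [Sys.mem_Pz, hYP]
  set P4 := PP.filter (fun p => p ^ 4 ≤ y) with hP4
  set S0 := Y.N.filter (fun m => ∀ p ∈ Y.Pz z, ¬ m ≡ b p [MOD p]) with hS0
  have hcnt0 : cnt Y.N Y.b ∅ (Y.Pz z) = S0.card := by
    unfold cnt
    rw [hYb]
    congr 1
    ext m
    simp [hS0]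
  have hcntq : ∀ q, cnt Y.N Y.b {q} (Y.Pz z) = (S0.filter fun m => m ≡ b q [MOD q]).card := by
    intro q
    unfold cnt
    rw [hYb]
    congr 1
    ext m
    simp only [hS0, mem_filter, mem_singleton, forall_eq]
    tauto
  have hp4 : ∀ p ∈ PP, 4 * Real.log p ≤ Real.log y ↔ p ^ 4 ≤ y := by
    intro p hp
    have h1 : 4 * Real.log p = Real.log ((p : ℝ) ^ 4) := by
      rw [Real.log_pow]
      push_cast
      rfl
    have h2 := hp0 hp
    rw [h1, Real.log_le_log_iff (by positivity) hy0]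
    exact_mod_cast Iff.rfl
  have hSNm : ∀ {m : ℕ}, m ∈ SN ↔ m ∈ Ioc 0 y ∧ ∀ p ∈ PP, p ^ 4 ≤ y → ¬ m ≡ b p [MOD p] := by
    intro m
    rw [hSN, mem_filter]
    refine and_congr_right fun _ => ?_
    unfold multE
    rw [card_eq_zero, filter_eq_empty_iff]
    constructor
    · intro h p hp hpy hpm
      exact h (mem_filter.2 ⟨hp, hpy⟩) ((hab p (hPP p hp).1.pos m).2 hpm)
    · intro h p hp hpm
      obtain ⟨h1, h2⟩ := mem_filter.1 hp
      exact h p h1 h2 ((hab p (hPP p h1).1.pos m).1 hpm)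
  have hw4 : ∀ p ∈ PP, p ≤ w → p ^ 4 ≤ y := by
    intro p hp hpw
    rw [← hp4 p hp]
    have h1 : Real.log p ≤ Real.log w := Real.log_le_log (hp0 hp) (by exact_mod_cast hpw)
    linarith
  have hsub : SN ⊆ S0 := by
    intro m hm
    obtain ⟨h1, h2⟩ := hSNm.1 hm
    rw [hS0, mem_filter]
    refine ⟨hNm.2 ⟨h1, fun p hp hpw => h2 p hp (hw4 p hp hpw)⟩, fun p hp => ?_⟩
    obtain ⟨h3, h4⟩ := hPzm.1 hp
    refine h2 p (hQm h3).1 ?_
    rw [← hp4 p (hQm h3).1]
    exact ((hz4 p h3).1 h4).trans hLDy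
  set F4 := F.filter (fun q => q ^ 4 ≤ y) with hF4
  have hsub2 : S0 ⊆ SN ∪ F4.biUnion (fun q => S0.filter fun m => m ≡ b q [MOD q]) := by
    intro m hm
    obtain ⟨h1, h2⟩ := mem_filter.1 hm
    obtain ⟨h3, h4⟩ := hNm.1 h1
    rw [mem_union]
    by_cases h5 : m ∈ SN
    · exact Or.inl h5
    · right
      rw [hSNm] at h5
      push Not at h5
      obtain ⟨p, hp, hpy, hpm⟩ := h5 h3
      have hpw : w < p := by
        by_contra hc
        exact h4 p hp (not_lt.1 hc) hpm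
      have hpQ : p ∈ Y.Q := by
        rw [hYQ, mem_filter]
        exact ⟨hp, hpw⟩
      have hpz : z ≤ p := by
        by_contra hc
        exact h2 p (hPzm.2 ⟨hpQ, not_le.1 hc⟩) hpm
      exact mem_biUnion.2 ⟨p, mem_filter.2 ⟨mem_filter.2 ⟨hpQ, hpz⟩, hpy⟩, mem_filter.2 ⟨hm, hpm⟩⟩
  have hcard2 : (S0.card : ℝ) ≤ SN.card + ∑ q ∈ F4, (cnt Y.N Y.b {q} (Y.Pz z) : ℝ) := by
    have h1 : S0.card ≤ SN.card + ∑ q ∈ F4, cnt Y.N Y.b {q} (Y.Pz z) := by
      refine (card_le_card hsub2).trans ((card_union_le _ _).trans (Nat.add_le_add_left ?_ _))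
      refine card_biUnion_le.trans (le_of_eq ?_)
      exact sum_congr rfl fun q _ => (hcntq q).symm
    exact_mod_cast h1
  have hF4m : ∀ q ∈ F4, q.Prime ∧ Y.LD / 4 < Real.log q ∧ Real.log q ≤ Real.log y / 4 := by
    intro q hq
    obtain ⟨h1, h2⟩ := mem_filter.1 hq
    obtain ⟨h3, h4⟩ := mem_filter.1 h1
    have h5 : ¬ 4 * Real.log q ≤ Y.LD := fun h => by
      have := (hz4 q h3).2 h
      omega
    have h6 := (hp4 q (hQm h3).1).2 h2
    exact ⟨(hPP q (hQm h3).1).1, by linarith [not_le.1 h5], by linarith⟩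
  have hsum4 : ∑ q ∈ F4, (cnt Y.N Y.b {q} (Y.Pz z) : ℝ) ≤ 12 * ε * XV := by
    have hl4 : Real.log 4 ≤ 2 := by
      have h1 : Real.log 4 = 2 * Real.log 2 := by
        rw [show (4 : ℝ) = 2 ^ 2 by norm_num, Real.log_pow]
        push_cast
        rfl
      have h2 := Real.log_two_lt_d9
      norm_num at h2
      linarith
    have h1 := S1log (F := F4) (α := Y.LD / 4) (β := Real.log y / 4) hF4m (by linarith) (by linarith)
    have h2 : Real.log (Real.log y / 4 / (Y.LD / 4)) ≤ 2 * ε := by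
      have h3 : Real.log y / 4 / (Y.LD / 4) = 1 / (1 - ε) := by
        rw [hYLD]
        have : (1 : ℝ) - ε ≠ 0 := by linarith
        field_simp
      rw [h3]
      refine (Real.log_le_sub_one_of_pos (one_div_pos.2 (by linarith))).trans ?_
      rw [sub_le_iff_le_add, div_le_iff₀ (by linarith)]
      have h4 : ε * ε ≤ 1 / 100 * ε := mul_le_mul_of_nonneg_right hε1 hε0.le
      linarith
    have h3 : A0 / (Y.LD / 4) ≤ ε := by
      rw [div_le_iff₀ hε0] at hLD2
      rw [div_le_iff₀ (by linarith)]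
      linarith
    calc ∑ q ∈ F4, (cnt Y.N Y.b {q} (Y.Pz z) : ℝ) ≤ ∑ q ∈ F4, 4 / q * XV := by
          refine sum_le_sum fun q hq => ?_
          obtain ⟨h4, h5, h6⟩ := hF4m q hq
          obtain ⟨h7, _⟩ := mem_filter.1 hq
          obtain ⟨h8, h9⟩ := mem_filter.1 h7
          refine k3 q h8 h9 ?_
          have h10 : Real.log y ≤ 2 * Y.LD := by
            rw [hYLD]
            linarith
          linarith
      _ = (4 * ∑ q ∈ F4, 1 / (q : ℝ)) * XV := by
          rw [mul_sum, sum_mul]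
          exact sum_congr rfl fun q _ => by ring
      _ ≤ (4 * (3 * ε)) * XV := by
          refine mul_le_mul_of_nonneg_right ?_ hXV.le
          linarith
      _ = _ := by ring
  rw [hcnt0] at k1
  have hS0XV : XV ≤ 4 / 3 * (S0.card : ℝ) := by linarith
  have hs0 : (S0.card : ℝ) ≤ SN.card + 16 * ε * S0.card := by
    have h1 : 12 * ε * XV ≤ 12 * ε * (4 / 3 * (S0.card : ℝ)) :=
      mul_le_mul_of_nonneg_left hS0XV (by positivity)
    linarith
  have hs00 : (0 : ℝ) ≤ S0.card := Nat.cast_nonneg _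
  have hsN0 : (0 : ℝ) ≤ SN.card := Nat.cast_nonneg _
  have hs1 : (S0.card : ℝ) ≤ 2 * SN.card := by
    have h1 : 16 * ε * (S0.card : ℝ) ≤ 16 * (1 / 100) * (S0.card : ℝ) :=
      mul_le_mul_of_nonneg_right (by linarith) hs00
    linarith
  have hs2 : (S0.card : ℝ) ≤ (1 + 32 * ε) * SN.card := by
    have h1 : 16 * ε * (S0.card : ℝ) ≤ 16 * ε * (2 * SN.card) :=
      mul_le_mul_of_nonneg_left hs1 (by positivity)
    linarith
  have hε2 : ∃ ε2 : ℝ, ε2 = 8 * ε / θ := ⟨_, rfl⟩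
  obtain ⟨ε2, hε2⟩ := hε2
  have hε20 : 0 < ε2 := by rw [hε2]; positivity
  have hε2θ : ε2 * θ = 8 * ε := by
    rw [hε2]
    field_simp
  have hε2T : ε2 * (1 + T) = ε0 / 25 := by
    have h1 : ε2 * (1 + T) * θ = (ε0 / 25) * θ := by
      calc ε2 * (1 + T) * θ = (ε2 * θ) * (1 + T) := by ring
        _ = 8 * (ε * (1 + T)) := by rw [hε2θ]; ring
        _ = _ := by rw [hεT]; ring
    exact mul_right_cancel₀ hθ00.ne' h1
  have hLDl : ∀ q : ℕ, 0 < q → q ≤ x → Real.log y - Real.log q ≤ (1 + ε2) * (Y.LD - Real.log q) ∧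
      0 < Y.LD - Real.log q ∧ Y.LD - Real.log q ≤ Real.log y - Real.log q := by
    intro q hq hqx
    have hq0 : (0 : ℝ) < q := by exact_mod_cast hq
    have h1 : Real.log q ≤ Real.log x := Real.log_le_log hq0 (by exact_mod_cast hqx)
    have h2 : (1 - ε) * ((1 + θ) * Real.log x) ≤ (1 - ε) * Real.log y :=
      mul_le_mul_of_nonneg_left hlxy (by linarith)
    have h3 : (1 + ϑ) * Real.log q ≤ (1 + ϑ) * Real.log x :=
      mul_le_mul_of_nonneg_left h1 (by linarith)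
    have h4 : (1 + ϑ) * Real.log x = (1 - ε) * ((1 + θ) * Real.log x) := by
      rw [hϑ]
      ring
    have h5 : (1 + ϑ) * Real.log q ≤ Y.LD := by
      rw [hYLD]
      linarith
    have h6 : ϑ * Y.LD ≤ (1 + ϑ) * (Y.LD - Real.log q) := by linarith
    have h7 : θ / 2 * Y.LD ≤ 2 * (Y.LD - Real.log q) := by
      have h8 : θ / 2 * Y.LD ≤ ϑ * Y.LD := mul_le_mul_of_nonneg_right hϑ2 hLD0.le
      have h9 : 0 ≤ Y.LD - Real.log q := by
        have h10 : 0 < ϑ * Y.LD := mul_pos hϑ00 hLD0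
        have h11 : 0 < (1 + ϑ) * (Y.LD - Real.log q) := by linarith
        exact ((mul_pos_iff_of_pos_left (by linarith)).1 h11).le
      have h12 : (1 + ϑ) * (Y.LD - Real.log q) ≤ 2 * (Y.LD - Real.log q) :=
        mul_le_mul_of_nonneg_right (by linarith) h9
      linarith
    have h8 : Real.log y / 2 ≤ Y.LD := by
      rw [hYLD]
      linarith
    have h9 : 0 < θ * Y.LD := mul_pos hθ00 hLD0
    refine ⟨?_, by linarith, by linarith⟩
    have h10 : ε * Real.log y ≤ ε2 * (Y.LD - Real.log q) := by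
      have h11 : θ / 8 * Real.log y ≤ Y.LD - Real.log q := by
        have h12 : θ / 4 * (Real.log y / 2) ≤ θ / 4 * Y.LD :=
          mul_le_mul_of_nonneg_left h8 (by positivity)
        linarith
      calc ε * Real.log y = ε2 * (θ / 8 * Real.log y) := by
            have : ε = ε2 * θ / 8 := by rw [hε2θ]; ring
            rw [this]
            ring
        _ ≤ _ := mul_le_mul_of_nonneg_left h11 hε20.le
    have h13 : Real.log y = Y.LD + ε * Real.log y := by
      rw [hYLD]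
      ring
    linarith
  have hfrac : ∀ q : ℕ, 0 < q → q ≤ x →
      1 / (q : ℝ) * (1 / (1 - Real.log q / Y.LD)) = Y.LD / (q * (Y.LD - Real.log q)) := by
    intro q hq hqx
    obtain ⟨_, h1, _⟩ := hLDl q hq hqx
    have hq0 : (0 : ℝ) < q := by exact_mod_cast hq
    have h2 : 1 - Real.log q / Y.LD = (Y.LD - Real.log q) / Y.LD := by field_simp
    rw [h2]
    have h3 : (Y.LD - Real.log q) ≠ 0 := h1.ne'
    field_simp
  have hlogdiv : ∀ q : ℕ, 0 < q → Real.log ((y : ℝ) / q) = Real.log y - Real.log q := by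
    intro q hq
    have hq0 : (0 : ℝ) < q := by exact_mod_cast hq
    exact Real.log_div hy0.ne' hq0.ne'
  set C : ℝ := G * XV * Y.LD * (1 + ε2) with hC
  have hC0 : 0 < C := by positivity
  refine ⟨C, hC0, ?_, ?_, ?_, ?_⟩
  · have h1 : (3 : ℝ) / 8 * XV ≤ SN.card := by linarith
    have h3 : VV (prs x) ≤ VV (PP.filter fun p => p ≤ w) * VV (Y.Pz z) := by
      refine VV_sub_leE ?_ (fun p hp => hPP p (mem_filter.1 hp).1) fun p hp => ?_
      · rw [disjoint_left]
        intro p hp hp'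
        have h4 := (mem_filter.1 hp).2
        have h5 := (hQm (hPzm.1 hp').1).2
        omega
      · exact hPP p (hQm (hPzm.1 hp).1).1
    have h4 := hmert x hx2
    have h5 : cM / Real.log y ≤ cM / Real.log x := div_le_div_of_nonneg_left hcM.le hlx hly
    have h6 : cM / Real.log y ≤ VV (PP.filter fun p => p ≤ w) * VV (Y.Pz z) := h5.trans (h4.trans h3)
    calc 3 / 8 * cM * (y / Real.log y) = 3 / 8 * (y * (cM / Real.log y)) := by ring
      _ ≤ 3 / 8 * (y * (VV (PP.filter fun p => p ≤ w) * VV (Y.Pz z))) :=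
          mul_le_mul_of_nonneg_left (mul_le_mul_of_nonneg_left h6 hy0.le) (by norm_num)
      _ = 3 / 8 * XV := by rw [hXVd, hYX]; ring
      _ ≤ _ := h1
  · intro q hq hqy
    have hq1 := (hPP q hq).1.pos
    have hqx := (hPP q hq).2
    have hq0 : (0 : ℝ) < q := hp0 hq
    have hqw : w < q := by
      by_contra hcon
      have := hw4 q hq (not_lt.1 hcon)
      omega
    have hqQ : q ∈ Y.Q := by
      rw [hYQ, mem_filter]
      exact ⟨hq, hqw⟩
    have hqz : z ≤ q := by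
      by_contra hcon
      have h1 := (hz4 q hqQ).1 (not_le.1 hcon)
      have h2 := (hp4 q hq).1 (by linarith)
      omega
    have h1 := k2' q hqQ hqz
    have h2 : ((cls SN a q).card : ℝ) ≤ cnt Y.N Y.b {q} (Y.Pz z) := by
      rw [hcntq q]
      refine Nat.cast_le.2 (card_le_card fun m hm => ?_)
      obtain ⟨h3, h4⟩ := mem_filter.1 hm
      exact mem_filter.2 ⟨hsub h3, (hab q hq1 m).1 h4⟩
    refine h2.trans (h1.trans ?_)
    obtain ⟨h5, h6, h7⟩ := hLDl q hq1 hqx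
    rw [hfrac q hq1 hqx, hlogdiv q hq1, hC]
    have h8 : 0 < Real.log y - Real.log q := by linarith
    have h9 : Y.LD / (q * (Y.LD - Real.log q)) ≤ Y.LD * (1 + ε2) / (q * (Real.log y - Real.log q)) := by
      rw [div_le_div_iff₀ (by positivity) (by positivity)]
      have h10 : Y.LD * q * (Real.log y - Real.log q) ≤
          Y.LD * q * ((1 + ε2) * (Y.LD - Real.log q)) :=
        mul_le_mul_of_nonneg_left h5 (by positivity)
      linarith
    calc G * (Y.LD / (q * (Y.LD - Real.log q))) * XV ≤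
          G * (Y.LD * (1 + ε2) / (q * (Real.log y - Real.log q))) * XV :=
          mul_le_mul_of_nonneg_right (mul_le_mul_of_nonneg_left h9 hG0.le) hXV.le
      _ = _ := by ring
  · intro q hq hqx _
    obtain ⟨_, h6, h7⟩ := hLDl q hq.pos hqx
    rw [hlogdiv q hq.pos]
    have h8 : 0 < Real.log y - Real.log q := by linarith
    positivity
  · set F' := (Icc 1 x).filter (fun q => q.Prime ∧ y < q ^ 4) with hF'
    have hF'm : ∀ q ∈ F', q.Prime ∧ q ≤ x ∧ y < q ^ 4 := by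
      intro q hq
      obtain ⟨h1, h2, h3⟩ := mem_filter.1 hq
      exact ⟨h2, (mem_Icc.1 h1).2, h3⟩
    have h1 := k2 F' (fun q hq => by
      obtain ⟨h2, h3, h4⟩ := hF'm q hq
      have hq0 : (0 : ℝ) < q := by exact_mod_cast h2.pos
      refine ⟨h2, ?_, ?_⟩
      · have h5 : Real.log y < Real.log ((q : ℝ) ^ 4) :=
          Real.log_lt_log hy0 (by exact_mod_cast h4)
        rw [Real.log_pow] at h5
        push_cast at h5
        linarith
      · have h5 : Real.log q ≤ Real.log x := Real.log_le_log hq0 (by exact_mod_cast h3)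
        rw [hYLD]
        have h6 : (1 - ε) * ((1 + θ) * Real.log x) ≤ (1 - ε) * Real.log y :=
          mul_le_mul_of_nonneg_left hlxy (by linarith)
        have h7 : (1 + ϑ) * Real.log q ≤ (1 + ϑ) * Real.log x :=
          mul_le_mul_of_nonneg_left h5 (by linarith)
        have h8 : (1 + ϑ) * Real.log x = (1 - ε) * ((1 + θ) * Real.log x) := by
          rw [hϑ]
          ring
        linarith)
    have h2 : ∑ q ∈ F', C / (q * Real.log (y / q)) ≤
        (1 + ε2) * (G * (∑ q ∈ F', 1 / (q : ℝ) * (1 / (1 - Real.log q / Y.LD))) * XV) := by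
      have e1 : (1 + ε2) * (G * (∑ q ∈ F', 1 / (q : ℝ) * (1 / (1 - Real.log q / Y.LD))) * XV) =
          ∑ q ∈ F', (1 + ε2) * (G * (1 / (q : ℝ) * (1 / (1 - Real.log q / Y.LD))) * XV) := by
        rw [mul_sum, sum_mul, mul_sum]
      rw [e1]
      refine sum_le_sum fun q hq => ?_
      obtain ⟨h2, h3, h4⟩ := hF'm q hq
      have hq0 : (0 : ℝ) < q := by exact_mod_cast h2.pos
      obtain ⟨h5, h6, h7⟩ := hLDl q h2.pos h3
      rw [hfrac q h2.pos h3, hlogdiv q h2.pos, hC]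
      have h8 : 0 < Real.log y - Real.log q := by linarith
      have h9 : Y.LD / (q * (Real.log y - Real.log q)) ≤ Y.LD / (q * (Y.LD - Real.log q)) :=
        div_le_div_of_nonneg_left hLD0.le (by positivity) (mul_le_mul_of_nonneg_left h7 hq0.le)
      calc G * XV * Y.LD * (1 + ε2) / (q * (Real.log y - Real.log q)) =
            (1 + ε2) * (G * (Y.LD / (q * (Real.log y - Real.log q))) * XV) := by ring
        _ ≤ _ := by
            refine mul_le_mul_of_nonneg_left ?_ (by positivity)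
            exact mul_le_mul_of_nonneg_right (mul_le_mul_of_nonneg_left h9 hG0.le) hXV.le
    have hlam : 0 < Real.log 3 := by linarith
    have h11 : Real.log (1 / ϑ) / Real.log 3 ≤ T / Real.log 3 + ε0 / 50 := by
      rw [div_le_iff₀ hlam, add_mul, div_mul_cancel₀ _ hlam.ne']
      have : ε0 / 50 * 1 ≤ ε0 / 50 * Real.log 3 := mul_le_mul_of_nonneg_left hl3 (by positivity)
      linarith
    have h12 : T / Real.log 3 ≤ T := div_le_self hT0 hl3
    have h20 : 0 ≤ T / Real.log 3 := by positivity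
    have h21 : 1 + Real.log (1 / ϑ) ≤ 2 * (1 + T) := by linarith
    have h3 : ζ / 50 * (1 + Real.log (1 / ϑ)) * XV ≤ ε0 / 25 * (4 / 3 * (S0.card : ℝ)) := by
      have h4 : ζ / 50 * (1 + Real.log (1 / ϑ)) ≤ ε0 / 25 := by
        calc ζ / 50 * (1 + Real.log (1 / ϑ)) ≤ ζ / 50 * (2 * (1 + T)) :=
              mul_le_mul_of_nonneg_left h21 (by positivity)
          _ = ζ * (1 + T) / 25 := by ring
          _ = _ := by rw [hζT]
      exact mul_le_mul h4 hS0XV hXV.le (by positivity)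
    set g : ℝ := T / Real.log 3 with hg
    rw [hcnt0] at h1
    have h30 : G * (∑ q ∈ F', 1 / (q : ℝ) * (1 / (1 - Real.log q / Y.LD))) * XV ≤
        (1 + g + ε0 * (11 / 150)) * (S0.card : ℝ) := by
      have h31 : (1 + Real.log (1 / ϑ) / Real.log 3) * (S0.card : ℝ) ≤
          (1 + (g + ε0 / 50)) * (S0.card : ℝ) := mul_le_mul_of_nonneg_right (by linarith) hs00
      linarith
    have h40 : (1 + ε2) * (1 + 32 * ε) ≤ 1 + (ε2 + 34 * ε) := by
      have : ε2 * (32 * ε) ≤ 2 * ε := by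
        have h41 : ε2 ≤ 1 / 16 := by
          have h42 : ε2 * 1 ≤ ε2 * (1 + T) := mul_le_mul_of_nonneg_left (by linarith) hε20.le
          linarith
        calc ε2 * (32 * ε) ≤ 1 / 16 * (32 * ε) := mul_le_mul_of_nonneg_right h41 (by positivity)
          _ = 2 * ε := by ring
      linarith
    calc ∑ q ∈ F', C / (q * Real.log (y / q)) ≤
          (1 + ε2) * ((1 + g + ε0 * (11 / 150)) * (S0.card : ℝ)) :=
          h2.trans (mul_le_mul_of_nonneg_left h30 (by positivity))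
      _ ≤ (1 + ε2) * ((1 + g + ε0 * (11 / 150)) * ((1 + 32 * ε) * SN.card)) := by
          refine mul_le_mul_of_nonneg_left (mul_le_mul_of_nonneg_left hs2 (by positivity)) (by positivity)
      _ = ((1 + g + ε0 * (11 / 150)) * ((1 + ε2) * (1 + 32 * ε))) * SN.card := by ring
      _ ≤ (1 + g + ε0) * SN.card := by
          refine mul_le_mul_of_nonneg_right ?_ hsN0
          have h50 : (1 + g + ε0 * (11 / 150)) * ((1 + ε2) * (1 + 32 * ε)) ≤
              (1 + g + ε0 * (11 / 150)) * (1 + (ε2 + 34 * ε)) :=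
            mul_le_mul_of_nonneg_left h40 (by positivity)
          have h51 : (1 + g + ε0 * (11 / 150)) * (ε2 + 34 * ε) ≤ (2 * (1 + T)) * (ε2 + 34 * ε) :=
            mul_le_mul_of_nonneg_right (by linarith) (by positivity)
          have h52 : (2 * (1 + T)) * (ε2 + 34 * ε) = 2 * (ε2 * (1 + T)) + 68 * (ε * (1 + T)) := by ring
          linarith

end MF11
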