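import Pool.Agent.MF11.AE2

/-!
# [MF11-AE3] The survivors of the small primes in the classes of the large primes, any set of primes
-/

namespace MF11

open Finset YX49 RS44 HD44

theorem sum_multE_eq {P S : Finset ℕ} {a : ℕ → ℤ} :
    ∑ m ∈ S, (multE P a m : ℝ) = ∑ q ∈ P, ((cls S a q).card : ℝ) := by
  classical
  have h1 : ∑ m ∈ S, multE P a m = ∑ q ∈ P, (cls S a q).card := by
    unfold multE cls
    simp only [card_filter]
    exact sum_comm
  exact_mod_cast h1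

theorem main_ext_all {θ ε : ℝ} (hθ00 : 0 < θ) (hθ1 : θ < 1) (hε : 0 < ε) :
    ∃ c > (0 : ℝ), ∃ y0 : ℕ, ∀ (P : Finset ℕ) (y : ℕ) (a : ℕ → ℤ) (S Q : Finset ℕ),
      (∀ p ∈ P, p.Prime) → y0 ≤ y → (P.card : ℝ) ^ (1 + θ) ≤ y →
      S = (Ioc 0 y).filter (fun m : ℕ => multE (P.filter fun p => p ^ 4 ≤ y) a m = 0) →
      (∀ q : ℕ, q ∈ Q ↔ q.Prime ∧ y < q ^ 4 ∧ (q : ℝ) ^ (1 + θ) ≤ y) →
      c * (y / Real.log y) ≤ (S.card : ℝ) ∧
      ∑ m ∈ S, (multE P a m : ℝ) ≤ (1 + Real.log (1 / θ) / Real.log 3 + ε) * (S.card : ℝ) ∧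
      ∃ C : ℝ, 0 < C ∧
      (∀ q ∈ Q, (if q ∈ P then ((cls S a q).card : ℝ) else 0) ≤ C / (q * Real.log (y / q))) ∧
      ∑ q ∈ Q, C / (q * Real.log (y / q)) ≤
        (1 + Real.log (1 / θ) / Real.log 3 + ε) * (S.card : ℝ) ∧
      ((∀ m ∈ S, 1 ≤ multE P a m) →
        ∑ q ∈ Q, (C / (q * Real.log (y / q)) - if q ∈ P then ((cls S a q).card : ℝ) else 0) ≤
          (Real.log (1 / θ) / Real.log 3 + ε) * (S.card : ℝ)) := by
  classical
  set e : ℝ := min ε 1 with he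
  have he0 : 0 < e := lt_min hε one_pos
  have he1 : e ≤ 1 := min_le_right _ _
  have heε : e ≤ ε := min_le_left _ _
  set d : ℝ := e * θ / 16 with hd
  have hd0 : 0 < d := by positivity
  have hd1 : d ≤ θ / 16 := by
    have : e * θ ≤ 1 * θ := mul_le_mul_of_nonneg_right he1 hθ00.le
    rw [hd]
    linarith
  set θ' : ℝ := θ - d with hθ'
  have hθ'2 : θ / 2 ≤ θ' := by linarith
  have hθ'θ : θ' < θ := by linarith
  have hθ'1 : θ' < 1 := by linarith
  have hθ'00 : 0 < θ' := by linarith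
  have hl3 : 1 ≤ Real.log 3 := by
    have := log3_ge
    norm_num at this
    linarith
  have hlog : Real.log (1 / θ') / Real.log 3 ≤ Real.log (1 / θ) / Real.log 3 + e / 8 := by
    have hlam : 0 < Real.log 3 := by linarith
    rw [div_le_iff₀ hlam, add_mul, div_mul_cancel₀ _ hlam.ne']
    have h1 : Real.log (θ / θ') ≤ θ / θ' - 1 := Real.log_le_sub_one_of_pos (by positivity)
    rw [Real.log_div hθ00.ne' hθ'00.ne'] at h1
    have h2 : θ / θ' - 1 ≤ e / 8 := by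
      rw [sub_le_iff_le_add, div_le_iff₀ hθ'00]
      have h3 : e / 8 * (θ / 2) ≤ e / 8 * θ' := mul_le_mul_of_nonneg_left hθ'2 (by positivity)
      have h4 : θ = θ' + d := by rw [hθ']; ring
      have h5 : d = e / 8 * (θ / 2) := by rw [hd]; ring
      linarith
    have h4 : e / 8 * 1 ≤ e / 8 * Real.log 3 := mul_le_mul_of_nonneg_left hl3 (by positivity)
    rw [one_div, one_div, Real.log_inv, Real.log_inv]
    linarith
  obtain ⟨c, hc, x0, hmain⟩ := main_ext hθ'00 hθ'1 (show 0 < e / 4 by positivity) (by linarith)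
  set β : ℝ := 1 / (1 + θ') with hβ
  have hβ1 : 1 / 2 < β := by
    rw [hβ]
    exact one_div_lt_one_div_of_lt (by linarith) (by linarith)
  have hβ2 : β ≤ 1 := by
    rw [hβ, div_le_one (by linarith)]
    linarith
  have hβθ : β * (1 + θ') = 1 := by
    rw [hβ]
    field_simp
  set δ : ℝ := β - 1 / (1 + θ) with hδ
  have hδ0 : 0 < δ := by
    rw [hδ, hβ, sub_pos]
    exact one_div_lt_one_div_of_lt (by linarith) (by linarith)
  set R1 : ℝ := (2 : ℝ) ^ (1 / (β - 1 / 2)) with hR1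
  set R2 : ℝ := (16 / (e * c * δ)) ^ (2 / δ) with hR2
  refine ⟨c, hc, max (x0 ^ 2 + 2) (⌈R1⌉₊ + ⌈R2⌉₊), fun P y a S Q hP hy hPy hS hQ => ?_⟩
  have hy1 : x0 ^ 2 + 2 ≤ y := (le_max_left _ _).trans hy
  have hy2 : ⌈R1⌉₊ + ⌈R2⌉₊ ≤ y := (le_max_right _ _).trans hy
  have hyR1 : R1 ≤ y := (Nat.le_ceil _).trans (by exact_mod_cast (by omega : ⌈R1⌉₊ ≤ y))
  have hyR2 : R2 ≤ y := (Nat.le_ceil _).trans (by exact_mod_cast (by omega : ⌈R2⌉₊ ≤ y))
  have hy2' : (2 : ℝ) ≤ y := by exact_mod_cast (by omega : 2 ≤ y)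
  have hy0 : (0 : ℝ) < y := by linarith
  have hly : 0 < Real.log y := Real.log_pos (by linarith)
  have hsq : (y : ℝ) ^ (1 / 2 : ℝ) * (y : ℝ) ^ (1 / 2 : ℝ) = y := by
    rw [← Real.rpow_add hy0]
    norm_num
  have hsq0 : 0 < (y : ℝ) ^ (1 / 2 : ℝ) := Real.rpow_pos_of_pos hy0 _
  have hsq1 : 1 ≤ (y : ℝ) ^ (1 / 2 : ℝ) := Real.one_le_rpow (by linarith) (by norm_num)
  set x : ℕ := ⌊(y : ℝ) ^ β⌋₊ with hx
  have hxβ : (x : ℝ) ≤ (y : ℝ) ^ β := Nat.floor_le (by positivity)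
  have hβx : (y : ℝ) ^ β < (x : ℝ) + 1 := Nat.lt_floor_add_one _
  have hbig : 2 * (y : ℝ) ^ (1 / 2 : ℝ) ≤ (y : ℝ) ^ β := by
    have h1 : (2 : ℝ) ≤ (y : ℝ) ^ (β - 1 / 2) := by
      have h2 : R1 ^ (β - 1 / 2) ≤ (y : ℝ) ^ (β - 1 / 2) :=
        Real.rpow_le_rpow (by positivity) hyR1 (by linarith)
      rw [hR1, ← Real.rpow_mul (by norm_num)] at h2
      have h3 : 1 / (β - 1 / 2) * (β - 1 / 2) = 1 := one_div_mul_cancel (sub_pos.2 hβ1).ne'
      rwa [h3, Real.rpow_one] at h2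
    have h4 : (y : ℝ) ^ β = (y : ℝ) ^ (β - 1 / 2) * (y : ℝ) ^ (1 / 2 : ℝ) := by
      rw [← Real.rpow_add hy0]
      congr 1
      ring
    rw [h4]
    exact mul_le_mul_of_nonneg_right h1 hsq0.le
  have hxsq : (y : ℝ) ^ (1 / 2 : ℝ) ≤ x := by linarith
  have hyx : y ≤ x ^ 2 := by
    have h1 : (y : ℝ) ≤ (x : ℝ) ^ 2 := by
      rw [← hsq, sq]
      exact mul_le_mul hxsq hxsq hsq0.le (Nat.cast_nonneg _)
    exact_mod_cast h1
  have hx0x : x0 ≤ x := by
    by_contra hcon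
    have h1 : x ^ 2 ≤ x0 ^ 2 := Nat.pow_le_pow_left (by omega) 2
    omega
  have hxy : (x : ℝ) ^ (1 + θ') ≤ y := by
    calc (x : ℝ) ^ (1 + θ') ≤ ((y : ℝ) ^ β) ^ (1 + θ') :=
          Real.rpow_le_rpow (Nat.cast_nonneg _) hxβ (by linarith)
      _ = y := by rw [← Real.rpow_mul hy0.le, hβθ, Real.rpow_one]
  set P1 := P.filter (fun p => p ≤ x) with hP1
  set P2 := P.filter (fun p => ¬ p ≤ x) with hP2
  have hP4 : P1.filter (fun p => p ^ 4 ≤ y) = P.filter (fun p => p ^ 4 ≤ y) := by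
    ext p
    rw [hP1]
    simp only [mem_filter]
    constructor
    · rintro ⟨⟨h1, _⟩, h2⟩
      exact ⟨h1, h2⟩
    · rintro ⟨h1, h2⟩
      refine ⟨⟨h1, ?_⟩, h2⟩
      by_contra hcon
      have h3 : x < p := not_le.1 hcon
      have h4 : 1 ≤ p := by omega
      have h5 : x ^ 2 < p ^ 2 := Nat.pow_lt_pow_left h3 (by norm_num)
      have h6 : p ^ 2 ≤ p ^ 4 := Nat.pow_le_pow_right h4 (by norm_num)
      omega
  obtain ⟨C, hC, hm1, hm2, hm3, hm4⟩ := hmain x y P1 a S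
    (fun p hp => ⟨hP p (mem_filter.1 hp).1, (mem_filter.1 hp).2⟩) hx0x hxy hyx (by rw [hP4]; exact hS)
  have hk : (P.card : ℝ) ≤ (y : ℝ) ^ (1 / (1 + θ)) := by
    have h1 : ((P.card : ℝ) ^ (1 + θ)) ^ (1 / (1 + θ)) ≤ (y : ℝ) ^ (1 / (1 + θ)) :=
      Real.rpow_le_rpow (by positivity) hPy (by positivity)
    rw [← Real.rpow_mul (Nat.cast_nonneg _)] at h1
    have h2 : (1 + θ) * (1 / (1 + θ)) = 1 := by field_simp
    rwa [h2, Real.rpow_one] at h1
  have hyb : 1 ≤ (y : ℝ) ^ (1 - β) := Real.one_le_rpow (by linarith) (by linarith)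
  have hSI : S ⊆ Ioc 0 y := by rw [hS]; exact filter_subset _ _
  have hP2s : ∑ m ∈ S, (multE P2 a m : ℝ) ≤ 2 * (y : ℝ) ^ (1 - δ) := by
    refine (sum_multE_le hSI).trans ?_
    calc ∑ p ∈ P2, (((Ioc 0 y).filter fun m : ℕ => (m : ℤ) ≡ a p [ZMOD (p : ℤ)]).card : ℝ) ≤
          ∑ _p ∈ P2, 2 * (y : ℝ) ^ (1 - β) := by
          refine sum_le_sum fun p hp => ?_
          obtain ⟨hp1, hp2⟩ := mem_filter.1 hp
          refine (card_class_leE (hP p hp1).pos (a p)).trans ?_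
          have h3 : (y : ℝ) ^ β ≤ p := by
            have h5 : ((x : ℝ) + 1) ≤ p := by exact_mod_cast (by omega : x + 1 ≤ p)
            linarith
          have h6 : (y : ℝ) / p ≤ y / (y : ℝ) ^ β :=
            div_le_div_of_nonneg_left hy0.le (Real.rpow_pos_of_pos hy0 _) h3
          have h7 : (y : ℝ) / (y : ℝ) ^ β = (y : ℝ) ^ (1 - β) := by
            rw [Real.rpow_sub hy0, Real.rpow_one]
          linarith
      _ = (P2.card : ℝ) * (2 * (y : ℝ) ^ (1 - β)) := by rw [sum_const, nsmul_eq_mul]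
      _ ≤ (y : ℝ) ^ (1 / (1 + θ)) * (2 * (y : ℝ) ^ (1 - β)) := by
          refine mul_le_mul_of_nonneg_right (le_trans ?_ hk) (by positivity)
          exact_mod_cast card_le_card (filter_subset _ _)
      _ = 2 * ((y : ℝ) ^ (1 / (1 + θ)) * (y : ℝ) ^ (1 - β)) := by ring
      _ = 2 * (y : ℝ) ^ (1 - δ) := by
          rw [← Real.rpow_add hy0]
          congr 2
          rw [hδ]
          ring
  have hsmall : 2 * (y : ℝ) ^ (1 - δ) ≤ e / 4 * (S.card : ℝ) := by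
    have h1 : 2 * (y : ℝ) ^ (1 - δ) ≤ e / 4 * (c * (y / Real.log y)) := by
      have h2 : (y : ℝ) ^ (1 - δ) = y * (y : ℝ) ^ (-δ) := by
        have : (1 : ℝ) - δ = 1 + -δ := by ring
        rw [this, Real.rpow_add hy0, Real.rpow_one]
      have h3 : Real.log y ≤ (y : ℝ) ^ (δ / 2) / (δ / 2) := Real.log_le_rpow_div hy0.le (by positivity)
      have h4 : 16 / (e * c * δ) ≤ (y : ℝ) ^ (δ / 2) := by
        have h5 : R2 ^ (δ / 2) ≤ (y : ℝ) ^ (δ / 2) :=
          Real.rpow_le_rpow (by positivity) hyR2 (by positivity)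
        rw [hR2, ← Real.rpow_mul (by positivity)] at h5
        have h6 : 2 / δ * (δ / 2) = 1 := by field_simp
        rwa [h6, Real.rpow_one] at h5
      have h7 : (y : ℝ) ^ (-δ) * ((y : ℝ) ^ (δ / 2) * (y : ℝ) ^ (δ / 2)) = 1 := by
        rw [← Real.rpow_add hy0, ← Real.rpow_add hy0]
        have : -δ + (δ / 2 + δ / 2) = 0 := by ring
        rw [this, Real.rpow_zero]
      have h8 : 0 < (y : ℝ) ^ (-δ) := Real.rpow_pos_of_pos hy0 _
      have h9 : 0 < (y : ℝ) ^ (δ / 2) := Real.rpow_pos_of_pos hy0 _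
      rw [h2]
      have h10 : 2 * (y : ℝ) ^ (-δ) * Real.log y ≤ e / 4 * c := by
        calc 2 * (y : ℝ) ^ (-δ) * Real.log y ≤ 2 * (y : ℝ) ^ (-δ) * ((y : ℝ) ^ (δ / 2) / (δ / 2)) :=
              mul_le_mul_of_nonneg_left h3 (by positivity)
          _ = (e * c / 4) * ((16 / (e * c * δ)) * ((y : ℝ) ^ (-δ) * (y : ℝ) ^ (δ / 2))) := by
              field_simp
              ring
          _ ≤ (e * c / 4) * ((y : ℝ) ^ (δ / 2) * ((y : ℝ) ^ (-δ) * (y : ℝ) ^ (δ / 2))) := by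
              refine mul_le_mul_of_nonneg_left ?_ (by positivity)
              exact mul_le_mul_of_nonneg_right h4 (by positivity)
          _ = (e * c / 4) * ((y : ℝ) ^ (-δ) * ((y : ℝ) ^ (δ / 2) * (y : ℝ) ^ (δ / 2))) := by ring
          _ = e / 4 * c := by rw [h7]; ring
      have h11 : 2 * (y * (y : ℝ) ^ (-δ)) = y / Real.log y * (2 * (y : ℝ) ^ (-δ) * Real.log y) := by
        field_simp
      have h12 : e / 4 * (c * (y / Real.log y)) = y / Real.log y * (e / 4 * c) := by ring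
      rw [h11, h12]
      exact mul_le_mul_of_nonneg_left h10 (by positivity)
    exact h1.trans (mul_le_mul_of_nonneg_left hm1 (by positivity))
  have hS0 : (0 : ℝ) ≤ S.card := Nat.cast_nonneg _
  have hP2S : ∑ m ∈ S, (multE P2 a m : ℝ) ≤ e / 4 * S.card := hP2s.trans hsmall
  -- the primes in the range
  set Q' := (Icc 1 x).filter (fun q => q.Prime ∧ y < q ^ 4) with hQ'
  have hQsub : Q ⊆ Q' := by
    intro q hq
    obtain ⟨h1, h2, h3⟩ := (hQ q).1 hq
    have hq0 : (0 : ℝ) < q := by exact_mod_cast h1.pos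
    refine mem_filter.2 ⟨mem_Icc.2 ⟨h1.pos, ?_⟩, h1, h2⟩
    refine Nat.le_floor ?_
    have h4 : ((q : ℝ) ^ (1 + θ)) ^ (1 / (1 + θ)) ≤ (y : ℝ) ^ (1 / (1 + θ)) :=
      Real.rpow_le_rpow (by positivity) h3 (by positivity)
    rw [← Real.rpow_mul hq0.le] at h4
    have h5 : (1 + θ) * (1 / (1 + θ)) = 1 := by field_simp
    rw [h5, Real.rpow_one] at h4
    refine h4.trans (Real.rpow_le_rpow_of_exponent_le (by linarith) (by linarith))
  have hQ'm : ∀ q ∈ Q', q.Prime ∧ q ≤ x ∧ y < q ^ 4 := by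
    intro q hq
    obtain ⟨h1, h2, h3⟩ := mem_filter.1 hq
    exact ⟨h2, (mem_Icc.1 h1).2, h3⟩
  have hCn : ∀ q ∈ Q', 0 ≤ C / (q * Real.log (y / q)) := fun q hq => by
    obtain ⟨h1, h2, h3⟩ := hQ'm q hq
    exact hm3 q h1 h2 h3
  have hdn : ∀ q ∈ Q', 0 ≤ C / (q * Real.log (y / q)) - if q ∈ P then ((cls S a q).card : ℝ) else 0 := by
    intro q hq
    obtain ⟨h1, h2, h3⟩ := hQ'm q hq
    split_ifs with h4
    · have := hm2 q (mem_filter.2 ⟨h4, h2⟩) h3
      linarith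
    · have := hCn q hq
      linarith
  have hP1S : ∑ m ∈ S, (multE P1 a m : ℝ) = ∑ q ∈ Q', if q ∈ P then ((cls S a q).card : ℝ) else 0 := by
    rw [sum_multE_eq, ← sum_filter]
    refine (sum_subset ?_ ?_).symm
    · intro q hq
      obtain ⟨h1, h2⟩ := mem_filter.1 hq
      exact mem_filter.2 ⟨h2, (hQ'm q h1).2.1⟩
    · intro q hq hq'
      obtain ⟨h1, h2⟩ := mem_filter.1 hq
      have h3 : q ^ 4 ≤ y := by
        by_contra hcon
        refine hq' (mem_filter.2 ⟨mem_filter.2 ⟨mem_Icc.2 ⟨(hP q h1).pos, h2⟩, hP q h1, ?_⟩, h1⟩)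
        omega
      rw [Nat.cast_eq_zero, card_eq_zero]
      unfold cls
      rw [filter_eq_empty_iff]
      intro m hm hmq
      rw [hS, mem_filter] at hm
      have h4 := hm.2
      unfold multE at h4
      rw [card_eq_zero, filter_eq_empty_iff] at h4
      exact h4 (mem_filter.2 ⟨h1, h3⟩) hmq
  have hsplit : ∑ m ∈ S, (multE P a m : ℝ) = ∑ m ∈ S, (multE P1 a m : ℝ) + ∑ m ∈ S, (multE P2 a m : ℝ) := by
    rw [← sum_add_distrib]
    refine sum_congr rfl fun m _ => ?_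
    rw [multE_split P a x m]
    push_cast
    rfl
  have hCs : ∑ q ∈ Q', C / (q * Real.log (y / q)) ≤
      (1 + Real.log (1 / θ) / Real.log 3 + e / 8 + e / 4) * S.card :=
    hm4.trans (mul_le_mul_of_nonneg_right (by linarith) hS0)
  have hdiff : ∑ q ∈ Q', (C / (q * Real.log (y / q)) - if q ∈ P then ((cls S a q).card : ℝ) else 0) =
      ∑ q ∈ Q', C / (q * Real.log (y / q)) - ∑ m ∈ S, (multE P1 a m : ℝ) := by
    rw [sum_sub_distrib, hP1S]
  refine ⟨hm1, ?_, C, hC, ?_, ?_, ?_⟩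
  · have h1 : 0 ≤ ∑ q ∈ Q', (C / (q * Real.log (y / q)) -
        if q ∈ P then ((cls S a q).card : ℝ) else 0) := sum_nonneg hdn
    have h2 : (1 + Real.log (1 / θ) / Real.log 3 + e / 8 + e / 4 + e / 4) * S.card ≤
        (1 + Real.log (1 / θ) / Real.log 3 + ε) * S.card := mul_le_mul_of_nonneg_right (by linarith) hS0
    rw [hsplit]
    linarith
  · intro q hq
    have := hdn q (hQsub hq)
    linarith
  · have h1 : ∑ q ∈ Q, C / (q * Real.log (y / q)) ≤ ∑ q ∈ Q', C / (q * Real.log (y / q)) :=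
      sum_le_sum_of_subset_of_nonneg hQsub fun q hq _ => hCn q hq
    have h2 : (1 + Real.log (1 / θ) / Real.log 3 + e / 8 + e / 4) * S.card ≤
        (1 + Real.log (1 / θ) / Real.log 3 + ε) * S.card := mul_le_mul_of_nonneg_right (by linarith) hS0
    linarith
  · intro hcov
    have h1 : (S.card : ℝ) ≤ ∑ m ∈ S, (multE P a m : ℝ) := by
      calc (S.card : ℝ) = ∑ _m ∈ S, (1 : ℝ) := by simp
        _ ≤ _ := sum_le_sum fun m hm => by exact_mod_cast hcov m hm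
    have h2 : ∑ q ∈ Q, (C / (q * Real.log (y / q)) - if q ∈ P then ((cls S a q).card : ℝ) else 0) ≤
        ∑ q ∈ Q', (C / (q * Real.log (y / q)) - if q ∈ P then ((cls S a q).card : ℝ) else 0) :=
      sum_le_sum_of_subset_of_nonneg hQsub fun q hq _ => hdn q hq
    have h3 : (Real.log (1 / θ) / Real.log 3 + e / 8 + e / 4 + e / 4) * S.card ≤
        (Real.log (1 / θ) / Real.log 3 + ε) * S.card := mul_le_mul_of_nonneg_right (by linarith) hS0
    rw [hdiff] at h2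
    rw [hsplit] at h1
    linarith

end MF11
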