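import Pool.Agent.MF11.MainK

/-!
# [MF11-ALLY] All lengths
-/

namespace MF11

open Finset

theorem mult_shift (x : ℕ) (a : ℕ → ℤ) (t m : ℕ) :
    mult x a (t + m) = mult x (fun p => a p - t) m := by
  unfold mult
  congr 1
  ext p
  simp only [mem_filter, and_congr_right_iff]
  intro _ _
  rw [Int.modEq_iff_dvd, Int.modEq_iff_dvd]
  push_cast
  have : a p - ((t : ℤ) + m) = a p - t - m := by ring
  rw [this]

theorem main_all {K : ℕ} (hK : 2 ≤ K) {ε : ℝ} (hε : 0 < ε) : ∃ c > (0 : ℝ), ∃ x0 : ℕ,
    ∀ (x y : ℕ) (a : ℕ → ℤ), x0 ≤ x → (x : ℝ) ^ (1 + (thK K + ε)) ≤ y →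
      c * (y / Real.log x) ≤ (((Ioc 0 y).filter fun m : ℕ => mult x a m < K).card : ℝ) := by
  classical
  have hth : thK K ≤ 1 / 3 := by
    unfold thK
    have h1 : (3 : ℝ) ^ 2 ≤ 3 ^ (2 ^ (K - 1)) := by
      refine pow_le_pow_right₀ (by norm_num) ?_
      calc 2 = 2 ^ 1 := by norm_num
        _ ≤ 2 ^ (K - 1) := Nat.pow_le_pow_right (by norm_num) (by omega)
    rw [div_le_div_iff₀ (by positivity) (by norm_num)]
    linarith
  have hth0 : 0 < thK K := by unfold thK; positivity
  set ε1 : ℝ := min ε (1 / 2) with hε1
  have hε10 : 0 < ε1 := lt_min hε (by norm_num)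
  obtain ⟨c, hc, x0, hmain⟩ := main_K hK hε10
  refine ⟨c / 4, by positivity, x0 + 2, fun x y a hx hxy => ?_⟩
  have hx2 : 2 ≤ x := by omega
  have hx2' : (2 : ℝ) ≤ x := by exact_mod_cast hx2
  have hx0 : (0 : ℝ) < x := by linarith
  have hlx : 0 < Real.log x := Real.log_pos (by linarith)
  have hxe : (x : ℝ) ^ (1 + (thK K + ε1)) ≤ (x : ℝ) ^ (1 + (thK K + ε)) :=
    Real.rpow_le_rpow_of_exponent_le (by linarith) (by
      have := min_le_left ε (1 / 2)
      linarith)
  rcases le_total y (x ^ 2) with hyx | hyx
  · have h1 := hmain x y a (by omega) (hxe.trans hxy) hyx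
    refine le_trans ?_ h1
    have hy1 : (1 : ℝ) < y := by
      refine lt_of_lt_of_le ?_ hxy
      exact Real.one_lt_rpow (by linarith) (by linarith)
    have hly : 0 < Real.log y := Real.log_pos hy1
    have hlyx : Real.log y ≤ 2 * Real.log x := by
      have h2 : (y : ℝ) ≤ (x : ℝ) ^ 2 := by exact_mod_cast hyx
      have h3 := Real.log_le_log (by linarith) h2
      rw [Real.log_pow] at h3
      push_cast at h3
      exact h3
    rw [div_mul_div_comm, ← mul_div_assoc, div_le_div_iff₀ (by positivity) hly]
    have h4 : 0 ≤ c * (y : ℝ) := by positivity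
    calc c * (y : ℝ) * Real.log y ≤ c * y * (2 * Real.log x) := mul_le_mul_of_nonneg_left hlyx h4
      _ ≤ c * y * (4 * Real.log x) := mul_le_mul_of_nonneg_left (by linarith) h4
  · set X : ℕ := x ^ 2 with hX
    have hX0 : 0 < X := by positivity
    have hXe : (x : ℝ) ^ (1 + (thK K + ε1)) ≤ (X : ℝ) := by
      rw [hX]
      push_cast
      rw [← Real.rpow_natCast]
      refine Real.rpow_le_rpow_of_exponent_le (by linarith) ?_
      have := min_le_right ε (1 / 2)
      push_cast
      linarith
    have hlX : Real.log (X : ℝ) = 2 * Real.log x := by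
      rw [hX]
      push_cast
      rw [Real.log_pow]
      push_cast
      rfl
    have hblock : ∀ t : ℕ, c * ((X : ℝ) / (2 * Real.log x)) ≤
        (((Ioc t (t + X)).filter fun m : ℕ => mult x a m < K).card : ℝ) := by
      intro t
      have h1 := hmain x X (fun p => a p - t) (by omega) hXe (le_refl _)
      rw [hlX] at h1
      refine h1.trans ?_
      have h2 : ((Ioc 0 X).filter fun m : ℕ => mult x (fun p => a p - t) m < K).card ≤
          ((Ioc t (t + X)).filter fun m : ℕ => mult x a m < K).card := by
        refine card_le_card_of_injOn (fun m => t + m) ?_ ?_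
        · intro m hm
          rw [mem_coe, mem_filter, mem_Ioc] at hm ⊢
          have h5 : mult x a (t + m) < K := by
            rw [mult_shift]
            exact hm.2
          exact ⟨⟨show t < t + m by omega, show t + m ≤ t + X by omega⟩, h5⟩
        · intro m1 _ m2 _ h
          exact Nat.add_left_cancel h
      exact_mod_cast h2
    have hsum : ∀ q : ℕ, (q : ℝ) * (c * ((X : ℝ) / (2 * Real.log x))) ≤
        (((Ioc 0 (q * X)).filter fun m : ℕ => mult x a m < K).card : ℝ) := by
      intro q
      induction q with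
      | zero => simp
      | succ q ih =>
        have h1 := hblock (q * X)
        have h2 : (Ioc 0 ((q + 1) * X)).filter (fun m : ℕ => mult x a m < K) =
            (Ioc 0 (q * X)).filter (fun m : ℕ => mult x a m < K) ∪
              (Ioc (q * X) (q * X + X)).filter (fun m : ℕ => mult x a m < K) := by
          rw [← filter_union]
          congr 1
          have h3 : (q + 1) * X = q * X + X := by ring
          rw [h3]
          exact (Ioc_union_Ioc_eq_Ioc (Nat.zero_le _) (Nat.le_add_right _ _)).symm
        have h4 : Disjoint ((Ioc 0 (q * X)).filter (fun m : ℕ => mult x a m < K))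
            ((Ioc (q * X) (q * X + X)).filter (fun m : ℕ => mult x a m < K)) := by
          rw [disjoint_left]
          intro m hm hm'
          rw [mem_filter, mem_Ioc] at hm hm'
          omega
        rw [h2, card_union_of_disjoint h4]
        push_cast
        linarith
    set q : ℕ := y / X with hq
    have hq1 : 1 ≤ q := (Nat.one_le_div_iff hX0).2 hyx
    have hqX : q * X ≤ y := Nat.div_mul_le_self y X
    have hyq : y ≤ 2 * (q * X) := by
      have h1 := Nat.lt_div_mul_add (a := y) hX0
      rw [← hq] at h1
      have h2 : X ≤ q * X := Nat.le_mul_of_pos_left X hq1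
      omega
    have h1 := hsum q
    have h2 : ((Ioc 0 (q * X)).filter fun m : ℕ => mult x a m < K).card ≤
        ((Ioc 0 y).filter fun m : ℕ => mult x a m < K).card := by
      refine card_le_card (filter_subset_filter _ ?_)
      exact Ioc_subset_Ioc_right hqX
    have h3 : (((Ioc 0 (q * X)).filter fun m : ℕ => mult x a m < K).card : ℝ) ≤
        ((Ioc 0 y).filter fun m : ℕ => mult x a m < K).card := by exact_mod_cast h2
    refine le_trans ?_ (h1.trans h3)
    have h4 : (y : ℝ) ≤ 2 * (q * X) := by exact_mod_cast hyq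
    calc c / 4 * ((y : ℝ) / Real.log x) ≤ c / 4 * ((2 * (q * X)) / Real.log x) := by
          refine mul_le_mul_of_nonneg_left ?_ (by positivity)
          exact div_le_div_of_nonneg_right h4 hlx.le
      _ = (q : ℝ) * (c * ((X : ℝ) / (2 * Real.log x))) := by
          field_simp
          ring

end MF11
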