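import Pool.Agent.YX49.Up
import Pool.Agent.YX49.Poly

/-!
# [MF11-AP] Integers in a progression avoiding one class for every prime up to `T`
-/

namespace MF11

open Finset YX49

lemma one_class {p l : ℕ} (hp : p.Prime) (hl : l.Prime) (hne : l ≠ p) (r : ℕ) (c : ℤ) :
    ((range l).filter fun n : ℕ => ((r : ℤ) + p * ((n : ℤ) - 1) ≡ c [ZMOD (l : ℤ)])).card = 1 := by
  have : Fact l.Prime := ⟨hl⟩
  have hp0 : (p : ZMod l) ≠ 0 := by
    intro h
    rw [ZMod.natCast_eq_zero_iff] at h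
    exact hne ((Nat.prime_dvd_prime_iff_eq hl hp).1 h)
  rw [Finset.card_eq_one]
  refine ⟨(((c : ZMod l) - r) / p + 1).val, ?_⟩
  ext n
  simp only [mem_filter, mem_range, mem_singleton]
  have hiff : ((r : ℤ) + p * ((n : ℤ) - 1) ≡ c [ZMOD (l : ℤ)]) ↔
      (n : ZMod l) = ((c : ZMod l) - r) / p + 1 := by
    rw [← ZMod.intCast_eq_intCast_iff]
    push_cast
    constructor
    · intro h
      field_simp
      linear_combination h
    · intro h
      rw [h]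
      field_simp
      ring
  rw [hiff]
  constructor
  · rintro ⟨hn, h⟩
    rw [← h, ZMod.val_natCast, Nat.mod_eq_of_lt hn]
  · intro h
    subst h
    exact ⟨ZMod.val_lt _, ZMod.natCast_zmod_val _⟩

open Classical in
/-- the conditions in the variable `n` of `m = r + p (n - 1)` -/
noncomputable def xq (r p : ℕ) (b : ℕ → ℤ) (l n : ℕ) : ℝ :=
  if l = p then 0 else if ((r : ℤ) + p * ((n : ℤ) - 1) ≡ b l [ZMOD (l : ℤ)]) then 1 else 0

lemma om_xq_self {r p : ℕ} {b : ℕ → ℤ} : om (xq r p b) p = 0 := by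
  unfold om xq
  simp

lemma om_xq {r p : ℕ} {b : ℕ → ℤ} (hp : p.Prime) {l : ℕ}
    (hl : l.Prime) (h : l ≠ p) : om (xq r p b) l = 1 := by
  classical
  have h1 := one_class hp hl h r (b l)
  unfold om xq
  simp only [h, if_false]
  rw [Finset.sum_ite, Finset.sum_const_zero, add_zero, Finset.sum_const, nsmul_eq_mul, mul_one]
  have : (((range l).filter fun n : ℕ =>
      ((r : ℤ) + p * ((n : ℤ) - 1) ≡ b l [ZMOD (l : ℤ)])).card : ℝ) = 1 := by exact_mod_cast h1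
  convert this

lemma xq_loc {r p : ℕ} {b : ℕ → ℤ} (hp : p.Prime) : Loc (xq r p b) := by
  classical
  refine ⟨?_, ?_, ?_, ?_⟩
  · intro l n
    unfold xq
    split_ifs <;> simp
  · intro l n
    unfold xq
    have : ((r : ℤ) + p * (((n + l : ℕ) : ℤ) - 1) ≡ b l [ZMOD (l : ℤ)]) ↔
        ((r : ℤ) + p * ((n : ℤ) - 1) ≡ b l [ZMOD (l : ℤ)]) := by
      have e : (r : ℤ) + p * (((n + l : ℕ) : ℤ) - 1) = ((r : ℤ) + p * ((n : ℤ) - 1)) + l * p := by
        push_cast; ring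
      rw [e]
      unfold Int.ModEq
      rw [Int.add_mul_emod_self_left]
    simp only [this]
  · intro l hl
    by_cases h : l = p
    · rw [h, om_xq_self]; norm_num
    · rw [om_xq hp hl h]; norm_num
  · intro l hl
    have h2 : (2 : ℝ) ≤ l := by exact_mod_cast hl.two_le
    by_cases h : l = p
    · rw [h, om_xq_self]; positivity
    · rw [om_xq hp hl h]; linarith

open Classical in
theorem ap_le (y p T : ℕ) (b : ℕ → ℤ) (hpp : p.Prime) : ∃ r : ℕ,
    (((Ioc 0 y).filter fun m : ℕ => (m : ℤ) ≡ b p [ZMOD (p : ℤ)] ∧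
      ∀ l : ℕ, l.Prime → l ≤ T → l ≠ p → ¬ (m : ℤ) ≡ b l [ZMOD (l : ℤ)]).card : ℝ) ≤
      ∑ n ∈ Ioc 0 (0 + (y / p + 1)), sf T (xq r p b) n := by
  have hp0 : 0 < p := hpp.pos
  -- representative of the class
  obtain ⟨r, hr1, hrp, hrb⟩ : ∃ r : ℕ, 1 ≤ r ∧ r ≤ p ∧ (p : ℤ) ∣ (r : ℤ) - b p := by
    have hpz : (0 : ℤ) < p := by exact_mod_cast hp0
    have h3 := Int.emod_nonneg (b p - 1) hpz.ne'
    have h4 := Int.emod_lt_of_pos (b p - 1) hpz
    refine ⟨((b p - 1) % p).toNat + 1, by omega, by omega, ?_⟩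
    have h5 : ((((b p - 1) % p).toNat + 1 : ℕ) : ℤ) = (b p - 1) % p + 1 := by
      push_cast
      rw [Int.toNat_of_nonneg h3]
    rw [h5]
    have h6 := Int.emod_add_mul_ediv (b p - 1) p
    refine ⟨-((b p - 1) / p), ?_⟩
    linarith
  refine ⟨r, ?_⟩
  set S := ((Ioc 0 y).filter fun m : ℕ => (m : ℤ) ≡ b p [ZMOD (p : ℤ)] ∧
      ∀ l : ℕ, l.Prime → l ≤ T → l ≠ p → ¬ (m : ℤ) ≡ b l [ZMOD (l : ℤ)]) with hS
  have key : ∀ m ∈ S, ∃ k : ℕ, m = r + p * k := by
    intro m hm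
    rw [hS, mem_filter, mem_Ioc] at hm
    obtain ⟨⟨hm0, _⟩, hmb, _⟩ := hm
    have hd : (p : ℤ) ∣ (m : ℤ) - r := by
      have h3 : (p : ℤ) ∣ b p - m := hmb.dvd
      have h4 : (m : ℤ) - r = -((r : ℤ) - b p) - (b p - m) := by ring
      rw [h4]
      exact dvd_sub ((dvd_neg).2 hrb) h3
    obtain ⟨c, hc⟩ := hd
    have hc0 : 0 ≤ c := by
      by_contra hneg
      push Not at hneg
      have : (p : ℤ) * c ≤ -p := by
        have hpz : (0 : ℤ) < p := by exact_mod_cast hp0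
        nlinarith
      have h5 : (1 : ℤ) ≤ m := by exact_mod_cast hm0
      have h6 : (r : ℤ) ≤ p := by exact_mod_cast hrp
      linarith
    refine ⟨c.toNat, ?_⟩
    zify
    rw [Int.toNat_of_nonneg hc0]
    linarith
  have hsf0 : ∀ n, 0 ≤ sf T (xq r p b) n := by
    intro n
    unfold sf
    apply Finset.prod_nonneg
    intro l _
    rcases (xq_loc (b := b) (r := r) hpp).val l n with h | h <;> rw [h] <;> norm_num
  have hf : ∀ m ∈ S, sf T (xq r p b) ((m - r) / p + 1) = 1 := by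
    intro m hm
    obtain ⟨k, hk⟩ := key m hm
    rw [hS, mem_filter] at hm
    have hk' : (m - r) / p = k := by
      rw [hk, Nat.add_sub_cancel_left, Nat.mul_div_cancel_left _ hp0]
    rw [hk']
    unfold sf
    apply Finset.prod_eq_one
    intro l hl
    rw [mem_prs] at hl
    have : xq r p b l (k + 1) = 0 := by
      unfold xq
      by_cases h : l = p
      · simp [h]
      · have h7 := hm.2.2 l hl.1 hl.2 h
        have e : (r : ℤ) + p * (((k + 1 : ℕ) : ℤ) - 1) = (m : ℤ) := by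
          rw [hk]; push_cast; ring
        rw [e]
        simp [h, h7]
    rw [this, sub_zero]
  have hinj : Set.InjOn (fun m : ℕ => (m - r) / p + 1) (S : Set ℕ) := by
    intro m hm m' hm' h
    obtain ⟨k, hk⟩ := key m hm
    obtain ⟨k', hk'⟩ := key m' hm'
    simp only at h
    rw [hk, hk', Nat.add_sub_cancel_left, Nat.add_sub_cancel_left, Nat.mul_div_cancel_left _ hp0,
      Nat.mul_div_cancel_left _ hp0] at h
    have : k = k' := by omega
    rw [hk, hk', this]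
  have hsub : S.image (fun m : ℕ => (m - r) / p + 1) ⊆ Ioc 0 (0 + (y / p + 1)) := by
    intro n hn
    rw [mem_image] at hn
    obtain ⟨m, hm, rfl⟩ := hn
    rw [hS, mem_filter, mem_Ioc] at hm
    rw [mem_Ioc]
    have h12 : (m - r) / p ≤ y / p := Nat.div_le_div_right (by omega)
    generalize (m - r) / p = q at h12 ⊢
    omega
  calc (S.card : ℝ) = ∑ m ∈ S, sf T (xq r p b) ((m - r) / p + 1) := by
        rw [Finset.sum_congr rfl hf]; simp
    _ = ∑ n ∈ S.image (fun m : ℕ => (m - r) / p + 1), sf T (xq r p b) n := by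
        rw [Finset.sum_image hinj]
    _ ≤ _ := Finset.sum_le_sum_of_subset_of_nonneg hsub fun n _ _ => hsf0 n

/-- the density does not change when `z < p` -/
theorem WW_xq {r p z : ℕ} {b : ℕ → ℤ} (hp : p.Prime) (hz : z < p) :
    WW z (xq r p b) = ∏ l ∈ prs z, (1 - 1 / (l : ℝ)) := by
  unfold WW
  refine prod_congr rfl fun l hl => ?_
  obtain ⟨h1, h2⟩ := mem_prs.1 hl
  rw [om_xq hp h1 (by omega)]

/-- the density for one class for every prime -/
theorem WW_xc {z : ℕ} (a : ℕ → ℤ) : WW z (xc a) = ∏ l ∈ prs z, (1 - 1 / (l : ℝ)) := by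
  unfold WW
  refine prod_congr rfl fun l hl => ?_
  rw [om_xc a (mem_prs.1 hl).1.pos]

open Classical in
/-- the integers in `(0, y]` outside the classes of the primes up to `z` -/
noncomputable def Sz (z y : ℕ) (a : ℕ → ℤ) : Finset ℕ :=
  (Ioc 0 y).filter fun m => ∀ l : ℕ, l.Prime → l ≤ z → ¬ (m : ℤ) ≡ a l [ZMOD (l : ℤ)]

open Classical in
/-- the members of `Sz` in the class of `p` -/
noncomputable def Szp (z y p : ℕ) (a : ℕ → ℤ) : Finset ℕ :=
  (Sz z y a).filter fun m => (m : ℤ) ≡ a p [ZMOD (p : ℤ)]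

theorem card_Sz (z y : ℕ) (a : ℕ → ℤ) :
    ((Sz z y a).card : ℝ) = ∑ n ∈ Ioc 0 (0 + y), sf z (xc a) n := by
  classical
  unfold Sz
  rw [card_filter, Nat.cast_sum, zero_add]
  refine sum_congr rfl fun n _ => ?_
  unfold sf
  split_ifs with h
  · rw [prod_eq_one]
    · simp
    · intro l hl
      obtain ⟨h1, h2⟩ := mem_prs.1 hl
      unfold xc
      rw [if_neg (h l h1 h2), sub_zero]
  · push Not at h
    obtain ⟨l, h1, h2, h3⟩ := h
    rw [prod_eq_zero (mem_prs.2 ⟨h1, h2⟩)]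
    · simp
    · unfold xc
      rw [if_pos h3, sub_self]

/-- the progressions: fewer sifting primes -/
theorem card_Szp_le {z y p T : ℕ} {a : ℕ → ℤ} (hpp : p.Prime) (hT : T ≤ z) : ∃ r : ℕ,
    ((Szp z y p a).card : ℝ) ≤ ∑ n ∈ Ioc 0 (0 + (y / p + 1)), sf T (xq r p a) n := by
  classical
  obtain ⟨r, hr⟩ := ap_le y p T a hpp
  refine ⟨r, le_trans ?_ hr⟩
  refine Nat.cast_le.2 (card_le_card fun m hm => ?_)
  unfold Szp Sz at hm
  obtain ⟨h1, h2⟩ := mem_filter.1 hm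
  obtain ⟨h3, h4⟩ := mem_filter.1 h1
  exact mem_filter.2 ⟨h3, h2, fun l hl hlT _ => h4 l hl (hlT.trans hT)⟩

/-- lower bound for the sifted set -/
theorem fund_low {δ : ℝ} {s : ℕ} (hs : ∀ z : ℕ, 2 ≤ z → ∀ x : ℕ → ℕ → ℝ, Loc x → ∀ N H : ℕ,
      z ^ s ≤ H → |∑ n ∈ Ioc N (N + H), sf z x n - H * WW z x| ≤ (δ / s) * (H * WW z x))
    (hs1 : 1 ≤ s) (hδ : 0 < δ)
    {z y : ℕ} (hz : 2 ≤ z) (hzy : z ^ s ≤ y) (a : ℕ → ℤ) :
    (1 - δ) * (y * ∏ l ∈ prs z, (1 - 1 / (l : ℝ))) ≤ ((Sz z y a).card : ℝ) := by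
  have h1 := hs z hz (xc a) (loc_xc a) 0 y hzy
  rw [WW_xc, ← card_Sz, abs_le] at h1
  have hW : 0 ≤ (y : ℝ) * ∏ l ∈ prs z, (1 - 1 / (l : ℝ)) := by
    refine mul_nonneg (by positivity) (prod_nonneg fun l hl => ?_)
    have h2 : (2 : ℝ) ≤ l := by exact_mod_cast (mem_prs.1 hl).1.two_le
    have h3 : 1 / (l : ℝ) ≤ 1 := by rw [div_le_one (by linarith)]; linarith
    linarith
  have hs' : (1 : ℝ) ≤ s := by exact_mod_cast hs1
  have h4 : δ / s ≤ δ := by
    rw [div_le_iff₀ (by linarith)]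
    nlinarith
  have h5 := mul_le_mul_of_nonneg_right h4 hW
  linarith [h1.1]

/-- upper bound in progressions with small difference -/
theorem fund_up {δ : ℝ} {s : ℕ} (hs : ∀ z : ℕ, 2 ≤ z → ∀ x : ℕ → ℕ → ℝ, Loc x → ∀ N H : ℕ,
      z ^ s ≤ H → |∑ n ∈ Ioc N (N + H), sf z x n - H * WW z x| ≤ (δ / s) * (H * WW z x))
    (hs1 : 1 ≤ s) (hδ : 0 < δ)
    {z y p : ℕ} (hz : 2 ≤ z) (hzp : z < p) (hp : p.Prime) (hzy : z ^ s ≤ y / p) (a : ℕ → ℤ) :
    ((Szp z y p a).card : ℝ) ≤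
      (1 + δ) * (((y : ℝ) / p + 1) * ∏ l ∈ prs z, (1 - 1 / (l : ℝ))) := by
  obtain ⟨r, hr⟩ := card_Szp_le (z := z) (y := y) (p := p) (T := z) (a := a) hp le_rfl
  have h1 := hs z hz (xq r p a) (xq_loc hp) 0 (y / p + 1) (by omega)
  rw [WW_xq hp hzp, abs_le] at h1
  set W : ℝ := ∏ l ∈ prs z, (1 - 1 / (l : ℝ)) with hW
  have hW0 : 0 ≤ W := by
    refine prod_nonneg fun l hl => ?_
    have h2 : (2 : ℝ) ≤ l := by exact_mod_cast (mem_prs.1 hl).1.two_le
    have h3 : 1 / (l : ℝ) ≤ 1 := by rw [div_le_one (by linarith)]; linarith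
    linarith
  have hs' : (1 : ℝ) ≤ s := by exact_mod_cast hs1
  have h4 : δ / s ≤ δ := by
    rw [div_le_iff₀ (by linarith)]
    nlinarith
  have h5 : (((y / p + 1 : ℕ) : ℕ) : ℝ) ≤ (y : ℝ) / p + 1 := by
    push_cast
    have : ((y / p : ℕ) : ℝ) ≤ (y : ℝ) / p := Nat.cast_div_le
    linarith
  have h6 : (((y / p + 1 : ℕ) : ℕ) : ℝ) * W ≤ ((y : ℝ) / p + 1) * W :=
    mul_le_mul_of_nonneg_right h5 hW0
  have h7 : 0 ≤ (((y / p + 1 : ℕ) : ℕ) : ℝ) * W := by positivity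
  have h8 : δ / s * ((((y / p + 1 : ℕ) : ℕ) : ℝ) * W) ≤ δ * ((((y / p + 1 : ℕ) : ℕ) : ℝ) * W) :=
    mul_le_mul_of_nonneg_right h4 h7
  have h9 : (1 + δ) * ((((y / p + 1 : ℕ) : ℕ) : ℝ) * W) ≤ (1 + δ) * (((y : ℝ) / p + 1) * W) :=
    mul_le_mul_of_nonneg_left h6 (by linarith)
  linarith [h1.2]

/-- upper bound in progressions with large difference -/
theorem sieve_up_p : ∃ C : ℝ, 0 < C ∧ ∀ (s z x y p : ℕ) (a : ℕ → ℤ), 1 ≤ s → 2 ≤ z → p.Prime →
    p ≤ x → 2 * x ≤ y → y / p < z ^ s →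
    ((Szp z y p a).card : ℝ) ≤ C * s * ((y : ℝ) / p) / Real.log ((y : ℝ) / p) := by
  obtain ⟨C, hC, hsv⟩ := sieve_up
  refine ⟨4 * C, by positivity, ?_⟩
  intro s z x y p a hs hz hp hpx hxy hyz
  have hp0 : 0 < p := hp.pos
  have hx0 : 0 < x := lt_of_lt_of_le hp0 hpx
  have hq2 : 2 ≤ y / p := by
    refine (Nat.le_div_iff_mul_le hp0).2 (le_trans ?_ hxy)
    exact Nat.mul_le_mul_left 2 hpx
  set T := min z (y / p) with hT
  have hT2 : 2 ≤ T := le_min hz hq2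
  obtain ⟨r, hr⟩ := card_Szp_le (z := z) (y := y) (p := p) (T := T) (a := a) hp (min_le_left _ _)
  have h1 := hsv (xq r p a) {p} (xq_loc hp) (fun l hl => by rw [mem_singleton.1 hl]; exact hp) (by
    rw [sum_singleton, div_le_one (by exact_mod_cast hp0)]
    exact_mod_cast hp0) (fun l hl h => (om_xq hp hl (by simpa using h)).ge) T 0 (y / p + 1) hT2 (by
      have : T ≤ y / p := min_le_right _ _
      omega)
  refine hr.trans (h1.trans ?_)
  have hpr : (0 : ℝ) < p := by exact_mod_cast hp0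
  have hqr : (2 : ℝ) ≤ ((y / p : ℕ) : ℝ) := by exact_mod_cast hq2
  have hcd : ((y / p : ℕ) : ℝ) ≤ (y : ℝ) / p := Nat.cast_div_le
  have hqr2 : (y : ℝ) / p ≤ ((y / p : ℕ) : ℝ) ^ 2 := by
    have h8 : (y : ℝ) / p < ((y / p : ℕ) : ℝ) + 1 := by
      rw [div_lt_iff₀ hpr]
      have h9 : y < (y / p + 1) * p := by
        have := Nat.div_add_mod y p
        have h10 := Nat.mod_lt y hp0
        nlinarith
      exact_mod_cast h9
    nlinarith
  have hlogq : 0 < Real.log ((y : ℝ) / p) := Real.log_pos (by linarith)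
  have hlog : Real.log ((y : ℝ) / p) ≤ 2 * Real.log ((y / p : ℕ) : ℝ) := by
    have := Real.log_le_log (by linarith : (0 : ℝ) < (y : ℝ) / p) hqr2
    rwa [Real.log_pow] at this
  have hTr : (2 : ℝ) ≤ (T : ℝ) := by exact_mod_cast hT2
  have hlogT : 0 < Real.log (T : ℝ) := Real.log_pos (by linarith)
  have hs' : (1 : ℝ) ≤ s := by exact_mod_cast hs
  have hlogT2 : Real.log ((y / p : ℕ) : ℝ) ≤ s * Real.log T := by
    rcases le_total z (y / p) with h | h
    · rw [hT, min_eq_left h]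
      have h2 : ((y / p : ℕ) : ℝ) ≤ (z : ℝ) ^ s := by exact_mod_cast hyz.le
      have := Real.log_le_log (by linarith) h2
      rwa [Real.log_pow] at this
    · rw [hT, min_eq_right h]
      have : 0 < Real.log ((y / p : ℕ) : ℝ) := Real.log_pos (by linarith)
      nlinarith
  have hHle : (((y / p + 1 : ℕ) : ℕ) : ℝ) ≤ 2 * ((y : ℝ) / p) := by
    push_cast
    linarith
  rw [div_le_div_iff₀ hlogT hlogq]
  have h11 : C * (((y / p + 1 : ℕ) : ℕ) : ℝ) ≤ C * (2 * ((y : ℝ) / p)) :=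
    mul_le_mul_of_nonneg_left hHle hC.le
  calc C * (((y / p + 1 : ℕ) : ℕ) : ℝ) * Real.log ((y : ℝ) / p)
      ≤ (C * (2 * ((y : ℝ) / p))) * (2 * (s * Real.log T)) := by
        apply mul_le_mul h11 (by linarith) hlogq.le
        positivity
    _ = 4 * C * s * ((y : ℝ) / p) * Real.log T := by ring

end MF11
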