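import Pool.Agent.MF11.Sums

/-!
# [MF11-AVG] The average number of classes containing an integer which avoids the classes of the small primes
-/

namespace MF11

open Finset YX49 Pool.Agent.E456

open Classical in
/-- the number of the classes of the primes up to `x` which contain `m` -/
noncomputable def mult (x : ℕ) (a : ℕ → ℤ) (m : ℕ) : ℕ :=
  ((Ioc 0 x).filter fun p : ℕ => p.Prime ∧ (m : ℤ) ≡ a p [ZMOD (p : ℤ)]).card

/-- the fundamental lemma with exponent `s` and accuracy `δ / s` -/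
def FL (δ : ℝ) (s : ℕ) : Prop := ∀ z : ℕ, 2 ≤ z → ∀ x : ℕ → ℕ → ℝ, Loc x → ∀ N H : ℕ,
      z ^ s ≤ H → |∑ n ∈ Ioc N (N + H), sf z x n - H * WW z x| ≤ (δ / s) * (H * WW z x)

/-- the density of the complement of the classes of the primes up to `z` -/
noncomputable def Wz (z : ℕ) : ℝ := ∏ l ∈ prs z, (1 - 1 / (l : ℝ))

theorem Wz_nonneg (z : ℕ) : 0 ≤ Wz z := by
  refine prod_nonneg fun l hl => ?_
  have h2 : (2 : ℝ) ≤ l := by exact_mod_cast (mem_prs.1 hl).1.two_le
  have h3 : 1 / (l : ℝ) ≤ 1 := by rw [div_le_one (by linarith)]; linarith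
  linarith

/-- double counting -/
theorem sum_mult {x y z : ℕ} {a : ℕ → ℤ} :
    ∑ m ∈ Sz z y a, (mult x a m : ℝ) =
      ∑ p ∈ (Ioc z x).filter Nat.Prime, ((Szp z y p a).card : ℝ) := by
  classical
  have h1 : ∀ m ∈ Sz z y a, (mult x a m : ℝ) =
      ∑ p ∈ (Ioc z x).filter Nat.Prime, if (m : ℤ) ≡ a p [ZMOD (p : ℤ)] then (1 : ℝ) else 0 := by
    intro m hm
    rw [← sum_filter, sum_const, nsmul_eq_mul, mul_one]
    unfold mult
    congr 2
    ext p
    simp only [mem_filter, mem_Ioc]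
    unfold Sz at hm
    have h2 := (mem_filter.1 hm).2
    constructor
    · rintro ⟨⟨h3, h4⟩, h5, h6⟩
      refine ⟨⟨⟨?_, h4⟩, h5⟩, h6⟩
      by_contra hc
      exact h2 p h5 (not_lt.1 hc) h6
    · rintro ⟨⟨⟨h3, h4⟩, h5⟩, h6⟩
      exact ⟨⟨h5.pos, h4⟩, h5, h6⟩
  rw [sum_congr rfl h1, sum_comm]
  refine sum_congr rfl fun p _ => ?_
  rw [← sum_filter, sum_const, nsmul_eq_mul, mul_one]
  rfl

theorem avg : ∃ C : ℝ, 0 < C ∧ ∀ (δ : ℝ) (s : ℕ), 0 < δ → 1 ≤ s → FL δ s →
    ∀ (x y z : ℕ) (a : ℕ → ℤ), 2 ≤ x → 2 * x ≤ y → y ≤ x ^ 2 → 2 ≤ z → z ^ (2 * s) ≤ y →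
    ∑ m ∈ Sz z y a, (mult x a m : ℝ) ≤
      (1 + δ) * ((y * Wz z) * (Real.log (Real.log x / Real.log z) + C)) +
        C * s * (y * ((1 + LL x y) / Real.log y)) := by
  classical
  obtain ⟨C1, hC1, hmid⟩ := mid_sum
  obtain ⟨C2, hC2, hup⟩ := sieve_up_p
  have hC0 := C0_pos
  have hl2 : 0 < Real.log 2 := Real.log_pos (by norm_num)
  refine ⟨max (C1 + 1 / 2) (C2 * (4 * C0 / Real.log 2)), lt_max_of_lt_left (by positivity), ?_⟩
  intro δ s hδ hs hFL x y z a hx hxy hyx hz hzy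
  set K := max (C1 + 1 / 2) (C2 * (4 * C0 / Real.log 2)) with hK
  have hy0 : (0 : ℝ) < y := by exact_mod_cast (by omega : 0 < y)
  have hy1 : (1 : ℝ) < y := by exact_mod_cast (by omega : 1 < y)
  have hly : 0 < Real.log y := Real.log_pos hy1
  have hW := Wz_nonneg z
  have hL0 := LL_nonneg hx hxy hyx
  have hzx : z ≤ x := by
    have h1 : (z ^ s) ^ 2 ≤ x ^ 2 := by
      rw [← pow_mul, mul_comm s 2]; exact hzy.trans hyx
    have h2 : z ^ s ≤ x := (Nat.pow_le_pow_iff_left (by norm_num)).1 h1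
    exact (Nat.le_self_pow (by omega) z).trans h2
  rw [sum_mult]
  set P := (Ioc z x).filter Nat.Prime with hP
  have hPm : ∀ p ∈ P, z < p ∧ p ≤ x ∧ p.Prime := by
    intro p hp
    obtain ⟨h1, h2⟩ := mem_filter.1 hp
    exact ⟨(mem_Ioc.1 h1).1, (mem_Ioc.1 h1).2, h2⟩
  have hterm : ∀ p ∈ P, ((Szp z y p a).card : ℝ) ≤
      (1 + δ) * (((y : ℝ) / p + 1) * Wz z) +
        (if y < p ^ 2 then C2 * s * ((y : ℝ) / p) / Real.log ((y : ℝ) / p) else 0) := by
    intro p hp
    obtain ⟨h1, h2, h3⟩ := hPm p hp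
    have hp0 : (0 : ℝ) < p := by exact_mod_cast h3.pos
    have hyp : 0 < Real.log ((y : ℝ) / p) := by
      refine Real.log_pos ?_
      rw [lt_div_iff₀ hp0, one_mul]
      exact_mod_cast (by omega : p < y)
    by_cases h4 : z ^ s ≤ y / p
    · have h5 := fund_up hFL hs hδ hz h1 h3 h4 a
      have h6 : (0 : ℝ) ≤ (if y < p ^ 2 then C2 * s * ((y : ℝ) / p) / Real.log ((y : ℝ) / p) else 0) := by
        split_ifs
        · positivity
        · exact le_rfl
      unfold Wz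
      linarith
    · have h5 := hup s z x y p a hs hz h3 h2 hxy (not_le.1 h4)
      have h6 : y < p ^ 2 := by
        have h7 : y < z ^ s * p := (Nat.div_lt_iff_lt_mul h3.pos).1 (not_le.1 h4)
        have h8 : y ^ 2 < (z ^ s * p) ^ 2 := Nat.pow_lt_pow_left h7 (by norm_num)
        have h9 : (z ^ s * p) ^ 2 = z ^ (2 * s) * p ^ 2 := by
          rw [mul_pow, ← pow_mul, mul_comm s 2]
        rw [h9] at h8
        by_contra hc
        have h10 : z ^ (2 * s) * p ^ 2 ≤ y * y := Nat.mul_le_mul hzy (not_lt.1 hc)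
        have h11 : y ^ 2 = y * y := by ring
        omega
      rw [if_pos h6]
      have h12 : 0 ≤ (1 + δ) * (((y : ℝ) / p + 1) * Wz z) := by positivity
      linarith
  refine (sum_le_sum hterm).trans ?_
  rw [sum_add_distrib]
  refine add_le_add ?_ ?_
  · rw [← mul_sum]
    refine mul_le_mul_of_nonneg_left ?_ (by linarith)
    rw [← sum_mul, sum_add_distrib]
    have h1 : ∑ p ∈ P, (y : ℝ) / p = y * ∑ p ∈ P, 1 / (p : ℝ) := by
      rw [mul_sum]
      exact sum_congr rfl fun p _ => by ring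
    have h2 : ∑ _p ∈ P, (1 : ℝ) ≤ y * (1 / 2) := by
      rw [sum_const, nsmul_eq_mul, mul_one]
      have h3 : P.card ≤ x := by
        calc P.card ≤ (Ioc z x).card := card_filter_le _ _
          _ = x - z := Nat.card_Ioc z x
          _ ≤ x := Nat.sub_le _ _
      have h4 : (P.card : ℝ) ≤ x := by exact_mod_cast h3
      have h5 : (2 : ℝ) * x ≤ y := by exact_mod_cast hxy
      linarith
    have h3 := hmid z x hz hzx
    have h4 : (y : ℝ) * ∑ p ∈ P, 1 / (p : ℝ) ≤ y * (Real.log (Real.log x / Real.log z) + C1) :=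
      mul_le_mul_of_nonneg_left h3 hy0.le
    rw [h1]
    have h5 : (y : ℝ) * ∑ p ∈ P, 1 / (p : ℝ) + ∑ _p ∈ P, (1 : ℝ) ≤
        y * (Real.log (Real.log x / Real.log z) + K) := by
      have h6 : C1 + 1 / 2 ≤ K := le_max_left _ _
      have h7 : (y : ℝ) * (C1 + 1 / 2) ≤ y * K := mul_le_mul_of_nonneg_left h6 hy0.le
      linarith
    calc ((y : ℝ) * ∑ p ∈ P, 1 / (p : ℝ) + ∑ _p ∈ P, (1 : ℝ)) * Wz z
        ≤ (y * (Real.log (Real.log x / Real.log z) + K)) * Wz z := mul_le_mul_of_nonneg_right h5 hW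
      _ = _ := by ring
  · rw [← sum_filter]
    have h1 : ∑ p ∈ P.filter (fun p => y < p ^ 2), C2 * s * ((y : ℝ) / p) / Real.log ((y : ℝ) / p) =
        C2 * s * y * ∑ p ∈ P.filter (fun p => y < p ^ 2), 1 / (p : ℝ) / Real.log ((y : ℝ) / p) := by
      rw [mul_sum]
      exact sum_congr rfl fun p _ => by ring
    rw [h1]
    have h2 : ∑ p ∈ P.filter (fun p => y < p ^ 2), 1 / (p : ℝ) / Real.log ((y : ℝ) / p) ≤
        ∑ p ∈ (Ioc 0 x).filter (fun p => p.Prime ∧ y < p ^ 2),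
          1 / (p : ℝ) / Real.log ((y : ℝ) / p) := by
      refine sum_le_sum_of_subset_of_nonneg ?_ ?_
      · intro p hp
        obtain ⟨h3, h4⟩ := mem_filter.1 hp
        obtain ⟨h5, h6, h7⟩ := hPm p h3
        exact mem_filter.2 ⟨mem_Ioc.2 ⟨h7.pos, h6⟩, h7, h4⟩
      · intro p hp _
        obtain ⟨h3, h4, h5⟩ := mem_filter.1 hp
        have h6 := (mem_Ioc.1 h3).2
        have hp0 : (0 : ℝ) < p := by exact_mod_cast h4.pos
        have hyp : 0 ≤ Real.log ((y : ℝ) / p) := by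
          refine Real.log_nonneg ?_
          rw [le_div_iff₀ hp0, one_mul]
          exact_mod_cast (by omega : p ≤ y)
        positivity
    have h3 := large_sum hx hxy hyx
    have h4 : C2 * (4 * C0 / Real.log 2) ≤ K := le_max_right _ _
    calc C2 * s * y * ∑ p ∈ P.filter (fun p => y < p ^ 2), 1 / (p : ℝ) / Real.log ((y : ℝ) / p)
        ≤ C2 * s * y * (4 * C0 / Real.log 2 * ((1 + LL x y) / Real.log y)) :=
          mul_le_mul_of_nonneg_left (h2.trans h3) (by positivity)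
      _ = (C2 * (4 * C0 / Real.log 2)) * (s * (y * ((1 + LL x y) / Real.log y))) := by ring
      _ ≤ K * (s * (y * ((1 + LL x y) / Real.log y))) :=
          mul_le_mul_of_nonneg_right h4 (by positivity)
      _ = _ := by ring

end MF11
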