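import Pool.Agent.MF11.Avg
import Pool.Agent.MF11.FundU

/-!
# [MF11-AVGU] The average number of classes, sharp form
-/

namespace MF11

open Finset YX49 Pool.Agent.E456

/-- the uniform fundamental lemma from the exponent `100 (B1 + 1)` on -/
def FU (B1 : ℕ) : Prop := ∀ B : ℕ, B1 ≤ B → ∀ z : ℕ, 2 ≤ z →
    ∀ x : ℕ → ℕ → ℝ, Loc x → ∀ N H : ℕ, z ^ (100 * (B + 1)) ≤ H →
    |∑ n ∈ Ioc N (N + H), sf z x n - H * WW z x| ≤
      (1 / (100 * ((B : ℝ) + 1)) ^ 3) * (H * WW z x)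

/-- accuracy in terms of the logarithms -/
theorem fu_log {B1 : ℕ} (hF : FU B1) {z H : ℕ} {Q : ℝ} (hz : 2 ≤ z)
    (hzH : z ^ (100 * (B1 + 1)) ≤ H) (hQ1 : 1 < Q) (hQ : Q ≤ H + 1) {x : ℕ → ℕ → ℝ} (hx : Loc x)
    {N H' : ℕ} (hH' : H ≤ H') :
    |∑ n ∈ Ioc N (N + H'), sf z x n - H' * WW z x| ≤
      (8 * (Real.log z / Real.log Q)) * (H' * WW z x) := by
  have hH0 : H ≠ 0 := by
    have : 0 < z ^ (100 * (B1 + 1)) := Nat.pow_pos (by omega)
    omega
  set k := Nat.log z H with hk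
  have hk1 : z ^ k ≤ H := Nat.pow_log_le_self z hH0
  have hk2 : H < z ^ (k + 1) := Nat.lt_pow_succ_log_self (by omega) H
  have hk3 : 100 * (B1 + 1) ≤ k := by
    rw [hk]
    exact (Nat.le_log_iff_pow_le (by omega) hH0).2 hzH
  obtain ⟨B, hB⟩ : ∃ B, k / 100 = B + 1 := ⟨k / 100 - 1, by omega⟩
  have hB1 : B1 ≤ B := by omega
  have hB2 : k + 1 ≤ 2 * (100 * (B + 1)) := by omega
  have h1 := hF B hB1 z hz x hx N H' (by
    calc z ^ (100 * (B + 1)) ≤ z ^ k := Nat.pow_le_pow_right (by omega) (by omega)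
      _ ≤ H := hk1
      _ ≤ H' := hH')
  refine h1.trans ?_
  have hWW : 0 ≤ (H' : ℝ) * WW z x := by
    refine mul_nonneg (by positivity) (prod_nonneg fun l hl => ?_)
    have hl' := (mem_prs.1 hl).1
    have h2 : (0 : ℝ) < l := by exact_mod_cast hl'.pos
    have h3 := hx.half l hl'
    have h4 : om x l / l ≤ 1 := by
      rw [div_le_one h2]
      linarith
    linarith
  refine mul_le_mul_of_nonneg_right ?_ hWW
  have hz1 : (2 : ℝ) ≤ z := by exact_mod_cast hz
  have hlz : 0 < Real.log z := Real.log_pos (by linarith)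
  have hlQ : 0 < Real.log Q := Real.log_pos hQ1
  have hQz : Real.log Q ≤ (k + 1) * Real.log z := by
    have h2 : Q ≤ (z : ℝ) ^ (k + 1) := by
      refine hQ.trans ?_
      exact_mod_cast hk2
    have h3 := Real.log_le_log (by linarith) h2
    rw [Real.log_pow] at h3
    exact_mod_cast h3
  have hD : (1 : ℝ) ≤ 100 * ((B : ℝ) + 1) := by
    have : (0 : ℝ) ≤ (B : ℝ) := Nat.cast_nonneg B
    linarith
  have hD2 : ((k : ℝ) + 1) ≤ 2 * (100 * ((B : ℝ) + 1)) := by exact_mod_cast hB2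
  have h4 : 1 / (100 * ((B : ℝ) + 1)) ^ 3 ≤ 1 / (100 * ((B : ℝ) + 1)) := by
    refine one_div_le_one_div_of_le (by linarith) ?_
    nlinarith [mul_nonneg (sub_nonneg.2 hD) (sub_nonneg.2 hD), sq_nonneg (100 * ((B : ℝ) + 1))]
  refine h4.trans ?_
  rw [← mul_div_assoc, div_le_div_iff₀ (by linarith) hlQ, one_mul]
  calc Real.log Q ≤ (k + 1) * Real.log z := hQz
    _ ≤ (2 * (100 * ((B : ℝ) + 1))) * Real.log z := mul_le_mul_of_nonneg_right hD2 hlz.le
    _ ≤ 8 * Real.log z * (100 * ((B : ℝ) + 1)) := by nlinarith [mul_nonneg hlz.le (by linarith : (0:ℝ) ≤ 100 * ((B : ℝ) + 1))]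

/-- lower bound for the sifted set -/
theorem fu_low {B1 : ℕ} (hF : FU B1) {z y : ℕ} (hz : 2 ≤ z) (hzy : z ^ (100 * (B1 + 1)) ≤ y)
    (hy : 1 < y) (a : ℕ → ℤ) :
    (1 - 8 * (Real.log z / Real.log y)) * (y * Wz z) ≤ ((Sz z y a).card : ℝ) := by
  have h1 := fu_log hF (Q := (y : ℝ)) hz hzy (by exact_mod_cast hy) (by linarith) (loc_xc a)
    (N := 0) (le_refl y)
  rw [WW_xc, ← card_Sz, abs_le] at h1
  unfold Wz
  linarith [h1.1]

/-- upper bound in progressions with small difference -/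
theorem fu_up {B1 : ℕ} (hF : FU B1) {z y p : ℕ} (hz : 2 ≤ z) (hzp : z < p) (hp : p.Prime)
    (hpy : p < y) (hzy : z ^ (100 * (B1 + 1)) ≤ y / p) (a : ℕ → ℤ) :
    ((Szp z y p a).card : ℝ) ≤
      (1 + 8 * (Real.log z / Real.log ((y : ℝ) / p))) * (((y : ℝ) / p + 1) * Wz z) := by
  obtain ⟨r, hr⟩ := card_Szp_le (z := z) (y := y) (p := p) (T := z) (a := a) hp le_rfl
  have hp0 : (0 : ℝ) < p := by exact_mod_cast hp.pos
  have hQ1 : 1 < (y : ℝ) / p := by
    rw [lt_div_iff₀ hp0, one_mul]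
    exact_mod_cast hpy
  have hQ2 : (y : ℝ) / p ≤ ((y / p : ℕ) : ℝ) + 1 := by
    rw [div_le_iff₀ hp0]
    have h9 : y ≤ (y / p + 1) * p := by
      have := Nat.div_add_mod y p
      have h10 := Nat.mod_lt y hp.pos
      nlinarith
    exact_mod_cast h9
  have h1 := fu_log hF hz hzy hQ1 hQ2 (xq_loc (r := r) (b := a) hp) (N := 0)
    (Nat.le_succ (y / p))
  rw [WW_xq hp hzp, abs_le] at h1
  change _ ∧ _ ≤ 8 * (Real.log z / Real.log ((y : ℝ) / p)) * (((y / p + 1 : ℕ) : ℝ) * Wz z) at h1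
  have hW0 := Wz_nonneg z
  have h5 : (((y / p + 1 : ℕ) : ℕ) : ℝ) ≤ (y : ℝ) / p + 1 := by
    push_cast
    have : ((y / p : ℕ) : ℝ) ≤ (y : ℝ) / p := Nat.cast_div_le
    linarith
  have h6 : (((y / p + 1 : ℕ) : ℕ) : ℝ) * Wz z ≤ ((y : ℝ) / p + 1) * Wz z :=
    mul_le_mul_of_nonneg_right h5 hW0
  have hlz : 0 ≤ Real.log z := Real.log_natCast_nonneg z
  have hlQ : 0 < Real.log ((y : ℝ) / p) := Real.log_pos hQ1
  have h7 : (1 + 8 * (Real.log z / Real.log ((y : ℝ) / p))) * ((((y / p + 1 : ℕ) : ℕ) : ℝ) * Wz z) ≤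
      (1 + 8 * (Real.log z / Real.log ((y : ℝ) / p))) * (((y : ℝ) / p + 1) * Wz z) :=
    mul_le_mul_of_nonneg_left h6 (by positivity)
  have h8 : ∑ n ∈ Ioc 0 (0 + (y / p + 1)), sf z (xq r p a) n ≤
      (1 + 8 * (Real.log z / Real.log ((y : ℝ) / p))) * ((((y / p + 1 : ℕ) : ℕ) : ℝ) * Wz z) := by
    have h9 := h1.2
    have e1 : (((y / p).succ : ℕ) : ℝ) * ∏ l ∈ prs z, (1 - 1 / (l : ℝ)) =
      (((y / p + 1 : ℕ) : ℕ) : ℝ) * Wz z := rfl
    rw [e1] at h9
    have e2 : ∑ n ∈ Ioc 0 (0 + (y / p).succ), sf z (xq r p a) n =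
      ∑ n ∈ Ioc 0 (0 + (y / p + 1)), sf z (xq r p a) n := rfl
    rw [e2] at h9
    linarith
  linarith

/-- all primes, with the weight `1 / log (y / p)` -/
theorem all_sum : ∃ C : ℝ, 0 < C ∧ ∀ x y z : ℕ, 2 ≤ x → 2 * x ≤ y → y ≤ x ^ 2 → 2 ≤ z → z ≤ x →
    ∑ p ∈ (Ioc z x).filter Nat.Prime, 1 / (p : ℝ) / Real.log ((y : ℝ) / p) ≤
      C * (Real.log (Real.log x / Real.log z) + 1 + LL x y) / Real.log y := by
  classical
  obtain ⟨C1, hC1, hmid⟩ := mid_sum
  have hC0 := C0_pos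
  have hl2 : 0 < Real.log 2 := Real.log_pos (by norm_num)
  refine ⟨2 + 2 * C1 + 4 * C0 / Real.log 2, by positivity, fun x y z hx hxy hyx hz hzx => ?_⟩
  have hy0 : (0 : ℝ) < y := by exact_mod_cast (by omega : 0 < y)
  have hy1 : (1 : ℝ) < y := by exact_mod_cast (by omega : 1 < y)
  have hly : 0 < Real.log y := Real.log_pos hy1
  have hL0 := LL_nonneg hx hxy hyx
  have hz1 : (1 : ℝ) < z := by exact_mod_cast (by omega : 1 < z)
  have hlz : 0 < Real.log z := Real.log_pos hz1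
  have hΛ0 : 0 ≤ Real.log (Real.log x / Real.log z) := by
    refine Real.log_nonneg ?_
    rw [le_div_iff₀ hlz, one_mul]
    exact Real.log_le_log (by linarith) (by exact_mod_cast hzx)
  set P := (Ioc z x).filter Nat.Prime with hP
  have hPm : ∀ p ∈ P, z < p ∧ p ≤ x ∧ p.Prime := by
    intro p hp
    obtain ⟨h1, h2⟩ := mem_filter.1 hp
    exact ⟨(mem_Ioc.1 h1).1, (mem_Ioc.1 h1).2, h2⟩
  have hterm : ∀ p ∈ P, 1 / (p : ℝ) / Real.log ((y : ℝ) / p) ≤
      2 / Real.log y * (1 / (p : ℝ)) +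
        (if y < p ^ 2 then 1 / (p : ℝ) / Real.log ((y : ℝ) / p) else 0) := by
    intro p hp
    obtain ⟨h1, h2, h3⟩ := hPm p hp
    have hp0 : (0 : ℝ) < p := by exact_mod_cast h3.pos
    split_ifs with h
    · have : 0 ≤ 2 / Real.log y * (1 / (p : ℝ)) := by positivity
      linarith
    · rw [add_zero]
      have h4 : ((p : ℝ)) ^ 2 ≤ y := by exact_mod_cast not_lt.1 h
      have h5 : 2 * Real.log p ≤ Real.log y := by
        have := Real.log_le_log (by positivity) h4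
        rwa [Real.log_pow] at this
      have h6 : Real.log ((y : ℝ) / p) = Real.log y - Real.log p := Real.log_div hy0.ne' hp0.ne'
      have h7 : Real.log y / 2 ≤ Real.log ((y : ℝ) / p) := by rw [h6]; linarith
      calc 1 / (p : ℝ) / Real.log ((y : ℝ) / p) ≤ 1 / (p : ℝ) / (Real.log y / 2) :=
            div_le_div_of_nonneg_left (by positivity) (by positivity) h7
        _ = _ := by field_simp
  refine (sum_le_sum hterm).trans ?_
  rw [sum_add_distrib, ← mul_sum, ← sum_filter]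
  have h2 : ∑ p ∈ P.filter (fun p => y < p ^ 2), 1 / (p : ℝ) / Real.log ((y : ℝ) / p) ≤
      ∑ p ∈ (Ioc 0 x).filter (fun p => p.Prime ∧ y < p ^ 2),
        1 / (p : ℝ) / Real.log ((y : ℝ) / p) := by
    refine sum_le_sum_of_subset_of_nonneg ?_ ?_
    · intro p hp
      obtain ⟨h3, h4⟩ := mem_filter.1 hp
      obtain ⟨h5, h6, h7⟩ := hPm p h3
      exact mem_filter.2 ⟨mem_Ioc.2 ⟨h7.pos, h6⟩, h7, h4⟩
    · intro p hp _
      obtain ⟨h3, h4, h5⟩ := mem_filter.1 hp
      have h6 := (mem_Ioc.1 h3).2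
      have hp0 : (0 : ℝ) < p := by exact_mod_cast h4.pos
      have hyp : 0 ≤ Real.log ((y : ℝ) / p) := by
        refine Real.log_nonneg ?_
        rw [le_div_iff₀ hp0, one_mul]
        exact_mod_cast (by omega : p ≤ y)
      positivity
  have h3 := large_sum hx hxy hyx
  have h4 := hmid z x hz hzx
  have h5 : 2 / Real.log y * ∑ p ∈ P, 1 / (p : ℝ) ≤
      2 / Real.log y * (Real.log (Real.log x / Real.log z) + C1) :=
    mul_le_mul_of_nonneg_left h4 (by positivity)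
  set Λ := Real.log (Real.log x / Real.log z) with hΛ
  set K := 4 * C0 / Real.log 2 with hK
  have hK0 : 0 < K := by positivity
  have h6 : 2 / Real.log y * (Λ + C1) + K * ((1 + LL x y) / Real.log y) =
      (2 * (Λ + C1) + K * (1 + LL x y)) / Real.log y := by ring
  have h7 : 2 * (Λ + C1) + K * (1 + LL x y) ≤ (2 + 2 * C1 + K) * (Λ + 1 + LL x y) := by
    nlinarith [mul_nonneg hC1.le hΛ0, mul_nonneg hC1.le hL0, mul_nonneg hK0.le hΛ0]
  calc 2 / Real.log y * ∑ p ∈ P, 1 / (p : ℝ) +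
        ∑ p ∈ P.filter (fun p => y < p ^ 2), 1 / (p : ℝ) / Real.log ((y : ℝ) / p)
      ≤ 2 / Real.log y * (Λ + C1) + K * ((1 + LL x y) / Real.log y) :=
        add_le_add h5 (h2.trans h3)
    _ = (2 * (Λ + C1) + K * (1 + LL x y)) / Real.log y := h6
    _ ≤ (2 + 2 * C1 + K) * (Λ + 1 + LL x y) / Real.log y :=
        div_le_div_of_nonneg_right h7 hly.le

theorem avgU : ∃ C : ℝ, 0 < C ∧ ∀ B1 : ℕ, FU B1 →
    ∀ (x y z : ℕ) (a : ℕ → ℤ), 2 ≤ x → 2 * x ≤ y → y ≤ x ^ 2 → 2 ≤ z →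
    z ^ (2 * (100 * (B1 + 1))) ≤ y →
    ∑ m ∈ Sz z y a, (mult x a m : ℝ) ≤
      (y * Wz z) * (Real.log (Real.log x / Real.log z) + C +
        C * Real.log z * ((Real.log (Real.log x / Real.log z) + 1 + LL x y) / Real.log y)) +
        C * ((100 * (B1 + 1) : ℕ) : ℝ) * (y * ((1 + LL x y) / Real.log y)) := by
  classical
  obtain ⟨C1, hC1, hmid⟩ := mid_sum
  obtain ⟨C2, hC2, hup⟩ := sieve_up_p
  obtain ⟨C3, hC3, hall⟩ := all_sum
  have hC0 := C0_pos
  have hl2 : 0 < Real.log 2 := Real.log_pos (by norm_num)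
  refine ⟨(C1 + 1 / 2) + 16 * C3 + C2 * (4 * C0 / Real.log 2), by positivity, ?_⟩
  intro B1 hFL x y z a hx hxy hyx hz hzy
  set K := (C1 + 1 / 2) + 16 * C3 + C2 * (4 * C0 / Real.log 2) with hK
  have hK1 : C1 + 1 / 2 ≤ K := by
    have : 0 < C2 * (4 * C0 / Real.log 2) := by positivity
    linarith
  have hK2 : 16 * C3 ≤ K := by
    have : 0 < C2 * (4 * C0 / Real.log 2) := by positivity
    linarith
  have hK3 : C2 * (4 * C0 / Real.log 2) ≤ K := by linarith
  set s : ℕ := 100 * (B1 + 1) with hs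
  have hs1 : 1 ≤ s := by omega
  have hy0 : (0 : ℝ) < y := by exact_mod_cast (by omega : 0 < y)
  have hy1 : (1 : ℝ) < y := by exact_mod_cast (by omega : 1 < y)
  have hly : 0 < Real.log y := Real.log_pos hy1
  have hW := Wz_nonneg z
  have hL0 := LL_nonneg hx hxy hyx
  have hz1 : (1 : ℝ) < z := by exact_mod_cast (by omega : 1 < z)
  have hlz : 0 < Real.log z := Real.log_pos hz1
  have hzx : z ≤ x := by
    have h1 : (z ^ s) ^ 2 ≤ x ^ 2 := by
      rw [← pow_mul, mul_comm s 2]; exact hzy.trans hyx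
    have h2 : z ^ s ≤ x := (Nat.pow_le_pow_iff_left (by norm_num)).1 h1
    exact (Nat.le_self_pow (by omega) z).trans h2
  rw [sum_mult]
  set P := (Ioc z x).filter Nat.Prime with hP
  have hPm : ∀ p ∈ P, z < p ∧ p ≤ x ∧ p.Prime := by
    intro p hp
    obtain ⟨h1, h2⟩ := mem_filter.1 hp
    exact ⟨(mem_Ioc.1 h1).1, (mem_Ioc.1 h1).2, h2⟩
  have hterm : ∀ p ∈ P, ((Szp z y p a).card : ℝ) ≤
      ((y : ℝ) / p + 1) * Wz z +
        16 * y * Wz z * Real.log z * (1 / (p : ℝ) / Real.log ((y : ℝ) / p)) +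
        (if y < p ^ 2 then C2 * s * ((y : ℝ) / p) / Real.log ((y : ℝ) / p) else 0) := by
    intro p hp
    obtain ⟨h1, h2, h3⟩ := hPm p hp
    have hp0 : (0 : ℝ) < p := by exact_mod_cast h3.pos
    have hyp1 : (1 : ℝ) < (y : ℝ) / p := by
      rw [lt_div_iff₀ hp0, one_mul]
      exact_mod_cast (by omega : p < y)
    have hyp : 0 < Real.log ((y : ℝ) / p) := Real.log_pos hyp1
    by_cases h4 : z ^ s ≤ y / p
    · have h5 := fu_up hFL hz h1 h3 (by omega) h4 a
      have h6 : (0 : ℝ) ≤ (if y < p ^ 2 then C2 * s * ((y : ℝ) / p) / Real.log ((y : ℝ) / p) else 0) := by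
        split_ifs
        · positivity
        · exact le_rfl
      have h7 : 8 * (Real.log z / Real.log ((y : ℝ) / p)) * (((y : ℝ) / p + 1) * Wz z) ≤
          16 * y * Wz z * Real.log z * (1 / (p : ℝ) / Real.log ((y : ℝ) / p)) := by
        have h8 : (y : ℝ) / p + 1 ≤ 2 * ((y : ℝ) / p) := by linarith
        calc 8 * (Real.log z / Real.log ((y : ℝ) / p)) * (((y : ℝ) / p + 1) * Wz z)
            ≤ 8 * (Real.log z / Real.log ((y : ℝ) / p)) * ((2 * ((y : ℝ) / p)) * Wz z) := by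
              refine mul_le_mul_of_nonneg_left (mul_le_mul_of_nonneg_right h8 hW) (by positivity)
          _ = _ := by ring
      linarith
    · have h5 := hup s z x y p a hs1 hz h3 h2 hxy (not_le.1 h4)
      have h6 : y < p ^ 2 := by
        have h7 : y < z ^ s * p := (Nat.div_lt_iff_lt_mul h3.pos).1 (not_le.1 h4)
        have h8 : y ^ 2 < (z ^ s * p) ^ 2 := Nat.pow_lt_pow_left h7 (by norm_num)
        have h9 : (z ^ s * p) ^ 2 = z ^ (2 * s) * p ^ 2 := by
          rw [mul_pow, ← pow_mul, mul_comm s 2]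
        rw [h9] at h8
        by_contra hc
        have h10 : z ^ (2 * s) * p ^ 2 ≤ y * y := Nat.mul_le_mul hzy (not_lt.1 hc)
        have h11 : y ^ 2 = y * y := by ring
        omega
      rw [if_pos h6]
      have h12 : 0 ≤ ((y : ℝ) / p + 1) * Wz z := by positivity
      have h13 : 0 ≤ 16 * y * Wz z * Real.log z * (1 / (p : ℝ) / Real.log ((y : ℝ) / p)) := by
        positivity
      linarith
  refine (sum_le_sum hterm).trans ?_
  rw [sum_add_distrib, sum_add_distrib]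
  have hA : ∑ p ∈ P, ((y : ℝ) / p + 1) * Wz z ≤
      (y * Wz z) * (Real.log (Real.log x / Real.log z) + K) := by
    rw [← sum_mul, sum_add_distrib]
    have h1 : ∑ p ∈ P, (y : ℝ) / p = y * ∑ p ∈ P, 1 / (p : ℝ) := by
      rw [mul_sum]
      exact sum_congr rfl fun p _ => by ring
    have h2 : ∑ _p ∈ P, (1 : ℝ) ≤ y * (1 / 2) := by
      rw [sum_const, nsmul_eq_mul, mul_one]
      have h3 : P.card ≤ x := by
        calc P.card ≤ (Ioc z x).card := card_filter_le _ _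
          _ = x - z := Nat.card_Ioc z x
          _ ≤ x := Nat.sub_le _ _
      have h4 : (P.card : ℝ) ≤ x := by exact_mod_cast h3
      have h5 : (2 : ℝ) * x ≤ y := by exact_mod_cast hxy
      linarith
    have h3 := hmid z x hz hzx
    have h4 : (y : ℝ) * ∑ p ∈ P, 1 / (p : ℝ) ≤ y * (Real.log (Real.log x / Real.log z) + C1) :=
      mul_le_mul_of_nonneg_left h3 hy0.le
    rw [h1]
    have h5 : (y : ℝ) * ∑ p ∈ P, 1 / (p : ℝ) + ∑ _p ∈ P, (1 : ℝ) ≤
        y * (Real.log (Real.log x / Real.log z) + K) := by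
      have h7 : (y : ℝ) * (C1 + 1 / 2) ≤ y * K := mul_le_mul_of_nonneg_left hK1 hy0.le
      linarith
    calc ((y : ℝ) * ∑ p ∈ P, 1 / (p : ℝ) + ∑ _p ∈ P, (1 : ℝ)) * Wz z
        ≤ (y * (Real.log (Real.log x / Real.log z) + K)) * Wz z := mul_le_mul_of_nonneg_right h5 hW
      _ = _ := by ring
  have hB : ∑ p ∈ P, 16 * y * Wz z * Real.log z * (1 / (p : ℝ) / Real.log ((y : ℝ) / p)) ≤
      (y * Wz z) * (K * Real.log z *
        ((Real.log (Real.log x / Real.log z) + 1 + LL x y) / Real.log y)) := by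
    rw [← mul_sum]
    have h1 := hall x y z hx hxy hyx hz hzx
    have hΛ0 : 0 ≤ Real.log (Real.log x / Real.log z) := by
      refine Real.log_nonneg ?_
      rw [le_div_iff₀ hlz, one_mul]
      exact Real.log_le_log (by linarith) (by exact_mod_cast hzx)
    calc 16 * y * Wz z * Real.log z * ∑ p ∈ P, 1 / (p : ℝ) / Real.log ((y : ℝ) / p)
        ≤ 16 * y * Wz z * Real.log z *
          (C3 * (Real.log (Real.log x / Real.log z) + 1 + LL x y) / Real.log y) :=
          mul_le_mul_of_nonneg_left h1 (by positivity)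
      _ = (16 * C3) * ((y * Wz z) * (Real.log z *
          ((Real.log (Real.log x / Real.log z) + 1 + LL x y) / Real.log y))) := by ring
      _ ≤ K * ((y * Wz z) * (Real.log z *
          ((Real.log (Real.log x / Real.log z) + 1 + LL x y) / Real.log y))) :=
          mul_le_mul_of_nonneg_right hK2 (by positivity)
      _ = _ := by ring
  have hCC : ∑ p ∈ P, (if y < p ^ 2 then C2 * s * ((y : ℝ) / p) / Real.log ((y : ℝ) / p) else 0) ≤
      K * (s : ℝ) * (y * ((1 + LL x y) / Real.log y)) := by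
    rw [← sum_filter]
    have h1 : ∑ p ∈ P.filter (fun p => y < p ^ 2), C2 * s * ((y : ℝ) / p) / Real.log ((y : ℝ) / p) =
        C2 * s * y * ∑ p ∈ P.filter (fun p => y < p ^ 2), 1 / (p : ℝ) / Real.log ((y : ℝ) / p) := by
      rw [mul_sum]
      exact sum_congr rfl fun p _ => by ring
    rw [h1]
    have h2 : ∑ p ∈ P.filter (fun p => y < p ^ 2), 1 / (p : ℝ) / Real.log ((y : ℝ) / p) ≤
        ∑ p ∈ (Ioc 0 x).filter (fun p => p.Prime ∧ y < p ^ 2),
          1 / (p : ℝ) / Real.log ((y : ℝ) / p) := by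
      refine sum_le_sum_of_subset_of_nonneg ?_ ?_
      · intro p hp
        obtain ⟨h3, h4⟩ := mem_filter.1 hp
        obtain ⟨h5, h6, h7⟩ := hPm p h3
        exact mem_filter.2 ⟨mem_Ioc.2 ⟨h7.pos, h6⟩, h7, h4⟩
      · intro p hp _
        obtain ⟨h3, h4, h5⟩ := mem_filter.1 hp
        have h6 := (mem_Ioc.1 h3).2
        have hp0 : (0 : ℝ) < p := by exact_mod_cast h4.pos
        have hyp : 0 ≤ Real.log ((y : ℝ) / p) := by
          refine Real.log_nonneg ?_
          rw [le_div_iff₀ hp0, one_mul]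
          exact_mod_cast (by omega : p ≤ y)
        positivity
    have h3 := large_sum hx hxy hyx
    calc C2 * s * y * ∑ p ∈ P.filter (fun p => y < p ^ 2), 1 / (p : ℝ) / Real.log ((y : ℝ) / p)
        ≤ C2 * s * y * (4 * C0 / Real.log 2 * ((1 + LL x y) / Real.log y)) :=
          mul_le_mul_of_nonneg_left (h2.trans h3) (by positivity)
      _ = (C2 * (4 * C0 / Real.log 2)) * (s * (y * ((1 + LL x y) / Real.log y))) := by ring
      _ ≤ K * (s * (y * ((1 + LL x y) / Real.log y))) :=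
          mul_le_mul_of_nonneg_right hK3 (by positivity)
      _ = _ := by ring
  calc _ ≤ (y * Wz z) * (Real.log (Real.log x / Real.log z) + K) +
        (y * Wz z) * (K * Real.log z *
        ((Real.log (Real.log x / Real.log z) + 1 + LL x y) / Real.log y)) +
        K * (s : ℝ) * (y * ((1 + LL x y) / Real.log y)) := add_le_add (add_le_add hA hB) hCC
    _ = _ := by ring

end MF11
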