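import Mathlib

/-!
# [MF11-SEQ] Extreme values of the sifting function, abstractly (dimension one)
-/

namespace MF11

open Finset

/-- upper and lower extreme values at the levels `k / n` -/
structure SQ (n I : ℕ) (δ η : ℝ) (u l : ℕ → ℝ) : Prop where
  hn : 2 ≤ n
  hδ : 0 ≤ δ
  hη : 0 ≤ η
  one_le : ∀ k, 1 ≤ u k
  anti : ∀ k m, k ≤ m → u m ≤ u k
  l0 : ∀ k, 0 ≤ l k
  l1 : ∀ k, l k ≤ 1
  mono : ∀ k m, k ≤ m → l k ≤ l m
  U : ∀ j : ℕ, n + 1 ≤ j → j ≤ I → (j : ℝ) * (u j - 1) ≤ δ * ((1 + η) * (I + 1)) +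
    (η * j * (1 - l (j - n)) + (1 + η) * ∑ i ∈ Icc j I, (1 - l (i - n)))
  L : ∀ j : ℕ, n + 1 ≤ j → j ≤ I → (j : ℝ) * (1 - l j) ≤ δ * ((1 + η) * (I + 1)) +
    (η * j * (u (j - n) - 1) + (1 + η) * ∑ i ∈ Icc j I, (u (i - n) - 1))
  small : ∀ k b : ℕ, 1 ≤ k → k ≤ b → u k ≤ u b * ((1 + η) * (b / k))

/-- smallness of the errors -/
structure Sm (n I : ℕ) (δ η τ : ℝ) : Prop where
  hI : 3 * n ≤ I
  hτ : 0 ≤ τ
  hτ1 : τ ≤ 1
  d : δ * ((I : ℝ) + 1) ^ 2 ≤ τ * n ^ 2
  e : η * ((I : ℝ) + 1) ^ 2 ≤ τ * n ^ 2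

theorem harm_two {n : ℕ} (hn : 1 ≤ n) : Real.log 2 ≤ ∑ k ∈ Ico n (2 * n), 1 / (k : ℝ) := by
  have h1 : ∀ m : ℕ, n ≤ m → Real.log (m : ℝ) - Real.log (n : ℝ) ≤ ∑ k ∈ Ico n m, 1 / (k : ℝ) := by
    intro m hm
    induction m, hm using Nat.le_induction with
    | base => simp
    | succ m hm ih =>
      rw [sum_Ico_succ_top hm]
      have hm0 : (0 : ℝ) < m := by exact_mod_cast (by omega : 0 < m)
      have h2 : Real.log ((m + 1 : ℕ) : ℝ) - Real.log (m : ℝ) ≤ 1 / (m : ℝ) := by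
        rw [← Real.log_div (by positivity) hm0.ne']
        have h3 : (((m + 1 : ℕ) : ℝ)) / m = 1 + 1 / m := by
          push_cast
          field_simp
        rw [h3]
        have := Real.log_le_sub_one_of_pos (show (0 : ℝ) < 1 + 1 / m by positivity)
        linarith
      linarith
  have h2 := h1 (2 * n) (by omega)
  have hn0 : (0 : ℝ) < n := by exact_mod_cast (by omega : 0 < n)
  rw [← Real.log_div (by positivity) hn0.ne'] at h2
  have h3 : (((2 * n : ℕ) : ℝ)) / n = 2 := by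
    push_cast
    field_simp
  rwa [h3] at h2

section

variable {n I : ℕ} {δ η τ : ℝ} {u l : ℕ → ℝ} (h : SQ n I δ η u l) (hs : Sm n I δ η τ)

include h hs in
theorem basic_small : δ * ((I : ℝ) + 1) ≤ τ * n ∧ η * ((I : ℝ) + 1) ≤ τ * n ∧ η ≤ τ ∧ η ≤ 1 := by
  have hn0 : (0 : ℝ) < n := by exact_mod_cast (by have := h.hn; omega : 0 < n)
  have hI : (n : ℝ) ≤ (I : ℝ) + 1 := by
    have h1 := hs.hI
    have : n ≤ I := by omega
    have h2 : (n : ℝ) ≤ I := by exact_mod_cast this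
    linarith
  have h1 : δ * ((I : ℝ) + 1) * n ≤ τ * n * n := by
    calc δ * ((I : ℝ) + 1) * n ≤ δ * ((I : ℝ) + 1) * (I + 1) :=
          mul_le_mul_of_nonneg_left hI (mul_nonneg h.hδ (by positivity))
      _ = δ * ((I : ℝ) + 1) ^ 2 := by ring
      _ ≤ τ * n ^ 2 := hs.d
      _ = _ := by ring
  have h2 : η * ((I : ℝ) + 1) * n ≤ τ * n * n := by
    calc η * ((I : ℝ) + 1) * n ≤ η * ((I : ℝ) + 1) * (I + 1) :=
          mul_le_mul_of_nonneg_left hI (mul_nonneg h.hη (by positivity))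
      _ = η * ((I : ℝ) + 1) ^ 2 := by ring
      _ ≤ τ * n ^ 2 := hs.e
      _ = _ := by ring
  have h3 : η * ((I : ℝ) + 1) ≤ τ * n := le_of_mul_le_mul_right h2 hn0
  have h4 : η * n ≤ τ * n := (mul_le_mul_of_nonneg_left hI h.hη).trans h3
  have h5 : η ≤ τ := le_of_mul_le_mul_right h4 hn0
  exact ⟨le_of_mul_le_mul_right h1 hn0, h3, h5, h5.trans hs.hτ1⟩

include h hs in
theorem u_n_le {k : ℕ} (hk : n ≤ k) : u k ≤ 4 * u (2 * n) := by
  obtain ⟨_, _, _, h4⟩ := basic_small h hs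
  have hn0 : (0 : ℝ) < n := by exact_mod_cast (by have := h.hn; omega : 0 < n)
  have h1 := h.small n (2 * n) (by have := h.hn; omega) (by omega)
  have h2 : (((2 * n : ℕ) : ℝ)) / n = 2 := by
    push_cast
    field_simp
  rw [h2] at h1
  have h3 := h.one_le (2 * n)
  have h5 := h.anti n k hk
  nlinarith

/-- the sum of `u - 1` over the levels from `2` on -/
noncomputable def PP (n I : ℕ) (u : ℕ → ℝ) : ℝ := ∑ k ∈ Icc (2 * n) (I - n), (u k - 1)

/-- the sum of `1 - l` over the levels from `2` on -/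
noncomputable def QQ (n I : ℕ) (l : ℕ → ℝ) : ℝ := ∑ k ∈ Icc (2 * n) (I - n), (1 - l k)

theorem double_sum {a b n : ℕ} (hna : n ≤ a) (hab : a ≤ b) (f : ℕ → ℝ) :
    ∑ j ∈ Icc a b, ∑ i ∈ Icc j b, f (i - n) =
      ∑ k ∈ Icc (a - n) (b - n), ((k : ℝ) + n - a + 1) * f k := by
  have h1 : ∑ j ∈ Icc a b, ∑ i ∈ Icc j b, f (i - n) =
      ∑ i ∈ Icc a b, ∑ j ∈ Icc a i, f (i - n) := by
    refine sum_comm' ?_
    intro j i
    simp only [mem_Icc]
    omega
  rw [h1]
  have h2 : ∀ i ∈ Icc a b, ∑ j ∈ Icc a i, f (i - n) = ((i : ℝ) - a + 1) * f (i - n) := by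
    intro i hi
    obtain ⟨h3, h4⟩ := mem_Icc.1 hi
    rw [sum_const, Nat.card_Icc, nsmul_eq_mul, Nat.cast_sub (by omega)]
    push_cast
    ring
  rw [sum_congr rfl h2]
  refine sum_nbij' (fun i => i - n) (fun k => k + n) ?_ ?_ ?_ ?_ ?_
  · intro i hi
    rw [mem_Icc] at hi ⊢
    omega
  · intro k hk
    rw [mem_Icc] at hk ⊢
    omega
  · intro i hi
    rw [mem_Icc] at hi
    change i - n + n = i
    omega
  · intro k hk
    change k + n - n = k
    omega
  · intro i hi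
    rw [mem_Icc] at hi
    change _ = (((i - n : ℕ) : ℝ) + n - a + 1) * f (i - n)
    rw [Nat.cast_sub (by omega)]
    ring

/-- shift of the summation index -/
theorem shift_sum {a b n : ℕ} (hna : n ≤ a) (f : ℕ → ℝ) :
    ∑ i ∈ Icc (a + n) b, f (i - n) = ∑ k ∈ Icc a (b - n), f k := by
  rcases Nat.lt_or_ge b (a + n) with hb | hb
  · rw [Icc_eq_empty (by omega), sum_empty, Icc_eq_empty (by omega), sum_empty]
  · refine sum_nbij' (fun i => i - n) (fun k => k + n) ?_ ?_ ?_ ?_ ?_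
    · intro i hi
      rw [mem_Icc] at hi ⊢
      omega
    · intro k hk
      rw [mem_Icc] at hk ⊢
      omega
    · intro i hi
      rw [mem_Icc] at hi
      change i - n + n = i
      omega
    · intro k hk
      change k + n - n = k
      omega
    · intro i hi
      rfl

include h hs in
/-- the inequality for the gap at one level -/
theorem gap_j {j : ℕ} (hj : 2 * n ≤ j) (hjI : j ≤ I) :
    (j : ℝ) * (u j - l j) ≤ ∑ i ∈ Icc j I, (u (i - n) - l (i - n)) +
      (4 * δ * (I + 1) + 8 * (u (2 * n)) * (η * (I + 1))) := by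
  obtain ⟨h1, h2, h3, h4⟩ := basic_small h hs
  have hn0 : (0 : ℝ) < n := by exact_mod_cast (by have := h.hn; omega : 0 < n)
  have hn2 := h.hn
  have hU := h.U j (by omega) hjI
  have hL := h.L j (by omega) hjI
  have hI0 : (0 : ℝ) ≤ (I : ℝ) := Nat.cast_nonneg I
  have hj0 : (0 : ℝ) ≤ (j : ℝ) := Nat.cast_nonneg j
  have hjI' : (j : ℝ) ≤ (I : ℝ) := by exact_mod_cast hjI
  have hu2 : 1 ≤ u (2 * n) := h.one_le _
  have hG : ∀ k, n ≤ k → u k - l k ≤ 4 * u (2 * n) := fun k hk => by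
    have := u_n_le h hs hk
    have := h.l0 k
    linarith
  have hsum : ∑ i ∈ Icc j I, (u (i - n) - l (i - n)) =
      ∑ i ∈ Icc j I, (1 - l (i - n)) + ∑ i ∈ Icc j I, (u (i - n) - 1) := by
    rw [← sum_add_distrib]
    exact sum_congr rfl fun i _ => by ring
  have hsumle : ∑ i ∈ Icc j I, (u (i - n) - l (i - n)) ≤ (I : ℝ) * (4 * u (2 * n)) := by
    calc ∑ i ∈ Icc j I, (u (i - n) - l (i - n)) ≤ ∑ _i ∈ Icc j I, 4 * u (2 * n) :=
          sum_le_sum fun i hi => hG _ (by have := (mem_Icc.1 hi).1; omega)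
      _ = ((Icc j I).card : ℝ) * (4 * u (2 * n)) := by rw [sum_const, nsmul_eq_mul]
      _ ≤ (I : ℝ) * (4 * u (2 * n)) := by
          refine mul_le_mul_of_nonneg_right ?_ (by linarith)
          rw [Nat.card_Icc]
          exact_mod_cast (by omega : I + 1 - j ≤ I)
  have hGj := hG (j - n) (by omega)
  have hδ1 : δ * ((1 + η) * (I + 1)) ≤ 2 * δ * (I + 1) := by
    have : 0 ≤ δ * ((I : ℝ) + 1) := mul_nonneg h.hδ (by positivity)
    nlinarith
  have e1 : η * j * (u (j - n) - l (j - n)) ≤ 4 * u (2 * n) * (η * (I + 1)) := by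
    have h5 : η * j ≤ η * (I + 1) := mul_le_mul_of_nonneg_left (by linarith) h.hη
    have h6 : 0 ≤ η * (j : ℝ) := mul_nonneg h.hη hj0
    calc η * j * (u (j - n) - l (j - n)) ≤ η * j * (4 * u (2 * n)) :=
          mul_le_mul_of_nonneg_left hGj h6
      _ ≤ (η * (I + 1)) * (4 * u (2 * n)) := mul_le_mul_of_nonneg_right h5 (by linarith)
      _ = _ := by ring
  have e2 : η * ∑ i ∈ Icc j I, (u (i - n) - l (i - n)) ≤ 4 * u (2 * n) * (η * (I + 1)) := by
    calc η * ∑ i ∈ Icc j I, (u (i - n) - l (i - n)) ≤ η * ((I : ℝ) * (4 * u (2 * n))) :=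
          mul_le_mul_of_nonneg_left hsumle h.hη
      _ ≤ η * (((I : ℝ) + 1) * (4 * u (2 * n))) := by
          refine mul_le_mul_of_nonneg_left ?_ h.hη
          exact mul_le_mul_of_nonneg_right (by linarith) (by linarith)
      _ = _ := by ring
  have e3 : η * j * (1 - l (j - n)) + η * j * (u (j - n) - 1) =
      η * j * (u (j - n) - l (j - n)) := by ring
  have e4 : (j : ℝ) * (u j - l j) = j * (u j - 1) + j * (1 - l j) := by ring
  rw [e4]
  rw [hsum] at e2 ⊢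
  linarith

include h hs in
/-- the total gap from the level `2` on -/
theorem gap_total : PP n I u + QQ n I l ≤
    n * (2 * u (2 * n) * ((1 - Real.log 2) + 1 / ((n : ℝ) - 1) + 14 * τ)) := by
  obtain ⟨h1, h2, h3, h4⟩ := basic_small h hs
  have hn2 := h.hn
  have hI := hs.hI
  have hn2' : (2 : ℝ) ≤ n := by exact_mod_cast hn2
  have hn0 : (0 : ℝ) < n := by linarith
  have hn1 : (0 : ℝ) < (n : ℝ) - 1 := by linarith
  have hu2 : 1 ≤ u (2 * n) := h.one_le _
  have hG0 : ∀ k, 0 ≤ u k - l k := fun k => by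
    have := h.one_le k
    have := h.l1 k
    linarith
  set c : ℝ := 4 * δ * (I + 1) + 8 * (u (2 * n)) * (η * (I + 1)) with hc
  have hc0 : 0 ≤ c := by
    have := mul_nonneg h.hδ (by positivity : (0 : ℝ) ≤ (I : ℝ) + 1)
    have := mul_nonneg h.hη (by positivity : (0 : ℝ) ≤ (I : ℝ) + 1)
    have : 0 ≤ 8 * u (2 * n) * (η * (I + 1)) := by positivity
    linarith
  have hsum : ∑ j ∈ Icc (2 * n) I, (j : ℝ) * (u j - l j) ≤
      ∑ j ∈ Icc (2 * n) I, (∑ i ∈ Icc j I, (u (i - n) - l (i - n)) + c) :=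
    sum_le_sum fun j hj => gap_j h hs (mem_Icc.1 hj).1 (mem_Icc.1 hj).2
  rw [sum_add_distrib, double_sum (f := fun k => u k - l k) (by omega) (by omega), sum_const,
    nsmul_eq_mul] at hsum
  have e1 : 2 * n - n = n := by omega
  rw [e1] at hsum
  have hcard : ((Icc (2 * n) I).card : ℝ) * c ≤ 12 * τ * n ^ 2 * u (2 * n) := by
    have h5 : ((Icc (2 * n) I).card : ℝ) ≤ (I : ℝ) + 1 := by
      rw [Nat.card_Icc]
      exact_mod_cast (by omega : I + 1 - 2 * n ≤ I + 1)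
    calc ((Icc (2 * n) I).card : ℝ) * c ≤ ((I : ℝ) + 1) * c := mul_le_mul_of_nonneg_right h5 hc0
      _ = 4 * (δ * ((I : ℝ) + 1) ^ 2) + 8 * u (2 * n) * (η * ((I : ℝ) + 1) ^ 2) := by
          rw [hc]; ring
      _ ≤ 4 * (τ * n ^ 2) + 8 * u (2 * n) * (τ * n ^ 2) := by
          refine add_le_add ?_ ?_
          · have := hs.d
            linarith
          · exact mul_le_mul_of_nonneg_left hs.e (by linarith)
      _ ≤ 4 * (τ * n ^ 2) * u (2 * n) + 8 * u (2 * n) * (τ * n ^ 2) := by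
          have : 0 ≤ 4 * (τ * (n : ℝ) ^ 2) := by
            have := hs.hτ
            positivity
          nlinarith
      _ = _ := by ring
  -- the left side
  have hleft : ∑ k ∈ Icc (2 * n) (I - n), (k : ℝ) * (u k - l k) ≤
      ∑ j ∈ Icc (2 * n) I, (j : ℝ) * (u j - l j) := by
    refine sum_le_sum_of_subset_of_nonneg (Icc_subset_Icc_right (by omega)) fun k _ _ =>
      mul_nonneg (Nat.cast_nonneg k) (hG0 k)
  -- split the right side
  have hsplit : ∑ k ∈ Icc n (I - n), ((k : ℝ) + n - (2 * n : ℕ) + 1) * (u k - l k) =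
      ∑ k ∈ Ico n (2 * n), ((k : ℝ) + n - (2 * n : ℕ) + 1) * (u k - l k) +
      ∑ k ∈ Icc (2 * n) (I - n), ((k : ℝ) + n - (2 * n : ℕ) + 1) * (u k - l k) := by
    rw [← sum_union]
    · congr 1
      ext k
      simp only [mem_union, mem_Icc, mem_Ico]
      omega
    · rw [disjoint_left]
      intro k hk hk'
      simp only [mem_Icc, mem_Ico] at hk hk'
      omega
  rw [hsplit] at hsum
  have hdiff : ∑ k ∈ Icc (2 * n) (I - n), (k : ℝ) * (u k - l k) -
      ∑ k ∈ Icc (2 * n) (I - n), ((k : ℝ) + n - (2 * n : ℕ) + 1) * (u k - l k) =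
      ((n : ℝ) - 1) * (PP n I u + QQ n I l) := by
    unfold PP QQ
    rw [← sum_sub_distrib, ← sum_add_distrib, mul_sum]
    refine sum_congr rfl fun k _ => ?_
    push_cast
    ring
  have hpiece : ∑ k ∈ Ico n (2 * n), ((k : ℝ) + n - (2 * n : ℕ) + 1) * (u k - l k) ≤
      2 * u (2 * n) * (1 + η) * n * (n - (n - 1) * Real.log 2) := by
    have h5 : ∀ k ∈ Ico n (2 * n), ((k : ℝ) + n - (2 * n : ℕ) + 1) * (u k - l k) ≤
        (2 * u (2 * n) * (1 + η) * n) * (1 - (n - 1) * (1 / (k : ℝ))) := by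
      intro k hk
      obtain ⟨h6, h7⟩ := mem_Ico.1 hk
      have hk0 : (0 : ℝ) < k := by exact_mod_cast (by omega : 0 < k)
      have h8 := h.small k (2 * n) (by omega) (by omega)
      have h9 := h.l0 k
      have hnk : (n : ℝ) ≤ k := by exact_mod_cast h6
      have h10 : u k - l k ≤ u (2 * n) * ((1 + η) * (((2 * n : ℕ) : ℝ) / k)) := by linarith
      have h11 : 0 ≤ (k : ℝ) + n - (2 * n : ℕ) + 1 := by
        push_cast
        linarith
      refine (mul_le_mul_of_nonneg_left h10 h11).trans (le_of_eq ?_)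
      push_cast
      field_simp
      ring
    refine (sum_le_sum h5).trans ?_
    rw [← mul_sum, sum_sub_distrib, ← mul_sum, sum_const, Nat.card_Ico, nsmul_eq_mul, mul_one]
    have h6 := harm_two (n := n) (by omega)
    have h7 : (((2 * n - n : ℕ)) : ℝ) = n := by
      rw [e1]
    rw [h7]
    refine mul_le_mul_of_nonneg_left ?_ ?_
    · have := mul_le_mul_of_nonneg_left h6 hn1.le
      linarith
    · have := h.hη
      positivity
  have hmain : ((n : ℝ) - 1) * (PP n I u + QQ n I l) ≤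
      2 * u (2 * n) * (1 + η) * n * (n - (n - 1) * Real.log 2) + 12 * τ * n ^ 2 * u (2 * n) := by
    linarith
  have hl2 : 0 < Real.log 2 := Real.log_pos (by norm_num)
  have hl21 : Real.log 2 ≤ 1 := by
    have := Real.log_two_lt_d9
    linarith
  have hfin : 2 * u (2 * n) * (1 + η) * n * (n - (n - 1) * Real.log 2) + 12 * τ * n ^ 2 * u (2 * n) ≤
      ((n : ℝ) - 1) * (n * (2 * u (2 * n) * ((1 - Real.log 2) + 1 / ((n : ℝ) - 1) + 14 * τ))) := by
    have h5 : ((n : ℝ) - 1) * (n * (2 * u (2 * n) * ((1 - Real.log 2) + 1 / ((n : ℝ) - 1) + 14 * τ))) =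
        (2 * u (2 * n) * n) * ((n - 1) * (1 - Real.log 2) + 1 + 14 * τ * (n - 1)) := by
      field_simp
    have h6 : 2 * u (2 * n) * (1 + η) * n * (n - (n - 1) * Real.log 2) + 12 * τ * n ^ 2 * u (2 * n) =
        (2 * u (2 * n) * n) * ((1 + η) * ((n - 1) * (1 - Real.log 2) + 1) + 6 * τ * n) := by ring
    rw [h5, h6]
    refine mul_le_mul_of_nonneg_left ?_ (by positivity)
    have h7 : η * ((n - 1) * (1 - Real.log 2) + 1) ≤ τ * n := by
      have h8 : (n - 1) * (1 - Real.log 2) + 1 ≤ (n : ℝ) := by nlinarith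
      have h9 : 0 ≤ ((n : ℝ) - 1) * (1 - Real.log 2) + 1 := by
        have : 0 ≤ ((n : ℝ) - 1) * (1 - Real.log 2) := mul_nonneg hn1.le (by linarith)
        linarith
      calc η * (((n : ℝ) - 1) * (1 - Real.log 2) + 1) ≤ τ * (((n : ℝ) - 1) * (1 - Real.log 2) + 1) :=
            mul_le_mul_of_nonneg_right h3 h9
        _ ≤ τ * n := mul_le_mul_of_nonneg_left h8 hs.hτ
    have h10 : τ * n ≤ 2 * (τ * (n - 1)) := by
      have := hs.hτ
      nlinarith
    linarith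
  exact le_of_mul_le_mul_left (hmain.trans hfin) hn1

include h hs in
/-- the upper extreme value at the level `2` -/
theorem up_two : n * (2 * (u (2 * n) - 1)) ≤ n * (1 + 4 * τ) + QQ n I l := by
  obtain ⟨h1, h2, h3, h4⟩ := basic_small h hs
  have hn2 := h.hn
  have hI := hs.hI
  have hn0 : (0 : ℝ) < n := by exact_mod_cast (by omega : 0 < n)
  have hU := h.U (2 * n) (by omega) (by omega)
  have hδ1 : δ * ((1 + η) * (I + 1)) ≤ 2 * (τ * n) := by
    have : 0 ≤ δ * ((I : ℝ) + 1) := mul_nonneg h.hδ (by positivity)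
    nlinarith
  have e0 : 2 * n = n + n := by ring
  have e1 : ∑ i ∈ Icc (2 * n) I, (1 - l (i - n)) = ∑ k ∈ Icc n (I - n), (1 - l k) := by
    rw [e0]
    exact shift_sum (f := fun k => 1 - l k) le_rfl
  have e2 : ∑ k ∈ Icc n (I - n), (1 - l k) =
      ∑ k ∈ Ico n (2 * n), (1 - l k) + QQ n I l := by
    unfold QQ
    rw [← sum_union]
    · congr 1
      ext k
      simp only [mem_union, mem_Icc, mem_Ico]
      omega
    · rw [disjoint_left]
      intro k hk hk'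
      simp only [mem_Icc, mem_Ico] at hk hk'
      omega
  have e3 : ∑ k ∈ Ico n (2 * n), (1 - l k) ≤ n := by
    calc ∑ k ∈ Ico n (2 * n), (1 - l k) ≤ ∑ _k ∈ Ico n (2 * n), (1 : ℝ) :=
          sum_le_sum fun k _ => by have := h.l0 k; linarith
      _ = n := by
          rw [sum_const, Nat.card_Ico, nsmul_eq_mul, mul_one]
          have : 2 * n - n = n := by omega
          rw [this]
  have e4 : ∑ k ∈ Icc n (I - n), (1 - l k) ≤ (I : ℝ) + 1 := by
    calc ∑ k ∈ Icc n (I - n), (1 - l k) ≤ ∑ _k ∈ Icc n (I - n), (1 : ℝ) :=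
          sum_le_sum fun k _ => by have := h.l0 k; linarith
      _ = ((Icc n (I - n)).card : ℝ) := by rw [sum_const, nsmul_eq_mul, mul_one]
      _ ≤ (I : ℝ) + 1 := by
          rw [Nat.card_Icc]
          exact_mod_cast (by omega : I - n + 1 - n ≤ I + 1)
  have e5 : η * ∑ k ∈ Icc n (I - n), (1 - l k) ≤ τ * n :=
    (mul_le_mul_of_nonneg_left e4 h.hη).trans h2
  have e6 : η * ((2 * n : ℕ) : ℝ) * (1 - l (2 * n - n)) ≤ τ * n := by
    have h5 : 1 - l (2 * n - n) ≤ 1 := by have := h.l0 (2 * n - n); linarith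
    have h6 : 0 ≤ η * ((2 * n : ℕ) : ℝ) := mul_nonneg h.hη (Nat.cast_nonneg _)
    have h7 : ((2 * n : ℕ) : ℝ) ≤ (I : ℝ) + 1 := by
      have : ((2 * n : ℕ) : ℝ) ≤ (I : ℝ) := by exact_mod_cast (by omega : 2 * n ≤ I)
      linarith
    calc η * ((2 * n : ℕ) : ℝ) * (1 - l (2 * n - n)) ≤ η * ((2 * n : ℕ) : ℝ) * 1 :=
          mul_le_mul_of_nonneg_left h5 h6
      _ = η * ((2 * n : ℕ) : ℝ) := mul_one _
      _ ≤ η * ((I : ℝ) + 1) := mul_le_mul_of_nonneg_left h7 h.hη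
      _ ≤ τ * n := h2
  rw [e1] at hU
  have e7 : ((2 * n : ℕ) : ℝ) * (u (2 * n) - 1) = n * (2 * (u (2 * n) - 1)) := by
    push_cast
    ring
  rw [e7] at hU
  linarith

include h hs in
/-- the lower extreme value at the level `s` -/
theorem lo_s {s : ℕ} (hs3 : 3 ≤ s) (hsI : s * n ≤ I) :
    n * (s * (1 - l (s * n))) ≤ n * (8 * τ * u (2 * n)) +
      ∑ k ∈ Icc ((s - 1) * n) (I - n), (u k - 1) := by
  obtain ⟨h1, h2, h3, h4⟩ := basic_small h hs
  have hn2 := h.hn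
  have hI := hs.hI
  have hn0 : (0 : ℝ) < n := by exact_mod_cast (by omega : 0 < n)
  have hu2 : 1 ≤ u (2 * n) := h.one_le _
  obtain ⟨r, rfl⟩ : ∃ r, s = r + 3 := ⟨s - 3, by omega⟩
  have hsn : (r + 3) * n = (r + 2) * n + n := by ring
  have hrn : 2 * n ≤ (r + 2) * n := Nat.mul_le_mul_right n (by omega)
  have hL := h.L ((r + 3) * n) (by omega) hsI
  have hδ1 : δ * ((1 + η) * (I + 1)) ≤ 2 * (τ * n) := by
    have : 0 ≤ δ * ((I : ℝ) + 1) := mul_nonneg h.hδ (by positivity)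
    nlinarith
  have e1 : ∑ i ∈ Icc ((r + 3) * n) I, (u (i - n) - 1) = ∑ k ∈ Icc ((r + 2) * n) (I - n), (u k - 1) := by
    rw [hsn]
    exact shift_sum (f := fun k => u k - 1) (by omega)
  have e3 : ∀ k, 2 * n ≤ k → u k - 1 ≤ u (2 * n) := fun k hk => by
    have := h.anti (2 * n) k hk
    linarith
  have e4 : ∑ k ∈ Icc ((r + 2) * n) (I - n), (u k - 1) ≤ ((I : ℝ) + 1) * u (2 * n) := by
    calc ∑ k ∈ Icc ((r + 2) * n) (I - n), (u k - 1) ≤ ∑ _k ∈ Icc ((r + 2) * n) (I - n), u (2 * n) :=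
          sum_le_sum fun k hk => e3 k (by have := (mem_Icc.1 hk).1; omega)
      _ = ((Icc ((r + 2) * n) (I - n)).card : ℝ) * u (2 * n) := by rw [sum_const, nsmul_eq_mul]
      _ ≤ ((I : ℝ) + 1) * u (2 * n) := by
          refine mul_le_mul_of_nonneg_right ?_ (by linarith)
          rw [Nat.card_Icc]
          exact_mod_cast (by omega : I - n + 1 - (r + 2) * n ≤ I + 1)
  have e5 : η * ∑ k ∈ Icc ((r + 2) * n) (I - n), (u k - 1) ≤ (τ * n) * u (2 * n) := by
    calc _ ≤ η * (((I : ℝ) + 1) * u (2 * n)) := mul_le_mul_of_nonneg_left e4 h.hη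
      _ = (η * ((I : ℝ) + 1)) * u (2 * n) := by ring
      _ ≤ _ := mul_le_mul_of_nonneg_right h2 (by linarith)
  have e8 : (r + 3) * n - n = (r + 2) * n := by omega
  have e6 : η * (((r + 3) * n : ℕ) : ℝ) * (u ((r + 3) * n - n) - 1) ≤ (τ * n) * u (2 * n) := by
    rw [e8]
    have h5 := e3 ((r + 2) * n) hrn
    have h6 : 0 ≤ η * (((r + 3) * n : ℕ) : ℝ) := mul_nonneg h.hη (Nat.cast_nonneg _)
    have h7 : (((r + 3) * n : ℕ) : ℝ) ≤ (I : ℝ) + 1 := by
      have : (((r + 3) * n : ℕ) : ℝ) ≤ (I : ℝ) := by exact_mod_cast hsI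
      linarith
    calc η * (((r + 3) * n : ℕ) : ℝ) * (u ((r + 2) * n) - 1) ≤
          η * (((r + 3) * n : ℕ) : ℝ) * u (2 * n) := mul_le_mul_of_nonneg_left h5 h6
      _ ≤ (η * ((I : ℝ) + 1)) * u (2 * n) := by
          refine mul_le_mul_of_nonneg_right ?_ (by linarith)
          exact mul_le_mul_of_nonneg_left h7 h.hη
      _ ≤ _ := mul_le_mul_of_nonneg_right h2 (by linarith)
  have e7 : (((r + 3) * n : ℕ) : ℝ) * (1 - l ((r + 3) * n)) =
      n * (((r + 3 : ℕ) : ℝ) * (1 - l ((r + 3) * n))) := by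
    push_cast
    ring
  have e9 : r + 3 - 1 = r + 2 := by omega
  rw [e9]
  rw [e1, e7] at hL
  have h10 : 2 * (τ * n) ≤ 2 * (τ * n) * u (2 * n) := by
    have : 0 ≤ 2 * (τ * (n : ℝ)) := by
      have := hs.hτ
      positivity
    nlinarith
  have h11 : 0 ≤ τ * n * u (2 * n) := by
    have := hs.hτ
    positivity
  nlinarith

end

end MF11
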