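import Pool.Agent.MF11.PSum
import Pool.Agent.MF11.Seq

/-!
# [MF11-LAYER] The sum over the large primes of level at least two
-/

namespace MF11

open Finset

/-- level index of a prime -/
noncomputable def kq (n s : ℕ) (LD : ℝ) (q : ℕ) : ℕ := ⌊(n : ℝ) * s * (1 - Real.log q / LD)⌋₊

/-- the weights of the layers -/
noncomputable def wt (n s i : ℕ) : ℝ := 1 / ((s : ℝ) * n - i - 1)

theorem harm_up {n m : ℕ} (hn : 1 ≤ n) (hnm : n ≤ m) :
    ∑ k ∈ Icc n m, 1 / (k : ℝ) ≤ 1 / n + Real.log ((m : ℝ) / n) := by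
  have hn0 : (0 : ℝ) < n := by exact_mod_cast (by omega : 0 < n)
  induction m, hnm using Nat.le_induction with
  | base =>
    rw [Icc_self, sum_singleton, div_self hn0.ne', Real.log_one]
    linarith
  | succ m hm ih =>
    have h1 : Icc n (m + 1) = insert (m + 1) (Icc n m) := by
      ext k
      simp only [mem_Icc, mem_insert]
      omega
    rw [h1, sum_insert (by simp)]
    have hm0 : (0 : ℝ) < m := by exact_mod_cast (by omega : 0 < m)
    have h2 := Real.one_sub_inv_le_log_of_pos (show (0 : ℝ) < ((m + 1 : ℕ) : ℝ) / m by positivity)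
    have h3 : 1 - (((m + 1 : ℕ) : ℝ) / m)⁻¹ = 1 / ((m + 1 : ℕ) : ℝ) := by
      push_cast
      field_simp
      ring
    have h4 : Real.log (((m + 1 : ℕ) : ℝ) / n) =
        Real.log ((m : ℝ) / n) + Real.log (((m + 1 : ℕ) : ℝ) / m) := by
      rw [← Real.log_mul (by positivity) (by positivity)]
      congr 1
      field_simp
    rw [h4]
    linarith

theorem sum_wt {n s : ℕ} (hn : 1 ≤ n) (hs : 4 ≤ s) :
    ∑ i ∈ Ico (2 * n) ((s - 1) * n), wt n s i ≤ 1 / n + Real.log ((s : ℝ) - 2) := by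
  obtain ⟨r, rfl⟩ : ∃ r, s = r + 4 := ⟨s - 4, by omega⟩
  have e1 : r + 4 - 1 = r + 3 := by omega
  rw [e1]
  have hn0 : (0 : ℝ) < n := by exact_mod_cast (by omega : 0 < n)
  have h1 : ∑ i ∈ Ico (2 * n) ((r + 3) * n), wt n (r + 4) i =
      ∑ j ∈ Icc n ((r + 2) * n - 1), 1 / (j : ℝ) := by
    have e2 : (r + 4) * n = (r + 3) * n + n := by ring
    have e3 : (r + 3) * n = (r + 2) * n + n := by ring
    have e4 : (r + 2) * n = r * n + 2 * n := by ring
    refine sum_nbij' (fun i => (r + 4) * n - i - 1) (fun j => (r + 4) * n - j - 1) ?_ ?_ ?_ ?_ ?_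
    · intro i hi
      rw [mem_Ico] at hi
      rw [mem_Icc]
      omega
    · intro j hj
      rw [mem_Icc] at hj
      rw [mem_Ico]
      omega
    · intro i hi
      rw [mem_Ico] at hi
      change (r + 4) * n - ((r + 4) * n - i - 1) - 1 = i
      omega
    · intro j hj
      rw [mem_Icc] at hj
      change (r + 4) * n - ((r + 4) * n - j - 1) - 1 = j
      omega
    · intro i hi
      rw [mem_Ico] at hi
      unfold wt
      congr 1
      rw [Nat.cast_sub (by omega), Nat.cast_sub (by omega)]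
      push_cast
      ring
  have hn2 : n ≤ (r + 2) * n - 1 ∨ n = 0 := by
    have e4 : (r + 2) * n = r * n + 2 * n := by ring
    omega
  have hle : n ≤ (r + 2) * n - 1 := by
    rcases hn2 with h | h
    · exact h
    · omega
  rw [h1]
  refine (harm_up hn hle).trans ?_
  have h2 : Real.log ((((r + 2) * n - 1 : ℕ) : ℝ) / n) ≤ Real.log (((r + 4 : ℕ) : ℝ) - 2) := by
    have h3 : (0 : ℝ) < (((r + 2) * n - 1 : ℕ) : ℝ) := by exact_mod_cast (by omega : 0 < (r + 2) * n - 1)
    refine Real.log_le_log (by positivity) ?_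
    rw [div_le_iff₀ hn0]
    have h4 : (((r + 2) * n - 1 : ℕ) : ℝ) ≤ (((r + 2) * n : ℕ) : ℝ) := by
      exact_mod_cast Nat.sub_le _ _
    refine h4.trans (le_of_eq ?_)
    push_cast
    ring
  linarith

theorem cheb {n s : ℕ} (hn : 1 ≤ n) (hs : 4 ≤ s) {φ : ℕ → ℝ} (hφ0 : ∀ k, 0 ≤ φ k)
    (hφ : ∀ k m, k ≤ m → φ m ≤ φ k) :
    ∑ i ∈ Ico (2 * n) ((s - 1) * n), φ i * wt n s i ≤
      (1 / n + Real.log ((s : ℝ) - 2)) / (((s : ℝ) - 3) * n) *
        ∑ i ∈ Ico (2 * n) ((s - 1) * n), φ i := by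
  have hn0 : (0 : ℝ) < n := by exact_mod_cast (by omega : 0 < n)
  have hs4 : (4 : ℝ) ≤ s := by exact_mod_cast hs
  have hcard : ((Ico (2 * n) ((s - 1) * n)).card : ℝ) = ((s : ℝ) - 3) * n := by
    rw [Nat.card_Ico]
    obtain ⟨r, rfl⟩ : ∃ r, s = r + 4 := ⟨s - 4, by omega⟩
    have e1 : (r + 4 - 1) * n - 2 * n = (r + 1) * n := by
      have : r + 4 - 1 = r + 3 := by omega
      rw [this]
      have e3 : (r + 3) * n = (r + 1) * n + 2 * n := by ring
      omega
    rw [e1]
    push_cast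
    ring
  have hanti : AntivaryOn φ (wt n s) (Ico (2 * n) ((s - 1) * n) : Set ℕ) := by
    intro i hi j hj hij
    rw [coe_Ico, Set.mem_Ico] at hi hj
    have hlt : i < j := by
      by_contra hc
      have hji : j ≤ i := not_lt.1 hc
      have hcast : ∀ k : ℕ, k < (s - 1) * n → (0 : ℝ) < (s : ℝ) * n - k - 1 := by
        intro k hk
        have h1 : k + 1 + n ≤ s * n := by
          have h2 : s * n = (s - 1) * n + n := by
            obtain ⟨r, rfl⟩ : ∃ r, s = r + 1 := ⟨s - 1, by omega⟩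
            simp
            ring
          omega
        have h3 : ((k + 1 + n : ℕ) : ℝ) ≤ ((s * n : ℕ) : ℝ) := by exact_mod_cast h1
        push_cast at h3
        linarith
      have : wt n s j ≤ wt n s i := by
        unfold wt
        refine one_div_le_one_div_of_le (hcast i hi.2) ?_
        have : (j : ℝ) ≤ i := by exact_mod_cast hji
        linarith
      linarith
    exact hφ i j hlt.le
  have h1 := hanti.card_mul_sum_le_sum_mul_sum
  rw [hcard] at h1
  have h2 := sum_wt hn hs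
  have hm : 0 < ((s : ℝ) - 3) * n := by
    have : (0 : ℝ) < (s : ℝ) - 3 := by linarith
    positivity
  have h3 : 0 ≤ ∑ i ∈ Ico (2 * n) ((s - 1) * n), φ i := sum_nonneg fun i _ => hφ0 i
  have h4 : (∑ i ∈ Ico (2 * n) ((s - 1) * n), φ i) * ∑ i ∈ Ico (2 * n) ((s - 1) * n), wt n s i ≤
      (∑ i ∈ Ico (2 * n) ((s - 1) * n), φ i) * (1 / n + Real.log ((s : ℝ) - 2)) :=
    mul_le_mul_of_nonneg_left h2 h3
  rw [div_mul_eq_mul_div, le_div_iff₀ hm]
  linarith

/-- the sum over the primes of level at least two -/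
theorem S3 {n s : ℕ} (hn : 1 ≤ n) (hs : 4 ≤ s) {LD : ℝ} (hLD : s * Real.log 4 ≤ LD) {F : Finset ℕ}
    (hF : ∀ q ∈ F, q.Prime ∧ 1 / (s : ℝ) * LD < Real.log q ∧ Real.log q ≤ (1 - 2 / (s : ℝ)) * LD)
    {φ : ℕ → ℝ} (hφ0 : ∀ k, 0 ≤ φ k) (hφ : ∀ k m, k ≤ m → φ m ≤ φ k) :
    ∑ q ∈ F, 1 / (q : ℝ) * φ (kq n s LD q) ≤ (1 + A0 * s * n / LD) *
      ((1 / n + Real.log ((s : ℝ) - 2)) / (((s : ℝ) - 3) * n) *
        ∑ i ∈ Ico (2 * n) ((s - 1) * n), φ i) := by
  classical
  have hA := A0_pos
  have hn0 : (0 : ℝ) < n := by exact_mod_cast (by omega : 0 < n)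
  have hn1 : (1 : ℝ) ≤ n := by exact_mod_cast hn
  have hs4 : (4 : ℝ) ≤ s := by exact_mod_cast hs
  have hs0 : (0 : ℝ) < s := by linarith
  have hl4 : 0 < Real.log 4 := Real.log_pos (by norm_num)
  have hLD0 : 0 < LD := lt_of_lt_of_le (by positivity) hLD
  have hsn : s * n = (s - 1) * n + n := by
    obtain ⟨r, rfl⟩ : ∃ r, s = r + 1 := ⟨s - 1, by omega⟩
    simp
    ring
  have hmaps : ∀ q ∈ F, kq n s LD q ∈ Ico (2 * n) ((s - 1) * n) := by
    intro q hq
    obtain ⟨h1, h2, h3⟩ := hF q hq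
    have h4 : Real.log q / LD ≤ 1 - 2 / (s : ℝ) := by
      rw [div_le_iff₀ hLD0]; exact h3
    have h5 : 1 / (s : ℝ) < Real.log q / LD := by
      rw [lt_div_iff₀ hLD0]; exact h2
    have h6 : 2 / (s : ℝ) ≤ 1 - Real.log q / LD := by linarith
    have h7 : 0 ≤ 1 - Real.log q / LD := le_trans (by positivity) h6
    rw [mem_Ico]
    unfold kq
    constructor
    · refine Nat.le_floor ?_
      have h8 : (n : ℝ) * s * (2 / s) ≤ n * s * (1 - Real.log q / LD) :=
        mul_le_mul_of_nonneg_left h6 (by positivity)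
      have h9 : (n : ℝ) * s * (2 / s) = ((2 * n : ℕ) : ℝ) := by
        push_cast
        field_simp
      linarith
    · rw [Nat.floor_lt (by positivity)]
      have h8 : (n : ℝ) * s * (1 - Real.log q / LD) < n * s * (1 - 1 / s) :=
        mul_lt_mul_of_pos_left (by linarith) (by positivity)
      have h9 : (n : ℝ) * s * (1 - 1 / s) = (((s - 1) * n : ℕ) : ℝ) := by
        rw [Nat.cast_mul, Nat.cast_sub (by omega)]
        push_cast
        field_simp
      linarith
  rw [← sum_fiberwise_of_maps_to hmaps]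
  have hfib : ∀ i ∈ Ico (2 * n) ((s - 1) * n),
      ∑ q ∈ F.filter (fun q => kq n s LD q = i), 1 / (q : ℝ) * φ (kq n s LD q) ≤
        (1 + A0 * s * n / LD) * (φ i * wt n s i) := by
    intro i hi
    rw [mem_Ico] at hi
    have hi1 : i + 1 + n ≤ s * n := by omega
    have hi2 : ((i : ℝ) + 1 + n) ≤ (s : ℝ) * n := by exact_mod_cast hi1
    have hD : (0 : ℝ) < (s : ℝ) * n - i - 1 := by linarith
    have hDn : (n : ℝ) ≤ (s : ℝ) * n - i - 1 := by linarith
    have e1 : ∑ q ∈ F.filter (fun q => kq n s LD q = i), 1 / (q : ℝ) * φ (kq n s LD q) =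
        φ i * ∑ q ∈ F.filter (fun q => kq n s LD q = i), 1 / (q : ℝ) := by
      rw [mul_sum]
      refine sum_congr rfl fun q hq => ?_
      rw [(mem_filter.1 hq).2]
      ring
    rw [e1]
    have hα : ((s : ℝ) * n - i - 1) / (s * n) * LD ≤ ((s : ℝ) * n - i) / (s * n) * LD := by
      refine mul_le_mul_of_nonneg_right ?_ hLD0.le
      exact div_le_div_of_nonneg_right (by linarith) (by positivity)
    have h4α : Real.log 4 ≤ ((s : ℝ) * n - i - 1) / (s * n) * LD := by
      calc Real.log 4 ≤ 1 / (s : ℝ) * LD := by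
            rw [one_div, ← div_eq_inv_mul, le_div_iff₀ hs0]
            linarith
        _ = n / ((s : ℝ) * n) * LD := by
            field_simp
        _ ≤ _ := by
            refine mul_le_mul_of_nonneg_right ?_ hLD0.le
            exact div_le_div_of_nonneg_right hDn (by positivity)
    have h1 := S1log (F := F.filter (fun q => kq n s LD q = i))
      (α := ((s : ℝ) * n - i - 1) / (s * n) * LD) (β := ((s : ℝ) * n - i) / (s * n) * LD)
      (fun q hq => by
        obtain ⟨h2, h3⟩ := mem_filter.1 hq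
        obtain ⟨h4, h5, h6⟩ := hF q h2
        have h7 : Real.log q / LD ≤ 1 - 2 / (s : ℝ) := by
          rw [div_le_iff₀ hLD0]; exact h6
        have h8 : (0 : ℝ) < 2 / s := by positivity
        have h9 : 0 ≤ (n : ℝ) * s * (1 - Real.log q / LD) := by
          have : 0 ≤ 1 - Real.log q / LD := by linarith
          positivity
        have h10 : (i : ℝ) ≤ n * s * (1 - Real.log q / LD) := by
          rw [← h3]
          exact Nat.floor_le h9
        have h11 : (n : ℝ) * s * (1 - Real.log q / LD) < i + 1 := by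
          rw [← h3]
          exact Nat.lt_floor_add_one _
        have e2 : Real.log q = Real.log q / LD * LD := by field_simp
        refine ⟨h4, ?_, ?_⟩
        · rw [e2]
          refine mul_lt_mul_of_pos_right ?_ hLD0
          rw [div_lt_iff₀ (by positivity)]
          nlinarith
        · rw [e2]
          refine mul_le_mul_of_nonneg_right ?_ hLD0.le
          rw [le_div_iff₀ (by positivity)]
          nlinarith) h4α hα
    have h2 : ((s : ℝ) * n - i) / (s * n) * LD / (((s : ℝ) * n - i - 1) / (s * n) * LD) =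
        ((s : ℝ) * n - i) / ((s : ℝ) * n - i - 1) := by
      field_simp
    rw [h2] at h1
    have h3 : Real.log (((s : ℝ) * n - i) / ((s : ℝ) * n - i - 1)) ≤ wt n s i := by
      have h4 : 0 < ((s : ℝ) * n - i) / ((s : ℝ) * n - i - 1) := div_pos (by linarith) hD
      have h5 := Real.log_le_sub_one_of_pos h4
      have h6 : ((s : ℝ) * n - i) / ((s : ℝ) * n - i - 1) - 1 = wt n s i := by
        unfold wt
        field_simp
        ring
      linarith
    have h4 : A0 / (((s : ℝ) * n - i - 1) / (s * n) * LD) = A0 * s * n / LD * wt n s i := by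
      unfold wt
      field_simp
    rw [h4] at h1
    calc φ i * ∑ q ∈ F.filter (fun q => kq n s LD q = i), 1 / (q : ℝ)
        ≤ φ i * (wt n s i + A0 * s * n / LD * wt n s i) :=
          mul_le_mul_of_nonneg_left (by linarith) (hφ0 i)
      _ = _ := by ring
  refine (sum_le_sum hfib).trans ?_
  rw [← mul_sum]
  exact mul_le_mul_of_nonneg_left (cheb hn hs hφ0 hφ) (by positivity)

end MF11
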