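import Pool.Agent.MF11.Seq2

/-!
# [MF11-SEQ3] The inequality for the extreme values
-/

namespace MF11

open Finset

theorem sK_ge {K : ℕ} (hK : 3 ≤ K) : 12 ≤ sK K ∧ 4 * K ≤ sK K := by
  obtain ⟨m, rfl⟩ : ∃ m, K = m + 3 := ⟨K - 3, by omega⟩
  unfold sK
  have e : m + 3 - 1 = m + 2 := by omega
  rw [e]
  have h1 : m + 1 ≤ 2 ^ m := Nat.lt_two_pow_self
  have h2 : 2 ^ (m + 2) = 4 * 2 ^ m := by ring
  rw [h2]
  constructor <;> omega

section

variable {n I : ℕ} {δ η τ : ℝ} {u l : ℕ → ℝ} (h : SQ n I δ η u l) (hs : Sm n I δ η τ)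

include h hs in
/-- the inequality for `K ≥ 3` -/
theorem seq_main {K : ℕ} (hK : 3 ≤ K) (hτ : τ ≤ 1 / 10000) (hn : 10001 ≤ n) (hI : sK K * n ≤ I)
    {L1 E : ℝ} (hL1 : L1 ≤ LK K) (hE0 : 0 ≤ E) (hE : E ≤ 1 / 10000) :
    1 / 400 + ((Real.log ((sK K : ℝ) - 2) + E) +
      (1 + E) * ((1 / n + Real.log ((sK K : ℝ) - 2)) / (((sK K : ℝ) - 3) * n) *
        ∑ i ∈ Ico (2 * n) ((sK K - 1) * n), (u i - 1)) +
      u (2 * n) * ((1 + η) * (2 / sK K)) * (L1 - Real.log (((sK K : ℝ) - 2) / 2) + E)) ≤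
      K * l (sK K * n) := by
  obtain ⟨hs12, hs4⟩ := sK_ge hK
  set s : ℕ := sK K with hsdef
  have hn0 : (0 : ℝ) < n := by exact_mod_cast (by omega : 0 < n)
  have hn' : (10001 : ℝ) ≤ n := by exact_mod_cast hn
  have hs12' : (12 : ℝ) ≤ s := by exact_mod_cast hs12
  have hs4' : 4 * (K : ℝ) ≤ s := by exact_mod_cast hs4
  have hs0 : (0 : ℝ) < s := by linarith
  have hK0 : (0 : ℝ) ≤ K := Nat.cast_nonneg K
  obtain ⟨h1, h2, h3, h4⟩ := basic_small h hs
  have hτ0 := hs.hτ
  have hη := h.hη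
  have h4n : 4 * n ≤ s * n := Nat.mul_le_mul_right n (by omega)
  have h2n : 2 * n ≤ (s - 1) * n := Nat.mul_le_mul_right n (by omega)
  have hsn : (s - 1) * n + n = s * n := by
    obtain ⟨r, hr⟩ : ∃ r, s = r + 1 := ⟨s - 1, by omega⟩
    rw [hr]
    simp
    ring
  obtain ⟨c1, c2, c3⟩ := cons h hs hτ hn (h4n.trans hI)
  have hsp := sum_split h (m := (s - 1) * n) h2n (by omega)
  have hlo := lo_s h hs (s := s) (by omega) hI
  have hA0 : 0 ≤ ∑ i ∈ Ico (2 * n) ((s - 1) * n), (u i - 1) :=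
    sum_nonneg fun k _ => by have := h.one_le k; linarith
  have hB0' : 0 ≤ ∑ k ∈ Icc ((s - 1) * n) (I - n), (u k - 1) :=
    sum_nonneg fun k _ => by have := h.one_le k; linarith
  set SA : ℝ := ∑ i ∈ Ico (2 * n) ((s - 1) * n), (u i - 1) with hSA
  set SB : ℝ := ∑ k ∈ Icc ((s - 1) * n) (I - n), (u k - 1) with hSB
  set B : ℝ := 2 * u (2 * n) with hB
  set pa : ℝ := SA / n with hpa
  set pb : ℝ := SB / n with hpb
  have hpa0 : 0 ≤ pa := div_nonneg hA0 hn0.le
  have hpb0 : 0 ≤ pb := div_nonneg hB0' hn0.le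
  have hSAn : SA = n * pa := by rw [hpa]; field_simp
  have hSBn : SB = n * pb := by rw [hpb]; field_simp
  have hp : PP n I u / n = pa + pb := by
    rw [← hsp, hpa, hpb]
    ring
  rw [hp] at c2 c3
  have hB2 : 2 ≤ B := by
    have := h.one_le (2 * n)
    rw [hB]
    linarith
  have hB0 : 0 ≤ B := by linarith
  have hnum := num_ineq hK c1 (le_refl (1 / 100 : ℝ)) c2 c3
  rw [← hsdef] at hnum
  set Lg : ℝ := Real.log ((s : ℝ) - 2) with hLg
  set X : ℝ := Real.log (((s : ℝ) - 2) / 2) with hX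
  have hLg0 : 0 ≤ Lg := Real.log_nonneg (by linarith)
  have hX0 : 0 ≤ X := Real.log_nonneg (by linarith)
  have hLg1 : Lg ≤ (s : ℝ) - 3 := by
    have := Real.log_le_sub_one_of_pos (show (0 : ℝ) < (s : ℝ) - 2 by linarith)
    rw [hLg]
    linarith
  -- `K l`
  have k1 : (s : ℝ) * (1 - l (s * n)) ≤ 4 * τ * B + pb := by
    have h5 : n * ((s : ℝ) * (1 - l (s * n))) ≤ n * (4 * τ * B + pb) := by
      rw [hSBn] at hlo
      refine hlo.trans (le_of_eq ?_)
      rw [hB]
      ring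
    exact le_of_mul_le_mul_left h5 hn0
  have k2 : (K : ℝ) - (K / s) * pb - τ * B ≤ K * l (s * n) := by
    have h5 : (K : ℝ) / s ≤ 1 / 4 := by
      rw [div_le_iff₀ hs0]
      linarith
    have h5' : 0 ≤ (K : ℝ) / s := by positivity
    have h6 := mul_le_mul_of_nonneg_left k1 h5'
    have h7 : (K : ℝ) / s * (s * (1 - l (s * n))) = K - K * l (s * n) := by
      field_simp
    rw [h7] at h6
    have h8 : (K : ℝ) / s * (4 * τ * B + pb) ≤ τ * B + K / s * pb := by
      have h9 : (K : ℝ) / s * (4 * τ * B) ≤ 1 / 4 * (4 * τ * B) :=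
        mul_le_mul_of_nonneg_right h5 (by positivity)
      calc _ = (K : ℝ) / s * (4 * τ * B) + K / s * pb := by ring
        _ ≤ 1 / 4 * (4 * τ * B) + K / s * pb := by linarith
        _ = _ := by ring
    linarith
  have k3 : τ * B ≤ 3.7 / 10000 := by
    norm_num at c1 ⊢
    nlinarith
  -- the sums of `p`
  have l2' := Real.log_two_gt_d9
  have l2 := Real.log_two_lt_d9
  norm_num at l2 l2'
  have hpab : pa + pb ≤ 1 := by
    rcases le_total B 3 with h5 | h5
    · have : B * (1 - Real.log 2) ≤ 3 * (1 - Real.log 2) :=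
        mul_le_mul_of_nonneg_right h5 (by linarith)
      linarith
    · have : 3 * Real.log 2 ≤ B * Real.log 2 := mul_le_mul_of_nonneg_right h5 (by linarith)
      linarith
  have hpa1 : pa ≤ 1 := by linarith
  have m1 : Lg / ((s : ℝ) - 3) * pa + K / s * pb ≤ max (Lg / ((s : ℝ) - 3)) (K / s) * (pa + pb) := by
    have h5 := mul_le_mul_of_nonneg_right (le_max_left (Lg / ((s : ℝ) - 3)) ((K : ℝ) / s)) hpa0
    have h6 := mul_le_mul_of_nonneg_right (le_max_right (Lg / ((s : ℝ) - 3)) ((K : ℝ) / s)) hpb0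
    calc _ ≤ _ := add_le_add h5 h6
      _ = _ := by ring
  -- the second term
  have hs3 : (0 : ℝ) < (s : ℝ) - 3 := by linarith
  have t2 : (1 + E) * ((1 / n + Lg) / (((s : ℝ) - 3) * n) * SA) ≤
      Lg / ((s : ℝ) - 3) * pa + 3 / 10000 := by
    have h5 : (1 / n + Lg) / (((s : ℝ) - 3) * n) * SA = (1 / n + Lg) / ((s : ℝ) - 3) * pa := by
      rw [hSAn]
      field_simp
    rw [h5]
    have h6 : (1 : ℝ) / n ≤ 1 / 10000 := one_div_le_one_div_of_le (by norm_num) (by linarith)
    have h7 : (1 / (n : ℝ)) / ((s : ℝ) - 3) ≤ 1 / 10000 := by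
      rw [div_le_iff₀ hs3]
      nlinarith
    have h8 : Lg / ((s : ℝ) - 3) ≤ 1 := by
      rw [div_le_iff₀ hs3]
      linarith
    have h8' : 0 ≤ Lg / ((s : ℝ) - 3) := div_nonneg hLg0 hs3.le
    have h9 : (1 / n + Lg) / ((s : ℝ) - 3) = (1 / (n : ℝ)) / ((s : ℝ) - 3) + Lg / ((s : ℝ) - 3) := by
      ring
    rw [h9]
    set v : ℝ := (1 / (n : ℝ)) / ((s : ℝ) - 3) with hv
    have hv0 : 0 ≤ v := by positivity
    set w : ℝ := Lg / ((s : ℝ) - 3) with hw
    have e1 : (1 + E) * ((v + w) * pa) = w * pa + (v + E * (v + w)) * pa := by ring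
    rw [e1]
    have h10 : (v + E * (v + w)) * pa ≤ 3 / 10000 := by
      have h11 : v + E * (v + w) ≤ 3 / 10000 := by
        have : E * (v + w) ≤ 1 / 10000 * 2 := mul_le_mul hE (by linarith) (by linarith) (by norm_num)
        linarith
      have h12 : 0 ≤ v + E * (v + w) := by positivity
      calc _ ≤ (v + E * (v + w)) * 1 := mul_le_mul_of_nonneg_left hpa1 h12
        _ ≤ _ := by linarith
    linarith
  -- the third term
  have hLK : LK K / s ≤ 0.37 := by
    rw [div_le_iff₀ hs0]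
    have l3 := log3_le
    have l3' := log3_ge
    unfold LK
    have e1 : (s : ℝ) = 3 * 2 ^ (K - 1) := by rw [hsdef, sK]; push_cast; rfl
    rw [e1]
    set T : ℝ := 2 ^ (K - 1) with hT
    have hT0 : 0 < T := by positivity
    norm_num at l3 l3' ⊢
    nlinarith
  have t3 : u (2 * n) * ((1 + η) * (2 / s)) * (L1 - X + E) ≤
      (LK K - X) / s * B + 2 / 10000 := by
    have h5 : u (2 * n) * ((1 + η) * (2 / s)) * (L1 - X + E) ≤
        u (2 * n) * ((1 + η) * (2 / s)) * (LK K - X + E) := by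
      have hu := h.one_le (2 * n)
      refine mul_le_mul_of_nonneg_left (by linarith) ?_
      have : 0 ≤ (2 : ℝ) / s := by positivity
      exact mul_nonneg (by linarith) (mul_nonneg (by linarith) this)
    have h6 : u (2 * n) * ((1 + η) * (2 / s)) * (LK K - X + E) =
        (LK K - X) / s * B + (B * η * ((LK K - X) / s) + B * (1 + η) * (E / s)) := by
      rw [hB]
      field_simp
      ring
    have h7 : B * η * ((LK K - X) / s) ≤ 1.369 / 10000 := by
      have h8 : (LK K - X) / s ≤ 0.37 := by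
        have : (LK K - X) / s = LK K / s - X / s := by ring
        rw [this]
        have h9 : 0 ≤ X / s := by positivity
        linarith
      have h9 : 0 ≤ B * η := by positivity
      have h10 : B * η ≤ 3.7 * (1 / 10000) :=
        mul_le_mul c1 (by linarith) hη (by norm_num)
      calc B * η * ((LK K - X) / s) ≤ B * η * 0.37 := mul_le_mul_of_nonneg_left h8 h9
        _ ≤ 3.7 * (1 / 10000) * 0.37 := mul_le_mul_of_nonneg_right h10 (by norm_num)
        _ ≤ _ := by norm_num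
    have h8 : B * (1 + η) * (E / s) ≤ 0.63 / 10000 := by
      have h9 : E / s ≤ (1 / 10000) / 12 := div_le_div₀ (by norm_num) hE (by norm_num) hs12'
      have h10 : B * (1 + η) ≤ 3.7 * 2 := mul_le_mul c1 (by linarith) (by linarith) (by norm_num)
      calc B * (1 + η) * (E / s) ≤ 3.7 * 2 * ((1 / 10000) / 12) :=
            mul_le_mul h10 h9 (by positivity) (by norm_num)
        _ ≤ _ := by norm_num
    norm_num at h7 h8 ⊢
    linarith
  norm_num at k3
  linarith

include h hs in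
/-- the inequality for `K = 2` -/
theorem seq_two {ζ : ℝ} (hζ0 : 0 < ζ) (hζ1 : ζ ≤ 1) (hτ : τ ≤ ζ / 10000) (hn : 10001 ≤ n * ζ)
    (hI : 4 * n ≤ I) {L1 E : ℝ} (hL1 : L1 ≤ Real.log 3 - ζ) (hL10 : 0 ≤ L1) (hE0 : 0 ≤ E)
    (hE : E ≤ ζ / 10000) :
    ζ / 100 + (u (3 * n) * ((1 + η) * (3 / 4)) * (Real.log 3 + E) +
      u (2 * n) * ((1 + η) * (2 / 4)) * (L1 + E)) ≤ 2 * l (4 * n) := by
  have hn0 : (0 : ℝ) < n := by
    by_contra hc
    have h1 : (n : ℝ) = 0 := le_antisymm (not_lt.1 hc) (Nat.cast_nonneg n)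
    rw [h1, zero_mul] at hn
    linarith
  have hn' : (10001 : ℝ) ≤ n := by nlinarith
  have hn1 : 10001 ≤ n := by exact_mod_cast hn'
  obtain ⟨h1, h2, h3, h4⟩ := basic_small h hs
  have hτ0 := hs.hτ
  have hη := h.hη
  obtain ⟨c1, c2, c3⟩ := cons h hs (by linarith) hn1 hI
  have g1 := gap_total h hs
  have g3 := mid_low h h4
  have g4 := up_three h hs
  have hQ0 := QQ_nonneg h
  have hsp := sum_split h (m := 3 * n) (by omega) (by omega)
  have hlo := lo_s h hs (s := 4) (by omega) hI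
  have e43 : (4 - 1) * n = 3 * n := by norm_num
  rw [e43] at hlo
  have hsm := h.small (2 * n) (3 * n) (by omega) (by omega)
  set B : ℝ := 2 * u (2 * n) with hB
  set A : ℝ := 3 * u (3 * n) with hA
  set q : ℝ := QQ n I l / n with hq
  set S3 : ℝ := ∑ k ∈ Icc (3 * n) (I - n), (u k - 1) with hS3
  set pb : ℝ := S3 / n with hpb
  set pm : ℝ := (∑ k ∈ Ico (2 * n) (3 * n), (u k - 1)) / n with hpm
  have hqn : QQ n I l = n * q := by rw [hq]; field_simp
  have hpbn : S3 = n * pb := by rw [hpb]; field_simp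
  have hpmn : ∑ k ∈ Ico (2 * n) (3 * n), (u k - 1) = n * pm := by rw [hpm]; field_simp
  have hB2 : 2 ≤ B := by
    have := h.one_le (2 * n)
    rw [hB]
    linarith
  have hB0 : 0 ≤ B := by linarith
  have hA3 : 3 ≤ A := by
    have := h.one_le (3 * n)
    rw [hA]
    linarith
  have hAB : B ≤ (1 + η) * A := by
    have h5 : ((3 * n : ℕ) : ℝ) / ((2 * n : ℕ) : ℝ) = 3 / 2 := by
      push_cast
      field_simp
    rw [h5] at hsm
    rw [hA, hB]
    linarith
  have d1 : pm + pb + q ≤ B * ((1 - Real.log 2) + 1 / ((n : ℝ) - 1) + 14 * τ) := by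
    have h5 : n * (pm + pb + q) ≤ n * (B * ((1 - Real.log 2) + 1 / ((n : ℝ) - 1) + 14 * τ)) := by
      rw [← hsp, hpmn, hpbn, hqn] at g1
      linarith
    exact le_of_mul_le_mul_left h5 hn0
  have d2 : A - 3 ≤ 6 * τ + q := by
    have h5 : n * (A - 3) ≤ n * (6 * τ + q) := by
      rw [hqn] at g4
      have e1 : n * (3 * (u (3 * n) - 1)) = n * (A - 3) := by rw [hA]; ring
      rw [e1] at g4
      linarith
    exact le_of_mul_le_mul_left h5 hn0
  have d3 : B * (1 - η) * Real.log (3 / 2) - 1 ≤ pm := by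
    have h5 : n * (B * (1 - η) * Real.log (3 / 2) - 1) ≤ n * pm := by
      rw [← hpmn]
      exact g3
    exact le_of_mul_le_mul_left h5 hn0
  have d4 : 4 * (1 - l (4 * n)) ≤ 4 * τ * B + pb := by
    have h5 : n * (4 * (1 - l (4 * n))) ≤ n * (4 * τ * B + pb) := by
      rw [hpbn] at hlo
      push_cast at hlo
      refine hlo.trans (le_of_eq ?_)
      rw [hB]
      ring
    exact le_of_mul_le_mul_left h5 hn0
  have l3 := log3_le
  have l3' := log3_ge
  have l2 := Real.log_two_lt_d9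
  have l2' := Real.log_two_gt_d9
  norm_num at l2 l2' l3 l3' c1
  have hl32 : Real.log (3 / 2) = Real.log 3 - Real.log 2 := Real.log_div (by norm_num) (by norm_num)
  have hσ : 1 / ((n : ℝ) - 1) ≤ ζ / 10000 := by
    rw [div_le_div_iff₀ (by linarith) (by norm_num)]
    nlinarith
  have d1' : pm + pb + q ≤ B * (1 - Real.log 2) + 56 / 10000 * ζ := by
    have h5 : B * ((1 - Real.log 2) + 1 / ((n : ℝ) - 1) + 14 * τ) ≤
        B * ((1 - Real.log 2) + 15 * (ζ / 10000)) := mul_le_mul_of_nonneg_left (by linarith) hB0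
    have h6 : B * (15 * (ζ / 10000)) ≤ 56 / 10000 * ζ := by nlinarith
    linarith
  have d3' : B * Real.log 3 - B * Real.log 2 - 4 / 10000 * ζ - 1 ≤ pm := by
    have h5 : B * η * Real.log (3 / 2) ≤ 4 / 10000 * ζ := by
      have h6 : Real.log (3 / 2) ≤ 1 := by rw [hl32]; linarith
      have h7 : 0 ≤ Real.log (3 / 2) := by rw [hl32]; linarith
      calc B * η * Real.log (3 / 2) ≤ B * η * 1 := mul_le_mul_of_nonneg_left h6 (by positivity)
        _ = B * η := mul_one _
        _ ≤ 4 * (ζ / 10000) := mul_le_mul (by linarith) (by linarith) hη (by norm_num)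
        _ = _ := by ring
    have h8 : B * (1 - η) * Real.log (3 / 2) =
        B * Real.log 3 - B * Real.log 2 - B * η * Real.log (3 / 2) := by
      rw [hl32]
      ring
    linarith
  have d4' : 4 * (1 - l (4 * n)) ≤ 16 / 10000 * ζ + pb := by
    have : 4 * τ * B ≤ 16 / 10000 * ζ := by nlinarith
    linarith
  -- `4 l ≥ A + B (log 3 - 1) - small`
  have hl4 : A + B * (Real.log 3 - 1) - 100 / 10000 * ζ ≤ 4 * l (4 * n) := by
    have : 6 * τ ≤ 6 / 10000 * ζ := by linarith
    linarith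
  -- the right side
  have hAle : A ≤ 5 := by
    have hq1 : q ≤ 1.2 := by
      have h5 : 0 ≤ pb := div_nonneg (sum_nonneg fun k _ => by have := h.one_le k; linarith) hn0.le
      have h6 : 0 ≤ pm := div_nonneg (sum_nonneg fun k _ => by have := h.one_le k; linarith) hn0.le
      have h7 : B * (1 - Real.log 2) ≤ 3.7 * (1 - Real.log 2) :=
        mul_le_mul_of_nonneg_right (by norm_num; linarith) (by linarith)
      norm_num at h7 ⊢
      linarith
    norm_num at hq1
    linarith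
  have r1 : u (3 * n) * ((1 + η) * (3 / 4)) * (Real.log 3 + E) ≤
      A / 4 * Real.log 3 + 10 / 10000 * ζ := by
    have e1 : u (3 * n) * ((1 + η) * (3 / 4)) * (Real.log 3 + E) =
        A / 4 * Real.log 3 + A / 4 * (η * Real.log 3 + (1 + η) * E) := by
      rw [hA]; ring
    rw [e1]
    have h5 : η * Real.log 3 + (1 + η) * E ≤ 4 * (ζ / 10000) := by
      have h6 : η * Real.log 3 ≤ (ζ / 10000) * 2 :=
        mul_le_mul (by linarith) (by linarith) (by linarith) (by positivity)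
      have h7 : (1 + η) * E ≤ 2 * (ζ / 10000) := mul_le_mul (by linarith) hE hE0 (by norm_num)
      linarith
    have h8 : A / 4 * (η * Real.log 3 + (1 + η) * E) ≤ 5 / 4 * (4 * (ζ / 10000)) :=
      mul_le_mul (by linarith) h5 (by
        have : 0 ≤ Real.log 3 := by linarith
        positivity) (by norm_num)
    linarith
  have r2 : u (2 * n) * ((1 + η) * (2 / 4)) * (L1 + E) ≤
      B / 4 * L1 + 10 / 10000 * ζ := by
    have e1 : u (2 * n) * ((1 + η) * (2 / 4)) * (L1 + E) =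
        B / 4 * L1 + B / 4 * (η * L1 + (1 + η) * E) := by
      rw [hB]; ring
    rw [e1]
    have h5 : η * L1 + (1 + η) * E ≤ 4 * (ζ / 10000) := by
      have h6 : η * L1 ≤ (ζ / 10000) * 2 :=
        mul_le_mul (by linarith) (by linarith) hL10 (by positivity)
      have h7 : (1 + η) * E ≤ 2 * (ζ / 10000) := mul_le_mul (by linarith) hE hE0 (by norm_num)
      linarith
    have h8 : B / 4 * (η * L1 + (1 + η) * E) ≤ 5 / 4 * (4 * (ζ / 10000)) :=
      mul_le_mul (by linarith) h5 (by positivity) (by norm_num)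
    linarith
  -- the final comparison
  have hAB' : B - 5 * (ζ / 10000) ≤ A := by
    have : η * A ≤ (ζ / 10000) * 5 := mul_le_mul (by linarith) hAle (by linarith) (by positivity)
    linarith
  have f1 : (B - 5 * (ζ / 10000)) * (2 - Real.log 3) ≤ A * (2 - Real.log 3) :=
    mul_le_mul_of_nonneg_right hAB' (by linarith)
  have f2 : B * L1 ≤ B * (Real.log 3 - ζ) := mul_le_mul_of_nonneg_left hL1 hB0
  have f3 : 2 * ζ ≤ B * ζ := mul_le_mul_of_nonneg_right hB2 hζ0.le
  have f4 : 5 * (ζ / 10000) * (2 - Real.log 3) ≤ 5 * (ζ / 10000) * 1 :=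
    mul_le_mul_of_nonneg_left (by linarith) (by positivity)
  nlinarith

end

end MF11
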