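import Pool.Agent.MF11.SysQ
import Pool.Agent.MF11.Layer
import Pool.Agent.MF11.Seq3

/-!
# [MF11-WIN] Few classes of large primes, in a sieve problem of dimension one
-/

namespace MF11

open Finset RS44 HD44

/-- the number of classes `b q`, `q ∈ F`, which contain `m` -/
def mul0 (b : ℕ → ℕ) (F : Finset ℕ) (m : ℕ) : ℕ := (F.filter fun q => m ≡ b q [MOD q]).card

theorem few_count {N : Finset ℕ} {b : ℕ → ℕ} {P F : Finset ℕ} {K : ℕ} :
    (K : ℝ) * cnt N b ∅ P - ∑ q ∈ F, (cnt N b {q} P : ℝ) ≤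
      K * ((N.filter fun m => (∀ p ∈ P, ¬ m ≡ b p [MOD p]) ∧ mul0 b F m < K).card : ℝ) := by
  classical
  set S := N.filter fun m => ∀ p ∈ P, ¬ m ≡ b p [MOD p] with hS
  have h1 : cnt N b ∅ P = S.card := by
    unfold cnt
    congr 1
    ext m
    simp [hS]
  have h2 : ∀ q, cnt N b {q} P = (S.filter fun m => m ≡ b q [MOD q]).card := by
    intro q
    unfold cnt
    congr 1
    ext m
    simp only [hS, mem_filter, mem_singleton, forall_eq]
    tauto
  have h3 : ∑ q ∈ F, cnt N b {q} P = ∑ m ∈ S, mul0 b F m := by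
    unfold mul0
    simp only [h2, card_filter]
    exact sum_comm
  have h4 : (N.filter fun m => (∀ p ∈ P, ¬ m ≡ b p [MOD p]) ∧ mul0 b F m < K) =
      S.filter fun m => mul0 b F m < K := by
    ext m
    simp only [hS, mem_filter]
    tauto
  have h5 : K * (S.filter fun m => ¬ mul0 b F m < K).card ≤ ∑ m ∈ S, mul0 b F m := by
    calc K * (S.filter fun m => ¬ mul0 b F m < K).card =
          ∑ _m ∈ S.filter (fun m => ¬ mul0 b F m < K), K := by
          rw [sum_const, smul_eq_mul, mul_comm]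
      _ ≤ ∑ m ∈ S.filter (fun m => ¬ mul0 b F m < K), mul0 b F m :=
          sum_le_sum fun m hm => not_lt.1 (mem_filter.1 hm).2
      _ ≤ ∑ m ∈ S, mul0 b F m :=
          sum_le_sum_of_subset_of_nonneg (filter_subset _ _) fun _ _ _ => Nat.zero_le _
  have h6 := card_filter_add_card_filter_not (s := S) (fun m => mul0 b F m < K)
  rw [h4, h1]
  have h7 : (∑ q ∈ F, (cnt N b {q} P : ℝ)) = ((∑ m ∈ S, mul0 b F m : ℕ) : ℝ) := by
    rw [← h3]
    push_cast
    rfl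
  rw [h7]
  have h8 : ((K * (S.filter fun m => ¬ mul0 b F m < K).card : ℕ) : ℝ) ≤
      ((∑ m ∈ S, mul0 b F m : ℕ) : ℝ) := by exact_mod_cast h5
  have h9 : (S.card : ℝ) = (S.filter fun m => mul0 b F m < K).card +
      (S.filter fun m => ¬ mul0 b F m < K).card := by exact_mod_cast h6.symm
  rw [h9]
  push_cast at h8 ⊢
  linarith

/-- many members of the set lie in fewer than `K` classes -/
def Win (K s : ℕ) (b0 : ℝ) : Prop := ∃ c0 > (0 : ℝ), ∃ τ > (0 : ℝ), τ ≤ 1 ∧ ∃ n : ℕ, 2 ≤ n ∧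
  ∃ LD0 : ℝ, ∀ Y : Sys, Y.κ = 1 → Y.n = n → Sm n Y.I Y.δ Y.η τ → s * n ≤ Y.I → LD0 ≤ Y.LD →
    (Y.P = Y.Q.filter fun p : ℕ => (s : ℝ) * Real.log p ≤ Y.LD) →
    (∀ q ∈ Y.Q, Real.log q ≤ b0 * Y.LD) →
    c0 * (Y.X * VV Y.P) ≤ ((Y.N.filter fun m => (∀ p ∈ Y.P, ¬ m ≡ Y.b p [MOD p]) ∧
      mul0 Y.b (Y.Q.filter fun p : ℕ => ¬ (s : ℝ) * Real.log p ≤ Y.LD) m < K).card : ℝ)

theorem win_of {K s : ℕ} {c0 LD : ℝ} {Y : Sys} (hK : 1 ≤ K) (hLD : Y.LD = LD)
    (hL : 0 ≤ LD) (hP : Y.P = Y.Q.filter fun p : ℕ => (s : ℝ) * Real.log p ≤ Y.LD) {W : ℝ}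
    (hW : ∑ q ∈ Y.Q.filter (fun p : ℕ => ¬ (s : ℝ) * Real.log p ≤ Y.LD), (cnt Y.N Y.b {q} Y.P : ℝ) ≤
      W * (Y.X * VV Y.P))
    (hm : c0 + W ≤ K * Y.lo (s * Y.n)) :
    c0 / K * (Y.X * VV Y.P) ≤ ((Y.N.filter fun m => (∀ p ∈ Y.P, ¬ m ≡ Y.b p [MOD p]) ∧
      mul0 Y.b (Y.Q.filter fun p : ℕ => ¬ (s : ℝ) * Real.log p ≤ Y.LD) m < K).card : ℝ) := by
  have hK0 : (0 : ℝ) < K := by exact_mod_cast (by omega : 0 < K)
  have h1 := low_of_sys (Y := Y) (by rw [hLD]; exact hL) (k := s * Y.n) (by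
    intro p hp
    rw [hP] at hp
    have h2 := (mem_filter.1 hp).2
    push_cast
    have h3 : (0 : ℝ) ≤ Y.n := Nat.cast_nonneg _
    calc (s : ℝ) * Y.n * Real.log p = Y.n * (s * Real.log p) := by ring
      _ ≤ Y.n * Y.LD := mul_le_mul_of_nonneg_left h2 h3)
  have h2 := few_count (N := Y.N) (b := Y.b) (P := Y.P)
    (F := Y.Q.filter (fun p : ℕ => ¬ (s : ℝ) * Real.log p ≤ Y.LD)) (K := K)
  have h5 := Sys.VV_Pz_pos (Y := Y) (Y.Z - 1)
  rw [Sys.Pz_all] at h5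
  have hX := Y.hX
  have hXV : 0 < Y.X * VV Y.P := mul_pos hX h5
  have h3 : (c0 + W) * (Y.X * VV Y.P) ≤ K * Y.lo (s * Y.n) * (Y.X * VV Y.P) :=
    mul_le_mul_of_nonneg_right hm hXV.le
  have h4 : (K : ℝ) * (Y.lo (s * Y.n) * (Y.X * VV Y.P)) ≤ K * cnt Y.N Y.b ∅ Y.P :=
    mul_le_mul_of_nonneg_left h1 hK0.le
  have h6 : c0 * (Y.X * VV Y.P) ≤ K * ((Y.N.filter fun m => (∀ p ∈ Y.P, ¬ m ≡ Y.b p [MOD p]) ∧
      mul0 Y.b (Y.Q.filter fun p : ℕ => ¬ (s : ℝ) * Real.log p ≤ Y.LD) m < K).card : ℝ) := by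
    linarith
  rw [div_mul_eq_mul_div, div_le_iff₀ hK0]
  linarith

/-- the bound for the large moduli -/
theorem cnt_large {Y : Sys} (hκ : Y.κ = 1) {s b q : ℕ} (hs : 1 ≤ s) (hb : 1 ≤ b) (hL : 0 < Y.LD)
    (hP : Y.P = Y.Q.filter fun p : ℕ => (s : ℝ) * Real.log p ≤ Y.LD) (hq : q ∈ Y.Q)
    (hqs : ¬ (s : ℝ) * Real.log q ≤ Y.LD) (hq1 : Real.log q < Y.LD)
    (hqb : (1 - (b : ℝ) / s) * Y.LD ≤ Real.log q) :
    (cnt Y.N Y.b {q} Y.P : ℝ) ≤ Y.up (b * Y.n) * ((1 + Y.η) * ((b : ℝ) / s)) *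
      (1 / (q : ℝ) * (1 / (1 - Real.log q / Y.LD))) * (Y.X * VV Y.P) := by
  have hn := Y.hn
  have hs0 : (0 : ℝ) < s := by exact_mod_cast (by omega : 0 < s)
  have hb0 : (0 : ℝ) < b := by exact_mod_cast (by omega : 0 < b)
  have h1 : 0 < 1 - Real.log q / Y.LD := by
    rw [sub_pos, div_lt_one hL]
    exact hq1
  have h2 : 1 - (b : ℝ) / s ≤ Real.log q / Y.LD := by
    rw [le_div_iff₀ hL]
    exact hqb
  have h3 := upp_small (Y := Y) hκ (q := q) (b := b * Y.n) (Λ := Y.LD / s)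
    (ρ := (b : ℝ) / s * (1 / (1 - Real.log q / Y.LD))) (Nat.mul_pos (by omega) (by omega)) hq (by
      rw [hP, mem_filter]
      exact fun h => hqs h.2) (by
      intro p hp
      rw [hP] at hp
      rw [le_div_iff₀ hs0]
      have := (mem_filter.1 hp).2
      linarith) (by
      rw [mul_one_div, le_div_iff₀ h1]
      linarith) (by
      push_cast
      have e1 : (b : ℝ) / s * (1 / (1 - Real.log q / Y.LD)) * (Y.n * (Y.LD - Real.log q)) =
          b * Y.n * (Y.LD / s) := by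
        have e2 : Y.LD - Real.log q = Y.LD * (1 - Real.log q / Y.LD) := by
          field_simp
        rw [e2]
        generalize 1 - Real.log q / Y.LD = v at h1
        field_simp
      rw [e1]) hq1.le
  refine h3.trans (le_of_eq ?_)
  ring

/-- the bound for the moduli of middle size -/
theorem cnt_mid {Y : Sys} {s q : ℕ} (hs : 1 ≤ s) (hL : 0 < Y.LD)
    (hP : Y.P = Y.Q.filter fun p : ℕ => (s : ℝ) * Real.log p ≤ Y.LD) (hq : q ∈ Y.Q)
    (hqs : ¬ (s : ℝ) * Real.log q ≤ Y.LD) (hq1 : Real.log q < Y.LD) :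
    (cnt Y.N Y.b {q} Y.P : ℝ) ≤ (1 / (q : ℝ) + 1 / (q : ℝ) * (Y.up (kq Y.n s Y.LD q) - 1)) *
      (Y.X * VV Y.P) := by
  have hs0 : (0 : ℝ) < s := by exact_mod_cast (by omega : 0 < s)
  have h1 : 0 < 1 - Real.log q / Y.LD := by
    rw [sub_pos, div_lt_one hL]
    exact hq1
  have h3 := upp_of_sys (Y := Y) (q := q) (k := kq Y.n s Y.LD q) (Λ := Y.LD / s) hq (by
      rw [hP, mem_filter]
      exact fun h => hqs h.2) (by
      intro p hp
      rw [hP] at hp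
      rw [le_div_iff₀ hs0]
      have := (mem_filter.1 hp).2
      linarith) (by
      have h4 : (kq Y.n s Y.LD q : ℝ) ≤ Y.n * s * (1 - Real.log q / Y.LD) := by
        unfold kq
        exact Nat.floor_le (by positivity)
      calc (kq Y.n s Y.LD q : ℝ) * (Y.LD / s) ≤ Y.n * s * (1 - Real.log q / Y.LD) * (Y.LD / s) :=
            mul_le_mul_of_nonneg_right h4 (by positivity)
        _ = Y.n * (Y.LD - Real.log q) := by
            field_simp) hq1.le
  refine h3.trans (le_of_eq ?_)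
  ring

theorem win_three {K : ℕ} (hK : 3 ≤ K) :
    Win K (sK K) (Real.exp (LK K) / (1 + Real.exp (LK K))) := by
  classical
  obtain ⟨hs12, hs4⟩ := sK_ge hK
  set s : ℕ := sK K with hsdef
  have hs12' : (12 : ℝ) ≤ s := by exact_mod_cast hs12
  have hs0 : (0 : ℝ) < s := by linarith
  have hE0 := Real.exp_pos (LK K)
  set G : ℝ := Real.exp (LK K) with hG
  set b0 : ℝ := G / (1 + G) with hb0
  have hb01 : b0 < 1 := by
    rw [hb0, div_lt_one (by linarith)]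
    linarith
  have hb0' : b0 / (1 - b0) = G := by
    rw [hb0]
    field_simp
    ring
  have hsG : ((s : ℝ) - 2) / 2 ≤ G := by
    -- `log ((s - 2)/2) ≤ LK`
    have e1 : (s : ℝ) = 3 * 2 ^ (K - 1) := by rw [hsdef, sK]; push_cast; rfl
    have hG3 : G = 3 ^ (2 ^ (K - 1) - 1) := by
      rw [hG]
      unfold LK
      have h1 : ((2 : ℝ) ^ (K - 1) - 1) = ((2 ^ (K - 1) - 1 : ℕ) : ℝ) := by
        rw [Nat.cast_sub Nat.one_le_two_pow]
        push_cast
        rfl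
      rw [h1, ← Real.log_pow, Real.exp_log (by positivity)]
    rw [e1, hG3]
    have h2 : ∀ m : ℕ, 1 ≤ m → (3 * (m : ℝ) - 2) / 2 ≤ 3 ^ (m - 1) := by
      intro m hm
      obtain ⟨r, rfl⟩ : ∃ r, m = r + 1 := ⟨m - 1, by omega⟩
      simp only [Nat.add_sub_cancel]
      push_cast
      have h4 : (1 : ℝ) + 2 * r ≤ 3 ^ r := by
        clear hm
        induction r with
        | zero => norm_num
        | succ r ih =>
          rw [pow_succ]
          push_cast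
          have h3 : (0 : ℝ) ≤ r := Nat.cast_nonneg r
          linarith
      have h3 : (0 : ℝ) ≤ r := Nat.cast_nonneg r
      linarith
    have h3 := h2 (2 ^ (K - 1)) Nat.one_le_two_pow
    push_cast at h3
    exact h3
  have hab : 1 - 2 / (s : ℝ) ≤ b0 := by
    rw [hb0, le_div_iff₀ (by linarith), sub_mul, one_mul, div_mul_eq_mul_div, sub_le_iff_le_add,
      ← sub_le_iff_le_add', le_div_iff₀ hs0]
    linarith
  have ha0 : 0 < 1 - 2 / (s : ℝ) := by
    rw [sub_pos, div_lt_one hs0]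
    linarith
  obtain ⟨E, hE⟩ : ∃ E : ℝ, E = 1 / 10000 := ⟨_, rfl⟩
  obtain ⟨L0, hL0, hS2⟩ := S2log ha0 hab hb01 (show (0 : ℝ) < E by rw [hE]; norm_num)
  have hA := A0_pos
  obtain ⟨n, hn⟩ : ∃ n : ℕ, n = 10001 := ⟨_, rfl⟩
  have hE00 : 0 < E := by rw [hE]; norm_num
  have hl4 : 0 < Real.log 4 := Real.log_pos (by norm_num)
  have hK0 : (0 : ℝ) < K := by exact_mod_cast (by omega : 0 < K)
  refine ⟨1 / 400 / K, by positivity, 1 / 10000, by norm_num, by norm_num, n, by norm_num [hn],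
    max L0 (max (s * Real.log 4) (A0 * s * n / E)), ?_⟩
  intro Y hκ hYn hSm hI hLD hP hQ
  have hLD0 : L0 ≤ Y.LD := (le_max_left _ _).trans hLD
  have hLD1 : s * Real.log 4 ≤ Y.LD := (le_max_left _ _).trans ((le_max_right _ _).trans hLD)
  have hLD2 : A0 * s * n / E ≤ Y.LD := (le_max_right _ _).trans ((le_max_right _ _).trans hLD)
  have hL : 0 < Y.LD := lt_of_lt_of_le (by positivity) hLD1
  have hSQ := sq_of_sys (Y := Y) hκ (by rw [hYn]; norm_num [hn])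
  rw [hYn] at hSQ
  set F := Y.Q.filter (fun p : ℕ => ¬ (s : ℝ) * Real.log p ≤ Y.LD) with hF
  set F1 := F.filter (fun q : ℕ => Real.log q ≤ (1 - 2 / (s : ℝ)) * Y.LD) with hF1
  set F2 := F.filter (fun q : ℕ => ¬ Real.log q ≤ (1 - 2 / (s : ℝ)) * Y.LD) with hF2
  have hn0 : (0 : ℝ) < n := by rw [hn]; norm_num
  have hup : ∀ k, 1 ≤ Y.up k := fun k => Sys.one_le_up k
  have hF1m : ∀ q ∈ F1, q.Prime ∧ 1 / (s : ℝ) * Y.LD < Real.log q ∧
      Real.log q ≤ (1 - 2 / (s : ℝ)) * Y.LD := by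
    intro q hq
    obtain ⟨h1, h2⟩ := mem_filter.1 hq
    obtain ⟨h3, h4⟩ := mem_filter.1 h1
    refine ⟨(Y.hQ q h3).1, ?_, h2⟩
    rw [one_div, ← div_eq_inv_mul, div_lt_iff₀ hs0]
    linarith
  have hF2m : ∀ q ∈ F2, q.Prime ∧ (1 - 2 / (s : ℝ)) * Y.LD < Real.log q ∧
      Real.log q ≤ b0 * Y.LD := by
    intro q hq
    obtain ⟨h1, h2⟩ := mem_filter.1 hq
    obtain ⟨h3, h4⟩ := mem_filter.1 h1
    exact ⟨(Y.hQ q h3).1, not_le.1 h2, hQ q h3⟩
  have hA1 := S1log (F := F1) (α := 1 / (s : ℝ) * Y.LD) (β := (1 - 2 / (s : ℝ)) * Y.LD) hF1m (by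
      rw [one_div, ← div_eq_inv_mul, le_div_iff₀ hs0]
      linarith) (by
      refine mul_le_mul_of_nonneg_right ?_ hL.le
      rw [div_le_iff₀ hs0, sub_mul, div_mul_cancel₀ _ hs0.ne']
      linarith)
  have e1 : (1 - 2 / (s : ℝ)) * Y.LD / (1 / (s : ℝ) * Y.LD) = (s : ℝ) - 2 := by
    field_simp
  rw [e1] at hA1
  have hA1' : ∑ q ∈ F1, 1 / (q : ℝ) ≤ Real.log ((s : ℝ) - 2) + E := by
    refine hA1.trans (add_le_add le_rfl ?_)
    rw [div_le_iff₀ (by positivity)]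
    have h1 : A0 * s * n ≤ Y.LD * E := by
      rw [div_le_iff₀ (by rw [hE]; norm_num)] at hLD2
      exact hLD2
    have h2 : A0 * s ≤ A0 * s * n := by
      have h3 : (1 : ℝ) ≤ n := by rw [hn]; norm_num
      exact le_mul_of_one_le_right (by positivity) h3
    have h4 : E * (1 / (s : ℝ) * Y.LD) = Y.LD * E / s := by ring
    rw [h4, le_div_iff₀ hs0]
    linarith
  have hA2 := S3 (n := n) (s := s) (by norm_num [hn]) (by omega) hLD1 hF1m
    (φ := fun k => Y.up k - 1) (fun k => by have := hup k; linarith)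
    (fun k m hkm => by have := Sys.up_anti (Y := Y) hkm; linarith)
  have hA3 := hS2 Y.LD F2 hLD0 hF2m
  have e2 : (1 - 2 / (s : ℝ)) / (1 - (1 - 2 / (s : ℝ))) = ((s : ℝ) - 2) / 2 := by
    field_simp
    ring
  rw [hb0', e2, hG, Real.log_exp] at hA3
  have hmain := seq_main hSQ hSm hK (le_refl (1 / 10000 : ℝ)) (by norm_num [hn]) hI
    (le_refl (LK K)) (show (0 : ℝ) ≤ E by rw [hE]; norm_num) (show E ≤ 1 / 10000 by rw [hE])
  rw [← hsdef] at hmain
  set Lg : ℝ := Real.log ((s : ℝ) - 2) with hLg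
  set XX : ℝ := Real.log (((s : ℝ) - 2) / 2) with hXX
  set SA : ℝ := ∑ i ∈ Ico (2 * n) ((s - 1) * n), (Y.up i - 1) with hSA
  have hSA0 : 0 ≤ SA := sum_nonneg fun k _ => by have := hup k; linarith
  have hLg0 : 0 ≤ Lg := Real.log_nonneg (by linarith)
  have hA2' : ∑ q ∈ F1, 1 / (q : ℝ) * (Y.up (kq n s Y.LD q) - 1) ≤
      (1 + E) * ((1 / n + Lg) / (((s : ℝ) - 3) * n) * SA) := by
    refine hA2.trans (mul_le_mul_of_nonneg_right ?_ ?_)
    · have : A0 * s * n / Y.LD ≤ E := by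
        rw [div_le_iff₀ hL]
        rw [div_le_iff₀ (by rw [hE]; norm_num)] at hLD2
        linarith
      linarith
    · have : 0 < (s : ℝ) - 3 := by linarith
      positivity
  set W : ℝ := (Lg + E) + (1 + E) * ((1 / n + Lg) / (((s : ℝ) - 3) * n) * SA) +
      Y.up (2 * n) * ((1 + Y.η) * (2 / s)) * (LK K - XX + E) with hW
  have h5 := Sys.VV_Pz_pos (Y := Y) (Y.Z - 1)
  rw [Sys.Pz_all] at h5
  have hX := Y.hX
  have hXV : 0 < Y.X * VV Y.P := mul_pos hX h5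
  have hsum : ∑ q ∈ F, (cnt Y.N Y.b {q} Y.P : ℝ) ≤ W * (Y.X * VV Y.P) := by
    rw [← sum_filter_add_sum_filter_not F (fun q : ℕ => Real.log q ≤ (1 - 2 / (s : ℝ)) * Y.LD)]
    rw [← hF1, ← hF2]
    have hlt : ∀ q ∈ Y.Q, Real.log q < Y.LD := fun q hq => by
      have h1 := hQ q hq
      have h2 : b0 * Y.LD < 1 * Y.LD := mul_lt_mul_of_pos_right hb01 hL
      linarith
    have g1 : ∑ q ∈ F1, (cnt Y.N Y.b {q} Y.P : ℝ) ≤
        ((Lg + E) + (1 + E) * ((1 / n + Lg) / (((s : ℝ) - 3) * n) * SA)) * (Y.X * VV Y.P) := by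
      calc ∑ q ∈ F1, (cnt Y.N Y.b {q} Y.P : ℝ) ≤
            ∑ q ∈ F1, (1 / (q : ℝ) + 1 / (q : ℝ) * (Y.up (kq n s Y.LD q) - 1)) * (Y.X * VV Y.P) := by
            refine sum_le_sum fun q hq => ?_
            obtain ⟨h1, h2⟩ := mem_filter.1 hq
            obtain ⟨h3, h4⟩ := mem_filter.1 h1
            have := cnt_mid (Y := Y) (s := s) (by omega) hL hP h3 h4 (hlt q h3)
            rw [hYn] at this
            exact this
        _ = (∑ q ∈ F1, 1 / (q : ℝ) + ∑ q ∈ F1, 1 / (q : ℝ) * (Y.up (kq n s Y.LD q) - 1)) *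
              (Y.X * VV Y.P) := by rw [← sum_mul, sum_add_distrib]
        _ ≤ _ := mul_le_mul_of_nonneg_right (add_le_add hA1' hA2') hXV.le
    have g2 : ∑ q ∈ F2, (cnt Y.N Y.b {q} Y.P : ℝ) ≤
        (Y.up (2 * n) * ((1 + Y.η) * (2 / s)) * (LK K - XX + E)) * (Y.X * VV Y.P) := by
      calc ∑ q ∈ F2, (cnt Y.N Y.b {q} Y.P : ℝ) ≤
            ∑ q ∈ F2, Y.up (2 * n) * ((1 + Y.η) * (2 / s)) *
              (1 / (q : ℝ) * (1 / (1 - Real.log q / Y.LD))) * (Y.X * VV Y.P) := by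
            refine sum_le_sum fun q hq => ?_
            obtain ⟨h1, h2⟩ := mem_filter.1 hq
            obtain ⟨h3, h4⟩ := mem_filter.1 h1
            have := cnt_large (Y := Y) hκ (s := s) (b := 2) (by omega) (by omega) hL hP h3 h4
              (hlt q h3) (by
                push_cast
                exact (not_le.1 h2).le)
            rw [hYn] at this
            push_cast at this
            exact this
        _ = (Y.up (2 * n) * ((1 + Y.η) * (2 / s)) *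
              ∑ q ∈ F2, 1 / (q : ℝ) * (1 / (1 - Real.log q / Y.LD))) * (Y.X * VV Y.P) := by
            rw [← sum_mul, mul_sum]
        _ ≤ _ := by
            refine mul_le_mul_of_nonneg_right (mul_le_mul_of_nonneg_left hA3 ?_) hXV.le
            have h6 := hup (2 * n)
            have h7 := Y.hη
            have h8 : 0 ≤ (2 : ℝ) / s := by positivity
            exact mul_nonneg (by linarith) (mul_nonneg (by linarith) h8)
    calc _ ≤ _ := add_le_add g1 g2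
      _ = _ := by rw [hW]; ring
  have := win_of (Y := Y) (K := K) (s := s) (c0 := 1 / 400) (LD := Y.LD) (by omega) rfl
    hL.le hP hsum (by
      rw [hYn]
      linarith)
  exact this

end MF11
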