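import Pool.Agent.HD44.Low
import Pool.Agent.HD44.Contra
import Pool.Agent.HD44.Eng3
import Pool.Agent.HD44.Fund3
import Pool.Agent.MF11.Win

/-!
# [MF11-BUILDP] The sieve problem given by one class for every prime of a set
-/

namespace MF11

open Finset YX49 RS44 HD44

theorem exists_sysP {ε τ : ℝ} (hε0 : 0 < ε) (hε1 : ε ≤ 1 / 2) (hτ : 0 < τ) (hτ1 : τ ≤ 1)
    {n s : ℕ} (hn : 2 ≤ n) (hs3 : 3 ≤ s) (hs : ε * (s + 2) ≤ 1) : ∃ y0 : ℝ, ∀ (x y : ℕ) (PP : Finset ℕ)
    (b : ℕ → ℕ), (∀ p ∈ PP, p.Prime ∧ p ≤ x) →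
    y0 ≤ Real.log y → 0 < y → y ≤ x ^ 2 → ∃ (Y : Sys) (w : ℕ), 2 ≤ w ∧ w ≤ x ∧ Y.κ = 1 ∧ Y.n = n ∧
      Sm n Y.I Y.δ Y.η τ ∧ s * n ≤ Y.I ∧ Y.LD = (1 - ε) * Real.log y ∧
      (Y.P = Y.Q.filter fun p : ℕ => (s : ℝ) * Real.log p ≤ Y.LD) ∧
      (Y.Q = PP.filter fun p => w < p) ∧ (Y.N = sift y 1 0 (PP.filter fun p => p ≤ w) b) ∧ Y.b = b ∧
      (Y.X = y * VV (PP.filter fun p => p ≤ w)) := by
  classical
  set δ0 : ℝ := τ * ε ^ 2 / 18 with hδ0
  have hδ00 : 0 < δ0 := by positivity
  have hδ01 : δ0 ≤ 1 := by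
    rw [hδ0, div_le_one (by norm_num)]
    nlinarith
  obtain ⟨s1, hs1, hF⟩ := fund3 δ0 hδ00 hδ01
  have hs1' : (1 : ℝ) ≤ s1 := by exact_mod_cast hs1
  have hs10 : (0 : ℝ) < s1 := by linarith
  set θ : ℝ := δ0 / (s1 : ℝ) ^ 3 with hθ
  have hθ0 : 0 < θ := by positivity
  have hs3' : (1 : ℝ) ≤ (s1 : ℝ) ^ 3 := one_le_pow₀ hs1'
  have hθ1 : θ ≤ 1 := by
    rw [hθ, div_le_one (by positivity)]
    linarith
  have hFund : Fund s1 θ := hF
  have htwo := sift_two3 hθ0 hθ1 hFund
  set η : ℝ := τ * ε ^ 2 / (9 * (s1 : ℝ) ^ 2) with hη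
  have hη0 : 0 < η := by positivity
  have hle : 0 < Real.log (1 + η) := Real.log_pos (by linarith)
  have hA := A0_pos
  have hl4 : 0 < Real.log 4 := Real.log_pos (by norm_num)
  set M : ℝ := max (Real.log 4) ((A0 + 1) / Real.log (1 + η)) with hM
  have hM0 : 0 < M := lt_max_of_lt_left hl4
  refine ⟨max (2 * s1 * M / ε) (Real.log (2 / θ) / ε), fun x y PP b hPP hy hy0 hyx => ?_⟩
  have hy1 : 2 * s1 * M / ε ≤ Real.log y := (le_max_left _ _).trans hy
  have hy2 : Real.log (2 / θ) / ε ≤ Real.log y := (le_max_right _ _).trans hy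
  have hy0' : (0 : ℝ) < y := by exact_mod_cast hy0
  have hly : 0 < Real.log y := lt_of_lt_of_le (by positivity) hy1
  have hx0 : 0 < x := by
    rcases Nat.eq_zero_or_pos x with h | h
    · rw [h] at hyx
      simp at hyx
      omega
    · exact h
  have hx0' : (0 : ℝ) < x := by exact_mod_cast hx0
  have hlyx : Real.log y ≤ 2 * Real.log x := by
    have h1 : (y : ℝ) ≤ (x : ℝ) ^ 2 := by exact_mod_cast hyx
    have h2 := Real.log_le_log hy0' h1
    rw [Real.log_pow] at h2
    push_cast at h2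
    exact h2
  -- the parameter `w`
  set T : ℝ := ε * Real.log y / s1 with hT
  have hTM : 2 * M ≤ T := by
    rw [hT, le_div_iff₀ hs10]
    rw [div_le_iff₀ hε0] at hy1
    linarith
  have hMl4 : Real.log 4 ≤ M := le_max_left _ _
  have hT4 : 2 * Real.log 4 ≤ T := by linarith
  set w : ℕ := ⌊Real.exp T⌋₊ with hw
  have hexp4 : 4 ≤ Real.exp T := by
    have h1 : Real.exp (Real.log 4) ≤ Real.exp T := Real.exp_le_exp.mpr (by linarith)
    rwa [Real.exp_log (by norm_num)] at h1
  have hw4 : 4 ≤ w := Nat.le_floor (by exact_mod_cast hexp4)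
  have hw4' : (4 : ℝ) ≤ w := by exact_mod_cast hw4
  have hw0 : (0 : ℝ) < w := by linarith
  have hwT : (w : ℝ) ≤ Real.exp T := Nat.floor_le (Real.exp_pos _).le
  have hlwT : Real.log w ≤ T := by
    have := Real.log_le_log hw0 hwT
    rwa [Real.log_exp] at this
  have hlw : T / 2 ≤ Real.log w := by
    have h1 : Real.exp T / 2 ≤ w := by
      have := Nat.lt_floor_add_one (Real.exp T)
      rw [← hw] at this
      linarith
    have h2 := Real.log_le_log (by positivity) h1
    rw [Real.log_div (Real.exp_pos _).ne' (by norm_num), Real.log_exp] at h2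
    have h3 : Real.log 4 = 2 * Real.log 2 := by
      rw [show (4 : ℝ) = 2 ^ 2 by norm_num, Real.log_pow]
      push_cast
      rfl
    have h4 : 0 < Real.log 2 := Real.log_pos (by norm_num)
    linarith
  have hlw0 : 0 < Real.log w := Real.log_pos (by linarith)
  have hlwM : M ≤ Real.log w := by linarith
  have hwx : w ≤ x := by
    have h1 : Real.exp T ≤ x := by
      rw [← Real.exp_log hx0']
      refine Real.exp_le_exp.mpr ?_
      have h2 : T ≤ 1 / 2 * Real.log y := by
        rw [hT, div_le_iff₀ hs10]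
        calc ε * Real.log y ≤ 1 / 2 * Real.log y := mul_le_mul_of_nonneg_right hε1 hly.le
          _ ≤ 1 / 2 * Real.log y * s1 := le_mul_of_one_le_right (by positivity) hs1'
      linarith
    exact_mod_cast hwT.trans h1
  have hwx' : (w : ℝ) ≤ x := by exact_mod_cast hwx
  have hlx : 0 < Real.log x := Real.log_pos (by linarith)
  -- the level
  set LD : ℝ := (1 - ε) * Real.log y with hLD
  have hLD0 : 0 < LD := mul_pos (by linarith) hly
  set Q : Finset ℕ := PP.filter fun p => w < p with hQ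
  have hQm : ∀ {p : ℕ}, p ∈ Q → p.Prime ∧ p ≤ x ∧ w < p := by
    intro p hp
    rw [hQ, mem_filter] at hp
    exact ⟨(hPP p hp.1).1, (hPP p hp.1).2, hp.2⟩
  set SP : Finset ℕ := PP.filter fun p => p ≤ w with hSP
  have hSPm : ∀ {p : ℕ}, p ∈ SP → p.Prime ∧ p ≤ w := by
    intro p hp
    rw [hSP, mem_filter] at hp
    exact ⟨(hPP p hp.1).1, hp.2⟩
  set V : ℝ := VV SP with hV
  have hV0 : 0 < V := VV_pos fun p hp => (hSPm hp).1
  set N := sift y 1 0 SP b with hN
  have hws : (w : ℝ) ^ s1 ≤ Real.exp (ε * Real.log y) := by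
    calc (w : ℝ) ^ s1 ≤ (Real.exp T) ^ s1 := pow_le_pow_left₀ hw0.le hwT _
      _ = Real.exp (s1 * T) := (Real.exp_nat_mul T s1).symm
      _ = _ := by
          congr 1
          rw [hT]
          field_simp
  have hy2' : 2 / θ ≤ Real.exp (ε * Real.log y) := by
    have h1 : Real.log (2 / θ) ≤ ε * Real.log y := by
      rw [div_le_iff₀ hε0] at hy2
      linarith
    have h2 := Real.exp_le_exp.mpr h1
    rwa [Real.exp_log (by positivity)] at h2
  have hud : ∀ e ⊆ Q, ∑ p ∈ e, Real.log p ≤ LD →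
      |(cnt N b e ∅ : ℝ) - y * V / ∏ p ∈ e, (p : ℝ)| ≤ (2 * θ) * (y * V / ∏ p ∈ e, (p : ℝ)) := by
    intro e he hsum
    have hep : ∀ p ∈ e, p.Prime := fun p hp => (hQm (he hp)).1
    obtain ⟨h, hh, hm⟩ := crt b hep
    set d : ℕ := ∏ p ∈ e, p with hd
    have hd0 : 0 < d := prod_pos fun p hp => (hep p hp).pos
    have hd0' : (0 : ℝ) < d := by exact_mod_cast hd0
    have hd1 : (d : ℝ) = ∏ p ∈ e, (p : ℝ) := by rw [hd]; push_cast; rfl
    have hdD : (d : ℝ) ≤ Real.exp LD := by
      rw [hd1]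
      calc ∏ p ∈ e, (p : ℝ) = Real.exp (∑ p ∈ e, Real.log p) := by
            rw [Real.exp_sum]
            refine prod_congr rfl fun p hp => ?_
            rw [Real.exp_log (by exact_mod_cast (hep p hp).pos)]
        _ ≤ Real.exp LD := Real.exp_le_exp.mpr hsum
    have hnd : ∀ l : ℕ, l.Prime → l ∉ e → ¬ l ∣ d := by
      intro l hl hle hdvd
      rw [hd] at hdvd
      obtain ⟨p, hp, hlp⟩ := (Prime.dvd_finsetProd_iff hl.prime _).1 hdvd
      exact hle (((Nat.prime_dvd_prime_iff_eq hl (hep p hp)).1 hlp) ▸ hp)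
    have hexpy : Real.exp (ε * Real.log y) * Real.exp LD = y := by
      rw [← Real.exp_add, hLD]
      have : ε * Real.log y + (1 - ε) * Real.log y = Real.log y := by ring
      rw [this, Real.exp_log hy0']
    have h1 := htwo w y d h SP b (by omega) hd0 (fun l hl => ⟨(hSPm hl).1,
        hnd l (hSPm hl).1 fun hle => by
          have h2 := (hQm (he hle)).2.2
          have h3 := (hSPm hl).2
          omega⟩) (fun l hl => (hSPm hl).2) (by
        have h2 : (w : ℝ) ^ s1 * d ≤ y := by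
          calc (w : ℝ) ^ s1 * d ≤ Real.exp (ε * Real.log y) * Real.exp LD :=
                mul_le_mul hws hdD hd0'.le (Real.exp_pos _).le
            _ = y := hexpy
        exact_mod_cast h2) (by
        refine hy2'.trans ?_
        rw [le_div_iff₀ hd0']
        calc Real.exp (ε * Real.log y) * d ≤ Real.exp (ε * Real.log y) * Real.exp LD :=
              mul_le_mul_of_nonneg_left hdD (Real.exp_pos _).le
          _ = y := hexpy)
    have h2 : cnt N b e ∅ = (sift y d h SP b).card := by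
      unfold cnt
      congr 1
      ext m
      rw [mem_filter, hN]
      unfold sift
      rw [mem_filter, mem_filter, hm]
      constructor
      · rintro ⟨⟨h3, _, h4⟩, h5, _⟩
        exact ⟨h3, h5, h4⟩
      · rintro ⟨h3, h5, h4⟩
        exact ⟨⟨h3, Nat.modEq_one, h4⟩, h5, fun p hp => absurd hp (notMem_empty p)⟩
    rw [h2, ← hd1, abs_le]
    have e1 : (y : ℝ) * V / d = (y : ℝ) / d * V := by ring
    rw [e1]
    constructor
    · have := h1.1
      linarith
    · have := h1.2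
      linarith
  -- the density condition
  set c : ℝ := Real.log w / Real.log x with hc
  have hxc : (x : ℝ) ^ c = w := by
    rw [Real.rpow_def_of_pos hx0', hc, mul_div_cancel₀ _ hlx.ne', Real.exp_log hw0]
  have hdim := dim_all (x := x) (c := c) (by rw [hxc]; exact hw4') ∅ ∅
  have hdm : ∀ z : ℕ, ∀ Λ ρ : ℝ, 1 ≤ ρ →
      (∀ p ∈ Q.filter (fun p : ℕ => (s : ℝ) * Real.log p ≤ LD), p < z → Real.log p ≤ Λ) →
      VV ((Q.filter fun p : ℕ => (s : ℝ) * Real.log p ≤ LD).filter
        fun p => p < z ∧ ρ * Real.log p ≤ Λ) ≤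
        (1 + η) * ρ ^ (1 : ℝ) *
          VV ((Q.filter fun p : ℕ => (s : ℝ) * Real.log p ≤ LD).filter fun p => p < z) := by
    intro z Λ ρ hρ hΛ
    refine dm_of (P := Q.filter fun p : ℕ => (s : ℝ) * Real.log p ≤ LD) hdim ?_ hxc.le (by omega)
      hwx (by norm_num) hη0.le ?_ ?_ z Λ ρ hρ hΛ
    · have := A0_pos
      unfold A0 at this
      exact this.le
    · have h1 : (A0 + 1) / Real.log (1 + η) ≤ Real.log w := (le_max_right _ _).trans hlwM
      rw [div_le_iff₀ hle] at h1
      have h2 : (1 : ℝ) / w ≤ 1 / Real.log w :=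
        one_div_le_one_div_of_le hlw0 ((Real.log_le_sub_one_of_pos hw0).trans (by linarith))
      have h3 : A0 / Real.log w + 1 / Real.log w ≤ Real.log (1 + η) := by
        rw [← add_div, div_le_iff₀ hlw0]
        linarith
      unfold A0 at h3
      linarith
    · intro p hp
      have h1 := hQm (mem_filter.1 hp).1
      exact ⟨h1.1, h1.2.2, h1.2.1, notMem_empty p, notMem_empty p⟩
  set I : ℕ := ⌊n * LD / Real.log w⌋₊ with hI
  have hn0 : (0 : ℝ) < n := by exact_mod_cast (by omega : 0 < n)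
  have hIlt : n * LD < (I + 1) * Real.log w := by
    have := Nat.lt_floor_add_one (n * LD / Real.log w)
    rw [div_lt_iff₀ hlw0] at this
    exact this
  have hIle : (I : ℝ) * Real.log w ≤ n * LD := by
    have := Nat.floor_le (show 0 ≤ n * LD / Real.log w by positivity)
    rw [le_div_iff₀ hlw0] at this
    exact this
  have hsI : s * n ≤ I := by
    refine Nat.le_floor ?_
    rw [le_div_iff₀ hlw0]
    push_cast
    have h1 : (s : ℝ) * Real.log w ≤ LD := by
      calc (s : ℝ) * Real.log w ≤ s * T := mul_le_mul_of_nonneg_left hlwT (Nat.cast_nonneg _)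
        _ ≤ s * (ε * Real.log y) := by
            refine mul_le_mul_of_nonneg_left ?_ (Nat.cast_nonneg _)
            rw [hT]
            exact div_le_self (by positivity) hs1'
        _ = (ε * s) * Real.log y := by ring
        _ ≤ (1 - ε) * Real.log y := by
            refine mul_le_mul_of_nonneg_right ?_ hly.le
            linarith
    calc (s : ℝ) * n * Real.log w = n * (s * Real.log w) := by ring
      _ ≤ n * LD := mul_le_mul_of_nonneg_left h1 hn0.le
  have hI1 : (I : ℝ) + 1 ≤ 3 * n * s1 / ε := by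
    have h1 : (I : ℝ) * (T / 2) ≤ n * LD :=
      (mul_le_mul_of_nonneg_left hlw (Nat.cast_nonneg _)).trans hIle
    have h2 : (I : ℝ) * (ε * Real.log y / s1 / 2) ≤ n * Real.log y := by
      refine h1.trans (mul_le_mul_of_nonneg_left ?_ hn0.le)
      rw [hLD]
      nlinarith
    have h3 : (I : ℝ) * ε ≤ 2 * n * s1 := by
      have h4 : (I : ℝ) * (ε * Real.log y / s1 / 2) = (I * ε) * (Real.log y / (2 * s1)) := by
        field_simp
      have h5 : (n : ℝ) * Real.log y = (2 * n * s1) * (Real.log y / (2 * s1)) := by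
        field_simp
      rw [h4, h5] at h2
      exact le_of_mul_le_mul_right h2 (by positivity)
    rw [le_div_iff₀ hε0]
    have h6 : ε ≤ n * s1 := by
      have h7 : (1 : ℝ) ≤ n := by exact_mod_cast (by omega : 1 ≤ n)
      nlinarith
    linarith
  have hI2 : ((I : ℝ) + 1) ^ 2 ≤ 9 * n ^ 2 * s1 ^ 2 / ε ^ 2 := by
    calc ((I : ℝ) + 1) ^ 2 ≤ (3 * n * s1 / ε) ^ 2 := pow_le_pow_left₀ (by positivity) hI1 2
      _ = _ := by
          rw [div_pow]
          ring
  let Y : Sys :=
    { N := N, b := b, Q := Q, P := Q.filter fun p : ℕ => (s : ℝ) * Real.log p ≤ LD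
      X := y * V, LD := LD, lw := Real.log w,
      δ := 2 * θ, η := η, κ := 1, n := n, I := I, Z := x + 2
      hQ := fun p hp => ⟨(hQm hp).1, Real.log_lt_log hw0 (by
        exact_mod_cast (hQm hp).2.2)⟩
      hP := filter_subset _ _
      hX := mul_pos hy0' hV0
      hlw := hlw0
      hδ := by positivity
      hη := hη0.le
      hκ := by norm_num
      hn := by omega
      hI := hIlt
      hZ := fun p hp => by
        have := (hQm (mem_filter.1 hp).1).2.1
        omega
      hZ1 := by omega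
      ud := hud
      dm := hdm }
  refine ⟨Y, w, by omega, hwx, rfl, rfl, ⟨?_, hτ.le, hτ1, ?_, ?_⟩, hsI, rfl, rfl, rfl, rfl, rfl, rfl⟩
  · exact (Nat.mul_le_mul_right n hs3).trans hsI
  · show 2 * θ * ((I : ℝ) + 1) ^ 2 ≤ τ * n ^ 2
    calc 2 * θ * ((I : ℝ) + 1) ^ 2 ≤ 2 * θ * (9 * n ^ 2 * s1 ^ 2 / ε ^ 2) :=
          mul_le_mul_of_nonneg_left hI2 (by positivity)
      _ = τ * n ^ 2 / s1 := by
          rw [hθ, hδ0]
          field_simp
          ring
      _ ≤ τ * n ^ 2 := div_le_self (by positivity) hs1'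
  · show η * ((I : ℝ) + 1) ^ 2 ≤ τ * n ^ 2
    calc η * ((I : ℝ) + 1) ^ 2 ≤ η * (9 * n ^ 2 * s1 ^ 2 / ε ^ 2) :=
          mul_le_mul_of_nonneg_left hI2 hη0.le
      _ = τ * n ^ 2 := by
          rw [hη]
          field_simp

end MF11
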