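import Pool.Agent.HD44.Low

/-!
# [MF11-PSUM] Sums over primes on a logarithmic scale
-/

namespace MF11

open Finset YX49 RS44 HD44

/-- the constant in Mertens' theorem -/
noncomputable def A0 : ℝ := 2 * (9 + Pool.Agent.E456.cpp)

theorem A0_pos : 0 < A0 := by
  have := Pool.Agent.E456.cpp_nonneg
  unfold A0
  linarith

/-- Mertens on a logarithmic scale -/
theorem S1log {F : Finset ℕ} {α β : ℝ} (hF : ∀ q ∈ F, q.Prime ∧ α < Real.log q ∧ Real.log q ≤ β)
    (hα : Real.log 4 ≤ α) (hαβ : α ≤ β) :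
    ∑ q ∈ F, 1 / (q : ℝ) ≤ Real.log (β / α) + A0 / α := by
  classical
  have hl4 : 0 < Real.log 4 := Real.log_pos (by norm_num)
  have hα0 : 0 < α := by linarith
  set x : ℕ := ⌈Real.exp β⌉₊ with hx
  have hxβ : Real.exp β ≤ x := Nat.le_ceil _
  have hx1 : (1 : ℝ) < x := lt_of_lt_of_le (Real.one_lt_exp_iff.2 (by linarith)) hxβ
  have hx0 : (0 : ℝ) < x := by linarith
  have hlx : 0 < Real.log x := Real.log_pos hx1
  set c : ℝ := Real.log 4 / Real.log x with hc
  have hxc : (x : ℝ) ^ c = 4 := by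
    rw [Real.rpow_def_of_pos hx0, hc, mul_div_cancel₀ _ hlx.ne', Real.exp_log (by norm_num)]
  have h1 := dim_all (x := x) (c := c) hxc.ge ∅ ∅ (Real.exp α) (Real.exp β) (by
    rw [hxc, ← Real.exp_log (show (0 : ℝ) < 4 by norm_num)]
    exact Real.exp_le_exp.mpr hα) (Real.exp_le_exp.mpr hαβ) hxβ
  rw [Real.log_exp, Real.log_exp, one_mul] at h1
  refine le_trans ?_ h1
  refine sum_le_sum_of_subset_of_nonneg ?_ fun p _ _ => by positivity
  intro q hq
  obtain ⟨h2, h3, h4⟩ := hF q hq
  have hq0 : (0 : ℝ) < q := by exact_mod_cast h2.pos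
  have h5 : (q : ℝ) ≤ Real.exp β := by
    rw [← Real.exp_log hq0]
    exact Real.exp_le_exp.mpr h4
  refine mem_filter.2 ⟨mem_prs.2 ⟨h2, ?_⟩, ?_, h5, notMem_empty _, notMem_empty _⟩
  · have : (q : ℝ) ≤ x := h5.trans hxβ
    exact_mod_cast this
  · rw [← Real.exp_log hq0]
    exact Real.exp_lt_exp.mpr h3

/-- one step -/
theorem step_ineq {a b t h : ℝ} (ha : 0 < a) (hb : b < 1) (hat : a ≤ t) (hh : 0 ≤ h)
    (htb : t + h ≤ b) :
    1 / (1 - (t + h)) * Real.log ((t + h) / t) ≤
      (Real.log ((t + h) / (1 - (t + h))) - Real.log (t / (1 - t))) + h ^ 2 / (a * (1 - b) ^ 2) := by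
  have ht : 0 < t := by linarith
  have ht' : 0 < t + h := by linarith
  have h1 : 0 < 1 - (t + h) := by linarith
  have h2 : 0 < 1 - t := by linarith
  have e1 : Real.log ((t + h) / (1 - (t + h))) - Real.log (t / (1 - t)) =
      Real.log ((t + h) / t) + Real.log ((1 - t) / (1 - (t + h))) := by
    rw [Real.log_div ht'.ne' h1.ne', Real.log_div ht.ne' h2.ne', Real.log_div ht'.ne' ht.ne',
      Real.log_div h2.ne' h1.ne']
    ring
  have e2 : 1 / (1 - (t + h)) * Real.log ((t + h) / t) =
      Real.log ((t + h) / t) + (t + h) / (1 - (t + h)) * Real.log ((t + h) / t) := by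
    field_simp
    ring
  rw [e1, e2]
  have h3 : Real.log ((t + h) / t) ≤ h / t := by
    have := Real.log_le_sub_one_of_pos (div_pos ht' ht)
    have e3 : (t + h) / t - 1 = h / t := by field_simp; ring
    linarith
  have h4 : h / (1 - t) ≤ Real.log ((1 - t) / (1 - (t + h))) := by
    have := Real.one_sub_inv_le_log_of_pos (div_pos h2 h1)
    have e3 : 1 - ((1 - t) / (1 - (t + h)))⁻¹ = h / (1 - t) := by
      field_simp
      ring
    linarith
  have h5 : (t + h) / (1 - (t + h)) * Real.log ((t + h) / t) ≤ (t + h) / (1 - (t + h)) * (h / t) :=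
    mul_le_mul_of_nonneg_left h3 (by positivity)
  have h6 : (t + h) / (1 - (t + h)) * (h / t) - h / (1 - t) =
      h ^ 2 / (t * (1 - (t + h)) * (1 - t)) := by
    field_simp
    ring
  have h7 : h ^ 2 / (t * (1 - (t + h)) * (1 - t)) ≤ h ^ 2 / (a * (1 - b) ^ 2) := by
    refine div_le_div_of_nonneg_left (by positivity) (by
      have : 0 < 1 - b := by linarith
      positivity) ?_
    have h8 : 1 - b ≤ 1 - (t + h) := by linarith
    have h9 : 1 - b ≤ 1 - t := by linarith
    have h10 : 0 < 1 - b := by linarith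
    calc a * (1 - b) ^ 2 = a * (1 - b) * (1 - b) := by ring
      _ ≤ t * (1 - (t + h)) * (1 - t) := by
          refine mul_le_mul (mul_le_mul hat h8 h10.le ht.le) h9 h10.le (by positivity)
  linarith

/-- the sum of `1 / (q (1 - log q / LD))` -/
theorem S2log {a b ε : ℝ} (ha : 0 < a) (hab : a ≤ b) (hb : b < 1) (hε : 0 < ε) :
    ∃ L0 : ℝ, 0 < L0 ∧ ∀ (LD : ℝ) (F : Finset ℕ), L0 ≤ LD →
      (∀ q ∈ F, q.Prime ∧ a * LD < Real.log q ∧ Real.log q ≤ b * LD) →
      ∑ q ∈ F, 1 / (q : ℝ) * (1 / (1 - Real.log q / LD)) ≤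
        Real.log (b / (1 - b)) - Real.log (a / (1 - a)) + ε := by
  classical
  have hA := A0_pos
  have hb1 : 0 < 1 - b := by linarith
  obtain ⟨M, hM⟩ := exists_nat_gt ((b - a) ^ 2 / (a * (1 - b) ^ 2) / (ε / 2))
  have hM0 : (0 : ℝ) < (M : ℝ) + 1 := by positivity
  have hl4 : 0 < Real.log 4 := Real.log_pos (by norm_num)
  set L0 : ℝ := max (Real.log 4 / a) (((M : ℝ) + 1) * (A0 / a) / (1 - b) / (ε / 2)) with hL0
  refine ⟨L0, lt_max_of_lt_left (by positivity), ?_⟩
  intro LD F hLD hF
  have hLD4 : Real.log 4 ≤ a * LD := by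
    have := (le_max_left (Real.log 4 / a) _).trans hLD
    rw [div_le_iff₀ ha] at this
    linarith
  have hLD0 : 0 < LD := by
    have h1 : 0 < a * LD := by linarith
    exact (mul_pos_iff_of_pos_left ha).1 h1
  have hLDM : ((M : ℝ) + 1) * (A0 / a) / (1 - b) ≤ (ε / 2) * LD := by
    have := (le_max_right (Real.log 4 / a) _).trans hLD
    rw [div_le_iff₀ (by positivity)] at this
    linarith
  set h : ℝ := (b - a) / ((M : ℝ) + 1) with hh
  have hh0 : 0 ≤ h := div_nonneg (by linarith) hM0.le
  set c : ℝ := h ^ 2 / (a * (1 - b) ^ 2) + A0 / (a * LD) / (1 - b) with hc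
  have hind : ∀ i : ℕ, i ≤ M + 1 → ∑ q ∈ F.filter (fun q : ℕ => Real.log q ≤ (a + i * h) * LD),
      1 / (q : ℝ) * (1 / (1 - Real.log q / LD)) ≤
      Real.log ((a + i * h) / (1 - (a + i * h))) - Real.log (a / (1 - a)) + i * c := by
    intro i
    induction i with
    | zero =>
      intro _
      rw [filter_eq_empty_iff.2 ?_]
      · simp
      · intro q hq
        have := (hF q hq).2.1
        simp only [Nat.cast_zero, zero_mul, add_zero, not_le]
        exact this
    | succ i ih =>
      intro hi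
      have ih' := ih (by omega)
      set t : ℝ := a + i * h with ht
      have e1 : a + ((i + 1 : ℕ) : ℝ) * h = t + h := by
        rw [ht]
        push_cast
        ring
      rw [e1]
      have hat : a ≤ t := by
        rw [ht]
        have : 0 ≤ (i : ℝ) * h := by positivity
        linarith
      have htb : t + h ≤ b := by
        rw [← e1]
        have h1 : ((i + 1 : ℕ) : ℝ) ≤ (M : ℝ) + 1 := by exact_mod_cast hi
        have h2 : ((i + 1 : ℕ) : ℝ) * h ≤ ((M : ℝ) + 1) * h := mul_le_mul_of_nonneg_right h1 hh0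
        have h3 : ((M : ℝ) + 1) * h = b - a := by
          rw [hh]
          field_simp
        linarith
      have ht0 : 0 < t := by linarith
      have h1t : 0 < 1 - (t + h) := by linarith
      have hsplit : F.filter (fun q : ℕ => Real.log q ≤ (t + h) * LD) =
          F.filter (fun q : ℕ => Real.log q ≤ t * LD) ∪
            F.filter (fun q : ℕ => t * LD < Real.log q ∧ Real.log q ≤ (t + h) * LD) := by
        ext q
        simp only [mem_union, mem_filter]
        constructor
        · rintro ⟨h1, h2⟩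
          rcases le_or_gt (Real.log q) (t * LD) with h3 | h3
          · exact Or.inl ⟨h1, h3⟩
          · exact Or.inr ⟨h1, h3, h2⟩
        · rintro (⟨h1, h2⟩ | ⟨h1, h2, h3⟩)
          · refine ⟨h1, h2.trans ?_⟩
            exact mul_le_mul_of_nonneg_right (by linarith) hLD0.le
          · exact ⟨h1, h3⟩
      have hdisj : Disjoint (F.filter (fun q : ℕ => Real.log q ≤ t * LD))
          (F.filter (fun q : ℕ => t * LD < Real.log q ∧ Real.log q ≤ (t + h) * LD)) := by
        rw [disjoint_left]
        intro q h1 h2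
        have h3 := (mem_filter.1 h1).2
        have h4 := (mem_filter.1 h2).2.1
        linarith
      rw [hsplit, sum_union hdisj]
      set F' := F.filter (fun q : ℕ => t * LD < Real.log q ∧ Real.log q ≤ (t + h) * LD) with hF'
      have hS1 : ∑ q ∈ F', 1 / (q : ℝ) ≤ Real.log ((t + h) / t) + A0 / (a * LD) := by
        have h1 := S1log (F := F') (α := t * LD) (β := (t + h) * LD) (fun q hq => by
          obtain ⟨h2, h3, h4⟩ := mem_filter.1 hq
          exact ⟨(hF q h2).1, h3, h4⟩) (hLD4.trans (mul_le_mul_of_nonneg_right hat hLD0.le))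
          (mul_le_mul_of_nonneg_right (by linarith) hLD0.le)
        have h2 : (t + h) * LD / (t * LD) = (t + h) / t := by
          field_simp
        rw [h2] at h1
        have h3 : A0 / (t * LD) ≤ A0 / (a * LD) :=
          div_le_div_of_nonneg_left hA.le (by positivity) (mul_le_mul_of_nonneg_right hat hLD0.le)
        linarith
      have hF'sum : ∑ q ∈ F', 1 / (q : ℝ) * (1 / (1 - Real.log q / LD)) ≤
          1 / (1 - (t + h)) * ∑ q ∈ F', 1 / (q : ℝ) := by
        rw [mul_sum]
        refine sum_le_sum fun q hq => ?_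
        obtain ⟨h2, h3, h4⟩ := mem_filter.1 hq
        have h5 : Real.log q / LD ≤ t + h := by
          rw [div_le_iff₀ hLD0]
          exact h4
        have h6 : 1 / (1 - Real.log q / LD) ≤ 1 / (1 - (t + h)) :=
          one_div_le_one_div_of_le h1t (by linarith)
        have hq0 : (0 : ℝ) < q := by exact_mod_cast (hF q h2).1.pos
        calc 1 / (q : ℝ) * (1 / (1 - Real.log q / LD)) ≤ 1 / (q : ℝ) * (1 / (1 - (t + h))) :=
              mul_le_mul_of_nonneg_left h6 (by positivity)
          _ = _ := mul_comm _ _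
      have hst := step_ineq ha hb hat hh0 htb
      have h8 : 1 / (1 - (t + h)) * ∑ q ∈ F', 1 / (q : ℝ) ≤
          1 / (1 - (t + h)) * Real.log ((t + h) / t) + A0 / (a * LD) / (1 - b) := by
        calc 1 / (1 - (t + h)) * ∑ q ∈ F', 1 / (q : ℝ) ≤
              1 / (1 - (t + h)) * (Real.log ((t + h) / t) + A0 / (a * LD)) :=
              mul_le_mul_of_nonneg_left hS1 (by positivity)
          _ = 1 / (1 - (t + h)) * Real.log ((t + h) / t) + A0 / (a * LD) / (1 - (t + h)) := by ring
          _ ≤ _ := by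
              have : A0 / (a * LD) / (1 - (t + h)) ≤ A0 / (a * LD) / (1 - b) :=
                div_le_div_of_nonneg_left (by positivity) hb1 (by linarith)
              linarith
      push_cast
      rw [hc] at ih' ⊢
      linarith
  have hfin := hind (M + 1) le_rfl
  have e1 : a + ((M + 1 : ℕ) : ℝ) * h = b := by
    rw [hh]
    push_cast
    field_simp
    ring
  rw [e1] at hfin
  have e2 : F.filter (fun q : ℕ => Real.log q ≤ b * LD) = F := by
    rw [filter_eq_self]
    intro q hq
    exact (hF q hq).2.2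
  rw [e2] at hfin
  have h3 : ((M + 1 : ℕ) : ℝ) * c ≤ ε := by
    push_cast
    rw [hc]
    have h4 : ((M : ℝ) + 1) * (h ^ 2 / (a * (1 - b) ^ 2)) ≤ ε / 2 := by
      have h5 : ((M : ℝ) + 1) * (h ^ 2 / (a * (1 - b) ^ 2)) =
          ((b - a) ^ 2 / (a * (1 - b) ^ 2)) / ((M : ℝ) + 1) := by
        rw [hh]
        field_simp
      rw [h5, div_le_iff₀ hM0]
      rw [div_lt_iff₀ (by positivity)] at hM
      nlinarith
    have h6 : ((M : ℝ) + 1) * (A0 / (a * LD) / (1 - b)) ≤ ε / 2 := by
      have h7 : ((M : ℝ) + 1) * (A0 / (a * LD) / (1 - b)) =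
          ((M : ℝ) + 1) * (A0 / a) / (1 - b) / LD := by
        field_simp
      rw [h7, div_le_iff₀ hLD0]
      exact hLDM
    linarith
  linarith

end MF11
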