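import Pool.Agent.HD44.Core2
import Pool.Agent.MF11.Seq

/-!
# [MF11-SYSQ] The extreme values of a sieve problem of dimension one
-/

namespace MF11

open Finset RS44 HD44

theorem sq_of_sys {Y : Sys} (hκ : Y.κ = 1) (hn : 2 ≤ Y.n) : SQ Y.n Y.I Y.δ Y.η Y.up Y.lo := by
  have hsimp : ∀ t : ℝ, t ^ Y.κ = t := fun t => by rw [hκ, Real.rpow_one]
  refine ⟨hn, Y.hδ, Y.hη, Sys.one_le_up, fun k m => Sys.up_anti, Sys.lo_nonneg, Sys.lo_le_one,
    fun k m => Sys.lo_mono, ?_, ?_, ?_⟩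
  · intro j hj hjI
    have hj0 : (0 : ℝ) < j := by exact_mod_cast (by omega : 0 < j)
    rcases Sys.up_cases (Y := Y) j with h2 | ⟨ν, h2, h3⟩
    · rw [h2, sub_self, mul_zero]
      have h4 : ∀ k, 0 ≤ 1 - Y.lo k := fun k => by linarith [Sys.lo_le_one (Y := Y) k]
      have h5 : 0 ≤ ∑ i ∈ Icc j Y.I, (1 - Y.lo (i - Y.n)) := sum_nonneg fun i _ => h4 _
      have h6 := h4 (j - Y.n)
      have h7 := Y.hδ
      have h8 := Y.hη
      exact add_nonneg (mul_nonneg h7 (mul_nonneg (by linarith) (by positivity)))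
        (add_nonneg (mul_nonneg (mul_nonneg h8 hj0.le) h6) (mul_nonneg (by linarith) h5))
    · rw [← h3]
      have h4 := Sys.upper_node h2 hj hjI
      simp only [hsimp] at h4
      have h5 : ∑ i ∈ Icc j Y.I, (1 - Y.lo (i - Y.n)) * (((i : ℝ) + 1) - (i : ℝ)) / (j : ℝ) =
          (∑ i ∈ Icc j Y.I, (1 - Y.lo (i - Y.n))) / j := by
        rw [sum_div]
        exact sum_congr rfl fun i _ => by ring
      rw [h5] at h4
      have h6 := mul_le_mul_of_nonneg_left h4 hj0.le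
      refine h6.trans (le_of_eq ?_)
      field_simp
  · intro j hj hjI
    have hj0 : (0 : ℝ) < j := by exact_mod_cast (by omega : 0 < j)
    rcases Sys.lo_cases (Y := Y) (k := j) (by omega) with h2 | ⟨ν, h2, h3⟩
    · rw [h2, sub_self, mul_zero]
      have h4 : ∀ k, 0 ≤ Y.up k - 1 := fun k => by linarith [Sys.one_le_up (Y := Y) k]
      have h5 : 0 ≤ ∑ i ∈ Icc j Y.I, (Y.up (i - Y.n) - 1) := sum_nonneg fun i _ => h4 _
      have h6 := h4 (j - Y.n)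
      have h7 := Y.hδ
      have h8 := Y.hη
      exact add_nonneg (mul_nonneg h7 (mul_nonneg (by linarith) (by positivity)))
        (add_nonneg (mul_nonneg (mul_nonneg h8 hj0.le) h6) (mul_nonneg (by linarith) h5))
    · rw [← h3]
      have h4 := Sys.lower_node h2 hj hjI
      simp only [hsimp] at h4
      have h5 : ∑ i ∈ Icc j Y.I, (Y.up (i - Y.n) - 1) * (((i : ℝ) + 1) - (i : ℝ)) / (j : ℝ) =
          (∑ i ∈ Icc j Y.I, (Y.up (i - Y.n) - 1)) / j := by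
        rw [sum_div]
        exact sum_congr rfl fun i _ => by ring
      rw [h5] at h4
      have h6 := mul_le_mul_of_nonneg_left h4 hj0.le
      refine h6.trans (le_of_eq ?_)
      field_simp
  · intro k b hk hkb
    have hk0 : (0 : ℝ) < k := by exact_mod_cast (by omega : 0 < k)
    have hη := Y.hη
    rcases Sys.up_cases (Y := Y) k with h2 | ⟨ν, h2, h3⟩
    · rw [h2]
      have h4 : (1 : ℝ) ≤ (b : ℝ) / k := by
        rw [le_div_iff₀ hk0, one_mul]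
        exact_mod_cast hkb
      have h5 := Sys.one_le_up (Y := Y) b
      have h6 : (1 : ℝ) ≤ (1 + Y.η) * ((b : ℝ) / k) := by nlinarith
      nlinarith
    · rw [← h3]
      have h4 := Sys.r_small2 h2 hk hkb
      simp only [hsimp] at h4
      exact h4

theorem low_of_sys {Y : Sys} (hL : 0 ≤ Y.LD) {k : ℕ}
    (htop : ∀ p ∈ Y.P, (k : ℝ) * Real.log p ≤ Y.n * Y.LD) :
    Y.lo k * (Y.X * VV Y.P) ≤ cnt Y.N Y.b ∅ Y.P := by
  have hZ := Y.hZ1
  have hLv : Y.Lv ∅ = Y.LD := by unfold Sys.Lv; simp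
  have hex : Y.ex ∅ = Y.X := by unfold Sys.ex; simp
  have hnode : ((∅ : Finset ℕ), Y.Z - 1) ∈ Y.nodes k := by
    refine Sys.mem_nodes.2 ⟨empty_subset _, by omega, by rw [hLv]; exact hL, fun p _ _ => by simp,
      fun p hp _ => ?_⟩
    rw [hLv]
    exact htop p hp
  have h3 := Sys.lo_le_r hnode
  have h4 := Sys.cnt_eq (Y := Y) (e := ∅) (z := Y.Z - 1) (empty_subset _)
  rw [Sys.Pz_all, hex] at h4
  rw [h4]
  refine mul_le_mul_of_nonneg_right h3 ?_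
  have h5 := Sys.VV_Pz_pos (Y := Y) (Y.Z - 1)
  rw [Sys.Pz_all] at h5
  exact (mul_pos Y.hX h5).le

theorem upp_of_sys {Y : Sys} {q k : ℕ} {Λ : ℝ} (hq : q ∈ Y.Q) (hqP : q ∉ Y.P)
    (hΛ : ∀ p ∈ Y.P, Real.log p ≤ Λ) (hk : (k : ℝ) * Λ ≤ Y.n * (Y.LD - Real.log q))
    (hqL : Real.log q ≤ Y.LD) :
    (cnt Y.N Y.b {q} Y.P : ℝ) ≤ Y.up k * (1 / (q : ℝ)) * (Y.X * VV Y.P) := by
  have hZ := Y.hZ1
  have hLv : Y.Lv {q} = Y.LD - Real.log q := by unfold Sys.Lv; simp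
  have hex : Y.ex {q} = Y.X / q := by unfold Sys.ex; simp
  have hsub : ({q} : Finset ℕ) ⊆ Y.Q := by
    intro p hp
    rw [mem_singleton.1 hp]
    exact hq
  have hnode : (({q} : Finset ℕ), Y.Z - 1) ∈ Y.nodes k := by
    refine Sys.mem_nodes.2 ⟨hsub, by omega, by rw [hLv]; linarith, fun p hp _ hpe => ?_,
      fun p hp _ => ?_⟩
    · rw [mem_singleton.1 hpe] at hp
      exact hqP hp
    · rw [hLv]
      exact (mul_le_mul_of_nonneg_left (hΛ p hp) (Nat.cast_nonneg k)).trans hk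
  have h3 := Sys.r_le_up hnode
  have h4 := Sys.cnt_eq (Y := Y) (e := {q}) (z := Y.Z - 1) hsub
  rw [Sys.Pz_all, hex] at h4
  rw [h4]
  have h5 := Sys.VV_Pz_pos (Y := Y) (Y.Z - 1)
  rw [Sys.Pz_all] at h5
  have hq0 : (0 : ℝ) < q := by exact_mod_cast (Sys.prime_of_mem hq).pos
  have hX := Y.hX
  calc Y.r ({q}, Y.Z - 1) * (Y.X / q * VV Y.P) ≤ Y.up k * (Y.X / q * VV Y.P) :=
        mul_le_mul_of_nonneg_right h3 (by positivity)
    _ = _ := by ring

theorem upp_small {Y : Sys} (hκ : Y.κ = 1) {q b : ℕ} {Λ ρ : ℝ} (hb : 1 ≤ b) (hq : q ∈ Y.Q)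
    (hqP : q ∉ Y.P) (hΛ : ∀ p ∈ Y.P, Real.log p ≤ Λ) (hρ : 1 ≤ ρ)
    (hk : (b : ℝ) * Λ ≤ ρ * (Y.n * (Y.LD - Real.log q))) (hqL : Real.log q ≤ Y.LD) :
    (cnt Y.N Y.b {q} Y.P : ℝ) ≤ Y.up b * ((1 + Y.η) * ρ) * (1 / (q : ℝ)) * (Y.X * VV Y.P) := by
  have hZ := Y.hZ1
  have hLv : Y.Lv {q} = Y.LD - Real.log q := by unfold Sys.Lv; simp
  have hex : Y.ex {q} = Y.X / q := by unfold Sys.ex; simp
  have h2 := Sys.small_level2 (Y := Y) (b := b) hb (e := {q}) (z := Y.Z - 1) (by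
      intro p hp
      rw [mem_singleton.1 hp]
      exact hq) (by omega) (by rw [hLv]; linarith) (fun p hp _ hpe => by
      rw [mem_singleton.1 hpe] at hp
      exact hqP hp) (fun p hp _ => hΛ p hp) hρ (by rw [hLv]; exact hk)
  rw [Sys.Pz_all, hex, hκ, Real.rpow_one] at h2
  refine h2.trans (le_of_eq ?_)
  ring

end MF11
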