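import Pool.Agent.MF11.Avg

/-!
# [MF11-FIN] Many integers lie in few classes
-/

namespace MF11

open Finset YX49 Pool.Agent.E456

theorem mult_le (x : ℕ) (a : ℕ → ℤ) (m : ℕ) : mult x a m ≤ x := by
  classical
  unfold mult
  calc _ ≤ (Ioc 0 x).card := card_filter_le _ _
    _ = x := by rw [Nat.card_Ioc]; rfl

/-- Markov -/
theorem markov {S : Finset ℕ} {f : ℕ → ℝ} {B ρ : ℝ} (hf : ∀ m ∈ S, 0 ≤ f m) (hB : 0 < B)
    (h : ∑ m ∈ S, f m ≤ ρ * S.card * B) :
    (1 - ρ) * S.card ≤ ((S.filter fun m => f m ≤ B).card : ℝ) := by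
  have h1 : ((S.filter fun m => ¬ f m ≤ B).card : ℝ) * B ≤ ∑ m ∈ S, f m := by
    rw [← nsmul_eq_mul, ← sum_const]
    calc ∑ _m ∈ S.filter (fun m => ¬ f m ≤ B), B ≤ ∑ m ∈ S.filter (fun m => ¬ f m ≤ B), f m :=
          sum_le_sum fun m hm => (not_le.1 (mem_filter.1 hm).2).le
      _ ≤ ∑ m ∈ S, f m := sum_le_sum_of_subset_of_nonneg (filter_subset _ _) fun m hm _ => hf m hm
  have h2 : ((S.filter fun m => ¬ f m ≤ B).card : ℝ) ≤ ρ * S.card :=
    le_of_mul_le_mul_right (h1.trans h) hB
  have h3 : ((S.filter fun m => f m ≤ B).card : ℝ) + ((S.filter fun m => ¬ f m ≤ B).card : ℝ) =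
      S.card := by
    exact_mod_cast card_filter_add_card_filter_not (s := S) (fun m => f m ≤ B)
  linarith

theorem main1 (δ : ℝ) (hδ : 0 < δ) (hδ1 : δ ≤ 1) : ∃ c C : ℝ, 0 < c ∧
    ∀ (x y : ℕ) (a : ℕ → ℤ), 2 ≤ x → 2 * x ≤ y → y ≤ x ^ 2 →
    c * (1 + LL x y) * (y / Real.log y) ≤
      (((Ioc 0 y).filter fun m : ℕ =>
        (mult x a m : ℝ) ≤ (1 + δ) * Real.log (1 + LL x y) + C).card : ℝ) := by
  classical
  obtain ⟨s, hs1, hs⟩ := fund (δ / 8) (by positivity) (by linarith)
  obtain ⟨C, hC, havg⟩ := avg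
  obtain ⟨cM, hcM, hmert⟩ := mert_lower
  have hs1' : (1 : ℝ) ≤ s := by exact_mod_cast hs1
  have hl2 : 0 < Real.log 2 := Real.log_pos (by norm_num)
  have hl4s : 0 ≤ Real.log (4 * s) := Real.log_nonneg (by linarith)
  set β : ℝ := (1 + δ / 8) * (Real.log (4 * s) + C) + C / (2 * cM) with hβ
  have hβ0 : 0 < β := by positivity
  set ρ : ℝ := (1 + δ / 2) / (1 + δ) with hρ
  have hρ0 : 0 < ρ := by positivity
  have hρ1 : ρ < 1 := by
    rw [hρ, div_lt_one (by linarith)]
    linarith
  have h18 : 0 < 1 - δ / 8 := by linarith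
  set C' : ℝ := max (β / ((1 - δ / 8) * ρ)) (2 ^ (16 * s ^ 2)) with hC'
  have hC'0 : 0 < C' := lt_max_of_lt_right (by positivity)
  refine ⟨min (Real.log 2) ((1 - ρ) * (1 - δ / 8) * (2 * s * cM)), C', lt_min hl2 (by
    have : 0 < 1 - ρ := by linarith
    positivity), ?_⟩
  intro x y a hx hxy hyx
  have hR := R_ge hx hxy
  have hR2 := R_le hx hxy hyx
  have hL0 := LL_nonneg hx hxy hyx
  have hx0 : (0 : ℝ) < x := by exact_mod_cast (by omega : 0 < x)
  have hy0 : (0 : ℝ) < y := by exact_mod_cast (by omega : 0 < y)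
  have hy1 : (1 : ℝ) < y := by exact_mod_cast (by omega : 1 < y)
  have hly : 0 < Real.log y := Real.log_pos hy1
  have hlx : 0 < Real.log x := by linarith
  have hlxy : Real.log x ≤ Real.log y := Real.log_le_log hx0 (by exact_mod_cast (by omega : x ≤ y))
  set u : ℝ := 1 + LL x y with hu
  have hu1 : 1 ≤ u := by linarith
  have hlu : 0 ≤ Real.log u := Real.log_nonneg hu1
  have hylog : 0 ≤ (y : ℝ) / Real.log y := by positivity
  have hut : u ≤ Real.log y / Real.log 2 := by
    have h1 : 0 < Real.log x / Real.log ((y : ℝ) / x) := div_pos hlx (by linarith)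
    have h2 := Real.log_le_sub_one_of_pos h1
    have h3 : Real.log x / Real.log ((y : ℝ) / x) ≤ Real.log y / Real.log 2 :=
      div_le_div₀ hly.le hlxy hl2 hR
    rw [hu]
    unfold LL
    linarith
  set t : ℝ := Real.log y / (2 * s * u) with ht
  set z : ℕ := ⌊Real.exp t⌋₊ with hz
  have hE : 0 ≤ Real.exp t := (Real.exp_pos _).le
  by_cases hz2 : 2 ≤ z
  · -- main case
    have hz1 : (2 : ℝ) ≤ z := by exact_mod_cast hz2
    have hlz : 0 < Real.log z := Real.log_pos (by linarith)
    have hzE : (z : ℝ) ≤ Real.exp t := Nat.floor_le hE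
    have hzt : Real.log z ≤ t := by
      have := Real.log_le_log (by linarith) hzE
      rwa [Real.log_exp] at this
    have htz : t ≤ 2 * Real.log z := by
      have h1 : Real.exp t < z + 1 := Nat.lt_floor_add_one _
      have h2 : Real.exp t ≤ (z : ℝ) ^ 2 := by nlinarith
      have h3 := Real.log_le_log (Real.exp_pos _) h2
      rw [Real.log_exp, Real.log_pow] at h3
      exact_mod_cast h3
    have hu0 : 0 < u := by linarith
    have hsu : 0 < 2 * s * u := by positivity
    have hzy : z ^ (2 * s) ≤ y := by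
      have h1 : ((z ^ (2 * s) : ℕ) : ℝ) ≤ y := by
        have h2 : (2 * s : ℕ) * Real.log z ≤ Real.log y := by
          push_cast
          have h3 : 2 * (s : ℝ) * Real.log z ≤ 2 * s * t := mul_le_mul_of_nonneg_left hzt (by positivity)
          have h4 : 2 * (s : ℝ) * t = Real.log y / u := by
            rw [ht]; field_simp
          have h5 : Real.log y / u ≤ Real.log y := div_le_self hly.le hu1
          linarith
        rw [← Real.log_pow] at h2
        push_cast
        exact (Real.log_le_log_iff (by positivity) hy0).1 h2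
      exact_mod_cast h1
    have h1 := havg (δ / 8) s (by positivity) hs1 hs x y z a hx hxy hyx hz2 hzy
    have h2 := fund_low hs hs1 (by positivity : 0 < δ / 8) hz2
      (le_trans (Nat.pow_le_pow_right (by omega) (by omega : s ≤ 2 * s)) hzy) a
    change (1 - δ / 8) * (y * Wz z) ≤ _ at h2
    have h3 := hmert z hz2
    change cM / Real.log z ≤ Wz z at h3
    have hlogz : Real.log (Real.log x / Real.log z) ≤ Real.log (4 * s) + Real.log u := by
      rw [← Real.log_mul (by positivity) hu0.ne']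
      refine Real.log_le_log (by positivity) ?_
      rw [div_le_iff₀ hlz]
      have h4 : 4 * s * u * (t / 2) = Real.log y := by
        rw [ht]; field_simp; ring
      have h5 : 4 * s * u * (t / 2) ≤ 4 * s * u * Real.log z :=
        mul_le_mul_of_nonneg_left (by linarith) (by positivity)
      linarith
    have hyW0 : 0 ≤ (y : ℝ) * Wz z := mul_nonneg hy0.le (Wz_nonneg z)
    -- density
    have hdens : 2 * s * cM * (y * (u / Real.log y)) ≤ y * Wz z := by
      have h4 : 2 * s * cM * (u / Real.log y) = cM / t := by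
        rw [ht]; field_simp
      have h5 : cM / t ≤ cM / Real.log z := div_le_div_of_nonneg_left hcM.le hlz hzt
      have h6 : (y : ℝ) * (2 * s * cM * (u / Real.log y)) ≤ y * Wz z :=
        mul_le_mul_of_nonneg_left (by rw [h4]; exact h5.trans h3) hy0.le
      linarith
    have hsum : ∑ m ∈ Sz z y a, (mult x a m : ℝ) ≤ (y * Wz z) * ((1 + δ / 8) * Real.log u + β) := by
      have h4 : (1 + δ / 8) * ((y * Wz z) * (Real.log (Real.log x / Real.log z) + C)) ≤
          (1 + δ / 8) * ((y * Wz z) * (Real.log (4 * s) + Real.log u + C)) :=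
        mul_le_mul_of_nonneg_left (mul_le_mul_of_nonneg_left (by linarith) hyW0) (by linarith)
      have h5 : C * s * (y * (u / Real.log y)) ≤ C / (2 * cM) * (y * Wz z) := by
        calc C * s * (y * (u / Real.log y)) = C / (2 * cM) * (2 * s * cM * (y * (u / Real.log y))) := by
              field_simp
          _ ≤ _ := mul_le_mul_of_nonneg_left hdens (by positivity)
      have h6 : (1 + δ / 8) * ((y * Wz z) * (Real.log (4 * s) + Real.log u + C)) +
          C / (2 * cM) * (y * Wz z) = (y * Wz z) * ((1 + δ / 8) * Real.log u + β) := by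
        rw [hβ]; ring
      linarith
    set B : ℝ := (1 + δ) * Real.log u + C' with hB
    have hB0 : 0 < B := by positivity
    have hkey : (1 + δ / 8) * Real.log u + β ≤ (1 - δ / 8) * (ρ * B) := by
      have h4 : (1 + δ / 8) * Real.log u ≤ (1 - δ / 8) * ρ * ((1 + δ) * Real.log u) := by
        have h5 : (1 - δ / 8) * ρ * ((1 + δ) * Real.log u) =
            ((1 - δ / 8) * (1 + δ / 2)) * Real.log u := by
          rw [hρ]; field_simp
        rw [h5]
        refine mul_le_mul_of_nonneg_right ?_ hlu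
        nlinarith
      have h6 : β ≤ (1 - δ / 8) * ρ * C' := by
        have h7 : β / ((1 - δ / 8) * ρ) ≤ C' := le_max_left _ _
        rw [div_le_iff₀ (by positivity)] at h7
        linarith
      have h8 : (1 - δ / 8) * (ρ * B) = (1 - δ / 8) * ρ * ((1 + δ) * Real.log u) +
          (1 - δ / 8) * ρ * C' := by rw [hB]; ring
      linarith
    have hM : ∑ m ∈ Sz z y a, (mult x a m : ℝ) ≤ ρ * (Sz z y a).card * B := by
      calc ∑ m ∈ Sz z y a, (mult x a m : ℝ) ≤ (y * Wz z) * ((1 + δ / 8) * Real.log u + β) := hsum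
        _ ≤ (y * Wz z) * ((1 - δ / 8) * (ρ * B)) := mul_le_mul_of_nonneg_left hkey hyW0
        _ = ((1 - δ / 8) * (y * Wz z)) * (ρ * B) := by ring
        _ ≤ (Sz z y a).card * (ρ * B) := mul_le_mul_of_nonneg_right h2 (by positivity)
        _ = _ := by ring
    have hfin := markov (fun m _ => Nat.cast_nonneg _) hB0 hM
    have hsub : ((Sz z y a).filter fun m => (mult x a m : ℝ) ≤ B) ⊆
        ((Ioc 0 y).filter fun m : ℕ => (mult x a m : ℝ) ≤ B) := by
      intro m hm
      obtain ⟨h4, h5⟩ := mem_filter.1 hm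
      unfold Sz at h4
      exact mem_filter.2 ⟨(mem_filter.1 h4).1, h5⟩
    have hcard : (((Sz z y a).filter fun m => (mult x a m : ℝ) ≤ B).card : ℝ) ≤
        (((Ioc 0 y).filter fun m : ℕ => (mult x a m : ℝ) ≤ B).card : ℝ) :=
      Nat.cast_le.2 (card_le_card hsub)
    refine le_trans ?_ hcard
    refine le_trans ?_ hfin
    have h1ρ : 0 < 1 - ρ := by linarith
    calc min (Real.log 2) ((1 - ρ) * (1 - δ / 8) * (2 * s * cM)) * u * (y / Real.log y)
        ≤ (1 - ρ) * (1 - δ / 8) * (2 * s * cM) * u * (y / Real.log y) := by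
          refine mul_le_mul_of_nonneg_right ?_ hylog
          exact mul_le_mul_of_nonneg_right (min_le_right _ _) hu0.le
      _ = (1 - ρ) * ((1 - δ / 8) * (2 * s * cM * (y * (u / Real.log y)))) := by ring
      _ ≤ (1 - ρ) * ((1 - δ / 8) * (y * Wz z)) :=
          mul_le_mul_of_nonneg_left (mul_le_mul_of_nonneg_left hdens h18.le) h1ρ.le
      _ ≤ (1 - ρ) * (Sz z y a).card := mul_le_mul_of_nonneg_left h2 h1ρ.le
  · -- bounded `y`
    have hu0 : 0 < u := by linarith
    have hEt : Real.exp t < 2 := by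
      have h1 : Real.exp t < z + 1 := Nat.lt_floor_add_one _
      have h2 : (z : ℝ) + 1 ≤ 2 := by exact_mod_cast (by omega : z + 1 ≤ 2)
      linarith
    have ht2 : t < Real.log 2 := by
      rw [← Real.exp_lt_exp, Real.exp_log (by norm_num)]
      exact hEt
    set τ : ℝ := Real.log y / Real.log 2 with hτ
    have hτ1 : 1 ≤ τ := by linarith
    have h1 : τ < 2 * s * u := by
      rw [ht, div_lt_iff₀ (by positivity)] at ht2
      rw [hτ, div_lt_iff₀ hl2]
      linarith
    have h2 : u ≤ 1 + Real.log τ := by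
      have h3 : Real.log x / Real.log ((y : ℝ) / x) ≤ τ := div_le_div₀ hly.le hlxy hl2 hR
      have h4 : 0 < Real.log x / Real.log ((y : ℝ) / x) := div_pos hlx (by linarith)
      have h5 := Real.log_le_log h4 h3
      rw [hu]
      unfold LL
      linarith
    have h3 : 1 + Real.log τ ≤ 2 * Real.sqrt τ := by
      have h4 : 0 < Real.sqrt τ := Real.sqrt_pos.2 (by linarith)
      have h5 := Real.log_le_sub_one_of_pos h4
      have h6 : Real.log τ = 2 * Real.log (Real.sqrt τ) := by
        rw [Real.log_sqrt (by linarith)]; ring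
      rw [h6]
      linarith
    have h4 : τ < 16 * s ^ 2 := by
      have h5 : τ < 4 * s * Real.sqrt τ := by
        calc τ < 2 * s * u := h1
          _ ≤ 2 * s * (2 * Real.sqrt τ) := mul_le_mul_of_nonneg_left (h2.trans h3) (by positivity)
          _ = _ := by ring
      have h6 : 0 < Real.sqrt τ := Real.sqrt_pos.2 (by linarith)
      have h7 : Real.sqrt τ * Real.sqrt τ = τ := Real.mul_self_sqrt (by linarith)
      have h8 : Real.sqrt τ < 4 * s := by
        have h9 : Real.sqrt τ * Real.sqrt τ < 4 * s * Real.sqrt τ := by rw [h7]; exact h5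
        exact lt_of_mul_lt_mul_right h9 h6.le
      nlinarith
    have h5 : (y : ℝ) ≤ C' := by
      have h6 : Real.log y < Real.log ((2 : ℝ) ^ (16 * s ^ 2)) := by
        rw [Real.log_pow]
        rw [hτ, div_lt_iff₀ hl2] at h4
        push_cast
        exact h4
      have h7 := (Real.log_lt_log_iff hy0 (by positivity)).1 h6
      exact h7.le.trans (le_max_right _ _)
    have hall : ((Ioc 0 y).filter fun m : ℕ =>
        (mult x a m : ℝ) ≤ (1 + δ) * Real.log u + C') = Ioc 0 y := by
      rw [filter_eq_self]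
      intro m _
      have h6 : (mult x a m : ℝ) ≤ x := by exact_mod_cast mult_le x a m
      have h7 : (x : ℝ) ≤ y := by exact_mod_cast (by omega : x ≤ y)
      have h8 : 0 ≤ (1 + δ) * Real.log u := by positivity
      linarith
    rw [hall, Nat.card_Ioc, Nat.sub_zero]
    calc min (Real.log 2) ((1 - ρ) * (1 - δ / 8) * (2 * s * cM)) * u * (y / Real.log y)
        ≤ Real.log 2 * (Real.log y / Real.log 2) * (y / Real.log y) := by
          refine mul_le_mul_of_nonneg_right ?_ hylog
          exact mul_le_mul (min_le_left _ _) hut hu0.le hl2.le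
      _ = y := by field_simp

theorem main (δ : ℝ) (hδ : 0 < δ) : ∃ c C : ℝ, 0 < c ∧
    ∀ (x y : ℕ) (a : ℕ → ℤ), 2 ≤ x → 2 * x ≤ y → y ≤ x ^ 2 →
    c * (1 + LL x y) * (y / Real.log y) ≤
      (((Ioc 0 y).filter fun m : ℕ =>
        (mult x a m : ℝ) ≤ (1 + δ) * Real.log (1 + LL x y) + C).card : ℝ) := by
  classical
  obtain ⟨c, C, hc, h⟩ := main1 (min δ 1) (lt_min hδ one_pos) (min_le_right _ _)
  refine ⟨c, C, hc, fun x y a hx hxy hyx => (h x y a hx hxy hyx).trans ?_⟩
  refine Nat.cast_le.2 (card_le_card fun m hm => ?_)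
  obtain ⟨h1, h2⟩ := mem_filter.1 hm
  refine mem_filter.2 ⟨h1, h2.trans ?_⟩
  have h3 : 0 ≤ Real.log (1 + LL x y) := Real.log_nonneg (by linarith [LL_nonneg hx hxy hyx])
  have h4 : min δ 1 ≤ δ := min_le_left _ _
  nlinarith

end MF11
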