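import Pool.Agent.MF11.AvgU
import Pool.Agent.MF11.Fin

/-!
# [MF11-FINU] Many integers lie in few classes, sharp form
-/

namespace MF11

open Finset YX49 Pool.Agent.E456

theorem mainU : ∃ c C : ℝ, 0 < c ∧
    ∀ (x y : ℕ) (a : ℕ → ℤ), 2 ≤ x → 2 * x ≤ y → y ≤ x ^ 2 →
    c * ((1 + LL x y) / (1 + Real.log (1 + LL x y))) * (y / Real.log y) ≤
      (((Ioc 0 y).filter fun m : ℕ =>
        (mult x a m : ℝ) ≤ Real.log (1 + LL x y) + C).card : ℝ) := by
  classical
  obtain ⟨B1, hF⟩ := fundU
  obtain ⟨C, hC, havg⟩ := avgU
  obtain ⟨cM, hcM, hmert⟩ := mert_lower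
  set s : ℕ := 100 * (B1 + 1) with hs
  have hs100 : (100 : ℝ) ≤ s := by
    have : 100 ≤ s := by omega
    exact_mod_cast this
  have hs1 : 1 ≤ s := by omega
  have hl2 : 0 < Real.log 2 := Real.log_pos (by norm_num)
  have hl4s : 0 ≤ Real.log (4 * s) := Real.log_nonneg (by linarith)
  set β : ℝ := Real.log (4 * s) + C + C * (Real.log (4 * s) + 1) + C / (2 * cM) with hβ
  have hβ0 : 0 < β := by positivity
  set β' : ℝ := 2 * β + 1 with hβ'
  set C' : ℝ := max (β' + 1) (2 ^ (16 * s ^ 2)) with hC'
  have hC'0 : 0 < C' := lt_max_of_lt_right (by positivity)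
  refine ⟨min (Real.log 2) (s * cM / (β' + 1)), C', lt_min hl2 (by positivity), ?_⟩
  intro x y a hx hxy hyx
  have hR := R_ge hx hxy
  have hR2 := R_le hx hxy hyx
  have hL0 := LL_nonneg hx hxy hyx
  have hx0 : (0 : ℝ) < x := by exact_mod_cast (by omega : 0 < x)
  have hy0 : (0 : ℝ) < y := by exact_mod_cast (by omega : 0 < y)
  have hy1 : (1 : ℝ) < y := by exact_mod_cast (by omega : 1 < y)
  have hly : 0 < Real.log y := Real.log_pos hy1
  have hlx : 0 < Real.log x := by linarith
  have hlxy : Real.log x ≤ Real.log y := Real.log_le_log hx0 (by exact_mod_cast (by omega : x ≤ y))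
  set u : ℝ := 1 + LL x y with hu
  have hu1 : 1 ≤ u := by linarith
  have hu0 : 0 < u := by linarith
  have hlu : 0 ≤ Real.log u := Real.log_nonneg hu1
  have hluu : Real.log u ≤ u := (Real.log_le_sub_one_of_pos hu0).trans (by linarith)
  have hylog : 0 ≤ (y : ℝ) / Real.log y := by positivity
  have hut : u ≤ Real.log y / Real.log 2 := by
    have h1 : 0 < Real.log x / Real.log ((y : ℝ) / x) := div_pos hlx (by linarith)
    have h2 := Real.log_le_sub_one_of_pos h1
    have h3 : Real.log x / Real.log ((y : ℝ) / x) ≤ Real.log y / Real.log 2 :=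
      div_le_div₀ hly.le hlxy hl2 hR
    rw [hu]
    unfold LL
    linarith
  set t : ℝ := Real.log y / (2 * s * u) with ht
  set z : ℕ := ⌊Real.exp t⌋₊ with hz
  have hE : 0 ≤ Real.exp t := (Real.exp_pos _).le
  have hsu : 0 < 2 * s * u := by positivity
  by_cases hz2 : 2 ≤ z
  · -- main case
    have hz1 : (2 : ℝ) ≤ z := by exact_mod_cast hz2
    have hlz : 0 < Real.log z := Real.log_pos (by linarith)
    have hzE : (z : ℝ) ≤ Real.exp t := Nat.floor_le hE
    have hzt : Real.log z ≤ t := by
      have := Real.log_le_log (by linarith) hzE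
      rwa [Real.log_exp] at this
    have htz : t ≤ 2 * Real.log z := by
      have h1 : Real.exp t < z + 1 := Nat.lt_floor_add_one _
      have h2 : Real.exp t ≤ (z : ℝ) ^ 2 := by nlinarith
      have h3 := Real.log_le_log (Real.exp_pos _) h2
      rw [Real.log_exp, Real.log_pow] at h3
      exact_mod_cast h3
    have hzy : z ^ (2 * s) ≤ y := by
      have h1 : ((z ^ (2 * s) : ℕ) : ℝ) ≤ y := by
        have h2 : (2 * s : ℕ) * Real.log z ≤ Real.log y := by
          push_cast
          have h3 : 2 * (s : ℝ) * Real.log z ≤ 2 * s * t := mul_le_mul_of_nonneg_left hzt (by positivity)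
          have h4 : 2 * (s : ℝ) * t = Real.log y / u := by
            rw [ht]; field_simp
          have h5 : Real.log y / u ≤ Real.log y := div_le_self hly.le hu1
          linarith
        rw [← Real.log_pow] at h2
        push_cast
        exact (Real.log_le_log_iff (by positivity) hy0).1 h2
      exact_mod_cast h1
    have h1 := havg B1 hF x y z a hx hxy hyx hz2 hzy
    have h2 := fu_low hF hz2 (le_trans (Nat.pow_le_pow_right (by omega) (by omega : s ≤ 2 * s)) hzy)
      (by exact_mod_cast hy1) a
    have h3 := hmert z hz2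
    change cM / Real.log z ≤ Wz z at h3
    have hlogz : Real.log (Real.log x / Real.log z) ≤ Real.log (4 * s) + Real.log u := by
      rw [← Real.log_mul (by positivity) hu0.ne']
      refine Real.log_le_log (by positivity) ?_
      rw [div_le_iff₀ hlz]
      have h4 : 4 * s * u * (t / 2) = Real.log y := by
        rw [ht]; field_simp; ring
      have h5 : 4 * s * u * (t / 2) ≤ 4 * s * u * Real.log z :=
        mul_le_mul_of_nonneg_left (by linarith) (by positivity)
      linarith
    have hyW0 : 0 ≤ (y : ℝ) * Wz z := mul_nonneg hy0.le (Wz_nonneg z)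
    -- density
    have hdens : 2 * s * cM * (y * (u / Real.log y)) ≤ y * Wz z := by
      have h4 : 2 * s * cM * (u / Real.log y) = cM / t := by
        rw [ht]; field_simp
      have h5 : cM / t ≤ cM / Real.log z := div_le_div_of_nonneg_left hcM.le hlz hzt
      have h6 : (y : ℝ) * (2 * s * cM * (u / Real.log y)) ≤ y * Wz z :=
        mul_le_mul_of_nonneg_left (by rw [h4]; exact h5.trans h3) hy0.le
      linarith
    set Λ := Real.log (Real.log x / Real.log z) with hΛ
    have hzq : Real.log z / Real.log y ≤ 1 / (2 * s * u) := by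
      rw [div_le_div_iff₀ hly hsu]
      have h4 : t * (2 * s * u) = Real.log y := by
        rw [ht]; field_simp
      have h5 : Real.log z * (2 * s * u) ≤ t * (2 * s * u) := mul_le_mul_of_nonneg_right hzt hsu.le
      linarith
    have hmidterm : C * Real.log z * ((Λ + 1 + LL x y) / Real.log y) ≤
        C * (Real.log (4 * s) + 1) := by
      have h4 : C * Real.log z * ((Λ + 1 + LL x y) / Real.log y) =
          C * ((Real.log z / Real.log y) * (Λ + u)) := by
        rw [hu]; ring
      rw [h4]
      refine mul_le_mul_of_nonneg_left ?_ hC.le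
      have h5 : Λ + u ≤ Real.log (4 * s) + 2 * u := by linarith
      have h6 : 0 ≤ Real.log z / Real.log y := by positivity
      calc (Real.log z / Real.log y) * (Λ + u) ≤
            (Real.log z / Real.log y) * (Real.log (4 * s) + 2 * u) :=
            mul_le_mul_of_nonneg_left h5 h6
        _ ≤ 1 / (2 * s * u) * (Real.log (4 * s) + 2 * u) :=
            mul_le_mul_of_nonneg_right hzq (by positivity)
        _ = (Real.log (4 * s) + 2 * u) / (2 * s * u) := by ring
        _ ≤ Real.log (4 * s) + 1 := by
            rw [div_le_iff₀ hsu]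
            have h7 : 0 ≤ Real.log (4 * s) * (2 * s * u - 1) := by
              refine mul_nonneg hl4s ?_
              nlinarith
            nlinarith
    have hsum : ∑ m ∈ Sz z y a, (mult x a m : ℝ) ≤ (y * Wz z) * (Real.log u + β) := by
      have h5 : C * (s : ℝ) * (y * ((1 + LL x y) / Real.log y)) ≤ C / (2 * cM) * (y * Wz z) := by
        calc C * (s : ℝ) * (y * ((1 + LL x y) / Real.log y)) =
              C / (2 * cM) * (2 * s * cM * (y * (u / Real.log y))) := by
              rw [hu]; field_simp
          _ ≤ _ := mul_le_mul_of_nonneg_left hdens (by positivity)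
      have h6 : (y * Wz z) * (Λ + C + C * Real.log z * ((Λ + 1 + LL x y) / Real.log y)) ≤
          (y * Wz z) * (Real.log (4 * s) + Real.log u + C + C * (Real.log (4 * s) + 1)) :=
        mul_le_mul_of_nonneg_left (by linarith) hyW0
      have h7 : (y * Wz z) * (Real.log (4 * s) + Real.log u + C + C * (Real.log (4 * s) + 1)) +
          C / (2 * cM) * (y * Wz z) = (y * Wz z) * (Real.log u + β) := by
        rw [hβ]; ring
      linarith
    have hSlow : (1 - 1 / (25 * u)) * (y * Wz z) ≤ ((Sz z y a).card : ℝ) := by
      refine le_trans ?_ h2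
      refine mul_le_mul_of_nonneg_right ?_ hyW0
      have h4 : 8 * (Real.log z / Real.log y) ≤ 8 * (1 / (2 * s * u)) := by linarith
      have h5 : 8 * (1 / (2 * s * u)) ≤ 1 / (25 * u) := by
        rw [mul_one_div, div_le_div_iff₀ hsu (by positivity)]
        nlinarith
      linarith
    have hyWS : y * Wz z ≤ (1 + 1 / u) * (Sz z y a).card := by
      have h4 : 1 ≤ (1 + 1 / u) * (1 - 1 / (25 * u)) := by
        have h5 : (1 + 1 / u) * (1 - 1 / (25 * u)) = 1 + (1 / u) * (24 / 25 - 1 / (25 * u)) := by
          field_simp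
          ring
        rw [h5]
        have h6 : 1 / (25 * u) ≤ 1 / 25 := by
          refine one_div_le_one_div_of_le (by norm_num) (by linarith)
        have h7 : 0 ≤ (1 / u) * (24 / 25 - 1 / (25 * u)) :=
          mul_nonneg (by positivity) (by linarith)
        linarith
      calc y * Wz z = 1 * (y * Wz z) := (one_mul _).symm
        _ ≤ ((1 + 1 / u) * (1 - 1 / (25 * u))) * (y * Wz z) := mul_le_mul_of_nonneg_right h4 hyW0
        _ = (1 + 1 / u) * ((1 - 1 / (25 * u)) * (y * Wz z)) := by ring
        _ ≤ _ := mul_le_mul_of_nonneg_left hSlow (by positivity)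
    set μ : ℝ := Real.log u + β' with hμ
    have hμ0 : 0 < μ := by positivity
    set B : ℝ := μ + 1 with hB
    have hB0 : 0 < B := by positivity
    have hM : ∑ m ∈ Sz z y a, (mult x a m : ℝ) ≤ (μ / B) * (Sz z y a).card * B := by
      have h4 : (1 + 1 / u) * (Real.log u + β) ≤ μ := by
        have h5 : (1 / u) * (Real.log u + β) ≤ 1 + β := by
          rw [one_div, inv_mul_le_iff₀ hu0]
          nlinarith
        have h6 : (1 + 1 / u) * (Real.log u + β) =
            Real.log u + β + (1 / u) * (Real.log u + β) := by ring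
        rw [h6, hμ, hβ']
        linarith
      have hSc : (0 : ℝ) ≤ (Sz z y a).card := Nat.cast_nonneg _
      calc ∑ m ∈ Sz z y a, (mult x a m : ℝ) ≤ (y * Wz z) * (Real.log u + β) := hsum
        _ ≤ ((1 + 1 / u) * (Sz z y a).card) * (Real.log u + β) :=
            mul_le_mul_of_nonneg_right hyWS (by positivity)
        _ = ((1 + 1 / u) * (Real.log u + β)) * (Sz z y a).card := by ring
        _ ≤ μ * (Sz z y a).card := mul_le_mul_of_nonneg_right h4 hSc
        _ = _ := by field_simp
    have hfin := markov (fun m _ => Nat.cast_nonneg _) hB0 hM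
    have hBC : B ≤ Real.log u + C' := by
      have : β' + 1 ≤ C' := le_max_left _ _
      rw [hB, hμ]
      linarith
    have hsub : ((Sz z y a).filter fun m => (mult x a m : ℝ) ≤ B) ⊆
        ((Ioc 0 y).filter fun m : ℕ => (mult x a m : ℝ) ≤ Real.log u + C') := by
      intro m hm
      obtain ⟨h4, h5⟩ := mem_filter.1 hm
      unfold Sz at h4
      exact mem_filter.2 ⟨(mem_filter.1 h4).1, h5.trans hBC⟩
    have hcard : (((Sz z y a).filter fun m => (mult x a m : ℝ) ≤ B).card : ℝ) ≤
        (((Ioc 0 y).filter fun m : ℕ => (mult x a m : ℝ) ≤ Real.log u + C').card : ℝ) :=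
      Nat.cast_le.2 (card_le_card hsub)
    refine le_trans ?_ hcard
    refine le_trans ?_ hfin
    have h1B : 1 - μ / B = 1 / B := by
      rw [hB]; field_simp; ring
    rw [h1B]
    have hhalf : s * cM * (y * (u / Real.log y)) ≤ (Sz z y a).card := by
      have h4 : (1 : ℝ) / 2 ≤ 1 - 1 / (25 * u) := by
        have h6 : 1 / (25 * u) ≤ 1 / 25 := by
          refine one_div_le_one_div_of_le (by norm_num) (by linarith)
        linarith
      calc s * cM * (y * (u / Real.log y)) = 1 / 2 * (2 * s * cM * (y * (u / Real.log y))) := by ring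
        _ ≤ 1 / 2 * (y * Wz z) := mul_le_mul_of_nonneg_left hdens (by norm_num)
        _ ≤ (1 - 1 / (25 * u)) * (y * Wz z) := mul_le_mul_of_nonneg_right h4 hyW0
        _ ≤ _ := hSlow
    have hBle : B ≤ (β' + 1) * (1 + Real.log u) := by
      rw [hB, hμ]
      have : 0 ≤ β' * Real.log u := by positivity
      nlinarith
    calc min (Real.log 2) (s * cM / (β' + 1)) * (u / (1 + Real.log u)) * (y / Real.log y)
        ≤ (s * cM / (β' + 1)) * (u / (1 + Real.log u)) * (y / Real.log y) := by
          refine mul_le_mul_of_nonneg_right ?_ hylog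
          exact mul_le_mul_of_nonneg_right (min_le_right _ _) (by positivity)
      _ = 1 / ((β' + 1) * (1 + Real.log u)) * (s * cM * (y * (u / Real.log y))) := by
          field_simp
      _ ≤ 1 / B * (s * cM * (y * (u / Real.log y))) := by
          refine mul_le_mul_of_nonneg_right ?_ (by positivity)
          exact one_div_le_one_div_of_le hB0 hBle
      _ ≤ 1 / B * (Sz z y a).card := mul_le_mul_of_nonneg_left hhalf (by positivity)
  · -- bounded `y`
    have hEt : Real.exp t < 2 := by
      have h1 : Real.exp t < z + 1 := Nat.lt_floor_add_one _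
      have h2 : (z : ℝ) + 1 ≤ 2 := by exact_mod_cast (by omega : z + 1 ≤ 2)
      linarith
    have ht2 : t < Real.log 2 := by
      rw [← Real.exp_lt_exp, Real.exp_log (by norm_num)]
      exact hEt
    set τ : ℝ := Real.log y / Real.log 2 with hτ
    have hτ1 : 1 ≤ τ := by linarith
    have h1 : τ < 2 * s * u := by
      rw [ht, div_lt_iff₀ (by positivity)] at ht2
      rw [hτ, div_lt_iff₀ hl2]
      linarith
    have h2 : u ≤ 1 + Real.log τ := by
      have h3 : Real.log x / Real.log ((y : ℝ) / x) ≤ τ := div_le_div₀ hly.le hlxy hl2 hR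
      have h4 : 0 < Real.log x / Real.log ((y : ℝ) / x) := div_pos hlx (by linarith)
      have h5 := Real.log_le_log h4 h3
      rw [hu]
      unfold LL
      linarith
    have h3 : 1 + Real.log τ ≤ 2 * Real.sqrt τ := by
      have h4 : 0 < Real.sqrt τ := Real.sqrt_pos.2 (by linarith)
      have h5 := Real.log_le_sub_one_of_pos h4
      have h6 : Real.log τ = 2 * Real.log (Real.sqrt τ) := by
        rw [Real.log_sqrt (by linarith)]; ring
      rw [h6]
      linarith
    have h4 : τ < 16 * s ^ 2 := by
      have h5 : τ < 4 * s * Real.sqrt τ := by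
        calc τ < 2 * s * u := h1
          _ ≤ 2 * s * (2 * Real.sqrt τ) := mul_le_mul_of_nonneg_left (h2.trans h3) (by positivity)
          _ = _ := by ring
      have h6 : 0 < Real.sqrt τ := Real.sqrt_pos.2 (by linarith)
      have h7 : Real.sqrt τ * Real.sqrt τ = τ := Real.mul_self_sqrt (by linarith)
      have h8 : Real.sqrt τ < 4 * s := by
        have h9 : Real.sqrt τ * Real.sqrt τ < 4 * s * Real.sqrt τ := by rw [h7]; exact h5
        exact lt_of_mul_lt_mul_right h9 h6.le
      nlinarith
    have h5 : (y : ℝ) ≤ C' := by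
      have h6 : Real.log y < Real.log ((2 : ℝ) ^ (16 * s ^ 2)) := by
        rw [Real.log_pow]
        rw [hτ, div_lt_iff₀ hl2] at h4
        push_cast
        exact h4
      have h7 := (Real.log_lt_log_iff hy0 (by positivity)).1 h6
      exact h7.le.trans (le_max_right _ _)
    have hall : ((Ioc 0 y).filter fun m : ℕ =>
        (mult x a m : ℝ) ≤ Real.log u + C') = Ioc 0 y := by
      rw [filter_eq_self]
      intro m _
      have h6 : (mult x a m : ℝ) ≤ x := by exact_mod_cast mult_le x a m
      have h7 : (x : ℝ) ≤ y := by exact_mod_cast (by omega : x ≤ y)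
      linarith
    rw [hall, Nat.card_Ioc, Nat.sub_zero]
    have hu2 : u / (1 + Real.log u) ≤ Real.log y / Real.log 2 := by
      refine le_trans ?_ hut
      exact div_le_self hu0.le (by linarith)
    calc min (Real.log 2) (s * cM / (β' + 1)) * (u / (1 + Real.log u)) * (y / Real.log y)
        ≤ Real.log 2 * (Real.log y / Real.log 2) * (y / Real.log y) := by
          refine mul_le_mul_of_nonneg_right ?_ hylog
          exact mul_le_mul (min_le_left _ _) hu2 (by positivity) hl2.le
      _ = y := by field_simp

end MF11
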