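import Pool.Agent.HD44.Far2

/-!
# Almost all choices of classes are far from every covering

Choose one class modulo `p` for every prime `p ≤ x`, uniformly and independently. Let `0 < α < 1` and `β > 2 α`. Then, with
probability at least `1 - exp (- x ^ α)`, at least `x ^ α` of the classes have to be changed to obtain a covering of the
integers in `[1, x ^ β]`.
-/

namespace Pool.Agent.Results.MP_d4a901_nt.FarFromCovering

open Finset

/-- Let `0 < α < 1` and `2 α < β`. For all large `x`, the number of choices `a` of one class modulo `p` for every prime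
`p ≤ x` such that some choice `b` of classes, which differs from `a` for at most `x ^ α` of the primes, covers all integers
`1 ≤ m ≤ x ^ β`, is at most `exp (- x ^ α)` times the number of all choices. -/
theorem result (α β : ℝ) (hα : 0 < α) (hα1 : α < 1) (hβ : 2 * α < β) :
    ∃ x0 : ℕ, ∀ x : ℕ, x0 ≤ x →
      (({a : ∀ p : {p // p ∈ (Ioc 0 x).filter Nat.Prime}, Fin (p : ℕ) | ∃ b : ℕ → ℕ,
          (({p : {p // p ∈ (Ioc 0 x).filter Nat.Prime} |
            ¬ b p ≡ (a p : ℕ) [MOD (p : ℕ)]}.ncard : ℝ) ≤ (x : ℝ) ^ α) ∧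
          ∀ m : ℕ, 1 ≤ m → (m : ℝ) ≤ (x : ℝ) ^ β →
            ∃ p : ℕ, p.Prime ∧ p ≤ x ∧ m ≡ b p [MOD p]}).ncard : ℝ) ≤
        Real.exp (-(x : ℝ) ^ α) * ∏ p ∈ (Ioc 0 x).filter Nat.Prime, (p : ℝ) := by
  classical
  obtain ⟨x0, hx0⟩ := HD44.far α β hα hα1 hβ
  refine ⟨x0, fun x hx => ?_⟩
  have h1 := hx0 x hx
  rw [mul_comm] at h1
  refine le_trans (le_of_eq ?_) h1
  rw [← Set.ncard_coe_finset]
  congr 2
  ext a
  simp only [Set.mem_ofPred_eq, coe_filter, mem_univ, true_and]
  refine exists_congr fun b => and_congr ?_ ?_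
  · rw [← Set.ncard_coe_finset]
    simp only [coe_filter, mem_univ, true_and]
    exact Iff.rfl
  · refine forall_congr' fun m => ?_
    refine imp_congr_right fun _ => ?_
    rw [Nat.le_floor_iff (by positivity)]

end Pool.Agent.Results.MP_d4a901_nt.FarFromCovering
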