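import Pool.Agent.MF11.MainP

/-!
# [MF11-MAINC] Any `k` primes
-/

namespace MF11

open Finset YX49 RS44 HD44

theorem card_class_le {p y : ℕ} (hp : 0 < p) (a : ℤ) :
    (((Ioc 0 y).filter fun m : ℕ => (m : ℤ) ≡ a [ZMOD (p : ℤ)]).card : ℝ) ≤ (y : ℝ) / p + 1 := by
  have hp' : (0 : ℤ) < p := by exact_mod_cast hp
  set b : ℕ := (a % (p : ℤ)).toNat with hb
  have hb' : ((b : ℕ) : ℤ) = a % (p : ℤ) := by
    rw [hb]
    exact Int.toNat_of_nonneg (Int.emod_nonneg _ hp'.ne')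
  have h1 : ((Ioc 0 y).filter fun m : ℕ => (m : ℤ) ≡ a [ZMOD (p : ℤ)]) =
      (Ioc 0 y).filter fun m => m ≡ b [MOD p] := by
    refine filter_congr fun m _ => ?_
    rw [← Int.natCast_modEq_iff, hb']
    exact ⟨fun h => h.trans (Int.mod_modEq _ _).symm, fun h => h.trans (Int.mod_modEq _ _)⟩
  rw [h1]
  have h2 := Pool.Agent.E456.card_Ioc_modEq 0 y p b hp (Nat.zero_le _)
  rw [abs_le] at h2
  push_cast at h2
  have h3 := h2.2
  rw [sub_zero] at h3
  linarith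

theorem main_card {K : ℕ} (hK : 2 ≤ K) {ε : ℝ} (hε : 0 < ε) : ∃ c > (0 : ℝ), ∃ k0 : ℕ,
    ∀ (PP : Finset ℕ) (y : ℕ) (a : ℕ → ℤ), (∀ p ∈ PP, p.Prime) → k0 ≤ PP.card →
      (PP.card : ℝ) ^ (1 + (thK K + ε)) ≤ y →
      c * (y / Real.log PP.card) ≤ (((Ioc 0 y).filter fun m : ℕ => multP PP a m < K).card : ℝ) := by
  classical
  obtain ⟨hth0, hth⟩ := thK_bounds hK
  set ε2 : ℝ := min ε 1 / 4 with hε2
  have hε20 : 0 < ε2 := div_pos (lt_min hε (by norm_num)) (by norm_num)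
  have hε21 : ε2 ≤ 1 / 4 := by
    rw [hε2]
    have := min_le_right ε 1
    linarith
  have hε22 : ε2 ≤ ε / 4 := by
    rw [hε2]
    have := min_le_left ε 1
    linarith
  obtain ⟨c, hc, x0, hmain⟩ := main_allP hK hε20
  set R : ℝ := (16 / (c * ε2)) ^ (2 / ε2) with hR
  refine ⟨c / 4, by positivity, max (x0 + 2) ⌈R⌉₊, fun PP y a hPP hk hy => ?_⟩
  set k : ℕ := PP.card with hkdef
  have hk1 : x0 + 2 ≤ k := (le_max_left _ _).trans hk
  have hk2 : R ≤ k := (Nat.le_ceil _).trans (by exact_mod_cast (le_max_right _ _).trans hk)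
  have hk2' : (2 : ℝ) ≤ k := by exact_mod_cast (by omega : 2 ≤ k)
  have hk0 : (0 : ℝ) < k := by linarith
  have hlk : 0 < Real.log k := Real.log_pos (by linarith)
  set x : ℕ := ⌊(k : ℝ) ^ (1 + ε2)⌋₊ with hx
  have hkx : (k : ℝ) ≤ (k : ℝ) ^ (1 + ε2) := by
    calc (k : ℝ) = (k : ℝ) ^ (1 : ℝ) := (Real.rpow_one _).symm
      _ ≤ _ := Real.rpow_le_rpow_of_exponent_le (by linarith) (by linarith)
  have hkx' : k ≤ x := Nat.le_floor hkx
  have hxle : (x : ℝ) ≤ (k : ℝ) ^ (1 + ε2) := Nat.floor_le (by positivity)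
  have hxk : (k : ℝ) ≤ x := by exact_mod_cast hkx'
  have hx0 : (0 : ℝ) < x := by linarith
  have hlx0 : 0 < Real.log x := Real.log_pos (by linarith)
  have hlx : Real.log x ≤ 2 * Real.log k := by
    have h1 := Real.log_le_log hx0 hxle
    rw [Real.log_rpow hk0] at h1
    nlinarith
  have hxy : (x : ℝ) ^ (1 + (thK K + ε2)) ≤ y := by
    refine le_trans ?_ hy
    calc (x : ℝ) ^ (1 + (thK K + ε2)) ≤ ((k : ℝ) ^ (1 + ε2)) ^ (1 + (thK K + ε2)) :=
          Real.rpow_le_rpow hx0.le hxle (by linarith)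
      _ = (k : ℝ) ^ ((1 + ε2) * (1 + (thK K + ε2))) := (Real.rpow_mul hk0.le _ _).symm
      _ ≤ (k : ℝ) ^ (1 + (thK K + ε)) := by
          refine Real.rpow_le_rpow_of_exponent_le (by linarith) ?_
          nlinarith
  set P1 := PP.filter fun p => p ≤ x with hP1
  set P2 := PP.filter fun p => ¬ p ≤ x with hP2
  have h1 := hmain x y P1 a (fun p hp => ⟨hPP p (mem_filter.1 hp).1, (mem_filter.1 hp).2⟩)
    (by omega) hxy
  have hy0 : (0 : ℝ) ≤ y := Nat.cast_nonneg y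
  have h2 : c * (y / Real.log x) ≥ c / 2 * (y / Real.log k) := by
    have : (y : ℝ) / (2 * Real.log k) ≤ y / Real.log x := div_le_div_of_nonneg_left hy0 hlx0 hlx
    calc c / 2 * (y / Real.log k) = c * (y / (2 * Real.log k)) := by
          field_simp
      _ ≤ _ := mul_le_mul_of_nonneg_left this hc.le
  -- the large primes
  set G := (Ioc 0 y).filter fun m : ℕ => multP PP a m < K with hG
  set G1 := (Ioc 0 y).filter fun m : ℕ => multP P1 a m < K with hG1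
  set T : ℕ → Finset ℕ := fun p => (Ioc 0 y).filter fun m : ℕ => (m : ℤ) ≡ a p [ZMOD (p : ℤ)] with hT
  have hsub : G1 ⊆ G ∪ P2.biUnion T := by
    intro m hm
    rw [hG1, mem_filter] at hm
    rw [mem_union]
    by_cases h3 : ∃ p ∈ P2, (m : ℤ) ≡ a p [ZMOD (p : ℤ)]
    · right
      obtain ⟨p, hp, hmp⟩ := h3
      exact mem_biUnion.2 ⟨p, hp, mem_filter.2 ⟨hm.1, hmp⟩⟩
    · left
      rw [hG, mem_filter]
      refine ⟨hm.1, lt_of_le_of_lt ?_ hm.2⟩
      unfold multP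
      refine card_le_card fun p hp => ?_
      rw [mem_filter] at hp ⊢
      refine ⟨?_, hp.2⟩
      rw [hP1, mem_filter]
      refine ⟨hp.1, ?_⟩
      by_contra hcon
      exact h3 ⟨p, mem_filter.2 ⟨hp.1, hcon⟩, hp.2⟩
  have hcard : (G1.card : ℝ) ≤ G.card + ∑ p ∈ P2, ((T p).card : ℝ) := by
    have h3 : G1.card ≤ G.card + ∑ p ∈ P2, (T p).card :=
      (card_le_card hsub).trans ((card_union_le _ _).trans
        (Nat.add_le_add_left card_biUnion_le _))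
    exact_mod_cast h3
  have hlarge : ∑ p ∈ P2, ((T p).card : ℝ) ≤ 2 * y * (k : ℝ) ^ (-ε2) := by
    have hkk : (k : ℝ) * (k : ℝ) ^ (-ε2) ≤ y * (k : ℝ) ^ (-ε2) * (k : ℝ) ^ (-ε2) := by
      have h4 : (k : ℝ) ^ (1 + ε2) ≤ y := by
        refine le_trans ?_ hy
        exact Real.rpow_le_rpow_of_exponent_le (by linarith) (by linarith)
      have h5 : (k : ℝ) ^ (1 + ε2) * (k : ℝ) ^ (-ε2) = k := by
        rw [← Real.rpow_add hk0]
        have : 1 + ε2 + -ε2 = 1 := by ring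
        rw [this, Real.rpow_one]
      have h6 : 0 < (k : ℝ) ^ (-ε2) := Real.rpow_pos_of_pos hk0 _
      calc (k : ℝ) * (k : ℝ) ^ (-ε2) = (k : ℝ) ^ (1 + ε2) * (k : ℝ) ^ (-ε2) * (k : ℝ) ^ (-ε2) := by
            rw [h5]
        _ ≤ _ := by
            refine mul_le_mul_of_nonneg_right (mul_le_mul_of_nonneg_right h4 h6.le) h6.le
    have hkneg : 0 < (k : ℝ) ^ (-ε2) := Real.rpow_pos_of_pos hk0 _
    have hky : (k : ℝ) ≤ y * (k : ℝ) ^ (-ε2) := by
      refine le_of_mul_le_mul_right ?_ hkneg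
      exact hkk
    calc ∑ p ∈ P2, ((T p).card : ℝ) ≤ ∑ _p ∈ P2, ((y : ℝ) / (k : ℝ) ^ (1 + ε2) + 1) := by
          refine sum_le_sum fun p hp => ?_
          obtain ⟨hp1, hp2⟩ := mem_filter.1 hp
          have hpp := hPP p hp1
          refine (card_class_le hpp.pos (a p)).trans ?_
          have h3 : (k : ℝ) ^ (1 + ε2) ≤ p := by
            have h4 := Nat.lt_floor_add_one ((k : ℝ) ^ (1 + ε2))
            rw [← hx] at h4
            have h5 : ((x : ℝ) + 1) ≤ p := by exact_mod_cast (by omega : x + 1 ≤ p)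
            linarith
          have h6 : (y : ℝ) / p ≤ y / (k : ℝ) ^ (1 + ε2) :=
            div_le_div_of_nonneg_left hy0 (by positivity) h3
          linarith
      _ = (P2.card : ℝ) * ((y : ℝ) / (k : ℝ) ^ (1 + ε2) + 1) := by rw [sum_const, nsmul_eq_mul]
      _ ≤ (k : ℝ) * ((y : ℝ) / (k : ℝ) ^ (1 + ε2) + 1) := by
          refine mul_le_mul_of_nonneg_right ?_ (by positivity)
          exact_mod_cast card_le_card (filter_subset _ _)
      _ = y * ((k : ℝ) / (k : ℝ) ^ (1 + ε2)) + k := by ring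
      _ = y * (k : ℝ) ^ (-ε2) + k := by
          congr 2
          rw [Real.rpow_neg hk0.le, Real.rpow_add hk0, Real.rpow_one]
          have h7 : (k : ℝ) ^ ε2 ≠ 0 := (Real.rpow_pos_of_pos hk0 _).ne'
          field_simp
      _ ≤ 2 * y * (k : ℝ) ^ (-ε2) := by linarith
  have hsmall : 2 * (k : ℝ) ^ (-ε2) ≤ c / 4 * (1 / Real.log k) := by
    have h3 : Real.log k ≤ (k : ℝ) ^ (ε2 / 2) / (ε2 / 2) :=
      Real.log_le_rpow_div hk0.le (by positivity)
    have h4 : 16 / (c * ε2) ≤ (k : ℝ) ^ (ε2 / 2) := by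
      have h5 : R ^ (ε2 / 2) ≤ (k : ℝ) ^ (ε2 / 2) := Real.rpow_le_rpow (by positivity) hk2 (by positivity)
      rw [hR, ← Real.rpow_mul (by positivity)] at h5
      have h6 : 2 / ε2 * (ε2 / 2) = 1 := by field_simp
      rwa [h6, Real.rpow_one] at h5
    have h7 : (k : ℝ) ^ (-ε2) * ((k : ℝ) ^ (ε2 / 2) * (k : ℝ) ^ (ε2 / 2)) = 1 := by
      rw [← Real.rpow_add hk0, ← Real.rpow_add hk0]
      have : -ε2 + (ε2 / 2 + ε2 / 2) = 0 := by ring
      rw [this, Real.rpow_zero]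
    rw [mul_one_div, le_div_iff₀ hlk]
    have h8 : 0 < (k : ℝ) ^ (-ε2) := Real.rpow_pos_of_pos hk0 _
    have h9 : 0 < (k : ℝ) ^ (ε2 / 2) := Real.rpow_pos_of_pos hk0 _
    calc 2 * (k : ℝ) ^ (-ε2) * Real.log k ≤ 2 * (k : ℝ) ^ (-ε2) * ((k : ℝ) ^ (ε2 / 2) / (ε2 / 2)) :=
          mul_le_mul_of_nonneg_left h3 (by positivity)
      _ = (c / 4) * ((16 / (c * ε2)) * ((k : ℝ) ^ (-ε2) * (k : ℝ) ^ (ε2 / 2))) := by
          field_simp
          ring
      _ ≤ (c / 4) * ((k : ℝ) ^ (ε2 / 2) * ((k : ℝ) ^ (-ε2) * (k : ℝ) ^ (ε2 / 2))) := by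
          refine mul_le_mul_of_nonneg_left ?_ (by positivity)
          exact mul_le_mul_of_nonneg_right h4 (by positivity)
      _ = (c / 4) * ((k : ℝ) ^ (-ε2) * ((k : ℝ) ^ (ε2 / 2) * (k : ℝ) ^ (ε2 / 2))) := by ring
      _ = c / 4 := by rw [h7, mul_one]
  have hfin : 2 * y * (k : ℝ) ^ (-ε2) ≤ c / 4 * (y / Real.log k) := by
    calc 2 * y * (k : ℝ) ^ (-ε2) = y * (2 * (k : ℝ) ^ (-ε2)) := by ring
      _ ≤ y * (c / 4 * (1 / Real.log k)) := mul_le_mul_of_nonneg_left hsmall hy0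
      _ = _ := by ring
  have hhalf : c / 2 * (y / Real.log k) = c / 4 * (y / Real.log k) + c / 4 * (y / Real.log k) := by ring
  linarith

end MF11
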