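import Pool.Agent.MF11.Win

/-!
# [MF11-WIN2] Fewer than two classes of large primes
-/

namespace MF11

open Finset RS44 HD44

theorem win_two {ζ : ℝ} (hζ0 : 0 < ζ) (hζ1 : ζ ≤ 1) :
    Win 2 4 (Real.exp (Real.log 3 - ζ) / (1 + Real.exp (Real.log 3 - ζ))) := by
  classical
  have l3 := log3_ge
  norm_num at l3
  have hL1 : 0 ≤ Real.log 3 - ζ := by linarith
  obtain ⟨L1, hL1d⟩ : ∃ L1 : ℝ, L1 = Real.log 3 - ζ := ⟨_, rfl⟩
  rw [← hL1d] at hL1 ⊢
  have hG0 := Real.exp_pos L1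
  have hG1 : 1 ≤ Real.exp L1 := Real.one_le_exp hL1
  set G : ℝ := Real.exp L1 with hG
  set b0 : ℝ := G / (1 + G) with hb0
  have hb01 : b0 < 1 := by
    rw [hb0, div_lt_one (by linarith)]
    linarith
  have hb0' : b0 / (1 - b0) = G := by
    rw [hb0]
    field_simp
    ring
  have hab : (1 / 2 : ℝ) ≤ b0 := by
    rw [hb0, le_div_iff₀ (by linarith)]
    linarith
  obtain ⟨E, hE⟩ : ∃ E : ℝ, E = ζ / 10000 := ⟨_, rfl⟩
  have hE00 : 0 < E := by rw [hE]; positivity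
  obtain ⟨L0, hL0, hS2⟩ := S2log (show (0 : ℝ) < 1 / 2 by norm_num) hab hb01 hE00
  obtain ⟨L0', hL0', hS2'⟩ := S2log (show (0 : ℝ) < 1 / 4 by norm_num)
    (show (1 / 4 : ℝ) ≤ 1 / 2 by norm_num) (by norm_num) hE00
  obtain ⟨n, hn⟩ := exists_nat_ge (10001 / ζ)
  have hnζ : 10001 ≤ (n : ℝ) * ζ := by rwa [div_le_iff₀ hζ0] at hn
  have hn0 : (0 : ℝ) < n := by
    by_contra hc
    have h1 : (n : ℝ) = 0 := le_antisymm (not_lt.1 hc) (Nat.cast_nonneg n)
    rw [h1, zero_mul] at hnζ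
    linarith
  have hn2 : 2 ≤ n := by
    have : (10001 : ℝ) ≤ n := by nlinarith
    have : 10001 ≤ n := by exact_mod_cast this
    omega
  refine ⟨ζ / 100 / (2 : ℕ), by positivity, ζ / 10000, by positivity, by linarith, n, hn2,
    max 1 (max L0 L0'), ?_⟩
  intro Y hκ hYn hSm hI hLD hP hQ
  have hLD1 : 1 ≤ Y.LD := (le_max_left _ _).trans hLD
  have hLD0 : L0 ≤ Y.LD := (le_max_left _ _).trans ((le_max_right _ _).trans hLD)
  have hLD0' : L0' ≤ Y.LD := (le_max_right _ _).trans ((le_max_right _ _).trans hLD)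
  have hL : 0 < Y.LD := by linarith
  have hSQ := sq_of_sys (Y := Y) hκ (by rw [hYn]; exact hn2)
  rw [hYn] at hSQ
  set F := Y.Q.filter (fun p : ℕ => ¬ ((4 : ℕ) : ℝ) * Real.log p ≤ Y.LD) with hF
  set F1 := F.filter (fun q : ℕ => Real.log q ≤ 1 / 2 * Y.LD) with hF1
  set F2 := F.filter (fun q : ℕ => ¬ Real.log q ≤ 1 / 2 * Y.LD) with hF2
  have hup : ∀ k, 1 ≤ Y.up k := fun k => Sys.one_le_up k
  have hη := Y.hη
  have hF1m : ∀ q ∈ F1, q.Prime ∧ 1 / 4 * Y.LD < Real.log q ∧ Real.log q ≤ 1 / 2 * Y.LD := by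
    intro q hq
    obtain ⟨h1, h2⟩ := mem_filter.1 hq
    obtain ⟨h3, h4⟩ := mem_filter.1 h1
    refine ⟨(Y.hQ q h3).1, ?_, h2⟩
    push_cast at h4
    linarith
  have hF2m : ∀ q ∈ F2, q.Prime ∧ 1 / 2 * Y.LD < Real.log q ∧ Real.log q ≤ b0 * Y.LD := by
    intro q hq
    obtain ⟨h1, h2⟩ := mem_filter.1 hq
    obtain ⟨h3, h4⟩ := mem_filter.1 h1
    exact ⟨(Y.hQ q h3).1, not_le.1 h2, hQ q h3⟩
  have hA1 := hS2' Y.LD F1 hLD0' hF1m
  have e1 : Real.log ((1 / 2 : ℝ) / (1 - 1 / 2)) - Real.log ((1 / 4 : ℝ) / (1 - 1 / 4)) =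
      Real.log 3 := by
    have e2 : (1 / 2 : ℝ) / (1 - 1 / 2) = 1 := by norm_num
    have e3 : (1 / 4 : ℝ) / (1 - 1 / 4) = 3⁻¹ := by norm_num
    rw [e2, e3, Real.log_one, Real.log_inv]
    ring
  rw [e1] at hA1
  have hA2 := hS2 Y.LD F2 hLD0 hF2m
  have e2 : (1 / 2 : ℝ) / (1 - 1 / 2) = 1 := by norm_num
  rw [hb0', e2, hG, Real.log_exp, Real.log_one, sub_zero] at hA2
  have hmain := seq_two hSQ hSm hζ0 hζ1 (le_refl (ζ / 10000)) hnζ hI (L1 := L1)
    (by rw [hL1d]) hL1 hE00.le (show E ≤ ζ / 10000 by rw [hE])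
  have h5 := Sys.VV_Pz_pos (Y := Y) (Y.Z - 1)
  rw [Sys.Pz_all] at h5
  have hX := Y.hX
  have hXV : 0 < Y.X * VV Y.P := mul_pos hX h5
  set W : ℝ := Y.up (3 * n) * ((1 + Y.η) * (3 / 4)) * (Real.log 3 + E) +
      Y.up (2 * n) * ((1 + Y.η) * (2 / 4)) * (L1 + E) with hW
  have hlt : ∀ q ∈ Y.Q, Real.log q < Y.LD := fun q hq => by
    have h1 := hQ q hq
    have h2 : b0 * Y.LD < 1 * Y.LD := mul_lt_mul_of_pos_right hb01 hL
    linarith
  have hsum : ∑ q ∈ F, (cnt Y.N Y.b {q} Y.P : ℝ) ≤ W * (Y.X * VV Y.P) := by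
    rw [← sum_filter_add_sum_filter_not F (fun q : ℕ => Real.log q ≤ 1 / 2 * Y.LD)]
    rw [← hF1, ← hF2]
    have g1 : ∑ q ∈ F1, (cnt Y.N Y.b {q} Y.P : ℝ) ≤
        (Y.up (3 * n) * ((1 + Y.η) * (3 / 4)) * (Real.log 3 + E)) * (Y.X * VV Y.P) := by
      calc ∑ q ∈ F1, (cnt Y.N Y.b {q} Y.P : ℝ) ≤
            ∑ q ∈ F1, Y.up (3 * n) * ((1 + Y.η) * (3 / 4)) *
              (1 / (q : ℝ) * (1 / (1 - Real.log q / Y.LD))) * (Y.X * VV Y.P) := by
            refine sum_le_sum fun q hq => ?_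
            obtain ⟨h1, h2⟩ := mem_filter.1 hq
            obtain ⟨h3, h4⟩ := mem_filter.1 h1
            have h6 := (hF1m q hq).2.1
            have := cnt_large (Y := Y) hκ (s := 4) (b := 3) (by omega) (by omega) hL hP h3 h4
              (hlt q h3) (by
                push_cast
                linarith)
            rw [hYn] at this
            push_cast at this
            exact this
        _ = (Y.up (3 * n) * ((1 + Y.η) * (3 / 4)) *
              ∑ q ∈ F1, 1 / (q : ℝ) * (1 / (1 - Real.log q / Y.LD))) * (Y.X * VV Y.P) := by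
            rw [← sum_mul, mul_sum]
        _ ≤ _ := by
            refine mul_le_mul_of_nonneg_right (mul_le_mul_of_nonneg_left hA1 ?_) hXV.le
            have h6 := hup (3 * n)
            exact mul_nonneg (by linarith) (mul_nonneg (by linarith) (by norm_num))
    have g2 : ∑ q ∈ F2, (cnt Y.N Y.b {q} Y.P : ℝ) ≤
        (Y.up (2 * n) * ((1 + Y.η) * (2 / 4)) * (L1 + E)) * (Y.X * VV Y.P) := by
      calc ∑ q ∈ F2, (cnt Y.N Y.b {q} Y.P : ℝ) ≤
            ∑ q ∈ F2, Y.up (2 * n) * ((1 + Y.η) * (2 / 4)) *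
              (1 / (q : ℝ) * (1 / (1 - Real.log q / Y.LD))) * (Y.X * VV Y.P) := by
            refine sum_le_sum fun q hq => ?_
            obtain ⟨h1, h2⟩ := mem_filter.1 hq
            obtain ⟨h3, h4⟩ := mem_filter.1 h1
            have h6 := (hF2m q hq).2.1
            have := cnt_large (Y := Y) hκ (s := 4) (b := 2) (by omega) (by omega) hL hP h3 h4
              (hlt q h3) (by
                push_cast
                linarith)
            rw [hYn] at this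
            push_cast at this
            exact this
        _ = (Y.up (2 * n) * ((1 + Y.η) * (2 / 4)) *
              ∑ q ∈ F2, 1 / (q : ℝ) * (1 / (1 - Real.log q / Y.LD))) * (Y.X * VV Y.P) := by
            rw [← sum_mul, mul_sum]
        _ ≤ _ := by
            refine mul_le_mul_of_nonneg_right (mul_le_mul_of_nonneg_left hA2 ?_) hXV.le
            have h6 := hup (2 * n)
            exact mul_nonneg (by linarith) (mul_nonneg (by linarith) (by norm_num))
    calc _ ≤ _ := add_le_add g1 g2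
      _ = _ := by rw [hW]; ring
  have := win_of (Y := Y) (K := 2) (s := 4) (c0 := ζ / 100) (LD := Y.LD) (by omega) rfl
    hL.le hP hsum (by
      rw [hYn]
      push_cast
      linarith)
  exact this

end MF11
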