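import Pool.Agent.MF11.Build
import Pool.Agent.MF11.Win2
import Pool.Agent.MF11.Avg

/-!
# [MF11-MAINK] Many integers lie in fewer than `K` classes
-/

namespace MF11

open Finset YX49 RS44 HD44

theorem VV_prs_le {x w : ℕ} {P : Finset ℕ} (hwx : w ≤ x)
    (hP : ∀ p ∈ P, p.Prime ∧ p ≤ x ∧ w < p) : VV (prs x) ≤ VV (prs w) * VV P := by
  classical
  have hdisj : Disjoint (prs w) P := by
    rw [disjoint_left]
    intro p hp hp'
    have h1 := (mem_prs.1 hp).2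
    have h2 := (hP p hp').2.2
    omega
  rw [← VV_union hdisj]
  have hsub : prs w ∪ P ⊆ prs x := by
    intro p hp
    rcases mem_union.1 hp with h | h
    · exact mem_prs.2 ⟨(mem_prs.1 h).1, (mem_prs.1 h).2.trans hwx⟩
    · exact mem_prs.2 ⟨(hP p h).1, (hP p h).2.1⟩
  have h1 : prs x = (prs w ∪ P) ∪ (prs x \ (prs w ∪ P)) := by
    rw [union_sdiff_of_subset hsub]
  have h2 : Disjoint (prs w ∪ P) (prs x \ (prs w ∪ P)) := disjoint_sdiff
  rw [h1, VV_union h2]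
  have h3 : 0 ≤ VV (prs w ∪ P) := VV_nonneg fun l hl => (mem_prs.1 (hsub hl)).1
  refine mul_le_of_le_one_right h3 ?_
  unfold VV
  refine prod_le_one (fun l hl => ?_) (fun l hl => ?_)
  · have h4 := (mem_prs.1 (mem_sdiff.1 hl).1).1
    have h5 : (2 : ℝ) ≤ l := by exact_mod_cast h4.two_le
    have : 1 / (l : ℝ) ≤ 1 := by rw [div_le_one (by linarith)]; linarith
    linarith
  · have : 0 ≤ 1 / (l : ℝ) := by positivity
    linarith

theorem main_win {K s : ℕ} {b0 : ℝ} (hW : Win K s b0) (hs3 : 3 ≤ s) {ϑ : ℝ} (hϑ : 0 ≤ ϑ)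
    (hb : 1 < b0 * (1 + ϑ)) : ∃ c > (0 : ℝ), ∃ x0 : ℕ, ∀ (x y : ℕ) (a : ℕ → ℤ), x0 ≤ x →
    (x : ℝ) ^ (1 + ϑ) ≤ y → y ≤ x ^ 2 →
      c * (y / Real.log y) ≤ (((Ioc 0 y).filter fun m : ℕ => mult x a m < K).card : ℝ) := by
  classical
  obtain ⟨c0, hc0, τ, hτ0, hτ1, n, hn, LD0, hwin⟩ := hW
  obtain ⟨cM, hcM, hmert⟩ := mert_lower
  have hs0 : (0 : ℝ) ≤ s := Nat.cast_nonneg s
  set ε : ℝ := min (1 / 2) (min (1 / ((s : ℝ) + 2)) (1 - 1 / (b0 * (1 + ϑ)))) with hε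
  have hb1 : 0 < 1 - 1 / (b0 * (1 + ϑ)) := by
    rw [sub_pos, div_lt_one (by linarith)]
    exact hb
  have hε0 : 0 < ε := lt_min (by norm_num) (lt_min (by positivity) hb1)
  have hε1 : ε ≤ 1 / 2 := min_le_left _ _
  have hε2 : ε ≤ 1 / ((s : ℝ) + 2) := (min_le_right _ _).trans (min_le_left _ _)
  have hε3 : ε ≤ 1 - 1 / (b0 * (1 + ϑ)) := (min_le_right _ _).trans (min_le_right _ _)
  have hεs : ε * (s + 2) ≤ 1 := by
    rw [le_div_iff₀ (by positivity)] at hε2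
    exact hε2
  have hεb : 1 ≤ (1 - ε) * (b0 * (1 + ϑ)) := by
    have h1 : 1 / (b0 * (1 + ϑ)) ≤ 1 - ε := by linarith
    rwa [div_le_iff₀ (by linarith)] at h1
  obtain ⟨y0, hsys⟩ := exists_sys hε0 hε1 hτ0 hτ1 hn hs3 hεs
  refine ⟨c0 * cM, by positivity, ⌈Real.exp (max y0 (2 * LD0))⌉₊ + 2, ?_⟩
  intro x y a hx hxy hyx
  have hx2 : 2 ≤ x := by omega
  have hx2' : (2 : ℝ) ≤ x := by exact_mod_cast hx2
  have hx0 : (0 : ℝ) < x := by linarith
  have hlx : 0 < Real.log x := Real.log_pos (by linarith)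
  have hxy1 : (x : ℝ) ≤ y := by
    refine le_trans ?_ hxy
    calc (x : ℝ) = (x : ℝ) ^ (1 : ℝ) := (Real.rpow_one _).symm
      _ ≤ (x : ℝ) ^ (1 + ϑ) := Real.rpow_le_rpow_of_exponent_le (by linarith) (by linarith)
  have hy0 : (0 : ℝ) < y := by linarith
  have hly : Real.log x ≤ Real.log y := Real.log_le_log hx0 hxy1
  have hlxy : (1 + ϑ) * Real.log x ≤ Real.log y := by
    have := Real.log_le_log (Real.rpow_pos_of_pos hx0 _) hxy
    rwa [Real.log_rpow hx0] at this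
  have hxexp : max y0 (2 * LD0) ≤ Real.log x := by
    rw [Real.le_log_iff_exp_le hx0]
    refine (Nat.le_ceil _).trans ?_
    exact_mod_cast (by omega : ⌈Real.exp (max y0 (2 * LD0))⌉₊ ≤ x)
  have hyy0 : y0 ≤ Real.log y := (le_max_left _ _).trans (hxexp.trans hly)
  have hyL : 2 * LD0 ≤ Real.log y := (le_max_right _ _).trans (hxexp.trans hly)
  set b : ℕ → ℕ := fun p => (a p % (p : ℤ)).toNat with hbdef
  obtain ⟨Y, w, hw2, hwx, hκ, hYn, hSm, hI, hYLD, hYP, hYQ, hYN, hYb, hYX⟩ :=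
    hsys x y b hyy0 (by exact_mod_cast hy0) hyx
  have hLD : LD0 ≤ Y.LD := by
    rw [hYLD]
    have h1 : 1 / 2 * Real.log y ≤ (1 - ε) * Real.log y :=
      mul_le_mul_of_nonneg_right (by linarith) (by linarith)
    linarith
  have hb0 : 0 < b0 := by
    by_contra hc
    have : b0 * (1 + ϑ) ≤ 0 := mul_nonpos_of_nonpos_of_nonneg (not_lt.1 hc) (by linarith)
    linarith
  have hQb : ∀ q ∈ Y.Q, Real.log q ≤ b0 * Y.LD := by
    intro q hq
    rw [hYQ, mem_filter, mem_Ioc] at hq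
    have hq0 : (0 : ℝ) < q := by exact_mod_cast hq.2.pos
    have h1 : Real.log q ≤ Real.log x := Real.log_le_log hq0 (by exact_mod_cast hq.1.2)
    refine h1.trans ?_
    rw [hYLD]
    have h2 : b0 * (1 - ε) * ((1 + ϑ) * Real.log x) ≤ b0 * (1 - ε) * Real.log y :=
      mul_le_mul_of_nonneg_left hlxy (mul_nonneg hb0.le (by linarith))
    have h3 : 1 * Real.log x ≤ ((1 - ε) * (b0 * (1 + ϑ))) * Real.log x :=
      mul_le_mul_of_nonneg_right hεb hlx.le
    linarith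
  have h1 := hwin Y hκ hYn hSm hI hLD hYP hQb
  have h2 : c0 * cM * (y / Real.log y) ≤ c0 * (Y.X * VV Y.P) := by
    have h3 : VV (prs x) ≤ VV (prs w) * VV Y.P := by
      refine VV_prs_le hwx fun p hp => ?_
      rw [hYP, mem_filter, hYQ, mem_filter, mem_Ioc] at hp
      exact ⟨hp.1.2, hp.1.1.2, hp.1.1.1⟩
    have h4 := hmert x hx2
    have h5 : cM / Real.log y ≤ cM / Real.log x := div_le_div_of_nonneg_left hcM.le hlx hly
    have h6 : cM / Real.log y ≤ VV (prs w) * VV Y.P := h5.trans (h4.trans h3)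
    calc c0 * cM * (y / Real.log y) = c0 * (y * (cM / Real.log y)) := by ring
      _ ≤ c0 * (y * (VV (prs w) * VV Y.P)) :=
          mul_le_mul_of_nonneg_left (mul_le_mul_of_nonneg_left h6 hy0.le) hc0.le
      _ = c0 * (Y.X * VV Y.P) := by rw [hYX]; ring
  refine h2.trans (h1.trans ?_)
  have h7 : (Y.N.filter fun m => (∀ p ∈ Y.P, ¬ m ≡ Y.b p [MOD p]) ∧
      mul0 Y.b (Y.Q.filter fun p : ℕ => ¬ (s : ℝ) * Real.log p ≤ Y.LD) m < K) ⊆
      (Ioc 0 y).filter fun m : ℕ => mult x a m < K := by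
    intro m hm
    rw [mem_filter, hYN] at hm
    obtain ⟨h8, h9, h10⟩ := hm
    unfold sift at h8
    rw [mem_filter] at h8
    obtain ⟨h11, _, h12⟩ := h8
    rw [mem_filter]
    refine ⟨h11, lt_of_le_of_lt ?_ h10⟩
    unfold mult mul0
    refine card_le_card ?_
    intro p hp
    rw [mem_filter, mem_Ioc] at hp
    obtain ⟨⟨hp0, hpx⟩, hpp, hpm⟩ := hp
    have hp0' : (0 : ℤ) < p := by exact_mod_cast hp0
    have hmb : m ≡ b p [MOD p] := by
      rw [← Int.natCast_modEq_iff]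
      have h13 : ((b p : ℕ) : ℤ) = a p % (p : ℤ) := by
        rw [hbdef]
        exact Int.toNat_of_nonneg (Int.emod_nonneg _ hp0'.ne')
      rw [h13]
      exact hpm.trans (Int.mod_modEq _ _).symm
    have hpw : w < p := by
      by_contra hcon
      exact h12 p (mem_prs.2 ⟨hpp, not_lt.1 hcon⟩) hmb
    have hpQ : p ∈ Y.Q := by
      rw [hYQ, mem_filter, mem_Ioc]
      exact ⟨⟨hpw, hpx⟩, hpp⟩
    rw [mem_filter, mem_filter, hYb]
    refine ⟨⟨hpQ, fun hcon => ?_⟩, hmb⟩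
    have hpP : p ∈ Y.P := by
      rw [hYP, mem_filter]
      exact ⟨hpQ, hcon⟩
    refine h9 p hpP ?_
    rw [hYb]
    exact hmb
  exact_mod_cast card_le_card h7

/-- the exponent `θ_K = 3 ^ (1 - 2 ^ (K - 1))` -/
noncomputable def thK (K : ℕ) : ℝ := 3 / 3 ^ (2 ^ (K - 1))

theorem exp_LK {K : ℕ} : Real.exp (LK K) = 1 / thK K := by
  unfold LK thK
  have h1 : ((2 : ℝ) ^ (K - 1) - 1) * Real.log 3 = ((2 ^ (K - 1) : ℕ) : ℝ) * Real.log 3 - Real.log 3 := by
    push_cast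
    ring
  rw [h1, Real.exp_sub, ← Real.log_pow, Real.exp_log (by positivity), Real.exp_log (by norm_num)]
  rw [one_div_div]

theorem main_K {K : ℕ} (hK : 2 ≤ K) {ε : ℝ} (hε : 0 < ε) : ∃ c > (0 : ℝ), ∃ x0 : ℕ,
    ∀ (x y : ℕ) (a : ℕ → ℤ), x0 ≤ x → (x : ℝ) ^ (1 + (thK K + ε)) ≤ y → y ≤ x ^ 2 →
      c * (y / Real.log y) ≤ (((Ioc 0 y).filter fun m : ℕ => mult x a m < K).card : ℝ) := by
  have hth : 0 < thK K := by unfold thK; positivity
  obtain h2 | h3 : K = 2 ∨ 3 ≤ K := by omega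
  · subst h2
    have hth2 : thK 2 = 1 / 3 := by unfold thK; norm_num
    have hl : 0 < Real.log (1 + 3 * ε) := Real.log_pos (by linarith)
    set ζ : ℝ := min 1 (Real.log (1 + 3 * ε) / 2) with hζ
    have hζ0 : 0 < ζ := lt_min (by norm_num) (by positivity)
    have hζ1 : ζ ≤ 1 := min_le_left _ _
    have hζ2 : ζ < Real.log (1 + 3 * ε) := lt_of_le_of_lt (min_le_right _ _) (by linarith)
    refine main_win (win_two hζ0 hζ1) (by norm_num) (by positivity) ?_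
    have h4 : Real.exp ζ < 1 + 3 * ε := by
      have := Real.exp_lt_exp.mpr hζ2
      rwa [Real.exp_log (by linarith)] at this
    have h5 : Real.exp (Real.log 3 - ζ) = 3 / Real.exp ζ := by
      rw [Real.exp_sub, Real.exp_log (by norm_num)]
    have h6 := Real.exp_pos ζ
    rw [h5, hth2, div_mul_eq_mul_div, lt_div_iff₀ (by positivity)]
    have h7 : 3 / Real.exp ζ * (1 + (1 / 3 + ε)) = 3 / Real.exp ζ + (1 + 3 * ε) / Real.exp ζ := by
      ring
    rw [h7, one_mul]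
    have h8 : 1 < (1 + 3 * ε) / Real.exp ζ := by
      rw [lt_div_iff₀ h6]
      linarith
    linarith
  · obtain ⟨hs12, _⟩ := sK_ge h3
    refine main_win (win_three h3) (by omega) (by positivity) ?_
    rw [exp_LK]
    have h4 : 1 / thK K / (1 + 1 / thK K) = 1 / (1 + thK K) := by
      field_simp
      ring
    rw [h4, div_mul_eq_mul_div, one_mul, lt_div_iff₀ (by linarith)]
    linarith

end MF11
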