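import Pool.Agent.MF11.BuildP
import Pool.Agent.MF11.MainK

/-!
# [MF11-MAINP] One class for every prime of a finite set of primes
-/

namespace MF11

open Finset YX49 RS44 HD44

/-- the number of classes `a p`, `p ∈ P`, which contain `m` -/
def multP (P : Finset ℕ) (a : ℕ → ℤ) (m : ℕ) : ℕ :=
  (P.filter fun p : ℕ => (m : ℤ) ≡ a p [ZMOD (p : ℤ)]).card

theorem VV_sub_le {x : ℕ} {A P : Finset ℕ} (hdisj : Disjoint A P)
    (hA : ∀ p ∈ A, p.Prime ∧ p ≤ x) (hP : ∀ p ∈ P, p.Prime ∧ p ≤ x) :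
    VV (prs x) ≤ VV A * VV P := by
  classical
  rw [← VV_union hdisj]
  have hsub : A ∪ P ⊆ prs x := by
    intro p hp
    rcases mem_union.1 hp with h | h
    · exact mem_prs.2 (hA p h)
    · exact mem_prs.2 (hP p h)
  have h1 : prs x = (A ∪ P) ∪ (prs x \ (A ∪ P)) := by
    rw [union_sdiff_of_subset hsub]
  have h2 : Disjoint (A ∪ P) (prs x \ (A ∪ P)) := disjoint_sdiff
  rw [h1, VV_union h2]
  have h3 : 0 ≤ VV (A ∪ P) := VV_nonneg fun l hl => (mem_prs.1 (hsub hl)).1
  refine mul_le_of_le_one_right h3 ?_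
  unfold VV
  refine prod_le_one (fun l hl => ?_) (fun l hl => ?_)
  · have h4 := (mem_prs.1 (mem_sdiff.1 hl).1).1
    have h5 : (2 : ℝ) ≤ l := by exact_mod_cast h4.two_le
    have : 1 / (l : ℝ) ≤ 1 := by rw [div_le_one (by linarith)]; linarith
    linarith
  · have : 0 ≤ 1 / (l : ℝ) := by positivity
    linarith

theorem main_winP {K s : ℕ} {b0 : ℝ} (hW : Win K s b0) (hs3 : 3 ≤ s) {ϑ : ℝ} (hϑ : 0 ≤ ϑ)
    (hb : 1 < b0 * (1 + ϑ)) : ∃ c > (0 : ℝ), ∃ x0 : ℕ, ∀ (x y : ℕ) (PP : Finset ℕ) (a : ℕ → ℤ),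
    (∀ p ∈ PP, p.Prime ∧ p ≤ x) → x0 ≤ x →
    (x : ℝ) ^ (1 + ϑ) ≤ y → y ≤ x ^ 2 →
      c * (y / Real.log y) ≤ (((Ioc 0 y).filter fun m : ℕ => multP PP a m < K).card : ℝ) := by
  classical
  obtain ⟨c0, hc0, τ, hτ0, hτ1, n, hn, LD0, hwin⟩ := hW
  obtain ⟨cM, hcM, hmert⟩ := mert_lower
  have hs0 : (0 : ℝ) ≤ s := Nat.cast_nonneg s
  set ε : ℝ := min (1 / 2) (min (1 / ((s : ℝ) + 2)) (1 - 1 / (b0 * (1 + ϑ)))) with hε
  have hb1 : 0 < 1 - 1 / (b0 * (1 + ϑ)) := by
    rw [sub_pos, div_lt_one (by linarith)]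
    exact hb
  have hε0 : 0 < ε := lt_min (by norm_num) (lt_min (by positivity) hb1)
  have hε1 : ε ≤ 1 / 2 := min_le_left _ _
  have hε2 : ε ≤ 1 / ((s : ℝ) + 2) := (min_le_right _ _).trans (min_le_left _ _)
  have hε3 : ε ≤ 1 - 1 / (b0 * (1 + ϑ)) := (min_le_right _ _).trans (min_le_right _ _)
  have hεs : ε * (s + 2) ≤ 1 := by
    rw [le_div_iff₀ (by positivity)] at hε2
    exact hε2
  have hεb : 1 ≤ (1 - ε) * (b0 * (1 + ϑ)) := by
    have h1 : 1 / (b0 * (1 + ϑ)) ≤ 1 - ε := by linarith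
    rwa [div_le_iff₀ (by linarith)] at h1
  obtain ⟨y0, hsys⟩ := exists_sysP hε0 hε1 hτ0 hτ1 hn hs3 hεs
  refine ⟨c0 * cM, by positivity, ⌈Real.exp (max y0 (2 * LD0))⌉₊ + 2, ?_⟩
  intro x y PP a hPP hx hxy hyx
  have hx2 : 2 ≤ x := by omega
  have hx2' : (2 : ℝ) ≤ x := by exact_mod_cast hx2
  have hx0 : (0 : ℝ) < x := by linarith
  have hlx : 0 < Real.log x := Real.log_pos (by linarith)
  have hxy1 : (x : ℝ) ≤ y := by
    refine le_trans ?_ hxy
    calc (x : ℝ) = (x : ℝ) ^ (1 : ℝ) := (Real.rpow_one _).symm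
      _ ≤ (x : ℝ) ^ (1 + ϑ) := Real.rpow_le_rpow_of_exponent_le (by linarith) (by linarith)
  have hy0 : (0 : ℝ) < y := by linarith
  have hly : Real.log x ≤ Real.log y := Real.log_le_log hx0 hxy1
  have hlxy : (1 + ϑ) * Real.log x ≤ Real.log y := by
    have := Real.log_le_log (Real.rpow_pos_of_pos hx0 _) hxy
    rwa [Real.log_rpow hx0] at this
  have hxexp : max y0 (2 * LD0) ≤ Real.log x := by
    rw [Real.le_log_iff_exp_le hx0]
    refine (Nat.le_ceil _).trans ?_
    exact_mod_cast (by omega : ⌈Real.exp (max y0 (2 * LD0))⌉₊ ≤ x)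
  have hyy0 : y0 ≤ Real.log y := (le_max_left _ _).trans (hxexp.trans hly)
  have hyL : 2 * LD0 ≤ Real.log y := (le_max_right _ _).trans (hxexp.trans hly)
  set b : ℕ → ℕ := fun p => (a p % (p : ℤ)).toNat with hbdef
  obtain ⟨Y, w, hw2, hwx, hκ, hYn, hSm, hI, hYLD, hYP, hYQ, hYN, hYb, hYX⟩ :=
    hsys x y PP b hPP hyy0 (by exact_mod_cast hy0) hyx
  have hLD : LD0 ≤ Y.LD := by
    rw [hYLD]
    have h1 : 1 / 2 * Real.log y ≤ (1 - ε) * Real.log y :=
      mul_le_mul_of_nonneg_right (by linarith) (by linarith)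
    linarith
  have hb0 : 0 < b0 := by
    by_contra hc
    have : b0 * (1 + ϑ) ≤ 0 := mul_nonpos_of_nonpos_of_nonneg (not_lt.1 hc) (by linarith)
    linarith
  have hQb : ∀ q ∈ Y.Q, Real.log q ≤ b0 * Y.LD := by
    intro q hq
    rw [hYQ, mem_filter] at hq
    obtain ⟨hqp, hqx⟩ := hPP q hq.1
    have hq0 : (0 : ℝ) < q := by exact_mod_cast hqp.pos
    have h1 : Real.log q ≤ Real.log x := Real.log_le_log hq0 (by exact_mod_cast hqx)
    refine h1.trans ?_
    rw [hYLD]
    have h2 : b0 * (1 - ε) * ((1 + ϑ) * Real.log x) ≤ b0 * (1 - ε) * Real.log y :=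
      mul_le_mul_of_nonneg_left hlxy (mul_nonneg hb0.le (by linarith))
    have h3 : 1 * Real.log x ≤ ((1 - ε) * (b0 * (1 + ϑ))) * Real.log x :=
      mul_le_mul_of_nonneg_right hεb hlx.le
    linarith
  have h1 := hwin Y hκ hYn hSm hI hLD hYP hQb
  have h2 : c0 * cM * (y / Real.log y) ≤ c0 * (Y.X * VV Y.P) := by
    have h3 : VV (prs x) ≤ VV (PP.filter fun p => p ≤ w) * VV Y.P := by
      refine VV_sub_le ?_ (fun p hp => hPP p (mem_filter.1 hp).1) fun p hp => ?_
      · rw [disjoint_left]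
        intro p hp hp'
        rw [hYP, mem_filter, hYQ, mem_filter] at hp'
        have h4 := (mem_filter.1 hp).2
        omega
      · rw [hYP, mem_filter, hYQ, mem_filter] at hp
        exact hPP p hp.1.1
    have h4 := hmert x hx2
    have h5 : cM / Real.log y ≤ cM / Real.log x := div_le_div_of_nonneg_left hcM.le hlx hly
    have h6 : cM / Real.log y ≤ VV (PP.filter fun p => p ≤ w) * VV Y.P := h5.trans (h4.trans h3)
    calc c0 * cM * (y / Real.log y) = c0 * (y * (cM / Real.log y)) := by ring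
      _ ≤ c0 * (y * (VV (PP.filter fun p => p ≤ w) * VV Y.P)) :=
          mul_le_mul_of_nonneg_left (mul_le_mul_of_nonneg_left h6 hy0.le) hc0.le
      _ = c0 * (Y.X * VV Y.P) := by rw [hYX]; ring
  refine h2.trans (h1.trans ?_)
  have h7 : (Y.N.filter fun m => (∀ p ∈ Y.P, ¬ m ≡ Y.b p [MOD p]) ∧
      mul0 Y.b (Y.Q.filter fun p : ℕ => ¬ (s : ℝ) * Real.log p ≤ Y.LD) m < K) ⊆
      (Ioc 0 y).filter fun m : ℕ => multP PP a m < K := by
    intro m hm
    rw [mem_filter, hYN] at hm
    obtain ⟨h8, h9, h10⟩ := hm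
    unfold sift at h8
    rw [mem_filter] at h8
    obtain ⟨h11, _, h12⟩ := h8
    rw [mem_filter]
    refine ⟨h11, lt_of_le_of_lt ?_ h10⟩
    unfold multP mul0
    refine card_le_card ?_
    intro p hp
    rw [mem_filter] at hp
    obtain ⟨hpPP, hpm⟩ := hp
    obtain ⟨hpp, hpx⟩ := hPP p hpPP
    have hp0' : (0 : ℤ) < p := by exact_mod_cast hpp.pos
    have hmb : m ≡ b p [MOD p] := by
      rw [← Int.natCast_modEq_iff]
      have h13 : ((b p : ℕ) : ℤ) = a p % (p : ℤ) := by
        rw [hbdef]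
        exact Int.toNat_of_nonneg (Int.emod_nonneg _ hp0'.ne')
      rw [h13]
      exact hpm.trans (Int.mod_modEq _ _).symm
    have hpw : w < p := by
      by_contra hcon
      exact h12 p (mem_filter.2 ⟨hpPP, not_lt.1 hcon⟩) hmb
    have hpQ : p ∈ Y.Q := by
      rw [hYQ, mem_filter]
      exact ⟨hpPP, hpw⟩
    rw [mem_filter, mem_filter, hYb]
    refine ⟨⟨hpQ, fun hcon => ?_⟩, hmb⟩
    have hpP : p ∈ Y.P := by
      rw [hYP, mem_filter]
      exact ⟨hpQ, hcon⟩
    refine h9 p hpP ?_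
    rw [hYb]
    exact hmb
  exact_mod_cast card_le_card h7

theorem main_KP {K : ℕ} (hK : 2 ≤ K) {ε : ℝ} (hε : 0 < ε) : ∃ c > (0 : ℝ), ∃ x0 : ℕ,
    ∀ (x y : ℕ) (PP : Finset ℕ) (a : ℕ → ℤ), (∀ p ∈ PP, p.Prime ∧ p ≤ x) → x0 ≤ x →
      (x : ℝ) ^ (1 + (thK K + ε)) ≤ y → y ≤ x ^ 2 →
      c * (y / Real.log y) ≤ (((Ioc 0 y).filter fun m : ℕ => multP PP a m < K).card : ℝ) := by
  have hth : 0 < thK K := by unfold thK; positivity
  obtain h2 | h3 : K = 2 ∨ 3 ≤ K := by omega
  · subst h2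
    have hth2 : thK 2 = 1 / 3 := by unfold thK; norm_num
    have hl : 0 < Real.log (1 + 3 * ε) := Real.log_pos (by linarith)
    set ζ : ℝ := min 1 (Real.log (1 + 3 * ε) / 2) with hζ
    have hζ0 : 0 < ζ := lt_min (by norm_num) (by positivity)
    have hζ1 : ζ ≤ 1 := min_le_left _ _
    have hζ2 : ζ < Real.log (1 + 3 * ε) := lt_of_le_of_lt (min_le_right _ _) (by linarith)
    refine main_winP (win_two hζ0 hζ1) (by norm_num) (by positivity) ?_
    have h4 : Real.exp ζ < 1 + 3 * ε := by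
      have := Real.exp_lt_exp.mpr hζ2
      rwa [Real.exp_log (by linarith)] at this
    have h5 : Real.exp (Real.log 3 - ζ) = 3 / Real.exp ζ := by
      rw [Real.exp_sub, Real.exp_log (by norm_num)]
    have h6 := Real.exp_pos ζ
    rw [h5, hth2, div_mul_eq_mul_div, lt_div_iff₀ (by positivity)]
    have h7 : 3 / Real.exp ζ * (1 + (1 / 3 + ε)) = 3 / Real.exp ζ + (1 + 3 * ε) / Real.exp ζ := by
      ring
    rw [h7, one_mul]
    have h8 : 1 < (1 + 3 * ε) / Real.exp ζ := by
      rw [lt_div_iff₀ h6]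
      linarith
    linarith
  · obtain ⟨hs12, _⟩ := sK_ge h3
    refine main_winP (win_three h3) (by omega) (by positivity) ?_
    rw [exp_LK]
    have h4 : 1 / thK K / (1 + 1 / thK K) = 1 / (1 + thK K) := by
      field_simp
      ring
    rw [h4, div_mul_eq_mul_div, one_mul, lt_div_iff₀ (by linarith)]
    linarith

theorem multP_shift (P : Finset ℕ) (a : ℕ → ℤ) (t m : ℕ) :
    multP P a (t + m) = multP P (fun p => a p - t) m := by
  unfold multP
  congr 1
  ext p
  simp only [mem_filter, and_congr_right_iff]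
  intro _
  rw [Int.modEq_iff_dvd, Int.modEq_iff_dvd]
  push_cast
  have : a p - ((t : ℤ) + m) = a p - t - m := by ring
  rw [this]

theorem thK_bounds {K : ℕ} (hK : 2 ≤ K) : 0 < thK K ∧ thK K ≤ 1 / 3 := by
  refine ⟨by unfold thK; positivity, ?_⟩
  unfold thK
  have h1 : (3 : ℝ) ^ 2 ≤ 3 ^ (2 ^ (K - 1)) := by
    refine pow_le_pow_right₀ (by norm_num) ?_
    calc 2 = 2 ^ 1 := by norm_num
      _ ≤ 2 ^ (K - 1) := Nat.pow_le_pow_right (by norm_num) (by omega)
  rw [div_le_div_iff₀ (by positivity) (by norm_num)]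
  linarith

theorem main_allP {K : ℕ} (hK : 2 ≤ K) {ε : ℝ} (hε : 0 < ε) : ∃ c > (0 : ℝ), ∃ x0 : ℕ,
    ∀ (x y : ℕ) (PP : Finset ℕ) (a : ℕ → ℤ), (∀ p ∈ PP, p.Prime ∧ p ≤ x) → x0 ≤ x →
      (x : ℝ) ^ (1 + (thK K + ε)) ≤ y →
      c * (y / Real.log x) ≤ (((Ioc 0 y).filter fun m : ℕ => multP PP a m < K).card : ℝ) := by
  classical
  obtain ⟨hth0, hth⟩ := thK_bounds hK
  set ε1 : ℝ := min ε (1 / 2) with hε1
  have hε10 : 0 < ε1 := lt_min hε (by norm_num)
  obtain ⟨c, hc, x0, hmain⟩ := main_KP hK hε10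
  refine ⟨c / 4, by positivity, x0 + 2, fun x y PP a hPP hx hxy => ?_⟩
  have hx2 : 2 ≤ x := by omega
  have hx2' : (2 : ℝ) ≤ x := by exact_mod_cast hx2
  have hx0 : (0 : ℝ) < x := by linarith
  have hlx : 0 < Real.log x := Real.log_pos (by linarith)
  have hxe : (x : ℝ) ^ (1 + (thK K + ε1)) ≤ (x : ℝ) ^ (1 + (thK K + ε)) :=
    Real.rpow_le_rpow_of_exponent_le (by linarith) (by
      have := min_le_left ε (1 / 2)
      linarith)
  rcases le_total y (x ^ 2) with hyx | hyx
  · have h1 := hmain x y PP a hPP (by omega) (hxe.trans hxy) hyx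
    refine le_trans ?_ h1
    have hy1 : (1 : ℝ) < y := by
      refine lt_of_lt_of_le ?_ hxy
      exact Real.one_lt_rpow (by linarith) (by linarith)
    have hly : 0 < Real.log y := Real.log_pos hy1
    have hlyx : Real.log y ≤ 2 * Real.log x := by
      have h2 : (y : ℝ) ≤ (x : ℝ) ^ 2 := by exact_mod_cast hyx
      have h3 := Real.log_le_log (by linarith) h2
      rw [Real.log_pow] at h3
      push_cast at h3
      exact h3
    rw [div_mul_div_comm, ← mul_div_assoc, div_le_div_iff₀ (by positivity) hly]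
    have h4 : 0 ≤ c * (y : ℝ) := by positivity
    calc c * (y : ℝ) * Real.log y ≤ c * y * (2 * Real.log x) := mul_le_mul_of_nonneg_left hlyx h4
      _ ≤ c * y * (4 * Real.log x) := mul_le_mul_of_nonneg_left (by linarith) h4
  · set X : ℕ := x ^ 2 with hX
    have hX0 : 0 < X := by positivity
    have hXe : (x : ℝ) ^ (1 + (thK K + ε1)) ≤ (X : ℝ) := by
      rw [hX]
      push_cast
      rw [← Real.rpow_natCast]
      refine Real.rpow_le_rpow_of_exponent_le (by linarith) ?_
      have := min_le_right ε (1 / 2)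
      push_cast
      linarith
    have hlX : Real.log (X : ℝ) = 2 * Real.log x := by
      rw [hX]
      push_cast
      rw [Real.log_pow]
      push_cast
      rfl
    have hblock : ∀ t : ℕ, c * ((X : ℝ) / (2 * Real.log x)) ≤
        (((Ioc t (t + X)).filter fun m : ℕ => multP PP a m < K).card : ℝ) := by
      intro t
      have h1 := hmain x X PP (fun p => a p - t) hPP (by omega) hXe (le_refl _)
      rw [hlX] at h1
      refine h1.trans ?_
      have h2 : ((Ioc 0 X).filter fun m : ℕ => multP PP (fun p => a p - t) m < K).card ≤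
          ((Ioc t (t + X)).filter fun m : ℕ => multP PP a m < K).card := by
        refine card_le_card_of_injOn (fun m => t + m) ?_ ?_
        · intro m hm
          rw [mem_coe, mem_filter, mem_Ioc] at hm ⊢
          have h5 : multP PP a (t + m) < K := by
            rw [multP_shift]
            exact hm.2
          exact ⟨⟨show t < t + m by omega, show t + m ≤ t + X by omega⟩, h5⟩
        · intro m1 _ m2 _ h
          exact Nat.add_left_cancel h
      exact_mod_cast h2
    have hsum : ∀ q : ℕ, (q : ℝ) * (c * ((X : ℝ) / (2 * Real.log x))) ≤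
        (((Ioc 0 (q * X)).filter fun m : ℕ => multP PP a m < K).card : ℝ) := by
      intro q
      induction q with
      | zero => simp
      | succ q ih =>
        have h1 := hblock (q * X)
        have h2 : (Ioc 0 ((q + 1) * X)).filter (fun m : ℕ => multP PP a m < K) =
            (Ioc 0 (q * X)).filter (fun m : ℕ => multP PP a m < K) ∪
              (Ioc (q * X) (q * X + X)).filter (fun m : ℕ => multP PP a m < K) := by
          rw [← filter_union]
          congr 1
          have h3 : (q + 1) * X = q * X + X := by ring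
          rw [h3]
          exact (Ioc_union_Ioc_eq_Ioc (Nat.zero_le _) (Nat.le_add_right _ _)).symm
        have h4 : Disjoint ((Ioc 0 (q * X)).filter (fun m : ℕ => multP PP a m < K))
            ((Ioc (q * X) (q * X + X)).filter (fun m : ℕ => multP PP a m < K)) := by
          rw [disjoint_left]
          intro m hm hm'
          rw [mem_filter, mem_Ioc] at hm hm'
          omega
        rw [h2, card_union_of_disjoint h4]
        push_cast
        linarith
    set q : ℕ := y / X with hq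
    have hq1 : 1 ≤ q := (Nat.one_le_div_iff hX0).2 hyx
    have hqX : q * X ≤ y := Nat.div_mul_le_self y X
    have hyq : y ≤ 2 * (q * X) := by
      have h1 := Nat.lt_div_mul_add (a := y) hX0
      rw [← hq] at h1
      have h2 : X ≤ q * X := Nat.le_mul_of_pos_left X hq1
      omega
    have h1 := hsum q
    have h2 : ((Ioc 0 (q * X)).filter fun m : ℕ => multP PP a m < K).card ≤
        ((Ioc 0 y).filter fun m : ℕ => multP PP a m < K).card := by
      refine card_le_card (filter_subset_filter _ ?_)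
      exact Ioc_subset_Ioc_right hqX
    have h3 : (((Ioc 0 (q * X)).filter fun m : ℕ => multP PP a m < K).card : ℝ) ≤
        ((Ioc 0 y).filter fun m : ℕ => multP PP a m < K).card := by exact_mod_cast h2
    refine le_trans ?_ (h1.trans h3)
    have h4 : (y : ℝ) ≤ 2 * (q * X) := by exact_mod_cast hyq
    calc c / 4 * ((y : ℝ) / Real.log x) ≤ c / 4 * ((2 * (q * X)) / Real.log x) := by
          refine mul_le_mul_of_nonneg_left ?_ (by positivity)
          exact div_le_div_of_nonneg_right h4 hlx.le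
      _ = (q : ℝ) * (c * ((X : ℝ) / (2 * Real.log x))) := by
          field_simp
          ring

end MF11
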