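import Mathlib

/-!
# [MF11-NUM] The numerical inequality behind the exponents
-/

namespace MF11

theorem log_le_of_pow {a b k m : ℕ} (ha : 0 < a) (hk : 0 < k) (h : a ^ k ≤ 2 ^ m)
    (hb : (m : ℝ) * 0.6931471808 ≤ k * (b : ℝ) / 10000) : Real.log a ≤ (b : ℝ) / 10000 := by
  have h1 : (a : ℝ) ^ k ≤ 2 ^ m := by exact_mod_cast h
  have ha' : (0 : ℝ) < a := by exact_mod_cast ha
  have h2 := Real.log_le_log (by positivity) h1
  rw [Real.log_pow, Real.log_pow] at h2
  have h3 := Real.log_two_lt_d9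
  have hk' : (0 : ℝ) < k := by exact_mod_cast hk
  have h4 : (m : ℝ) * Real.log 2 ≤ m * 0.6931471808 :=
    mul_le_mul_of_nonneg_left h3.le (Nat.cast_nonneg m)
  have h5 : (k : ℝ) * Real.log a ≤ k * ((b : ℝ) / 10000) := by
    calc (k : ℝ) * Real.log a ≤ m * Real.log 2 := h2
      _ ≤ _ := h4
      _ ≤ k * (b : ℝ) / 10000 := hb
      _ = _ := by ring
  exact le_of_mul_le_mul_left h5 hk'

theorem log3_le : Real.log 3 ≤ 1.0989 := by
  have h := log_le_of_pow (a := 3) (b := 10989) (k := 41) (m := 65) (by norm_num) (by norm_num)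
    (by norm_num) (by norm_num)
  norm_num at h ⊢
  linarith

theorem log3_ge : 1.098 ≤ Real.log 3 := by
  have h1 : (2 : ℝ) ^ 84 ≤ 3 ^ 53 := by norm_num
  have h2 := Real.log_le_log (by positivity) h1
  rw [Real.log_pow, Real.log_pow] at h2
  have h3 := Real.log_two_gt_d9
  norm_num at h2 h3 ⊢
  linarith

theorem log5_le : Real.log 5 ≤ 1.61 := by
  have h := log_le_of_pow (a := 5) (b := 16100) (k := 31) (m := 72) (by norm_num) (by norm_num)
    (by norm_num) (by norm_num)
  norm_num at h ⊢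
  linarith

theorem log11_le : Real.log 11 ≤ 2.3984 := by
  have h := log_le_of_pow (a := 11) (b := 23984) (k := 37) (m := 128) (by norm_num) (by norm_num)
    (by norm_num) (by norm_num)
  norm_num at h ⊢
  linarith

theorem log23_le : Real.log 23 ≤ 3.136 := by
  have h := log_le_of_pow (a := 23) (b := 31360) (k := 21) (m := 95) (by norm_num) (by norm_num)
    (by norm_num) (by norm_num)
  norm_num at h ⊢
  linarith

theorem num_case {B p e α β G : ℝ} (hB : B ≤ 3.7)
    (he : e ≤ 1 / 100) (h1 : p ≤ B * (1 - Real.log 2) + e)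
    (h2 : p ≤ 3 - B * Real.log 2 + e) (hα : 0 ≤ α) (hβ : 0 ≤ β)
    (hA : α * 3 + β * 0.931 ≤ G) (hB' : α * 3.7 + β * 0.4466 ≤ G) :
    α * B + β * p ≤ G := by
  have h3 := Real.log_two_gt_d9
  have h4 := Real.log_two_lt_d9
  rcases le_total B 3 with h5 | h5
  · have h6 : p ≤ 0.931 := by
      have : B * (1 - Real.log 2) ≤ 3 * (1 - Real.log 2) :=
        mul_le_mul_of_nonneg_right h5 (by linarith)
      norm_num at h3 h4 ⊢
      linarith
    have h7 : β * p ≤ β * 0.931 := mul_le_mul_of_nonneg_left h6 hβ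
    have h8 : α * B ≤ α * 3 := mul_le_mul_of_nonneg_left h5 hα
    linarith
  · have h6 : p ≤ 0.931 + (B - 3) * (-0.692) := by
      have : (B - 3) * 0.692 ≤ (B - 3) * Real.log 2 :=
        mul_le_mul_of_nonneg_left (by linarith) (by linarith)
      norm_num at h3 h4 this ⊢
      linarith
    have h7 : β * p ≤ β * (0.931 + (B - 3) * (-0.692)) := mul_le_mul_of_nonneg_left h6 hβ
    have h8 : 0.7 * (α * B + β * (0.931 + (B - 3) * (-0.692))) =
        (3.7 - B) * (α * 3 + β * 0.931) + (B - 3) * (α * 3.7 + β * 0.4466) := by ring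
    have h10 : (3.7 - B) * (α * 3 + β * 0.931) ≤ (3.7 - B) * G :=
      mul_le_mul_of_nonneg_left hA (by linarith)
    have h11 : (B - 3) * (α * 3.7 + β * 0.4466) ≤ (B - 3) * G :=
      mul_le_mul_of_nonneg_left hB' (by linarith)
    have h12 : 0.7 * (α * B + β * (0.931 + (B - 3) * (-0.692))) ≤ 0.7 * G := by
      rw [h8]
      calc _ ≤ (3.7 - B) * G + (B - 3) * G := add_le_add h10 h11
        _ = _ := by ring
    have h13 := le_of_mul_le_mul_left h12 (by norm_num)
    linarith

/-- the sieve exponent for `K` classes -/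
def sK (K : ℕ) : ℕ := 3 * 2 ^ (K - 1)

/-- `-log θ_K` -/
noncomputable def LK (K : ℕ) : ℝ := (2 ^ (K - 1) - 1) * Real.log 3

theorem num_ineq {K : ℕ} (hK : 3 ≤ K) {B p e : ℝ} (hB : B ≤ 3.7)
    (he : e ≤ 1 / 100) (h1 : p ≤ B * (1 - Real.log 2) + e)
    (h2 : p ≤ 3 - B * Real.log 2 + e) :
    (LK K - Real.log (((sK K : ℝ) - 2) / 2)) / sK K * B +
      max (Real.log ((sK K : ℝ) - 2) / ((sK K : ℝ) - 3)) (K / sK K) * p + 1 / 200 ≤
        K - Real.log ((sK K : ℝ) - 2) := by
  have l3 := log3_le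
  have l2 := Real.log_two_lt_d9
  have l2' := Real.log_two_gt_d9
  have l5 := log5_le
  have l11 := log11_le
  have l23 := log23_le
  have l3' := log3_ge
  norm_num at l2 l2' l3 l5 l11 l23 l3'
  have hsplit : ∀ t : ℝ, 0 < t → Real.log (2 * t) = Real.log 2 + Real.log t := fun t ht =>
    Real.log_mul (by norm_num) ht.ne'
  have key : ∀ (s X α β G : ℝ), 0 ≤ α → 0 ≤ β → α * 3 + β * 0.931 ≤ G → α * 3.7 + β * 0.4466 ≤ G →
      α * B + β * p ≤ G := fun s X α β G hα hβ hA hB' => num_case hB he h1 h2 hα hβ hA hB'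
  obtain h3 | h4 | h5 | h6 : K = 3 ∨ K = 4 ∨ K = 5 ∨ 6 ≤ K := by omega
  · subst h3
    have hs : ((sK 3 : ℕ) : ℝ) = 12 := by norm_num [sK]
    have e1 : ((12 : ℝ) - 2) / 2 = 5 := by norm_num
    have e2 : (12 : ℝ) - 2 = 2 * 5 := by norm_num
    have hL : LK 3 = 3 * Real.log 3 := by unfold LK; norm_num
    rw [hs, e1, e2, hsplit 5 (by norm_num), hL]
    have hX0 : 0 ≤ Real.log 5 := Real.log_nonneg (by norm_num)
    have hβ : max ((Real.log 2 + Real.log 5) / (12 - 3)) (((3 : ℕ) : ℝ) / 12) ≤ 0.256 := by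
      refine max_le ?_ (by norm_num)
      rw [div_le_iff₀ (by norm_num)]
      norm_num
      linarith
    have hβ0 : 0 ≤ max ((Real.log 2 + Real.log 5) / (12 - 3)) (((3 : ℕ) : ℝ) / 12) :=
      le_max_of_le_right (by norm_num)
    set β := max ((Real.log 2 + Real.log 5) / (12 - 3)) (((3 : ℕ) : ℝ) / 12) with hβd
    have h7 := key 12 0 ((3 * Real.log 3 - Real.log 5) / 12) β
      (3 - (Real.log 2 + Real.log 5) - 1 / 200) (by
        have : Real.log 5 ≤ 3 * Real.log 3 := by linarith
        exact div_nonneg (by linarith) (by norm_num)) hβ0 (by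
        norm_num at hβ ⊢
        linarith) (by
        norm_num at hβ ⊢
        linarith)
    push_cast
    linarith
  · subst h4
    have hs : ((sK 4 : ℕ) : ℝ) = 24 := by norm_num [sK]
    have e1 : ((24 : ℝ) - 2) / 2 = 11 := by norm_num
    have e2 : (24 : ℝ) - 2 = 2 * 11 := by norm_num
    have hL : LK 4 = 7 * Real.log 3 := by unfold LK; norm_num
    rw [hs, e1, e2, hsplit 11 (by norm_num), hL]
    have hβ : max ((Real.log 2 + Real.log 11) / (24 - 3)) (((4 : ℕ) : ℝ) / 24) ≤ 0.1667 := by
      refine max_le ?_ (by norm_num)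
      rw [div_le_iff₀ (by norm_num)]
      norm_num
      linarith
    have hβ0 : 0 ≤ max ((Real.log 2 + Real.log 11) / (24 - 3)) (((4 : ℕ) : ℝ) / 24) :=
      le_max_of_le_right (by norm_num)
    set β := max ((Real.log 2 + Real.log 11) / (24 - 3)) (((4 : ℕ) : ℝ) / 24) with hβd
    have h7 := key 12 0 ((7 * Real.log 3 - Real.log 11) / 24) β
      (4 - (Real.log 2 + Real.log 11) - 1 / 200) (by
        have : Real.log 11 ≤ 7 * Real.log 3 := by linarith
        exact div_nonneg (by linarith) (by norm_num)) hβ0 (by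
        norm_num at hβ ⊢
        linarith) (by
        norm_num at hβ ⊢
        linarith)
    push_cast
    linarith
  · subst h5
    have hs : ((sK 5 : ℕ) : ℝ) = 48 := by norm_num [sK]
    have e1 : ((48 : ℝ) - 2) / 2 = 23 := by norm_num
    have e2 : (48 : ℝ) - 2 = 2 * 23 := by norm_num
    have hL : LK 5 = 15 * Real.log 3 := by unfold LK; norm_num
    rw [hs, e1, e2, hsplit 23 (by norm_num), hL]
    have hβ : max ((Real.log 2 + Real.log 23) / (48 - 3)) (((5 : ℕ) : ℝ) / 48) ≤ 0.105 := by
      refine max_le ?_ (by norm_num)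
      rw [div_le_iff₀ (by norm_num)]
      norm_num
      linarith
    have hβ0 : 0 ≤ max ((Real.log 2 + Real.log 23) / (48 - 3)) (((5 : ℕ) : ℝ) / 48) :=
      le_max_of_le_right (by norm_num)
    set β := max ((Real.log 2 + Real.log 23) / (48 - 3)) (((5 : ℕ) : ℝ) / 48) with hβd
    have h7 := key 12 0 ((15 * Real.log 3 - Real.log 23) / 48) β
      (5 - (Real.log 2 + Real.log 23) - 1 / 200) (by
        have : Real.log 23 ≤ 15 * Real.log 3 := by linarith
        exact div_nonneg (by linarith) (by norm_num)) hβ0 (by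
        norm_num at hβ ⊢
        linarith) (by
        norm_num at hβ ⊢
        linarith)
    push_cast
    linarith
  · set T : ℝ := 2 ^ (K - 1) with hT
    have hs : ((sK K : ℕ) : ℝ) = 3 * T := by rw [hT, sK]; push_cast; rfl
    have hKT : (K : ℝ) ≤ 3 / 16 * T := by
      have : ∀ m : ℕ, ((m + 6 : ℕ) : ℝ) ≤ 3 / 16 * 2 ^ (m + 5) := by
        intro m
        induction m with
        | zero => norm_num
        | succ m ih =>
          push_cast at ih ⊢
          have h7 : (0 : ℝ) ≤ m := Nat.cast_nonneg m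
          have h8 : (2 : ℝ) ^ (m + 1 + 5) = 2 * 2 ^ (m + 5) := by ring
          rw [h8]
          linarith
      obtain ⟨m, rfl⟩ : ∃ m, K = m + 6 := ⟨K - 6, by omega⟩
      exact this m
    have hK6 : (6 : ℝ) ≤ K := by exact_mod_cast h6
    have hT32 : 32 ≤ T := by linarith
    have hT0 : 0 < T := by linarith
    have hlT : Real.log T = (K - 1) * Real.log 2 := by
      rw [hT, Real.log_pow, Nat.cast_sub (by omega)]
      push_cast
      ring
    have hls : Real.log (3 * T - 2) ≤ Real.log 3 + (K - 1) * Real.log 2 := by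
      rw [← hlT, ← Real.log_mul (by norm_num) hT0.ne']
      exact Real.log_le_log (by linarith) (by linarith)
    have hX0 : 0 ≤ Real.log ((3 * T - 2) / 2) := Real.log_nonneg (by linarith)
    rw [hs]
    have hK1 : ((K : ℝ) - 1) * Real.log 2 ≤ (K - 1) * 0.6932 :=
      mul_le_mul_of_nonneg_left (by norm_num; linarith) (by linarith)
    have hβ : max (Real.log (3 * T - 2) / (3 * T - 3)) ((K : ℝ) / (3 * T)) ≤ 1 / 16 := by
      refine max_le ?_ ?_
      · rw [div_le_iff₀ (by linarith)]
        norm_num at hK1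
        linarith
      · rw [div_le_iff₀ (by linarith)]
        linarith
    have hβ0 : 0 ≤ max (Real.log (3 * T - 2) / (3 * T - 3)) ((K : ℝ) / (3 * T)) :=
      le_max_of_le_right (by positivity)
    set β := max (Real.log (3 * T - 2) / (3 * T - 3)) ((K : ℝ) / (3 * T)) with hβd
    have hα : (LK K - Real.log ((3 * T - 2) / 2)) / (3 * T) ≤ 0.3663 := by
      rw [div_le_iff₀ (by linarith)]
      unfold LK
      rw [← hT]
      have : (T - 1) * Real.log 3 ≤ T * 1.0989 := by
        norm_num
        nlinarith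
      norm_num at this ⊢
      linarith
    have hα0 : 0 ≤ (LK K - Real.log ((3 * T - 2) / 2)) / (3 * T) := by
      refine div_nonneg ?_ (by linarith)
      unfold LK
      rw [← hT]
      have h7 : Real.log ((3 * T - 2) / 2) ≤ Real.log 3 + (K - 1) * Real.log 2 := by
        refine le_trans (Real.log_le_log (by linarith) ?_) hls
        linarith
      have h8 : (T - 1) * 1.098 ≤ (T - 1) * Real.log 3 :=
        mul_le_mul_of_nonneg_left (by norm_num; linarith) (by linarith)
      norm_num at h8 hK1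
      linarith
    set α := (LK K - Real.log ((3 * T - 2) / 2)) / (3 * T) with hαd
    have h7 := key 12 0 α β (K - (Real.log 3 + (K - 1) * Real.log 2) - 1 / 200) hα0 hβ0 (by
        norm_num at hβ hα hK1 ⊢
        linarith) (by
        norm_num at hβ hα hK1 ⊢
        linarith)
    linarith

end MF11
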