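import Pool.Agent.MF11.Seq
import Pool.Agent.MF11.Num

/-!
# [MF11-SEQ2] Consequences for the extreme values
-/

namespace MF11

open Finset

theorem harm_23 {n : ℕ} (hn : 1 ≤ n) : Real.log (3 / 2) ≤ ∑ k ∈ Ico (2 * n) (3 * n), 1 / (k : ℝ) := by
  have h1 : ∀ m : ℕ, 2 * n ≤ m → Real.log (m : ℝ) - Real.log ((2 * n : ℕ) : ℝ) ≤
      ∑ k ∈ Ico (2 * n) m, 1 / (k : ℝ) := by
    intro m hm
    induction m, hm using Nat.le_induction with
    | base => simp
    | succ m hm ih =>
      rw [sum_Ico_succ_top hm]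
      have hm0 : (0 : ℝ) < m := by exact_mod_cast (by omega : 0 < m)
      have h2 : Real.log ((m + 1 : ℕ) : ℝ) - Real.log (m : ℝ) ≤ 1 / (m : ℝ) := by
        rw [← Real.log_div (by positivity) hm0.ne']
        have h3 : (((m + 1 : ℕ) : ℝ)) / m = 1 + 1 / m := by
          push_cast
          field_simp
        rw [h3]
        have := Real.log_le_sub_one_of_pos (show (0 : ℝ) < 1 + 1 / m by positivity)
        linarith
      linarith
  have h2 := h1 (3 * n) (by omega)
  have hn0 : (0 : ℝ) < n := by exact_mod_cast (by omega : 0 < n)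
  rw [← Real.log_div (by positivity) (by positivity)] at h2
  have h3 : (((3 * n : ℕ) : ℝ)) / ((2 * n : ℕ) : ℝ) = 3 / 2 := by
    push_cast
    field_simp
  rwa [h3] at h2

section

variable {n I : ℕ} {δ η τ : ℝ} {u l : ℕ → ℝ} (h : SQ n I δ η u l) (hs : Sm n I δ η τ)

include h in
/-- the upper extreme values between the levels `2` and `3` -/
theorem mid_low (hη1 : η ≤ 1) : n * (2 * u (2 * n) * (1 - η) * Real.log (3 / 2) - 1) ≤
    ∑ k ∈ Ico (2 * n) (3 * n), (u k - 1) := by
  have hn2 := h.hn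
  have hn0 : (0 : ℝ) < n := by exact_mod_cast (by omega : 0 < n)
  have hη := h.hη
  have hu2 : 1 ≤ u (2 * n) := h.one_le _
  have h1 : ∀ k ∈ Ico (2 * n) (3 * n), 2 * n * u (2 * n) * (1 - η) * (1 / (k : ℝ)) - 1 ≤ u k - 1 := by
    intro k hk
    have hk1 := mem_Ico.1 hk
    have hk0 : (0 : ℝ) < k := by exact_mod_cast (by omega : 0 < k)
    have h2 := h.small (2 * n) k (by omega) hk1.1
    have h3 : u (2 * n) * (2 * n) ≤ u k * ((1 + η) * k) := by
      have h4 := mul_le_mul_of_nonneg_right h2 (show (0 : ℝ) ≤ 2 * n by positivity)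
      have h5 : u k * ((1 + η) * ((k : ℝ) / ((2 * n : ℕ) : ℝ))) * (2 * n) = u k * ((1 + η) * k) := by
        push_cast
        field_simp
      rwa [h5] at h4
    have h6 : 2 * n * u (2 * n) * (1 - η) * (1 / (k : ℝ)) ≤ u k := by
      rw [mul_one_div, div_le_iff₀ hk0]
      have huk : 1 ≤ u k := h.one_le _
      calc 2 * n * u (2 * n) * (1 - η) = (u (2 * n) * (2 * n)) * (1 - η) := by ring
        _ ≤ (u k * ((1 + η) * k)) * (1 - η) := mul_le_mul_of_nonneg_right h3 (by linarith)
        _ = u k * k * (1 - η ^ 2) := by ring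
        _ ≤ u k * k * 1 := by
            refine mul_le_mul_of_nonneg_left ?_ (by positivity)
            nlinarith
        _ = u k * k := mul_one _
    linarith
  calc n * (2 * u (2 * n) * (1 - η) * Real.log (3 / 2) - 1) =
        2 * n * u (2 * n) * (1 - η) * Real.log (3 / 2) - n := by ring
    _ ≤ 2 * n * u (2 * n) * (1 - η) * (∑ k ∈ Ico (2 * n) (3 * n), 1 / (k : ℝ)) - n := by
        have h3 : 0 ≤ 2 * n * u (2 * n) * (1 - η) :=
          mul_nonneg (by positivity) (by linarith)
        have := mul_le_mul_of_nonneg_left (harm_23 (n := n) (by omega)) h3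
        linarith
    _ = ∑ k ∈ Ico (2 * n) (3 * n), (2 * n * u (2 * n) * (1 - η) * (1 / (k : ℝ)) - 1) := by
        rw [sum_sub_distrib, mul_sum, sum_const, Nat.card_Ico, nsmul_eq_mul]
        have : 3 * n - 2 * n = n := by omega
        rw [this]
        ring
    _ ≤ _ := sum_le_sum h1

include h in
theorem PP_nonneg : 0 ≤ PP n I u := sum_nonneg fun k _ => by have := h.one_le k; linarith

include h in
theorem QQ_nonneg : 0 ≤ QQ n I l := sum_nonneg fun k _ => by have := h.l1 k; linarith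

include h in
theorem sum_split {m : ℕ} (hm : 2 * n ≤ m) (hmI : m + n ≤ I + 1) :
    ∑ k ∈ Ico (2 * n) m, (u k - 1) + ∑ k ∈ Icc m (I - n), (u k - 1) = PP n I u := by
  have hn := h.hn
  unfold PP
  rw [← Finset.sum_union]
  · congr 1
    ext k
    simp only [mem_union, mem_Ico, mem_Icc]
    omega
  · rw [disjoint_left]
    intro k hk hk'
    have h1 := mem_Ico.1 hk
    have h2 := mem_Icc.1 hk'
    omega

include h hs in
/-- the upper extreme value at the level `3` -/
theorem up_three : n * (3 * (u (3 * n) - 1)) ≤ n * (6 * τ) + QQ n I l := by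
  obtain ⟨h1, h2, h3, h4⟩ := basic_small h hs
  have hn2 := h.hn
  have hI := hs.hI
  have hn0 : (0 : ℝ) < n := by exact_mod_cast (by omega : 0 < n)
  have hη := h.hη
  have hU := h.U (3 * n) (by omega) hI
  have hδ1 : δ * ((1 + η) * (I + 1)) ≤ 2 * (τ * n) := by
    have : 0 ≤ δ * ((I : ℝ) + 1) := mul_nonneg h.hδ (by positivity)
    nlinarith
  have e8 : 3 * n - n = 2 * n := by omega
  have e1 : ∑ i ∈ Icc (3 * n) I, (1 - l (i - n)) = QQ n I l := by
    have h5 : 3 * n = 2 * n + n := by ring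
    rw [h5]
    unfold QQ
    exact shift_sum (a := 2 * n) (b := I) (n := n) (by omega) (f := fun k => 1 - l k)
  have e2 : QQ n I l ≤ (I : ℝ) + 1 := by
    unfold QQ
    calc ∑ k ∈ Icc (2 * n) (I - n), (1 - l k) ≤ ∑ _k ∈ Icc (2 * n) (I - n), (1 : ℝ) :=
          sum_le_sum fun k _ => by have := h.l0 k; linarith
      _ = ((Icc (2 * n) (I - n)).card : ℝ) := by rw [sum_const, nsmul_eq_mul, mul_one]
      _ ≤ (I : ℝ) + 1 := by
          rw [Nat.card_Icc]
          exact_mod_cast (by omega : I - n + 1 - 2 * n ≤ I + 1)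
  have e3 : η * QQ n I l ≤ τ * n := (mul_le_mul_of_nonneg_left e2 hη).trans h2
  have e4 : η * ((3 * n : ℕ) : ℝ) * (1 - l (3 * n - n)) ≤ τ * n := by
    have h5 : 1 - l (3 * n - n) ≤ 1 := by have := h.l0 (3 * n - n); linarith
    have h6 : ((3 * n : ℕ) : ℝ) ≤ (I : ℝ) + 1 := by
      have : ((3 * n : ℕ) : ℝ) ≤ (I : ℝ) := by exact_mod_cast hI
      linarith
    calc _ ≤ η * ((3 * n : ℕ) : ℝ) * 1 := mul_le_mul_of_nonneg_left h5 (by positivity)
      _ = η * ((3 * n : ℕ) : ℝ) := mul_one _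
      _ ≤ η * ((I : ℝ) + 1) := mul_le_mul_of_nonneg_left h6 hη
      _ ≤ _ := h2
  rw [e1] at hU
  have e5 : ((3 * n : ℕ) : ℝ) * (u (3 * n) - 1) = n * (3 * (u (3 * n) - 1)) := by
    push_cast
    ring
  rw [e5] at hU
  have hτn : 0 ≤ τ * n := mul_nonneg hs.hτ hn0.le
  linarith

include h hs in
/-- the constraints between the extreme value at the level `2` and the sums -/
theorem cons (hτ : τ ≤ 1 / 10000) (hn : 10001 ≤ n) (hI4 : 4 * n ≤ I) :
    2 * u (2 * n) ≤ 3.7 ∧ PP n I u / n ≤ 2 * u (2 * n) * (1 - Real.log 2) + 1 / 100 ∧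
      PP n I u / n ≤ 3 - 2 * u (2 * n) * Real.log 2 + 1 / 100 := by
  obtain ⟨h1, h2, h3, h4⟩ := basic_small h hs
  have hτ0 := hs.hτ
  have hη := h.hη
  have hn0 : (0 : ℝ) < n := by exact_mod_cast (by omega : 0 < n)
  have hn' : (10001 : ℝ) ≤ n := by exact_mod_cast hn
  have g1 := gap_total h hs
  have g2 := up_two h hs
  have g3 := mid_low h h4
  have hP0 := PP_nonneg h
  have hQ0 := QQ_nonneg h
  have hsp := sum_split h (m := 3 * n) (by omega) (by omega)
  have hrest : 0 ≤ ∑ k ∈ Icc (3 * n) (I - n), (u k - 1) :=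
    sum_nonneg fun k _ => by have := h.one_le k; linarith
  set B : ℝ := 2 * u (2 * n) with hB
  have hB2 : 2 ≤ B := by
    have := h.one_le (2 * n)
    rw [hB]
    linarith
  set p : ℝ := PP n I u / n with hp
  set q : ℝ := QQ n I l / n with hq
  have hpn : PP n I u = n * p := by rw [hp]; field_simp
  have hqn : QQ n I l = n * q := by rw [hq]; field_simp
  have hq0 : 0 ≤ q := div_nonneg hQ0 hn0.le
  have hp0 : 0 ≤ p := div_nonneg hP0 hn0.le
  have hσ : 1 / ((n : ℝ) - 1) ≤ 1 / 10000 := one_div_le_one_div_of_le (by norm_num) (by linarith)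
  have c1 : p + q ≤ B * ((1 - Real.log 2) + 1 / ((n : ℝ) - 1) + 14 * τ) := by
    have h5 : n * (p + q) ≤ n * (B * ((1 - Real.log 2) + 1 / ((n : ℝ) - 1) + 14 * τ)) := by
      rw [hpn, hqn] at g1
      linarith
    exact le_of_mul_le_mul_left h5 hn0
  have c2 : B - 2 ≤ 1 + 4 * τ + q := by
    have h5 : n * (B - 2) ≤ n * (1 + 4 * τ + q) := by
      rw [hqn] at g2
      have e1 : n * (2 * (u (2 * n) - 1)) = n * (B - 2) := by rw [hB]; ring
      rw [e1] at g2
      linarith
    exact le_of_mul_le_mul_left h5 hn0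
  have c3 : B * (1 - η) * Real.log (3 / 2) - 1 ≤ p := by
    have h5 : n * (B * (1 - η) * Real.log (3 / 2) - 1) ≤ n * p := by
      rw [← hpn, ← hsp]
      linarith
    exact le_of_mul_le_mul_left h5 hn0
  have hB0 : 0 ≤ B := by linarith
  have l3 := log3_le
  have l3' := log3_ge
  have l2 := Real.log_two_lt_d9
  have l2' := Real.log_two_gt_d9
  norm_num at l2 l2' l3 l3'
  have hl32 : Real.log (3 / 2) = Real.log 3 - Real.log 2 := Real.log_div (by norm_num) (by norm_num)
  have c1' : p + q ≤ B * (1 - Real.log 2) + B * (15 / 10000) := by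
    have h5 : B * ((1 - Real.log 2) + 1 / ((n : ℝ) - 1) + 14 * τ) ≤
        B * ((1 - Real.log 2) + 15 / 10000) := mul_le_mul_of_nonneg_left (by linarith) hB0
    have h6 : B * ((1 - Real.log 2) + 15 / 10000) = B * (1 - Real.log 2) + B * (15 / 10000) := by ring
    linarith
  have c3' : B * Real.log 3 - B * Real.log 2 - B * (1 / 10000) - 1 ≤ p := by
    have h5 : B * η * Real.log (3 / 2) ≤ B * (1 / 10000) := by
      have h6 : Real.log (3 / 2) ≤ 1 := by rw [hl32]; linarith
      have h7 : 0 ≤ Real.log (3 / 2) := by rw [hl32]; linarith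
      calc B * η * Real.log (3 / 2) = B * (η * Real.log (3 / 2)) := by ring
        _ ≤ B * (1 / 10000) := by
            refine mul_le_mul_of_nonneg_left ?_ hB0
            nlinarith
    have h8 : B * (1 - η) * Real.log (3 / 2) =
        B * Real.log 3 - B * Real.log 2 - B * η * Real.log (3 / 2) := by
      rw [hl32]
      ring
    linarith
  have hBl3 : B * 1.098 ≤ B * Real.log 3 := mul_le_mul_of_nonneg_left (by norm_num; linarith) hB0
  have hB37 : B ≤ 3.7 := by
    norm_num at hBl3 ⊢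
    linarith
  norm_num at hB37
  refine ⟨by norm_num; linarith, ?_, ?_⟩
  · linarith
  · linarith

end

end MF11
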