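import Pool.Agent.MF11.Ap

/-!
# [MF11-SUMS] Sums over primes
-/

namespace MF11

open Finset YX49 Pool.Agent.E456

theorem harm_le {R l : ℝ} (hR : 0 < R) (hl : 0 < l) (J : ℕ) :
    ∑ j ∈ range (J + 1), 1 / (R + j * l) ≤ 1 / R + 1 / l * (Real.log (R + J * l) - Real.log R) := by
  induction J with
  | zero => simp
  | succ J ih =>
    rw [sum_range_succ]
    have ha : 0 < R + J * l := by positivity
    have hb : 0 < R + ((J + 1 : ℕ) : ℝ) * l := by positivity
    have h1 := Real.one_sub_inv_le_log_of_pos (div_pos hb ha)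
    rw [inv_div, Real.log_div hb.ne' ha.ne'] at h1
    have h2 : 1 - (R + J * l) / (R + ((J + 1 : ℕ) : ℝ) * l) = l / (R + ((J + 1 : ℕ) : ℝ) * l) := by
      rw [eq_div_iff hb.ne', sub_mul, div_mul_cancel₀ _ hb.ne']
      push_cast
      ring
    rw [h2] at h1
    have h3 : 1 / (R + ((J + 1 : ℕ) : ℝ) * l) ≤
        1 / l * (Real.log (R + ((J + 1 : ℕ) : ℝ) * l) - Real.log (R + J * l)) := by
      have h4 : 1 / (R + ((J + 1 : ℕ) : ℝ) * l) = 1 / l * (l / (R + ((J + 1 : ℕ) : ℝ) * l)) := by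
        field_simp
      rw [h4]
      exact mul_le_mul_of_nonneg_left h1 (by positivity)
    have h5 : 1 / R + 1 / l * (Real.log (R + ((J + 1 : ℕ) : ℝ) * l) - Real.log R) =
      1 / R + 1 / l * (Real.log (R + J * l) - Real.log R) +
        1 / l * (Real.log (R + ((J + 1 : ℕ) : ℝ) * l) - Real.log (R + J * l)) := by ring
    rw [h5]
    exact add_le_add ih h3

/-- the parameter `L` -/
noncomputable def LL (x y : ℕ) : ℝ := Real.log (Real.log x / Real.log ((y : ℝ) / x))

section basic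

variable {x y : ℕ} (hx : 2 ≤ x) (hxy : 2 * x ≤ y) (hyx : y ≤ x ^ 2)

include hx hxy in
theorem R_ge : Real.log 2 ≤ Real.log ((y : ℝ) / x) := by
  have hx0 : (0 : ℝ) < x := by exact_mod_cast (by omega : 0 < x)
  refine Real.log_le_log (by norm_num) ?_
  rw [le_div_iff₀ hx0]
  exact_mod_cast hxy

include hx hxy hyx in
theorem R_le : Real.log ((y : ℝ) / x) ≤ Real.log x := by
  have hx0 : (0 : ℝ) < x := by exact_mod_cast (by omega : 0 < x)
  have hy0 : (0 : ℝ) < y := by exact_mod_cast (by omega : 0 < y)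
  refine Real.log_le_log (by positivity) ?_
  rw [div_le_iff₀ hx0, ← pow_two]
  exact_mod_cast hyx

include hx hxy hyx in
theorem LL_nonneg : 0 ≤ LL x y := by
  have h1 := R_ge hx hxy
  have h2 := R_le hx hxy hyx
  have h3 : 0 < Real.log 2 := Real.log_pos (by norm_num)
  refine Real.log_nonneg ?_
  rw [le_div_iff₀ (by linarith), one_mul]
  exact h2

end basic

/-- the constant -/
noncomputable def C0 : ℝ := Real.log 3 + (7 + cpp)

theorem C0_pos : 0 < C0 := by
  unfold C0
  have := cpp_nonneg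
  have h3 : 0 < Real.log 3 := Real.log_pos (by norm_num)
  linarith

/-- one dyadic block -/
theorem block_le {x j : ℕ} {F : Finset ℕ} (hF : ∀ p ∈ F, p.Prime ∧ p ≤ x ∧ Nat.log 2 (x / p) = j) :
    ∑ p ∈ F, Real.log p / p ≤ C0 := by
  rcases F.eq_empty_or_nonempty with h | ⟨q, hq⟩
  · rw [h, sum_empty]; exact C0_pos.le
  obtain ⟨hq1, hq2, hq3⟩ := hF q hq
  have hrange : ∀ p ∈ F, p ∈ (Ioc (x / 2 ^ (j + 1)) (x / 2 ^ j)).filter Nat.Prime := by
    intro p hp
    obtain ⟨h1, h2, h3⟩ := hF p hp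
    have hp0 := h1.pos
    have h4 : x / p ≠ 0 := by
      have := (Nat.le_div_iff_mul_le hp0).2 (by omega : 1 * p ≤ x)
      omega
    have h5 : 2 ^ j ≤ x / p := by
      rw [← h3]; exact Nat.pow_log_le_self 2 h4
    have h6 : x / p < 2 ^ (j + 1) := by
      rw [← h3]; exact Nat.lt_pow_succ_log_self (by norm_num) _
    refine mem_filter.2 ⟨mem_Ioc.2 ⟨?_, ?_⟩, h1⟩
    · rw [Nat.div_lt_iff_lt_mul (by positivity)]
      rw [Nat.div_lt_iff_lt_mul hp0] at h6
      linarith [mul_comm p (2 ^ (j + 1))]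
    · rw [Nat.le_div_iff_mul_le (by positivity)]
      rw [Nat.le_div_iff_mul_le hp0] at h5
      linarith [mul_comm p (2 ^ j)]
  have hM : 1 ≤ x / 2 ^ (j + 1) := by
    rw [Nat.le_div_iff_mul_le (by positivity), one_mul]
    have h1 := (mem_Ioc.1 (mem_filter.1 (hrange q hq)).1).2
    rw [Nat.le_div_iff_mul_le (by positivity)] at h1
    calc 2 ^ (j + 1) = 2 * 2 ^ j := by ring
      _ ≤ q * 2 ^ j := Nat.mul_le_mul_right _ hq1.two_le
      _ ≤ x := h1
  have hN : x / 2 ^ j ≤ 3 * (x / 2 ^ (j + 1)) := by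
    have h1 : x / 2 ^ (j + 1) = x / 2 ^ j / 2 := by rw [pow_succ, Nat.div_div_eq_div_mul]
    rw [h1] at hM ⊢
    omega
  have hMN : x / 2 ^ (j + 1) ≤ x / 2 ^ j := by
    have h1 : x / 2 ^ (j + 1) = x / 2 ^ j / 2 := by rw [pow_succ, Nat.div_div_eq_div_mul]
    rw [h1]
    omega
  have h1 := mertens_primes (x / 2 ^ (j + 1)) (x / 2 ^ j) hM hMN
  rw [abs_le] at h1
  have h2 : ∑ p ∈ F, Real.log p / p ≤
      ∑ p ∈ (Ioc (x / 2 ^ (j + 1)) (x / 2 ^ j)).filter Nat.Prime, Real.log p / p := by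
    refine sum_le_sum_of_subset_of_nonneg hrange fun p _ _ => ?_
    exact div_nonneg (Real.log_natCast_nonneg p) (Nat.cast_nonneg p)
  have hM' : (0 : ℝ) < ((x / 2 ^ (j + 1) : ℕ) : ℝ) := by exact_mod_cast (by omega : 0 < x / 2 ^ (j + 1))
  have hN' : (0 : ℝ) < ((x / 2 ^ j : ℕ) : ℝ) := by exact_mod_cast (by omega : 0 < x / 2 ^ j)
  have h3 : Real.log ((x / 2 ^ j : ℕ) : ℝ) ≤ Real.log 3 + Real.log ((x / 2 ^ (j + 1) : ℕ) : ℝ) := by
    rw [← Real.log_mul (by norm_num) hM'.ne']
    refine Real.log_le_log hN' ?_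
    exact_mod_cast hN
  unfold C0
  linarith [h1.2]

/-- the primes between `√y` and `x`, with weights -/
theorem large_sum {x y : ℕ} (hx : 2 ≤ x) (hxy : 2 * x ≤ y) (hyx : y ≤ x ^ 2) :
    ∑ p ∈ (Ioc 0 x).filter (fun p => p.Prime ∧ y < p ^ 2), 1 / (p : ℝ) / Real.log ((y : ℝ) / p) ≤
      4 * C0 / Real.log 2 * ((1 + LL x y) / Real.log y) := by
  classical
  have hR := R_ge hx hxy
  have hR2 := R_le hx hxy hyx
  have hl2 : 0 < Real.log 2 := Real.log_pos (by norm_num)
  have hL0 := LL_nonneg hx hxy hyx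
  set R := Real.log ((y : ℝ) / x) with hRd
  have hR0 : 0 < R := by linarith
  have hx0 : (0 : ℝ) < x := by exact_mod_cast (by omega : 0 < x)
  have hy0 : (0 : ℝ) < y := by exact_mod_cast (by omega : 0 < y)
  have hy1 : (1 : ℝ) < y := by exact_mod_cast (by omega : 1 < y)
  have hly : 0 < Real.log y := Real.log_pos hy1
  set S := (Ioc 0 x).filter (fun p => p.Prime ∧ y < p ^ 2) with hS
  have hSm : ∀ p ∈ S, p.Prime ∧ p ≤ x ∧ y < p ^ 2 := by
    intro p hp
    obtain ⟨h1, h2, h3⟩ := mem_filter.1 hp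
    exact ⟨h2, (mem_Ioc.1 h1).2, h3⟩
  have hmaps : ∀ p ∈ S, Nat.log 2 (x / p) ∈ range (Nat.log 2 x + 1) := by
    intro p _
    rw [mem_range]
    have : Nat.log 2 (x / p) ≤ Nat.log 2 x := Nat.log_mono_right (Nat.div_le_self _ _)
    omega
  rw [← sum_fiberwise_of_maps_to hmaps]
  have hfib : ∀ j ∈ range (Nat.log 2 x + 1),
      ∑ p ∈ S.filter (fun p => Nat.log 2 (x / p) = j), 1 / (p : ℝ) / Real.log ((y : ℝ) / p) ≤
        2 * C0 / Real.log y * (1 / (R + j * Real.log 2)) := by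
    intro j _
    have hden : 0 < R + j * Real.log 2 := by positivity
    have hterm : ∀ p ∈ S.filter (fun p => Nat.log 2 (x / p) = j),
        1 / (p : ℝ) / Real.log ((y : ℝ) / p) ≤
          2 / Real.log y * (1 / (R + j * Real.log 2)) * (Real.log p / p) := by
      intro p hp
      obtain ⟨h1, h2⟩ := mem_filter.1 hp
      obtain ⟨h3, h4, h5⟩ := hSm p h1
      have hp0 : (0 : ℝ) < p := by exact_mod_cast h3.pos
      have hlogp : Real.log y ≤ 2 * Real.log p := by
        have h6 : (y : ℝ) ≤ (p : ℝ) ^ 2 := by exact_mod_cast h5.le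
        have := Real.log_le_log hy0 h6
        rwa [Real.log_pow] at this
      have hxp : x / p ≠ 0 := by
        have := (Nat.le_div_iff_mul_le h3.pos).2 (by omega : 1 * p ≤ x)
        omega
      have h7 : 2 ^ j ≤ x / p := by
        rw [← h2]; exact Nat.pow_log_le_self 2 hxp
      have h8 : (2 : ℝ) ^ j ≤ (x : ℝ) / p := by
        rw [le_div_iff₀ hp0]
        rw [Nat.le_div_iff_mul_le h3.pos] at h7
        exact_mod_cast h7
      have hlog : R + j * Real.log 2 ≤ Real.log ((y : ℝ) / p) := by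
        have h9 : Real.log ((2 : ℝ) ^ j) ≤ Real.log ((x : ℝ) / p) :=
          Real.log_le_log (by positivity) h8
        rw [Real.log_pow] at h9
        have h10 : (y : ℝ) / p = (y : ℝ) / x * ((x : ℝ) / p) := by field_simp
        rw [h10, Real.log_mul (by positivity) (by positivity)]
        linarith
      have h11 : 1 / (p : ℝ) ≤ 2 / Real.log y * (Real.log p / p) := by
        rw [div_mul_div_comm, div_le_div_iff₀ hp0 (by positivity)]
        nlinarith
      calc 1 / (p : ℝ) / Real.log ((y : ℝ) / p) ≤ 1 / (p : ℝ) / (R + j * Real.log 2) :=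
            div_le_div_of_nonneg_left (by positivity) hden hlog
        _ = 1 / (p : ℝ) * (1 / (R + j * Real.log 2)) := by ring
        _ ≤ 2 / Real.log y * (Real.log p / p) * (1 / (R + j * Real.log 2)) :=
            mul_le_mul_of_nonneg_right h11 (by positivity)
        _ = _ := by ring
    refine (sum_le_sum hterm).trans ?_
    rw [← mul_sum]
    have h12 := block_le (x := x) (j := j) (F := S.filter (fun p => Nat.log 2 (x / p) = j)) (by
      intro p hp
      obtain ⟨h1, h2⟩ := mem_filter.1 hp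
      obtain ⟨h3, h4, h5⟩ := hSm p h1
      exact ⟨h3, h4, h2⟩)
    calc 2 / Real.log y * (1 / (R + j * Real.log 2)) *
          ∑ p ∈ S.filter (fun p => Nat.log 2 (x / p) = j), Real.log p / p
        ≤ 2 / Real.log y * (1 / (R + j * Real.log 2)) * C0 :=
          mul_le_mul_of_nonneg_left h12 (by positivity)
      _ = _ := by ring
  refine (sum_le_sum hfib).trans ?_
  rw [← mul_sum]
  have hC0 := C0_pos
  have h13 := harm_le hR0 hl2 (Nat.log 2 x)
  have h14 : (Nat.log 2 x : ℝ) * Real.log 2 ≤ Real.log x := by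
    have h15 : 2 ^ Nat.log 2 x ≤ x := Nat.pow_log_le_self 2 (by omega)
    have h16 : (2 : ℝ) ^ Nat.log 2 x ≤ x := by exact_mod_cast h15
    have := Real.log_le_log (by positivity) h16
    rwa [Real.log_pow] at this
  have h17 : Real.log (R + Nat.log 2 x * Real.log 2) - Real.log R ≤ Real.log 2 + LL x y := by
    unfold LL
    rw [← hRd, Real.log_div (by linarith : Real.log x ≠ 0) hR0.ne']
    have h18 : Real.log (R + Nat.log 2 x * Real.log 2) ≤ Real.log (2 * Real.log x) :=
      Real.log_le_log (by positivity) (by linarith)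
    rw [Real.log_mul (by norm_num) (by linarith : Real.log x ≠ 0)] at h18
    linarith
  have hl21 : Real.log 2 ≤ 1 := by
    have := Real.log_two_lt_d9
    linarith
  have h19 : 1 / R + 1 / Real.log 2 * (Real.log (R + Nat.log 2 x * Real.log 2) - Real.log R) ≤
      2 / Real.log 2 * (1 + LL x y) := by
    have h20 : 1 / R ≤ 1 / Real.log 2 := one_div_le_one_div_of_le hl2 hR
    have h21 : 1 / Real.log 2 * (Real.log (R + Nat.log 2 x * Real.log 2) - Real.log R) ≤
        1 / Real.log 2 * (Real.log 2 + LL x y) := mul_le_mul_of_nonneg_left h17 (by positivity)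
    have h22 : 1 / Real.log 2 * (1 + Real.log 2 + LL x y) ≤ 1 / Real.log 2 * (2 * (1 + LL x y)) :=
      mul_le_mul_of_nonneg_left (by linarith) (by positivity)
    have h23 : 1 / Real.log 2 * (1 + Real.log 2 + LL x y) = 1 / Real.log 2 +
      1 / Real.log 2 * (Real.log 2 + LL x y) := by ring
    have h24 : 1 / Real.log 2 * (2 * (1 + LL x y)) = 2 / Real.log 2 * (1 + LL x y) := by ring
    linarith
  calc 2 * C0 / Real.log y * ∑ j ∈ range (Nat.log 2 x + 1), 1 / (R + j * Real.log 2)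
      ≤ 2 * C0 / Real.log y * (2 / Real.log 2 * (1 + LL x y)) :=
        mul_le_mul_of_nonneg_left (h13.trans h19) (by positivity)
    _ = _ := by ring

/-- Mertens -/
theorem mid_sum : ∃ C : ℝ, 0 < C ∧ ∀ z x : ℕ, 2 ≤ z → z ≤ x →
    ∑ p ∈ (Ioc z x).filter Nat.Prime, 1 / (p : ℝ) ≤ Real.log (Real.log x / Real.log z) + C := by
  obtain ⟨C, hC, hM⟩ := mertens2
  refine ⟨2 * C, by positivity, fun z x hz hzx => ?_⟩
  have h1 := hM z hz
  have h2 := hM x (hz.trans hzx)
  rw [abs_le] at h1 h2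
  have hz1 : (1 : ℝ) < z := by exact_mod_cast (by omega : 1 < z)
  have hx1 : (1 : ℝ) < x := by exact_mod_cast (by omega : 1 < x)
  rw [Real.log_div (Real.log_pos hx1).ne' (Real.log_pos hz1).ne', ← S1_sub z x hzx]
  linarith [h1.1, h2.2]

end MF11
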